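import Pool.Agent.H92.SQ.Defs
import Pool.Agent.H35.AN.Val
import Pool.Agent.H35.AN.Tower
import Pool.Agent.H35.AN.Decomp
import Pool.Agent.H35.AN.Prim

/-!
# Project SQ, row 3: primitivity from one prime
-/

set_option autoImplicit false

open Polynomial IsDedekindDomain NumberField Pool.Agent.H35.AN

namespace Pool.Agent.H92.SQ

section sq3

/-- `l` generates the prime ideal of `𝓞 ℚ` which contains it. -/
theorem sq3_ord_rat (Q : HeightOneSpectrum (𝓞 ℚ)) {l : ℕ} (hl : l.Prime)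
    (hQ : ((l : ℕ) : 𝓞 ℚ) ∈ Q.asIdeal) : ord Q ((l : ℕ) : ℚ) = 1 := by
  have hp : Prime ((l : ℕ) : 𝓞 ℚ) := by
    rw [← MulEquiv.prime_iff (Rat.ringOfIntegersEquiv : 𝓞 ℚ ≃+* ℤ).toMulEquiv]
    simpa using Nat.prime_iff_prime_int.mp hl
  have h0 : ((l : ℕ) : 𝓞 ℚ) ≠ 0 := hp.ne_zero
  have hmax : (Ideal.span {((l : ℕ) : 𝓞 ℚ)}).IsMaximal := by
    have := (Ideal.span_singleton_prime h0).mpr hp
    exact this.isMaximal (by simpa using h0)
  have heq : Q.asIdeal = Ideal.span {((l : ℕ) : 𝓞 ℚ)} :=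
    (hmax.eq_of_le Q.isPrime.ne_top ((Ideal.span_singleton_le_iff_mem _).mpr hQ)).symm
  have h1 := HeightOneSpectrum.intValuation_singleton Q h0 heq
  have h2 : Q.valuation ℚ ((l : ℕ) : ℚ) = WithZero.exp (-1 : ℤ) := by
    rw [← h1, ← HeightOneSpectrum.valuation_of_algebraMap (K := ℚ)]
    simp
  unfold ord
  rw [h2, WithZero.log_exp]
  norm_num

variable {L : Type} [Field L] [NumberField L] [Algebra ℚ L]

theorem sq3_ord_l (P : HeightOneSpectrum (𝓞 L)) {l : ℕ} (hl : l.Prime)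
    (hP : ((l : ℕ) : 𝓞 L) ∈ P.asIdeal) : ord P ((l : ℕ) : L) = erel ℚ P := by
  have h1 := ord_algebraMap (k := ℚ) P ((l : ℕ) : ℚ)
  rw [map_natCast, sq3_ord_rat _ hl ((mem_below P l).mpr hP), mul_one] at h1
  exact h1

theorem sq3_coeff_ge (P : HeightOneSpectrum (𝓞 L)) {l : ℕ} (hl : l.Prime)
    (hP : ((l : ℕ) : 𝓞 L) ∈ P.asIdeal) {m : ℤ} (hm : (l : ℤ) ∣ m) :
    Ge P (erel ℚ P) (m : L) := by
  obtain ⟨c, rfl⟩ := hm
  have h0 : ((l : ℕ) : L) ≠ 0 := Nat.cast_ne_zero.mpr hl.ne_zero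
  have h1 : Ge P (erel ℚ P) ((l : ℕ) : L) := by
    rw [ge_iff P h0, sq3_ord_l P hl hP]
  have h2 := ge_mul P h1 (ge_int P c)
  rw [add_zero] at h2
  simpa using h2

theorem sq3_coeff_eq (P : HeightOneSpectrum (𝓞 L)) {l : ℕ} (hl : l.Prime)
    (hP : ((l : ℕ) : 𝓞 L) ∈ P.asIdeal) {m : ℤ} (hm : (l : ℤ) ∣ m) (hm2 : ¬ (l : ℤ) ^ 2 ∣ m) :
    ord P (m : L) = erel ℚ P := by
  obtain ⟨c, rfl⟩ := hm
  have hc : ¬ (l : ℤ) ∣ c := by
    rintro ⟨d, rfl⟩
    exact hm2 ⟨d, by ring⟩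
  have hc0 : c ≠ 0 := by
    rintro rfl
    exact hc (dvd_zero _)
  have h0 : ((l : ℕ) : L) ≠ 0 := Nat.cast_ne_zero.mpr hl.ne_zero
  rw [Int.cast_mul, Int.cast_natCast, ord_mul P h0 (Int.cast_ne_zero.mpr hc0), sq3_ord_l P hl hP,
    ord_int_unit P hl hP hc, add_zero]

omit [Algebra ℚ L] in
/-- a sum with one dominant term is not zero -/
theorem sq3_dom (P : HeightOneSpectrum (𝓞 L)) (s : Finset ℕ) (f : ℕ → L) {j : ℕ} (hj : j ∈ s)
    (hf0 : f j ≠ 0) (hf : ∀ i ∈ s, i ≠ j → Ge P (ord P (f j) + 1) (f i)) :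
    ∑ i ∈ s, f i ≠ 0 := by
  rw [← Finset.add_sum_erase s f hj]
  refine (ord_add_eq P hf0 (ge_sum P _ _ fun i hi => ?_)).1
  exact hf i (Finset.mem_of_mem_erase hi) (Finset.ne_of_mem_erase hi)

omit [Algebra ℚ L] in
/-- Newton polygon: the orders of the roots -/
theorem sq3_root (P : HeightOneSpectrum (𝓞 L)) {n : ℕ} (hn : 2 ≤ n) (a : ℕ → L) (e : ℤ)
    (he : 0 < e) (han : a n ≠ 0) (han' : ord P (a n) = 0) (ham : a (n - 1) ≠ 0)
    (ham' : ord P (a (n - 1)) = 0) (hmid : ∀ i < n - 1, Ge P e (a i)) (ha0 : a 0 ≠ 0)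
    (ha0' : ord P (a 0) = e) {x : L} (hx : ∑ i ∈ Finset.range (n + 1), a i * x ^ i = 0) :
    x ≠ 0 ∧ (ord P x = 0 ∨ ((n : ℤ) - 1) * ord P x = e) := by
  have hx0 : x ≠ 0 := by
    rintro rfl
    rw [Finset.sum_range_succ', Finset.sum_eq_zero] at hx
    · rw [zero_add, pow_zero, mul_one] at hx
      exact ha0 hx
    · intro i _
      rw [zero_pow (by omega), mul_zero]
  refine ⟨hx0, ?_⟩
  have hge : ∀ i < n + 1, Ge P 0 (a i) := by
    intro i hi
    rcases lt_or_ge i (n - 1) with h | h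
    · exact ge_mono P he.le (hmid i h)
    · rcases (by omega : i = n - 1 ∨ i = n) with rfl | rfl
      · rw [ge_iff P ham, ham']
      · rw [ge_iff P han, han']
  have hxp : ∀ i : ℕ, Ge P (i * ord P x) (x ^ i) := fun i => by
    rw [ge_iff P (pow_ne_zero _ hx0), ord_pow]
  have hterm : ∀ i : ℕ, a i ≠ 0 → ord P (a i * x ^ i) = ord P (a i) + i * ord P x := fun i h => by
    rw [ord_mul P h (pow_ne_zero _ hx0), ord_pow]
  rcases lt_trichotomy (ord P x) 0 with ht | ht | ht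
  · exfalso
    refine sq3_dom P (Finset.range (n + 1)) (fun i => a i * x ^ i) (j := n)
      (Finset.mem_range.mpr (by omega)) (mul_ne_zero han (pow_ne_zero _ hx0)) ?_ hx
    intro i hi hin
    rw [hterm n han, han', zero_add]
    refine ge_mono P ?_ (ge_mul P (hge i (Finset.mem_range.mp hi)) (hxp i))
    have h1 : (i : ℤ) + 1 ≤ n := by
      have := Finset.mem_range.mp hi
      omega
    nlinarith
  · exact Or.inl ht
  · right
    have hn1 : ((n - 1 : ℕ) : ℤ) = (n : ℤ) - 1 := by omega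
    rcases lt_trichotomy (((n : ℤ) - 1) * ord P x) e with h | h | h
    · exfalso
      refine sq3_dom P (Finset.range (n + 1)) (fun i => a i * x ^ i) (j := n - 1)
        (Finset.mem_range.mpr (by omega)) (mul_ne_zero ham (pow_ne_zero _ hx0)) ?_ hx
      intro i hi hin
      rw [hterm (n - 1) ham, ham', zero_add, hn1]
      rcases lt_or_ge i (n - 1) with h' | h'
      · refine ge_mono P ?_ (ge_mul P (hmid i h') (hxp i))
        have : 0 ≤ (i : ℤ) * ord P x := by positivity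
        omega
      · have hi' : i = n := by
          have := Finset.mem_range.mp hi
          omega
        subst hi'
        refine ge_mono P ?_ (ge_mul P (hge i (by omega)) (hxp i))
        nlinarith
    · exact h
    · exfalso
      refine sq3_dom P (Finset.range (n + 1)) (fun i => a i * x ^ i) (j := 0)
        (Finset.mem_range.mpr (by omega)) (mul_ne_zero ha0 (pow_ne_zero _ hx0)) ?_ hx
      intro i hi hin
      rw [hterm 0 ha0, ha0', Nat.cast_zero, zero_mul, add_zero]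
      rcases lt_or_ge i (n - 1) with h' | h'
      · refine ge_mono P ?_ (ge_mul P (hmid i h') (hxp i))
        have h1 : (1 : ℤ) ≤ i := by omega
        have : 1 ≤ (i : ℤ) * ord P x := by nlinarith
        omega
      · have h1 : (n : ℤ) - 1 ≤ i := by omega
        refine ge_mono P ?_ (ge_mul P (hge i (Finset.mem_range.mp hi)) (hxp i))
        have h2 : ((n : ℤ) - 1) * ord P x ≤ (i : ℤ) * ord P x :=
          mul_le_mul_of_nonneg_right h1 ht.le
        omega

omit [NumberField L] in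
theorem sq3_map [CharZero L] (f : ℤ[X]) :
    (FQ f).map (algebraMap ℚ L) = f.map (Int.castRingHom L) := by
  unfold FQ
  rw [Polynomial.map_map]
  congr 1
  exact RingHom.ext_int _ _

omit [NumberField L] in
theorem sq3_eval [CharZero L] {n : ℕ} {f : ℤ[X]} (hdeg : f.natDegree = n) (x : L) :
    ((FQ f).map (algebraMap ℚ L)).eval x = ∑ i ∈ Finset.range (n + 1), (f.coeff i : L) * x ^ i := by
  rw [sq3_map, eval_map, eval₂_eq_sum_range, hdeg]
  rfl

omit [NumberField L] [Algebra ℚ L] [Field L] in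
theorem sq3_lc {n : ℕ} {f : ℤ[X]} (hdeg : f.natDegree = n) :
    (FQ f).leadingCoeff = (f.coeff n : ℚ) := by
  unfold FQ
  rw [leadingCoeff_map_of_injective (RingHom.injective_int (Int.castRingHom ℚ)), leadingCoeff, hdeg]
  rfl

omit [NumberField L] in
theorem sq3_stable_image {n : ℕ} {F : ℚ[X]} (R : Roots ℚ L n F) (D : Subgroup (L ≃ₐ[ℚ] L))
    {S : Finset (Fin n)} [DecidableEq L] (hS : ∀ σ ∈ D, ∀ x ∈ S, R.permHom σ x ∈ S) :
    ∀ σ ∈ D, ∀ x ∈ S.image R.θ, σ x ∈ S.image R.θ := by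
  intro σ hσ x hx
  obtain ⟨i, hi, rfl⟩ := Finset.mem_image.mp hx
  exact Finset.mem_image.mpr ⟨R.permHom σ i, hS σ hσ i hi, (R.permHom_spec σ i).symm⟩

/-- If the decomposition group of `P` stabilises a set of roots of equal valuation `t`, then
`e(P)` divides `|S| t`. -/
theorem sq3_orbit [IsGalois ℚ L] {n : ℕ} {F : ℚ[X]} (R : Roots ℚ L n F)
    (P : HeightOneSpectrum (𝓞 L)) :
    ∃ D : Subgroup (L ≃ₐ[ℚ] L), (∀ σ ∈ D, ∀ x : L, ord P (σ x) = ord P x) ∧
      ∀ (S : Finset (Fin n)), (∀ σ ∈ D, ∀ x ∈ S, R.permHom σ x ∈ S) →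
        (∀ x ∈ S, R.θ x ≠ 0) → ∀ t : ℤ, (∀ x ∈ S, ord P (R.θ x) = t) →
          (erel ℚ P : ℤ) ∣ S.card * t := by
  classical
  obtain ⟨D, hD, hD2⟩ := exists_decomp (k := ℚ) P
  refine ⟨D, hD, fun S hS h0 t ht => ?_⟩
  have h := hD2 (S.image R.θ) (sq3_stable_image R D hS) (by
    intro x hx
    obtain ⟨i, hi, rfl⟩ := Finset.mem_image.mp hx
    exact h0 i hi) t (by
    intro x hx
    obtain ⟨i, hi, rfl⟩ := Finset.mem_image.mp hx
    exact ht i hi)
  rwa [Finset.card_image_of_injective _ R.inj] at h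

end sq3

theorem prim_loc {L : Type} [Field L] [NumberField L] [Algebra ℚ L] [IsGalois ℚ L]
    {n : ℕ} (hn : 2 ≤ n) {f : ℤ[X]} {l : ℕ} (hl : l.Prime) (hdeg : f.natDegree = n)
    (hlc : ¬ (l : ℤ) ∣ f.coeff n) (hlc' : ¬ (l : ℤ) ∣ f.coeff (n - 1))
    (hmid : ∀ i < n - 1, (l : ℤ) ∣ f.coeff i) (h0 : ¬ (l : ℤ) ^ 2 ∣ f.coeff 0)
    (R : Roots ℚ L n (FQ f)) (htr : MulAction.IsPretransitive R.permHom.range (Fin n)) :
    MulAction.IsPreprimitive R.permHom.range (Fin n) := by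
  classical
  obtain ⟨P, hP⟩ := exists_prime_over L hl
  obtain ⟨D, hD, hD2⟩ := sq3_orbit R P
  have he : (0 : ℤ) < erel ℚ P := by exact_mod_cast erel_pos P
  set e : ℤ := ((erel ℚ P : ℕ) : ℤ) with hedef
  have hne : ∀ {m : ℤ}, ¬ (l : ℤ) ∣ m → (m : L) ≠ 0 := by
    intro m hm h
    rw [Int.cast_eq_zero] at h
    exact hm (h ▸ dvd_zero _)
  have h00 : ((f.coeff 0 : ℤ) : L) ≠ 0 := by
    intro h
    rw [Int.cast_eq_zero] at h
    exact h0 (h ▸ dvd_zero _)
  have h0e : ord P ((f.coeff 0 : ℤ) : L) = e :=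
    sq3_coeff_eq P hl hP (hmid 0 (by omega)) h0
  have hroot : ∀ i, R.θ i ≠ 0 ∧ (ord P (R.θ i) = 0 ∨ ((n : ℤ) - 1) * ord P (R.θ i) = e) := by
    intro i
    refine sq3_root P hn (fun j => ((f.coeff j : ℤ) : L)) e he (hne hlc)
      (ord_int_unit P hl hP hlc) (hne hlc') (ord_int_unit P hl hP hlc')
      (fun j hj => sq3_coeff_ge P hl hP (hmid j hj)) h00 h0e ?_
    rw [← sq3_eval hdeg]
    exact R.eval_root i
  -- the product of the roots
  have hprod : ∑ i, ord P (R.θ i) = e := by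
    have h1 := R.eval_eq 0
    rw [sq3_eval hdeg, Finset.sum_range_succ', Finset.sum_eq_zero, zero_add, pow_zero, mul_one,
      sq3_lc hdeg] at h1
    · have h2 := congrArg (ord P) h1
      have hθ : ∀ i ∈ (Finset.univ : Finset (Fin n)), (0 : L) - R.θ i ≠ 0 := fun i _ => by
        rw [zero_sub]
        exact neg_ne_zero.mpr (hroot i).1
      rw [h0e, map_intCast, ord_mul P (hne hlc) (Finset.prod_ne_zero_iff.mpr hθ),
        ord_int_unit P hl hP hlc, zero_add, ord_prod P _ _ hθ] at h2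
      rw [h2]
      refine Finset.sum_congr rfl fun i _ => ?_
      rw [zero_sub, ord_neg]
    · intro i _
      rw [zero_pow (by omega), mul_zero]
  set A : Finset (Fin n) := Finset.univ.filter fun i => ord P (R.θ i) ≠ 0 with hA
  have hAmem : ∀ i ∈ A, ((n : ℤ) - 1) * ord P (R.θ i) = e := by
    intro i hi
    rcases (hroot i).2 with h | h
    · exact absurd h (Finset.mem_filter.mp hi).2
    · exact h
  have hAcard : (A.card : ℤ) = (n : ℤ) - 1 := by
    have h1 : ((n : ℤ) - 1) * ∑ i, ord P (R.θ i) = A.card * e := by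
      have h2 : ∑ i, ord P (R.θ i) = ∑ i ∈ A, ord P (R.θ i) := by
        rw [hA, Finset.sum_filter_ne_zero]
      rw [h2, Finset.mul_sum, Finset.sum_congr rfl hAmem, Finset.sum_const, nsmul_eq_mul]
    rw [hprod] at h1
    exact (mul_right_cancel₀ he.ne' h1).symm
  -- the unit root
  have hcompl : (Finset.univ \ A).card = 1 := by
    have h1 := Finset.card_sdiff_add_card_eq_card (Finset.subset_univ A)
    rw [Finset.card_univ, Fintype.card_fin] at h1
    omega
  obtain ⟨r, hr⟩ := Finset.card_eq_one.mp hcompl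
  have hrA : ∀ i, i ≠ r → i ∈ A := by
    intro i hi
    by_contra hc
    have : i ∈ Finset.univ \ A := Finset.mem_sdiff.mpr ⟨Finset.mem_univ _, hc⟩
    rw [hr, Finset.mem_singleton] at this
    exact hi this
  have hr0 : ord P (R.θ r) = 0 := by
    have h1 : r ∈ Finset.univ \ A := by rw [hr]; exact Finset.mem_singleton_self r
    have h2 := (Finset.mem_sdiff.mp h1).2
    by_contra hc
    exact h2 (Finset.mem_filter.mpr ⟨Finset.mem_univ _, hc⟩)
  refine isPreprimitive_of_orbits (m := n - 1) R.permHom.range (D.map R.permHom) htr ?_ r ?_ ?_ ?_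
  · rintro _ ⟨σ, -, rfl⟩
    exact ⟨σ, rfl⟩
  · rintro _ ⟨σ, hσ, rfl⟩
    by_contra hne'
    refine (Finset.mem_filter.mp (hrA _ hne')).2 ?_
    change ord P (R.θ (R.permHom σ r)) = 0
    rw [← R.permHom_spec, hD σ hσ, hr0]
  · intro S hS hrS
    rcases S.eq_empty_or_nonempty with rfl | ⟨i0, hi0⟩
    · simp
    have hmem : ∀ i ∈ S, i ∈ A := fun i hi => hrA i fun h' => hrS (h' ▸ hi)
    have hn1 : ((n - 1 : ℕ) : ℤ) = (n : ℤ) - 1 := by omega
    have hn1' : (n : ℤ) - 1 ≠ 0 := by omega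
    have h1 : e ∣ S.card * ord P (R.θ i0) := by
      refine hD2 S (fun σ hσ x hx => hS _ ⟨σ, hσ, rfl⟩ x hx) (fun i _ => (hroot i).1) _ ?_
      intro i hi
      have h2 := hAmem i (hmem i hi)
      rw [← hAmem i0 (hmem i0 hi0)] at h2
      exact mul_left_cancel₀ hn1' h2
    obtain ⟨w, hw⟩ := h1
    have h2 : (S.card : ℤ) * e = ((n : ℤ) - 1) * w * e := by
      calc (S.card : ℤ) * e = S.card * (((n : ℤ) - 1) * ord P (R.θ i0)) := by
            rw [hAmem i0 (hmem i0 hi0)]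
        _ = ((n : ℤ) - 1) * (S.card * ord P (R.θ i0)) := by ring
        _ = ((n : ℤ) - 1) * w * e := by rw [hw]; ring
    have h3 : (S.card : ℤ) = ((n : ℤ) - 1) * w := mul_right_cancel₀ he.ne' h2
    have h4 : ((n - 1 : ℕ) : ℤ) ∣ (S.card : ℤ) := ⟨w, by rw [h3, hn1]⟩
    exact_mod_cast h4
  · intro j hj
    rcases Nat.lt_or_ge j 2 with h | h
    · interval_cases j
      · left; simp
      · right; omega
    · exfalso
      have h1 := Nat.le_of_dvd (by omega) hj
      have h2 : 2 * (n - 1) ≤ j * (n - 1) := Nat.mul_le_mul_right _ h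
      omega

end Pool.Agent.H92.SQ
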