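import Pool.Agent.H92.SQ.PrimLoc
import Pool.Agent.H35.AN.ThreeCycle

/-!
# Project SQ, row 4: a prime with a double root gives a transposition
-/

set_option autoImplicit false

open Polynomial IsDedekindDomain NumberField Pool.Agent.H35.AN

namespace Pool.Agent.H92.SQ

section sq4

variable {L : Type} [Field L] [NumberField L] (P : HeightOneSpectrum (𝓞 L))

/-- the two terms of the Newton polygon -/
theorem sq4_two {G : L[X]} {e : ℤ} (hG : ∀ i, Ge P 0 (G.coeff i))
    (h0n : G.coeff 0 ≠ 0) (h0 : ord P (G.coeff 0) = e) (h1 : Ge P e (G.coeff 1))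
    (h2n : G.coeff 2 ≠ 0) (h2 : ord P (G.coeff 2) = 0) {y : L} (hy0 : y ≠ 0)
    (hy : G.eval y = 0) (hpos : 0 < ord P y) : 2 * ord P y = e := by
  have hsum : G.coeff 0 + G.coeff 1 * y + G.coeff 2 * y ^ 2 +
      ∑ i ∈ Finset.range G.natDegree, G.coeff (i + 3) * y ^ (i + 3) = 0 := by
    have h4 : G.eval y = ∑ i ∈ Finset.range (G.natDegree + 3), G.coeff i * y ^ i :=
      eval_eq_sum_range' (by omega) y
    rw [hy, Finset.sum_range_succ', Finset.sum_range_succ', Finset.sum_range_succ'] at h4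
    simp only [zero_add, Nat.reduceAdd, pow_zero, mul_one, pow_one, add_assoc] at h4
    linear_combination -h4
  have hbig : Ge P (3 * ord P y)
      (∑ i ∈ Finset.range G.natDegree, G.coeff (i + 3) * y ^ (i + 3)) := by
    refine ge_sum P _ _ fun i _ => ?_
    have h4 := ge_mul P (hG (i + 3)) (ge_pow P ((ge_iff P hy0).mpr le_rfl) (i + 3))
    refine ge_mono P ?_ h4
    push_cast
    have : (0 : ℤ) ≤ i := by positivity
    nlinarith
  have hy1 : Ge P (ord P y) y := (ge_iff P hy0).mpr le_rfl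
  have hc1 : Ge P (e + ord P y) (G.coeff 1 * y) := ge_mul P h1 hy1
  have hc2 : G.coeff 2 * y ^ 2 ≠ 0 := mul_ne_zero h2n (pow_ne_zero _ hy0)
  have hc2' : ord P (G.coeff 2 * y ^ 2) = 2 * ord P y := by
    rw [ord_mul P h2n (pow_ne_zero _ hy0), ord_pow, h2]
    push_cast
    ring
  rcases lt_trichotomy (2 * ord P y) e with hlt | heq | hgt
  · exfalso
    have h5 : G.coeff 2 * y ^ 2 = -(G.coeff 0 + G.coeff 1 * y +
        ∑ i ∈ Finset.range G.natDegree, G.coeff (i + 3) * y ^ (i + 3)) := by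
      linear_combination hsum
    refine ord_not_cancel P hc2 h5 ?_
    rw [hc2']
    refine ge_neg P (ge_add P (ge_add P ?_ (ge_mono P (by omega) hc1))
      (ge_mono P (by omega) hbig))
    exact (ge_iff P h0n).mpr (by omega)
  · exact heq
  · exfalso
    have h5 : G.coeff 0 = -(G.coeff 1 * y + G.coeff 2 * y ^ 2 +
        ∑ i ∈ Finset.range G.natDegree, G.coeff (i + 3) * y ^ (i + 3)) := by
      linear_combination hsum
    refine ord_not_cancel P h0n h5 ?_
    rw [h0]
    refine ge_neg P (ge_add P (ge_add P (ge_mono P (by omega) hc1) ?_)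
      (ge_mono P (by omega) hbig))
    exact (ge_iff P hc2).mpr (by omega)

/-- a product of integral elements which is not a unit has a factor which is not a unit -/
theorem sq4_factor {ι : Type*} (s : Finset ι) (g : ι → L) (hg : ∀ i ∈ s, Ge P 0 (g i))
    (h : Ge P 1 (∏ i ∈ s, g i)) : ∃ i ∈ s, Ge P 1 (g i) := by
  by_contra hcon
  push Not at hcon
  have hne : ∀ i ∈ s, g i ≠ 0 := fun i hi h0 => hcon i hi (h0 ▸ ge_zero P 1)
  have hord : ∀ i ∈ s, ord P (g i) = 0 := fun i hi => by
    have h1 := (ge_iff P (hne i hi)).mp (hg i hi)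
    have h2 := hcon i hi
    rw [ge_iff P (hne i hi)] at h2
    omega
  rw [ge_iff P (Finset.prod_ne_zero_iff.mpr hne), ord_prod P s g hne,
    Finset.sum_eq_zero hord] at h
  omega

/-- the derivative of a split polynomial at a point close to two roots -/
theorem sq4_deriv {n : ℕ} (c : L) (hc : Ge P 0 c) (θ : Fin n → L) (x : L)
    (hθ : ∀ i, Ge P 0 (x - θ i)) {i j : Fin n} (hij : i ≠ j) (hi : Ge P 1 (x - θ i))
    (hj : Ge P 1 (x - θ j)) :
    Ge P 1 ((C c * ∏ i, (X - C (θ i)) : L[X]).derivative.eval x) := by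
  classical
  rw [derivative_C_mul, eval_C_mul, derivative_prod_finset, eval_finsetSum]
  have h0 : Ge P 1 (∑ m, ((∏ k ∈ Finset.univ.erase m, (X - C (θ k))) *
      (X - C (θ m)).derivative : L[X]).eval x) := by
    refine ge_sum P _ _ fun m _ => ?_
    rw [derivative_sub, derivative_X, derivative_C, sub_zero, mul_one, eval_prod]
    simp only [eval_sub, eval_X, eval_C]
    obtain ⟨a, ham, ha⟩ : ∃ a, a ≠ m ∧ Ge P 1 (x - θ a) := by
      rcases eq_or_ne i m with h | h
      · exact ⟨j, fun h' => hij (h.trans h'.symm), hj⟩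
      · exact ⟨i, h, hi⟩
    rw [← Finset.mul_prod_erase _ _ (Finset.mem_erase.mpr ⟨ham, Finset.mem_univ a⟩)]
    have h12 : Ge P 0 (∏ k ∈ (Finset.univ.erase m).erase a, (x - θ k)) := by
      refine Finset.prod_induction _ (Ge P 0) (fun a b ha hb => ?_) ?_ (fun k _ => hθ k)
      · simpa using ge_mul P ha hb
      · simpa using ge_nat P 1
    simpa using ge_mul P ha h12
  simpa using ge_mul P hc h0

end sq4

/-- the derivative of the base polynomial at one of its roots -/
theorem sq4_base (m k : ℕ) (hk : k < m) :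
    (base m).eval ((k : ℤ) + 1) = 0 ∧ (base m).derivative.eval ((k : ℤ) + 1) =
      ∏ j ∈ (Finset.range m).erase k, ((k : ℤ) - j) := by
  have hmem : k ∈ Finset.range m := Finset.mem_range.mpr hk
  constructor
  · rw [base, eval_prod]
    exact Finset.prod_eq_zero hmem (by simp)
  · rw [base, derivative_prod_finset, eval_finsetSum, Finset.sum_eq_single k]
    · rw [eval_mul, eval_prod]
      simp
    · intro j _ hj
      rw [eval_mul, eval_prod, Finset.prod_eq_zero (Finset.mem_erase.mpr ⟨hj.symm, hmem⟩)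
        (by simp), zero_mul]
    · intro h
      exact absurd hmem h

/-- small nonzero integers are not divisible by `l` -/
theorem sq4_small {l : ℕ} {m : ℤ} (h0 : m ≠ 0) (h : |m| < l) : ¬ (l : ℤ) ∣ m := by
  intro hd
  exact h0 (Int.eq_zero_of_abs_lt_dvd hd h)

theorem swap_loc {L : Type} [Field L] [NumberField L] [Algebra ℚ L] [IsGalois ℚ L]
    {n : ℕ} (hn : 2 ≤ n) {f : ℤ[X]} {l : ℕ} (hl : l.Prime) (hln : n < l)
    (hdeg : f.natDegree = n) (q : ℤ) (hq : ¬ (l : ℤ) ∣ q)
    (hcong : ∀ i, (l : ℤ) ^ 2 ∣ f.coeff i - q * ((X ^ 2 + C (l : ℤ)) * base (n - 2)).coeff i)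
    (R : Roots ℚ L n (FQ f)) (hgen : IntermediateField.adjoin ℚ (Set.range R.θ) = ⊤) :
    ∃ σ : L ≃ₐ[ℚ] L, (R.permHom σ).IsSwap := by
  classical
  have hlp : Prime (l : ℤ) := Nat.prime_iff_prime_int.mp hl
  have hl0 : (l : ℤ) ≠ 0 := hlp.ne_zero
  obtain ⟨P, hP⟩ := exists_prime_over L hl
  have he0 : (0 : ℤ) < erel ℚ P := by exact_mod_cast erel_pos P
  set e : ℤ := ((erel ℚ P : ℕ) : ℤ) with hedef
  -- the polynomial modulo `l²`
  obtain ⟨h, hh⟩ : ∃ h : ℤ[X], f = C q * ((X ^ 2 + C (l : ℤ)) * base (n - 2)) +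
      C ((l : ℤ) ^ 2) * h := by
    have h1 : C ((l : ℤ) ^ 2) ∣ f - C q * ((X ^ 2 + C (l : ℤ)) * base (n - 2)) := by
      rw [C_dvd_iff_dvd_coeff]
      intro i
      rw [coeff_sub, coeff_C_mul]
      exact hcong i
    obtain ⟨h, hh⟩ := h1
    exact ⟨h, by rw [← hh]; ring⟩
  set B := base (n - 2) with hB
  have hB0 : ¬ (l : ℤ) ∣ B.coeff 0 := by
    rw [coeff_zero_eq_eval_zero, hB, base, eval_prod, Prime.dvd_finsetProd_iff hlp]
    rintro ⟨k, hk, hd⟩
    rw [Finset.mem_range] at hk
    rw [eval_sub, eval_X, eval_C, zero_sub, dvd_neg] at hd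
    refine sq4_small (l := l) (m := (k : ℤ) + 1) (by omega) ?_ hd
    rw [abs_of_nonneg (by omega)]
    omega
  have hBm : B.Monic := by
    rw [hB, base]
    exact monic_prod_of_monic _ _ fun k _ => monic_X_sub_C _
  have hBd : B.natDegree = n - 2 := by
    rw [hB, base, natDegree_prod_of_monic _ _ fun k _ => monic_X_sub_C _]
    simp only [natDegree_X_sub_C, Finset.sum_const, Finset.card_range, smul_eq_mul, mul_one]
  -- coefficients
  have hcf : ∀ i, f.coeff i = q * ((X ^ 2 * B).coeff i + (l : ℤ) * B.coeff i) +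
      (l : ℤ) ^ 2 * h.coeff i := fun i => by
    rw [hh, coeff_add, coeff_C_mul, coeff_C_mul, add_mul, coeff_add, coeff_C_mul]
  have hc0 : f.coeff 0 = q * ((l : ℤ) * B.coeff 0) + (l : ℤ) ^ 2 * h.coeff 0 := by
    rw [hcf, coeff_X_pow_mul', if_neg (by norm_num), zero_add]
  have hc1 : f.coeff 1 = q * ((l : ℤ) * B.coeff 1) + (l : ℤ) ^ 2 * h.coeff 1 := by
    rw [hcf, coeff_X_pow_mul', if_neg (by norm_num), zero_add]
  have hc2 : f.coeff 2 = q * (B.coeff 0 + (l : ℤ) * B.coeff 2) + (l : ℤ) ^ 2 * h.coeff 2 := by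
    rw [hcf, coeff_X_pow_mul', if_pos le_rfl]
  have hcn : f.coeff n = q * (1 + (l : ℤ) * B.coeff n) + (l : ℤ) ^ 2 * h.coeff n := by
    have h1 : (X ^ 2 * B).coeff n = 1 := by
      rw [coeff_X_pow_mul', if_pos hn, ← hBd]
      exact hBm.coeff_natDegree
    rw [hcf, h1]
  have hd0 : (l : ℤ) ∣ f.coeff 0 := ⟨q * B.coeff 0 + l * h.coeff 0, by rw [hc0]; ring⟩
  have hd0' : ¬ (l : ℤ) ^ 2 ∣ f.coeff 0 := by
    rintro ⟨c, hc⟩
    have h1 : (l : ℤ) * (q * B.coeff 0) = l * (l * (c - h.coeff 0)) := by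
      linear_combination hc - hc0
    have h2 := mul_left_cancel₀ hl0 h1
    rcases hlp.dvd_or_dvd ⟨_, h2⟩ with h3 | h3
    · exact hq h3
    · exact hB0 h3
  have hd1 : (l : ℤ) ∣ f.coeff 1 := ⟨q * B.coeff 1 + l * h.coeff 1, by rw [hc1]; ring⟩
  have hd2 : ¬ (l : ℤ) ∣ f.coeff 2 := by
    rintro ⟨c, hc⟩
    have h1 : q * B.coeff 0 = l * (c - q * B.coeff 2 - l * h.coeff 2) := by
      linear_combination hc - hc2
    rcases hlp.dvd_or_dvd ⟨_, h1⟩ with h3 | h3
    · exact hq h3
    · exact hB0 h3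
  have hdn : ¬ (l : ℤ) ∣ f.coeff n := by
    rintro ⟨c, hc⟩
    exact hq ⟨c - q * B.coeff n - l * h.coeff n, by linear_combination hc - hcn⟩
  have hne : ∀ {m : ℤ}, ¬ (l : ℤ) ∣ m → (m : L) ≠ 0 := by
    intro m hm h
    rw [Int.cast_eq_zero] at h
    exact hm (h ▸ dvd_zero _)
  -- the polynomial over `L`
  set G : L[X] := (FQ f).map (algebraMap ℚ L) with hG
  have hGm : G = f.map (Int.castRingHom L) := sq3_map f
  have hGc : ∀ i, G.coeff i = (f.coeff i : L) := fun i => by
    rw [hGm, coeff_map]; rfl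
  have hG0 : ∀ i, Ge P 0 (G.coeff i) := fun i => by rw [hGc]; exact ge_int P _
  have hlcG : G.leadingCoeff = (f.coeff n : L) := by
    rw [hGm, leadingCoeff_map_of_injective (RingHom.injective_int (Int.castRingHom L)),
      leadingCoeff, hdeg]
    rfl
  have hlcn : (f.coeff n : L) ≠ 0 := hne hdn
  have hlco : ord P (f.coeff n : L) = 0 := ord_int_unit P hl hP hdn
  have hint : ∀ i, Ge P 0 (R.θ i) := fun i =>
    an15_integral P hG0 (by rw [hlcG, hlco]) (by rw [hlcG]; exact hlcn) (R.eval_root i)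
  have hfac : G = C (f.coeff n : L) * ∏ i, (X - C (R.θ i)) := by
    have h1 := R.fac
    rw [sq3_lc hdeg] at h1
    rw [hG, h1, map_intCast]
  have h0n : G.coeff 0 ≠ 0 := by
    rw [hGc]
    intro h1
    rw [Int.cast_eq_zero] at h1
    exact hd0' (h1 ▸ dvd_zero _)
  have h0e : ord P (G.coeff 0) = e := by rw [hGc]; exact sq3_coeff_eq P hl hP hd0 hd0'
  have h1e : Ge P e (G.coeff 1) := by rw [hGc]; exact sq3_coeff_ge P hl hP hd1
  have h2n : G.coeff 2 ≠ 0 := by rw [hGc]; exact hne hd2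
  have h2e : ord P (G.coeff 2) = 0 := by rw [hGc]; exact ord_int_unit P hl hP hd2
  have hGz : G.coeff 0 = (f.coeff n : L) * ∏ i, (-R.θ i) := by
    rw [coeff_zero_eq_eval_zero, hfac, eval_C_mul, eval_prod]
    simp
  have hθ0 : ∀ i, R.θ i ≠ 0 := by
    intro i h1
    apply h0n
    rw [hGz, Finset.prod_eq_zero (Finset.mem_univ i) (by rw [h1, neg_zero]), mul_zero]
  have hge : ∀ i, 0 ≤ ord P (R.θ i) := fun i => (ge_iff P (hθ0 i)).mp (hint i)
  have htwo : ∀ i, 0 < ord P (R.θ i) → 2 * ord P (R.θ i) = e := fun i hi =>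
    sq4_two P hG0 h0n h0e h1e h2n h2e (hθ0 i) (R.eval_root i) hi
  have hsum : ∑ i, ord P (R.θ i) = e := by
    have hne' : ∀ i ∈ (Finset.univ : Finset (Fin n)), -R.θ i ≠ 0 := fun i _ =>
      neg_ne_zero.mpr (hθ0 i)
    rw [← h0e, hGz, ord_mul P hlcn (Finset.prod_ne_zero_iff.mpr hne'), hlco, zero_add,
      ord_prod P _ _ hne']
    exact Finset.sum_congr rfl fun i _ => (ord_neg P _).symm
  set T : Finset (Fin n) := Finset.univ.filter (fun i => 0 < ord P (R.θ i)) with hT
  have hTsum : ∑ i ∈ T, ord P (R.θ i) = e := by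
    rw [← hsum, hT, Finset.sum_filter]
    refine Finset.sum_congr rfl fun i _ => ?_
    split_ifs with h
    · rfl
    · have := hge i
      omega
  have hTcard : T.card = 2 := by
    have h4 : 2 * ∑ i ∈ T, ord P (R.θ i) = T.card * e := by
      rw [Finset.mul_sum, Finset.sum_congr rfl fun i hi => htwo i (Finset.mem_filter.mp hi).2,
        Finset.sum_const, nsmul_eq_mul]
    rw [hTsum] at h4
    have h5 : ((2 : ℤ) - T.card) * e = 0 := by linear_combination h4
    rcases mul_eq_zero.mp h5 with h6 | h6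
    · omega
    · omega
  have he2 : 2 ≤ erel ℚ P := by
    obtain ⟨i, hi⟩ := Finset.card_pos.mp (by omega : 0 < T.card)
    have h1 := htwo i (Finset.mem_filter.mp hi).2
    have h2 := (Finset.mem_filter.mp hi).2
    omega
  -- unit roots are close to integers
  have hunit : ∀ i, i ∉ T → ∃ k < n - 2, Ge P 1 ((((k : ℤ) + 1 : ℤ) : L) - R.θ i) := by
    intro i hi
    have ho : ord P (R.θ i) = 0 := by
      have h9 : ¬ 0 < ord P (R.θ i) := fun h => hi (Finset.mem_filter.mpr ⟨Finset.mem_univ i, h⟩)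
      have := hge i
      omega
    -- the value of `q X² B`
    have h1 : (q : L) * (R.θ i ^ 2 * (B.map (Int.castRingHom L)).eval (R.θ i)) =
        -((l : L) * ((q : L) * (B.map (Int.castRingHom L)).eval (R.θ i) +
          (l : L) * (h.map (Int.castRingHom L)).eval (R.θ i))) := by
      have h2 := R.eval_root i
      have hhL := congrArg (Polynomial.map (Int.castRingHom L)) hh
      rw [← hG, hGm, hhL] at h2
      simp only [Polynomial.map_add, Polynomial.map_mul, Polynomial.map_pow, Polynomial.map_X,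
        Polynomial.map_C, eval_add, eval_mul, eval_pow, eval_X, eval_C] at h2
      simp only [eq_intCast, Int.cast_pow, Int.cast_natCast] at h2
      linear_combination h2
    have hmapint : ∀ g : ℤ[X], Ge P 0 ((g.map (Int.castRingHom L)).eval (R.θ i)) := by
      intro g
      rw [eval_eq_sum_range]
      refine ge_sum P _ _ fun m _ => ?_
      have h3 := ge_mul P (ge_int P (g.coeff m)) (ge_pow P (hint i) m)
      simpa using h3
    have hl1 : Ge P 1 (l : L) := by
      have h0 : ((l : ℕ) : L) ≠ 0 := Nat.cast_ne_zero.mpr hl.ne_zero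
      rw [ge_iff P h0, sq3_ord_l P hl hP]
      omega
    have h3 : Ge P 1 ((q : L) * (R.θ i ^ 2 * (B.map (Int.castRingHom L)).eval (R.θ i))) := by
      rw [h1]
      have h4 := ge_mul P hl1 (ge_add P (ge_mul P (ge_int P q) (hmapint B))
        (ge_mul P (ge_mono P (by norm_num : (0 : ℤ) ≤ 1) hl1) (hmapint h)))
      exact ge_neg P (by simpa using h4)
    have h5 : Ge P 1 ((B.map (Int.castRingHom L)).eval (R.θ i)) := by
      rcases eq_or_ne ((B.map (Int.castRingHom L)).eval (R.θ i)) 0 with h6 | h6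
      · rw [h6]; exact ge_zero P 1
      · have hq0 : (q : L) ≠ 0 := hne hq
        have hθ2 : R.θ i ^ 2 ≠ 0 := pow_ne_zero _ (hθ0 i)
        rw [ge_iff P (mul_ne_zero hq0 (mul_ne_zero hθ2 h6)), ord_mul P hq0 (mul_ne_zero hθ2 h6),
          ord_mul P hθ2 h6, ord_pow, ho, ord_int_unit P hl hP hq] at h3
        rw [ge_iff P h6]
        simpa using h3
    have h7 : (B.map (Int.castRingHom L)).eval (R.θ i) =
        ∏ k ∈ Finset.range (n - 2), (R.θ i - (((k : ℤ) + 1 : ℤ) : L)) := by
      rw [hB, base, Polynomial.map_prod, eval_prod]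
      refine Finset.prod_congr rfl fun k _ => ?_
      simp
    rw [h7] at h5
    obtain ⟨k, hk, hk1⟩ := sq4_factor P _ _ (fun k _ => ge_sub P (hint i) (ge_int P _)) h5
    refine ⟨k, Finset.mem_range.mp hk, ?_⟩
    rw [← neg_sub]
    exact ge_neg P hk1
  -- an element of the inertia group
  obtain ⟨I, hIcard, -, hI⟩ := exists_inertia (k := ℚ) P
  obtain ⟨s, hs⟩ : ∃ s : I, s ≠ 1 := by
    have : Finite I := Nat.finite_of_card_ne_zero (by omega)
    have : Nontrivial I := by
      rw [← Finite.one_lt_card_iff_nontrivial]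
      omega
    exact exists_ne 1
  have hs1 : R.permHom s.1 ≠ 1 := fun h => hs (Subtype.ext (an15_faithful R hgen h))
  have hfix : ∀ i, i ∉ T → R.permHom s.1 i = i := by
    intro i hi
    by_contra hne'
    obtain ⟨k, hk, hk1⟩ := hunit i hi
    have h10 := hI s.1 s.2 (R.θ i) (hint i)
    rw [R.permHom_spec] at h10
    set j := R.permHom s.1 i
    set x : L := (((k : ℤ) + 1 : ℤ) : L) with hx
    have hj1 : Ge P 1 (x - R.θ j) := by
      have : x - R.θ j = (x - R.θ i) - (R.θ j - R.θ i) := by ring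
      rw [this]
      exact ge_sub P hk1 h10
    have h11 := sq4_deriv P (f.coeff n : L) (ge_int P _) R.θ x
      (fun m => ge_sub P (ge_int P _) (hint m)) (fun h : i = j => hne' h.symm) hk1 hj1
    rw [← hfac, hGm, derivative_map, hx, eval_intCast_map] at h11
    have h12 : ¬ (l : ℤ) ∣ f.derivative.eval ((k : ℤ) + 1) := by
      obtain ⟨b1, b2⟩ := sq4_base (n - 2) k hk
      rw [← hB] at b1 b2
      have h13 : f.derivative.eval ((k : ℤ) + 1) =
          q * (((k : ℤ) + 1) ^ 2 * ∏ j ∈ (Finset.range (n - 2)).erase k, ((k : ℤ) - j)) +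
          l * (q * (∏ j ∈ (Finset.range (n - 2)).erase k, ((k : ℤ) - j)) +
            l * h.derivative.eval ((k : ℤ) + 1)) := by
        rw [hh, ← b2]
        simp only [derivative_add, derivative_mul, derivative_C, derivative_X_pow, eval_add,
          eval_mul, eval_C, eval_pow, eval_X, b1]
        simp
        ring
      rw [h13, dvd_add_left (dvd_mul_right _ _)]
      intro hd
      rcases hlp.dvd_or_dvd hd with hd | hd
      · exact hq hd
      rcases hlp.dvd_or_dvd hd with hd | hd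
      · refine sq4_small (l := l) (m := (k : ℤ) + 1) (by omega) ?_ (hlp.dvd_of_dvd_pow hd)
        rw [abs_of_nonneg (by omega)]
        omega
      · rw [Prime.dvd_finsetProd_iff hlp] at hd
        obtain ⟨m, hm, hd⟩ := hd
        rw [Finset.mem_erase, Finset.mem_range] at hm
        refine sq4_small (l := l) (m := (k : ℤ) - m) (by omega) ?_ hd
        rw [abs_lt]
        omega
    have h14 := ord_int_unit P hl hP h12
    simp only [eq_intCast, Int.cast_id] at h11
    rw [ge_iff P (hne h12)] at h11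
    omega
  refine ⟨s.1, ?_⟩
  rw [← Equiv.Perm.card_support_eq_two]
  have hsub : (R.permHom s.1).support ⊆ T := by
    intro i hi
    by_contra hiT
    exact (Equiv.Perm.mem_support.mp hi) (hfix i hiT)
  have h1 : (R.permHom s.1).support.card ≤ 2 := hTcard ▸ Finset.card_le_card hsub
  have h2 := Equiv.Perm.two_le_card_support_of_ne_one hs1
  omega

end Pool.Agent.H92.SQ
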