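import Pool.Agent.H92.SQ.Defs
import Pool.Agent.H35.AN.Transport
import Pool.Agent.H35.AN.Count

/-!
# SQ-1: from the splitting field to `IsSymField`

If every finite Galois extension `L / ℚ` which contains the `n` roots of `F` and is generated by
them has the Galois group `S_n` (on the indices of the roots), then each field `ℚ(θ_i)` inside the
algebraic closure is a field of degree `n` whose Galois closure has the group `S_n` on the
embeddings.  (Version of `AN/Transport.lean` for the symmetric group.)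

The definitions over `ℚ` use the instance `DivisionRing.toRatAlgebra`, the counting function
`malleCount` (over a general `k`) uses `AlgebraicClosure.instAlgebra`; `malleCount_rat` is the
bridge.
-/

set_option autoImplicit false

open Polynomial IsDedekindDomain NumberField Pool.Agent.H35.AN

namespace Pool.Agent.H92.SQ

theorem sq1_gen (k : Type) [Field k] [NumberField k] {n : ℕ} {F : k[X]}
    (R : Roots k (AlgebraicClosure k) n F)
    (hG : ∀ (L : Type) [Field L] [NumberField L] [Algebra k L] [IsGalois k L]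
      (R' : Roots k L n F), IntermediateField.adjoin k (Set.range R'.θ) = ⊤ →
        R'.permHom.range = ⊤) (i : Fin n) :
    Module.finrank k (an24_M R i) = n ∧
      ∃ e : (an24_M R i →ₐ[k] AlgebraicClosure k) ≃ Fin n, ∀ π : Equiv.Perm (Fin n),
        ∃ σ : AlgebraicClosure k ≃ₐ[k] AlgebraicClosure k,
          ∀ φ : an24_M R i →ₐ[k] AlgebraicClosure k, e (σ.toAlgHom.comp φ) = π (e φ) := by
  classical
  have hA : (an24_R R).permHom.range = ⊤ :=
    hG (an24_L R) (an24_R R) (an24_gen R)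
  have hsurj : Function.Surjective (an24_e R i) := by
    intro j
    have hg : Equiv.swap i j ∈ (an24_R R).permHom.range := by
      rw [hA]
      exact Subgroup.mem_top _
    obtain ⟨τ, hτ⟩ := hg
    obtain ⟨σ, hσ⟩ := an24_lift R τ
    refine ⟨σ.toAlgHom.comp (an24_M R i).val, R.inj ?_⟩
    have h1 : (an24_R R).permHom τ i = j := by
      rw [hτ, Equiv.swap_apply_left]
    rw [an24_e_spec, ← h1, ← hσ]
    rfl
  let e : (an24_M R i →ₐ[k] AlgebraicClosure k) ≃ Fin n :=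
    Equiv.ofBijective (an24_e R i) ⟨an24_e_inj R i, hsurj⟩
  have he : ∀ φ, R.θ (e φ) = φ (an24_g R i) := fun φ => an24_e_spec R i φ
  have : FiniteDimensional k (an24_M R i) :=
    IntermediateField.adjoin.finiteDimensional
      (Algebra.IsAlgebraic.isAlgebraic (R := k) (R.θ i)).isIntegral
  refine ⟨?_, e, fun π => ?_⟩
  · have h1 := AlgHom.card k (an24_M R i) (AlgebraicClosure k)
    rw [← h1, Fintype.card_congr e, Fintype.card_fin]
  · have hπ : π ∈ (an24_R R).permHom.range := by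
      rw [hA]
      exact Subgroup.mem_top _
    obtain ⟨τ, rfl⟩ := hπ
    obtain ⟨σ, hσ⟩ := an24_lift R τ
    refine ⟨σ, fun φ => R.inj ?_⟩
    rw [he, ← hσ, he]
    rfl

/-- the predicate of the frozen statement for the symmetric group, with explicit instances -/
def sq1_P (n : ℕ) (F Ω : Type) [Field F] [Field Ω] (A1 : Algebra ℚ F) (A2 : Algebra ℚ Ω) : Prop :=
  @Module.finrank ℚ F _ _ A1.toModule = n ∧
    ∃ e : (@AlgHom ℚ F Ω _ _ _ A1 A2) ≃ Fin n, ∀ π : Equiv.Perm (Fin n),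
      ∃ σ : @AlgEquiv ℚ Ω Ω _ _ _ A2 A2,
        ∀ φ : @AlgHom ℚ F Ω _ _ _ A1 A2, e (σ.toAlgHom.comp φ) = π (e φ)

theorem sq1_P_congr (n : ℕ) (F Ω : Type) [Field F] [Field Ω] (A1 A1' : Algebra ℚ F)
    (A2 A2' : Algebra ℚ Ω) : sq1_P n F Ω A1 A2 ↔ sq1_P n F Ω A1' A2' := by
  obtain rfl : A1 = A1' := Subsingleton.elim _ _
  obtain rfl : A2 = A2' := Subsingleton.elim _ _
  exact Iff.rfl

theorem sq1_equiv_congr (F F' : Type) [Field F] [Field F'] (A A2 : Algebra ℚ F)
    (A' A2' : Algebra ℚ F') :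
    Nonempty (@AlgEquiv ℚ F F' _ _ _ A A') ↔ Nonempty (@AlgEquiv ℚ F F' _ _ _ A2 A2') := by
  obtain rfl : A = A2 := Subsingleton.elim _ _
  obtain rfl : A' = A2' := Subsingleton.elim _ _
  exact Iff.rfl

theorem sq1_P_iff (n : ℕ) (M : IntermediateField ℚ (AlgebraicClosure ℚ)) :
    IsSymField n M ↔ sq1_P n M (AlgebraicClosure ℚ) DivisionRing.toRatAlgebra
      DivisionRing.toRatAlgebra := Iff.rfl

theorem sq1_inst (A : Algebra ℚ (AlgebraicClosure ℚ)) {n : ℕ} {F : ℚ[X]}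
    (R : @Roots ℚ (AlgebraicClosure ℚ) _ _ A n F)
    (hG : ∀ (L : Type) [Field L] [NumberField L] [Algebra ℚ L] [IsGalois ℚ L]
      (R' : Roots ℚ L n F), IntermediateField.adjoin ℚ (Set.range R'.θ) = ⊤ →
        R'.permHom.range = ⊤) (i : Fin n) :
    sq1_P n (@IntermediateField.adjoin ℚ _ (AlgebraicClosure ℚ) _ A {R.θ i}) (AlgebraicClosure ℚ)
      (@DivisionRing.toRatAlgebra _ _ inferInstance) A := by
  obtain rfl : A = @AlgebraicClosure.instAlgebra ℚ _ ℚ _ (Algebra.id ℚ) := Subsingleton.elim _ _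
  exact (sq1_P_congr n _ _ _ _ _ _).mp (sq1_gen ℚ R hG i)

theorem transport_sym {n : ℕ} (hn : 2 ≤ n) {F : ℚ[X]} (R : Roots ℚ (AlgebraicClosure ℚ) n F)
    (hG : ∀ (L : Type) [Field L] [NumberField L] [Algebra ℚ L] [IsGalois ℚ L]
      (R' : Roots ℚ L n F), IntermediateField.adjoin ℚ (Set.range R'.θ) = ⊤ →
        R'.permHom.range = ⊤) (i : Fin n) :
    IsSymField n (IntermediateField.adjoin ℚ {R.θ i}) := by
  have _h := hn
  exact sq1_inst _ R hG i

/-- the fields counted by `malleCount`, with explicit instances -/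
def sq1_X (A : Algebra ℚ (AlgebraicClosure ℚ)) (n : ℕ) (B : ℝ) : Type :=
  {M : @IntermediateField ℚ (AlgebraicClosure ℚ) _ _ A //
    sq1_P n M (AlgebraicClosure ℚ) (@DivisionRing.toRatAlgebra _ _ inferInstance) A ∧
      ∃ h : NumberField M, ((|@NumberField.discr M _ h| : ℤ) : ℝ) ≤ B}

def sq1_rel (A : Algebra ℚ (AlgebraicClosure ℚ)) (n : ℕ) (B : ℝ) (L L' : sq1_X A n B) : Prop :=
  Nonempty (@AlgEquiv ℚ L.1 L'.1 _ _ _ (@DivisionRing.toRatAlgebra _ _ inferInstance)
    (@DivisionRing.toRatAlgebra _ _ inferInstance))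

theorem sq1_count_inst (A A' : Algebra ℚ (AlgebraicClosure ℚ)) (n : ℕ) (B : ℝ) :
    Nat.card (Quot (sq1_rel A n B)) = Nat.card (Quot (sq1_rel A' n B)) := by
  obtain rfl : A = A' := Subsingleton.elim _ _
  rfl

theorem sq1_iff (n : ℕ) (B : ℝ) (M : @IntermediateField ℚ (AlgebraicClosure ℚ) _ _
    (@AlgebraicClosure.instAlgebra ℚ _ ℚ _ (Algebra.id ℚ))) :
    ((@Module.finrank ℚ M _ _ (IntermediateField.algebra' M).toModule = n ∧
      (∃ e : (@AlgHom ℚ M (AlgebraicClosure ℚ) _ _ _ (IntermediateField.algebra' M)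
          (@AlgebraicClosure.instAlgebra ℚ _ ℚ _ (Algebra.id ℚ))) ≃ Fin n,
        ∀ π : Equiv.Perm (Fin n),
        π ∈ (⊤ : Subgroup (Equiv.Perm (Fin n))) ↔
          ∃ σ : @AlgEquiv ℚ (AlgebraicClosure ℚ) (AlgebraicClosure ℚ) _ _ _
            (@AlgebraicClosure.instAlgebra ℚ _ ℚ _ (Algebra.id ℚ))
            (@AlgebraicClosure.instAlgebra ℚ _ ℚ _ (Algebra.id ℚ)),
          ∀ φ : (@AlgHom ℚ M (AlgebraicClosure ℚ) _ _ _ (IntermediateField.algebra' M)
            (@AlgebraicClosure.instAlgebra ℚ _ ℚ _ (Algebra.id ℚ))),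
            e (σ.toAlgHom.comp φ) = π (e φ)) ∧
      ∃ h : NumberField M, ((|@NumberField.discr M _ h| : ℤ) : ℝ) ≤ B)) ↔
    (sq1_P n M (AlgebraicClosure ℚ) (@DivisionRing.toRatAlgebra _ _ inferInstance)
      (@AlgebraicClosure.instAlgebra ℚ _ ℚ _ (Algebra.id ℚ)) ∧
      ∃ h : NumberField M, ((|@NumberField.discr M _ h| : ℤ) : ℝ) ≤ B) := by
  constructor
  · rintro ⟨h1, ⟨e, h2⟩, h3⟩
    exact ⟨(sq1_P_congr n M (AlgebraicClosure ℚ) _ _ _ _).mp
      ⟨h1, e, fun π => (h2 π).mp (Subgroup.mem_top π)⟩, h3⟩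
  · rintro ⟨h1, h3⟩
    obtain ⟨h1, e, h2⟩ := (sq1_P_congr n M (AlgebraicClosure ℚ) _ (IntermediateField.algebra' M)
      _ _).mp h1
    exact ⟨h1, ⟨e, fun π => ⟨fun _ => h2 π, fun _ => Subgroup.mem_top π⟩⟩, h3⟩

theorem sq1_disc (n : ℕ) : ((|NumberField.discr ℚ| : ℤ) : ℝ) ^ n = 1 := by
  rw [Rat.numberField_discr, abs_one, Int.cast_one, one_pow]

theorem sq1_malle (n : ℕ) (B : ℝ) : malleCount ℚ n ⊤ B =
    Nat.card (Quot (sq1_rel (@AlgebraicClosure.instAlgebra ℚ _ ℚ _ (Algebra.id ℚ)) n B)) := by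
  unfold malleCount
  rw [sq1_disc, mul_one]
  exact Nat.card_congr (Quot.congr (Equiv.subtypeEquivRight fun M => sq1_iff n B M)
    fun L L' => sq1_equiv_congr _ _ _ _ _ _)

theorem sq1_finite_inst (A : Algebra ℚ (AlgebraicClosure ℚ)) (n : ℕ) (B : ℝ) :
    Finite (sq1_X A n B) := by
  obtain rfl : A = @AlgebraicClosure.instAlgebra ℚ _ ℚ _ (Algebra.id ℚ) := Subsingleton.elim _ _
  have h1 := an35_finite ℚ n ⊤ B
  unfold an35_X at h1
  rw [sq1_disc, mul_one] at h1
  exact @Finite.of_equiv _ _ h1 (Equiv.subtypeEquivRight fun M => sq1_iff n B M)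

/-- `malleCount` over `ℚ` with the instances of `IsSymField` -/
theorem malleCount_rat (n : ℕ) (B : ℝ) : malleCount ℚ n ⊤ B =
    Nat.card (Quot (fun L L' : {M : IntermediateField ℚ (AlgebraicClosure ℚ) //
      IsSymField n M ∧ ∃ h : NumberField M, ((|@NumberField.discr M _ h| : ℤ) : ℝ) ≤ B} =>
        Nonempty (L.1 ≃ₐ[ℚ] L'.1))) := by
  rw [sq1_malle, sq1_count_inst _ DivisionRing.toRatAlgebra]
  rfl

/-- finiteness (Hermite) of the set of fields in `malleCount_rat` -/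
theorem sym_finite (n : ℕ) (B : ℝ) : Finite {M : IntermediateField ℚ (AlgebraicClosure ℚ) //
    IsSymField n M ∧ ∃ h : NumberField M, ((|@NumberField.discr M _ h| : ℤ) : ℝ) ≤ B} :=
  sq1_finite_inst DivisionRing.toRatAlgebra n B

end Pool.Agent.H92.SQ
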