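import Pool.Agent.H92.SQ.Defs

/-! Project SQ, row SQ-15: pigeonhole, many annihilators of a short sequence. -/

set_option autoImplicit false

open Polynomial

namespace Pool.Agent.H92.SQ

/-- the polynomial with coefficients `a` -/
private noncomputable def sq15_pol {k B : ℕ} (a : Fin k → Fin (B + 1)) : ℤ[X] :=
  ∑ i : Fin k, C (((a i : ℕ) : ℤ)) * X ^ (i : ℕ)

private theorem sq15_coeff_lt {k B : ℕ} (a : Fin k → Fin (B + 1)) (i : Fin k) :
    (sq15_pol a).coeff i = ((a i : ℕ) : ℤ) := by
  unfold sq15_pol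
  rw [finsetSum_coeff, Finset.sum_eq_single i]
  · simp
  · intro j _ hj
    rw [coeff_C_mul, coeff_X_pow, if_neg, mul_zero]
    intro h
    exact hj (Fin.ext h.symm)
  · intro h
    exact absurd (Finset.mem_univ i) h

private theorem sq15_coeff_ge {k B : ℕ} (a : Fin k → Fin (B + 1)) (m : ℕ) (hm : k ≤ m) :
    (sq15_pol a).coeff m = 0 := by
  unfold sq15_pol
  rw [finsetSum_coeff]
  refine Finset.sum_eq_zero fun j _ => ?_
  rw [coeff_C_mul, coeff_X_pow, if_neg, mul_zero]
  intro h
  have := j.2
  omega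

private theorem sq15_inj {k B : ℕ} : Function.Injective (sq15_pol (k := k) (B := B)) := by
  intro a b h
  funext i
  have h1 := sq15_coeff_lt a i
  have h2 := sq15_coeff_lt b i
  rw [h, h2] at h1
  exact Fin.ext (by exact_mod_cast h1.symm)

/-- pigeonhole for an additive map to a finite group -/
private theorem sq15_pigeon {A : Type} [AddCommGroup A] [Fintype A] (κ : ℤ[X] →+ A) (k B : ℕ)
    (hk : 0 < k) :
    ∃ T : Finset ℤ[X], (∀ c ∈ T, κ c = 0 ∧ c.natDegree < k ∧ ∀ i, |c.coeff i| ≤ B) ∧
      (B + 1) ^ k ≤ Fintype.card A * T.card := by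
  classical
  let F : A → Finset (Fin k → Fin (B + 1)) := fun x =>
    Finset.univ.filter fun a => κ (sq15_pol a) = x
  obtain ⟨x, -, hx⟩ := Finset.exists_max_image (Finset.univ : Finset A) (fun x => (F x).card)
    ⟨0, Finset.mem_univ _⟩
  have hcard : (B + 1) ^ k ≤ Fintype.card A * (F x).card := by
    have h1 : (Finset.univ : Finset (Fin k → Fin (B + 1))).card =
        ∑ y : A, (F y).card :=
      Finset.card_eq_sum_card_fiberwise (f := fun a => κ (sq15_pol a))
        (t := (Finset.univ : Finset A)) (fun a _ => Finset.mem_coe.2 (Finset.mem_univ _))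
    have h2 : ∑ y : A, (F y).card ≤ (Finset.univ : Finset A).card • (F x).card :=
      Finset.sum_le_card_nsmul _ _ _ fun y hy => hx y hy
    rw [← h1, Finset.card_univ, Finset.card_univ, Fintype.card_fun, Fintype.card_fin,
      Fintype.card_fin, smul_eq_mul] at h2
    exact h2
  have hpos : 0 < (F x).card := by
    by_contra h
    have h0 : (F x).card = 0 := by omega
    rw [h0, Nat.mul_zero] at hcard
    have h1 : 0 < (B + 1) ^ k := by positivity
    omega
  obtain ⟨a0, ha0⟩ := Finset.card_pos.1 hpos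
  have ha0' : κ (sq15_pol a0) = x := (Finset.mem_filter.1 ha0).2
  refine ⟨(F x).image fun a => sq15_pol a - sq15_pol a0, ?_, ?_⟩
  · intro c hc
    obtain ⟨a, ha, rfl⟩ := Finset.mem_image.1 hc
    have ha' : κ (sq15_pol a) = x := (Finset.mem_filter.1 ha).2
    have hz : ∀ m, k ≤ m → (sq15_pol a - sq15_pol a0).coeff m = 0 := by
      intro m hm
      rw [coeff_sub, sq15_coeff_ge a m hm, sq15_coeff_ge a0 m hm, sub_zero]
    refine ⟨by rw [map_sub, ha', ha0', sub_self], ?_, ?_⟩
    · have h1 : (sq15_pol a - sq15_pol a0).natDegree ≤ k - 1 :=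
        natDegree_le_iff_coeff_eq_zero.2 fun N hN => hz N (by omega)
      omega
    · intro i
      rcases Nat.lt_or_ge i k with hi | hi
      · have e1 := sq15_coeff_lt a ⟨i, hi⟩
        have e2 := sq15_coeff_lt a0 ⟨i, hi⟩
        rw [coeff_sub]
        simp only at e1 e2
        rw [e1, e2, abs_le]
        have h1 := (a ⟨i, hi⟩).2
        have h2 := (a0 ⟨i, hi⟩).2
        constructor <;> omega
      · rw [hz i hi, abs_zero]
        exact Int.natCast_nonneg B
  · rw [Finset.card_image_of_injective]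
    · exact hcard
    · intro a b h
      exact sq15_inj (sub_left_injective h)

/-- an integer divisible by `q` and smaller than `q` is `0` -/
private theorem sq15_zero {q x : ℤ} (h : q ∣ x) (hx : |x| < q) : x = 0 :=
  Int.eq_zero_of_abs_lt_dvd h hx

/-- `c.eval x` as a sum over `range k` -/
private theorem sq15_eval {k : ℕ} {c : ℤ[X]} (hc : c.natDegree < k) (x : ℤ) :
    c.eval x = ∑ i ∈ Finset.range k, c.coeff i * x ^ i :=
  eval_eq_sum_range' hc x

private theorem sq15_deriv {k : ℕ} {c : ℤ[X]} (hc : c.natDegree < k) (x : ℤ) :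
    c.derivative.eval x = ∑ i ∈ Finset.range k, c.coeff i * (i * x ^ (i - 1)) := by
  rw [derivative_eval, sum_over_range' c _ k hc]
  · exact Finset.sum_congr rfl fun i _ => by ring
  · intro i
    simp

/-- size of a window -/
private theorem sq15_abs {k j : ℕ} {c : ℤ[X]} {z : ℕ → ℤ} {B V : ℤ}
    (hc : ∀ i, |c.coeff i| ≤ B) (hz : ∀ i < k, |z (j + i)| ≤ V) :
    |∑ i ∈ Finset.range k, c.coeff i * z (j + i)| ≤ k * (B * V) := by
  refine (Finset.abs_sum_le_sum_abs _ _).trans ?_
  have : ∀ i ∈ Finset.range k, |c.coeff i * z (j + i)| ≤ B * V := by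
    intro i hi
    rw [abs_mul]
    have h0 : 0 ≤ B := (abs_nonneg _).trans (hc i)
    exact mul_le_mul (hc i) (hz i (Finset.mem_range.1 hi)) (abs_nonneg _) h0
  have h2 := Finset.sum_le_card_nsmul _ _ _ this
  rw [Finset.card_range, nsmul_eq_mul] at h2
  exact h2

/-- first order expansion modulo the square of the increment -/
private theorem sq15_pow (r t : ℤ) (m : ℕ) :
    t ^ 2 ∣ (r + t) ^ m - (r ^ m + m * r ^ (m - 1) * t) := by
  induction m with
  | zero => simp
  | succ m ih =>
    obtain ⟨d, hd⟩ := ih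
    have hm : (m : ℤ) * r ^ m = m * r ^ (m - 1) * r := by
      rcases Nat.eq_zero_or_pos m with h0 | h0
      · subst h0; simp
      · obtain ⟨s, rfl⟩ := Nat.exists_eq_succ_of_ne_zero h0.ne'
        simp only [Nat.succ_eq_add_one, Nat.add_sub_cancel]
        ring
    refine ⟨d * (r + t) + m * r ^ (m - 1), ?_⟩
    have e1 : (r + t) ^ m = r ^ m + m * r ^ (m - 1) * t + t ^ 2 * d := by linarith
    rw [pow_succ, e1, Nat.add_sub_cancel]
    push_cast
    have : (m + 1 : ℤ) * r ^ m = m * r ^ (m - 1) * r + r ^ m := by linarith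
    rw [this]
    ring

theorem ann_many (n k p W B : ℕ) (r : ℤ) (hp : p.Prime) (hk : 0 < k) (hkn : k + 1 ≤ n)
    (hB : k * B * W < p ^ 2) (hbad : BadR n W p r) :
    ∃ z : ℕ → ℤ, (∀ c, Ann z k (n - k) c → (p : ℤ) ∣ c.eval r) ∧
      ∃ T : Finset ℤ[X], (∀ c ∈ T, Ann z k (n - k) c ∧ ∀ i, |c.coeff i| ≤ B) ∧
        (B + 1) ^ k ≤ p ^ 2 * T.card := by
  classical
  obtain ⟨u, v, huv, hw⟩ := hbad
  have hpZ : Prime (p : ℤ) := Nat.prime_iff_prime_int.1 hp
  have hp0 : (0 : ℤ) < p := by exact_mod_cast hp.pos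
  have hBZ : (k : ℤ) * (B * W) < (p : ℤ) ^ 2 := by
    have : ((k * B * W : ℕ) : ℤ) < ((p ^ 2 : ℕ) : ℤ) := by exact_mod_cast hB
    push_cast at this
    linarith [mul_assoc (k : ℤ) B W]
  have hw' : ∀ j, ∃ w : ℤ, j < n →
      ((p : ℤ) ^ 2 ∣ u * r ^ j + p * v * (j * r ^ (j - 1)) - w ∧ |w| ≤ W) := by
    intro j
    by_cases hj : j < n
    · obtain ⟨w, h1, h2⟩ := hw j hj
      exact ⟨w, fun _ => ⟨h1, h2⟩⟩
    · exact ⟨0, fun h => absurd h hj⟩
  choose w hw1 using hw'
  by_cases hu : (p : ℤ) ∣ u
  · -- second case: `u = p u0`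
    obtain ⟨u0, rfl⟩ := hu
    have hpw : ∀ j, ∃ y : ℤ, j < n → w j = p * y := by
      intro j
      by_cases hj : j < n
      · have h1 := (hw1 j hj).1
        have h2 : (p : ℤ) ∣ p * u0 * r ^ j + p * v * (j * r ^ (j - 1)) - w j :=
          (dvd_pow_self _ two_ne_zero).trans h1
        have h3 : (p : ℤ) ∣ p * u0 * r ^ j + p * v * (j * r ^ (j - 1)) :=
          ⟨u0 * r ^ j + v * (j * r ^ (j - 1)), by ring⟩
        obtain ⟨y, hy⟩ := (dvd_sub_right h3).1 h2
        exact ⟨y, fun _ => hy⟩
      · exact ⟨0, fun h => absurd h hj⟩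
    choose z hz using hpw
    have hzc : ∀ j < n, (p : ℤ) ∣ u0 * r ^ j + v * (j * r ^ (j - 1)) - z j := by
      intro j hj
      have h1 := (hw1 j hj).1
      rw [hz j hj] at h1
      obtain ⟨d, hd⟩ := h1
      refine ⟨d, ?_⟩
      have h2 : (p : ℤ) * (u0 * r ^ j + v * (j * r ^ (j - 1)) - z j) = p * (p * d) := by
        linear_combination hd
      exact mul_left_cancel₀ hp0.ne' h2
    have hzb : ∀ j < n, (p : ℤ) * |z j| ≤ W := by
      intro j hj
      have h1 := (hw1 j hj).2
      rw [hz j hj, abs_mul, abs_of_pos hp0] at h1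
      exact h1
    -- the windows modulo `p`
    have key : ∀ c : ℤ[X], c.natDegree < k → ∀ j ≤ n - k,
        (p : ℤ) ∣ (u0 * r ^ j + v * (j * r ^ (j - 1))) * c.eval r +
          v * r ^ j * c.derivative.eval r - ∑ i ∈ Finset.range k, c.coeff i * z (j + i) := by
      intro c hc j hj
      have e : (u0 * r ^ j + v * (j * r ^ (j - 1))) * c.eval r +
          v * r ^ j * c.derivative.eval r - ∑ i ∈ Finset.range k, c.coeff i * z (j + i) =
          ∑ i ∈ Finset.range k, c.coeff i *
            (u0 * r ^ (j + i) + v * (((j + i : ℕ) : ℤ) * r ^ (j + i - 1)) - z (j + i)) := by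
        rw [sq15_eval hc, sq15_deriv hc, Finset.mul_sum, Finset.mul_sum, ← Finset.sum_add_distrib,
          ← Finset.sum_sub_distrib]
        refine Finset.sum_congr rfl fun i _ => ?_
        have h1 : ((j + i : ℕ) : ℤ) * r ^ (j + i - 1) =
            j * r ^ (j - 1) * r ^ i + r ^ j * (i * r ^ (i - 1)) := by
          rcases Nat.eq_zero_or_pos j with h0 | h0
          · subst h0; simp
          · rcases Nat.eq_zero_or_pos i with h3 | h3
            · subst h3; simp
            · obtain ⟨s, rfl⟩ := Nat.exists_eq_succ_of_ne_zero h0.ne'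
              obtain ⟨t, rfl⟩ := Nat.exists_eq_succ_of_ne_zero h3.ne'
              have h4 : s.succ + t.succ - 1 = s + t + 1 := by omega
              rw [h4]
              simp only [Nat.succ_eq_add_one, Nat.add_sub_cancel]
              push_cast
              ring
        rw [h1, pow_add]
        ring
      rw [e]
      refine Finset.dvd_sum fun i hi => ?_
      have hi' := Finset.mem_range.1 hi
      exact (hzc (j + i) (by omega)).mul_left _
    refine ⟨z, ?_, ?_⟩
    · rintro c ⟨hc, hcz⟩
      have k0 := key c hc 0 (Nat.zero_le _)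
      have k1 := key c hc 1 (by omega)
      rw [hcz 0 (Nat.zero_le _)] at k0
      rw [hcz 1 (by omega)] at k1
      simp only [pow_zero, mul_one, Nat.cast_zero, zero_mul, mul_zero, add_zero, sub_zero,
        pow_one, Nat.cast_one, Nat.sub_self] at k0 k1
      have k2 : (p : ℤ) ∣ v * c.eval r := by
        have h1 := dvd_sub k1 (k0.mul_left r)
        have e : (u0 * r + v) * eval r c + v * r * eval r (derivative c) -
            r * (u0 * eval r c + v * eval r (derivative c)) = v * c.eval r := by ring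
        rwa [e] at h1
      rcases hpZ.dvd_or_dvd k2 with h | h
      · have k3 : (p : ℤ) ∣ u0 * c.eval r := (dvd_add_left (h.mul_right _)).1 k0
        rcases hpZ.dvd_or_dvd k3 with h' | h'
        · exfalso
          refine huv ⟨?_, h⟩
          rw [pow_two]
          exact mul_dvd_mul_left _ h'
        · exact h'
      · exact h
    · have : NeZero p := ⟨hp.ne_zero⟩
      let κ : ℤ[X] →+ ZMod p × ZMod p :=
        { toFun := fun c => (((c.eval r : ℤ) : ZMod p), ((c.derivative.eval r : ℤ) : ZMod p))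
          map_zero' := by simp
          map_add' := by intro a b; simp }
      obtain ⟨T, hT, hcard⟩ := sq15_pigeon κ k B hk
      refine ⟨T, ?_, ?_⟩
      · intro c hc
        obtain ⟨h1, h2, h3⟩ := hT c hc
        have h4 : (((c.eval r : ℤ) : ZMod p), ((c.derivative.eval r : ℤ) : ZMod p)) = 0 := h1
        have h5 : (p : ℤ) ∣ c.eval r := by
          have := congrArg Prod.fst h4
          exact (ZMod.intCast_zmod_eq_zero_iff_dvd _ _).1 this
        have h6 : (p : ℤ) ∣ c.derivative.eval r := by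
          have := congrArg Prod.snd h4
          exact (ZMod.intCast_zmod_eq_zero_iff_dvd _ _).1 this
        refine ⟨⟨h2, ?_⟩, h3⟩
        intro j hj
        refine sq15_zero (q := p) ?_ ?_
        · have := key c h2 j hj
          exact (dvd_sub_right (dvd_add (h5.mul_left _) (h6.mul_left _))).1 this
        · have h7 : |∑ i ∈ Finset.range k, c.coeff i * ((p : ℤ) * z (j + i))| ≤
              k * ((B : ℤ) * W) :=
            sq15_abs (z := fun m => (p : ℤ) * z m) h3 fun i hi => by
              rw [abs_mul, abs_of_pos hp0]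
              exact hzb (j + i) (by omega)
          have h8 : ∑ i ∈ Finset.range k, c.coeff i * ((p : ℤ) * z (j + i)) =
              p * ∑ i ∈ Finset.range k, c.coeff i * z (j + i) := by
            rw [Finset.mul_sum]
            exact Finset.sum_congr rfl fun i _ => by ring
          rw [h8, abs_mul, abs_of_pos hp0] at h7
          have h9 : (p : ℤ) * |∑ i ∈ Finset.range k, c.coeff i * z (j + i)| < p * p := by
            rw [← pow_two]
            exact h7.trans_lt hBZ
          exact lt_of_mul_lt_mul_left h9 hp0.le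
      · rw [Fintype.card_prod, ZMod.card, ← pow_two] at hcard
        exact hcard
  · -- first case: `u` is a unit modulo `p ^ 2`
    have hcop : IsCoprime u ((p : ℤ) ^ 2) := by
      have := (Prime.coprime_iff_not_dvd hpZ).2 hu
      exact this.symm.pow_right
    obtain ⟨u', y, huy⟩ := hcop
    set ρ : ℤ := r + p * v * u' with hρ
    have hwc : ∀ j < n, (p : ℤ) ^ 2 ∣ u * ρ ^ j - w j := by
      intro j hj
      obtain ⟨d, hd⟩ := (hw1 j hj).1
      obtain ⟨e, he⟩ := sq15_pow r (p * v * u') j
      rw [← hρ] at he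
      refine ⟨d + u * (v * u') ^ 2 * e - v * (j * r ^ (j - 1)) * p * y, ?_⟩
      have e1 : ρ ^ j = r ^ j + j * r ^ (j - 1) * (p * v * u') + (p * v * u') ^ 2 * e := by
        linarith
      have e2 : w j = u * r ^ j + p * v * (j * r ^ (j - 1)) - (p : ℤ) ^ 2 * d := by linarith
      rw [e1, e2]
      linear_combination (p * v * (j * r ^ (j - 1)) : ℤ) * huy
    have key : ∀ c : ℤ[X], c.natDegree < k → ∀ j ≤ n - k,
        (p : ℤ) ^ 2 ∣ u * ρ ^ j * c.eval ρ - ∑ i ∈ Finset.range k, c.coeff i * w (j + i) := by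
      intro c hc j hj
      have e : u * ρ ^ j * c.eval ρ - ∑ i ∈ Finset.range k, c.coeff i * w (j + i) =
          ∑ i ∈ Finset.range k, c.coeff i * (u * ρ ^ (j + i) - w (j + i)) := by
        rw [sq15_eval hc, Finset.mul_sum, ← Finset.sum_sub_distrib]
        refine Finset.sum_congr rfl fun i _ => ?_
        rw [pow_add]
        ring
      rw [e]
      refine Finset.dvd_sum fun i hi => ?_
      have hi' := Finset.mem_range.1 hi
      exact (hwc (j + i) (by omega)).mul_left _
    refine ⟨w, ?_, ?_⟩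
    · rintro c ⟨hc, hcz⟩
      have k0 := key c hc 0 (Nat.zero_le _)
      rw [hcz 0 (Nat.zero_le _), pow_zero, mul_one, sub_zero] at k0
      have k1 : (p : ℤ) ∣ u * c.eval ρ := (dvd_pow_self _ two_ne_zero).trans k0
      have k2 : (p : ℤ) ∣ c.eval ρ := (hpZ.dvd_or_dvd k1).resolve_left hu
      have k3 : ρ - r ∣ c.eval ρ - c.eval r := sub_dvd_eval_sub _ _ _
      have k4 : (p : ℤ) ∣ ρ - r := ⟨v * u', by rw [hρ]; ring⟩
      exact (dvd_sub_right k2).1 (k4.trans k3)
    · have : NeZero (p ^ 2) := ⟨pow_ne_zero _ hp.ne_zero⟩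
      let κ : ℤ[X] →+ ZMod (p ^ 2) :=
        { toFun := fun c => ((c.eval ρ : ℤ) : ZMod (p ^ 2))
          map_zero' := by simp
          map_add' := by intro a b; simp }
      obtain ⟨T, hT, hcard⟩ := sq15_pigeon κ k B hk
      refine ⟨T, ?_, ?_⟩
      · intro c hc
        obtain ⟨h1, h2, h3⟩ := hT c hc
        have h5 : (p : ℤ) ^ 2 ∣ c.eval ρ := by
          have h4 : ((c.eval ρ : ℤ) : ZMod (p ^ 2)) = 0 := h1
          have := (ZMod.intCast_zmod_eq_zero_iff_dvd _ _).1 h4
          exact_mod_cast this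
        refine ⟨⟨h2, ?_⟩, h3⟩
        intro j hj
        refine sq15_zero (q := (p : ℤ) ^ 2) ?_ ?_
        · have := key c h2 j hj
          exact (dvd_sub_right (h5.mul_left _)).1 this
        · exact (sq15_abs (V := (W : ℤ)) h3 fun i hi => (hw1 (j + i) (by omega)).2).trans_lt hBZ
      · rw [ZMod.card] at hcard
        exact hcard

end Pool.Agent.H92.SQ
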