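import Pool.Agent.H92.SQ.Defs

/-!
# SQ-16: the minimal recurrence divides all annihilators
-/

set_option autoImplicit false

open Polynomial

namespace Pool.Agent.H92.SQ

/-- the linear form `X^i ↦ z i` -/
noncomputable def sq16_lam (z : ℕ → ℤ) : ℤ[X] →ₗ[ℤ] ℤ :=
  Polynomial.lsum fun i => LinearMap.mulRight ℤ (z i)

theorem sq16_lam_monomial (z : ℕ → ℤ) (i : ℕ) (a : ℤ) :
    sq16_lam z (monomial i a) = a * z i := by
  rw [sq16_lam, Polynomial.lsum_apply, Polynomial.sum_monomial_index]
  · simp
  · simp

theorem sq16_window (z : ℕ → ℤ) (k j : ℕ) (c : ℤ[X]) (hc : c.natDegree < k) :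
    sq16_lam z (X ^ j * c) = ∑ i ∈ Finset.range k, c.coeff i * z (j + i) := by
  conv_lhs => rw [Polynomial.as_sum_range' c k hc]
  rw [Finset.mul_sum, map_sum]
  refine Finset.sum_congr rfl fun i _ => ?_
  rw [X_pow_mul_monomial, sq16_lam_monomial, add_comm]

theorem sq16_mul (z : ℕ → ℤ) (k J : ℕ) (c q : ℤ[X]) (hc : Ann z k J c) (hq : q.natDegree ≤ J) :
    sq16_lam z (q * c) = 0 := by
  conv_lhs => rw [Polynomial.as_sum_range' q (J + 1) (Nat.lt_succ_of_le hq)]
  rw [Finset.sum_mul, map_sum]
  refine Finset.sum_eq_zero fun j hj => ?_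
  have h1 : (monomial j (q.coeff j) : ℤ[X]) * c = q.coeff j • (X ^ j * c) := by
    rw [← C_mul_X_pow_eq_monomial, smul_eq_C_mul, mul_assoc]
  rw [h1, map_smul, sq16_window z k j c hc.1,
    hc.2 j (Nat.lt_succ_iff.mp (Finset.mem_range.mp hj)), smul_zero]

theorem sq16_ann (z : ℕ → ℤ) (k J : ℕ) (c : ℤ[X]) (hc : c.natDegree < k)
    (h : ∀ j ≤ J, sq16_lam z (X ^ j * c) = 0) : Ann z k J c :=
  ⟨hc, fun j hj => by rw [← sq16_window z k j c hc]; exact h j hj⟩

/-- pseudo-division -/
theorem sq16_pseudo (g : ℤ[X]) (hg : g ≠ 0) : ∀ (N : ℕ) (c : ℤ[X]), c.natDegree < N →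
    ∃ (m : ℤ) (Q R : ℤ[X]), m ≠ 0 ∧ C m * c = Q * g + R ∧ (R = 0 ∨ R.natDegree < g.natDegree) := by
  intro N
  induction N with
  | zero => intro c hc; omega
  | succ N ih =>
    intro c hc
    by_cases hlt : c.natDegree < g.natDegree
    · exact ⟨1, 0, c, one_ne_zero, by simp, Or.inr hlt⟩
    · push Not at hlt
      by_cases hc0 : c = 0
      · exact ⟨1, 0, 0, one_ne_zero, by simp [hc0], Or.inl rfl⟩
      by_cases he : g.natDegree = 0
      · -- `g` is a constant
        obtain ⟨a, ha⟩ := Polynomial.natDegree_eq_zero.mp he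
        have ha0 : a ≠ 0 := by
          rintro rfl
          apply hg
          rw [← ha, C_0]
        exact ⟨a, c, 0, ha0, by rw [← ha]; ring, Or.inl rfl⟩
      set c' : ℤ[X] := C g.leadingCoeff * c -
        C c.leadingCoeff * X ^ (c.natDegree - g.natDegree) * g with hc'
      have hlt' : c' = 0 ∨ c'.natDegree < c.natDegree := by
        by_cases h0 : c' = 0
        · exact Or.inl h0
        right
        rw [Nat.lt_iff_le_and_ne]
        have hle : c'.natDegree ≤ c.natDegree := by
          rw [hc']
          refine (natDegree_sub_le _ _).trans (max_le ?_ ?_)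
          · exact natDegree_C_mul_le _ _
          · refine natDegree_mul_le.trans ?_
            have h2 : (C c.leadingCoeff * X ^ (c.natDegree - g.natDegree) : ℤ[X]).natDegree ≤
                c.natDegree - g.natDegree := natDegree_C_mul_X_pow_le _ _
            omega
        refine ⟨hle, fun heq => ?_⟩
        have h3 : c'.coeff c.natDegree = 0 := by
          rw [hc', coeff_sub, coeff_C_mul, mul_assoc, coeff_C_mul, coeff_X_pow_mul',
            if_pos (Nat.sub_le _ _)]
          have h4 : c.natDegree - (c.natDegree - g.natDegree) = g.natDegree := by omega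
          rw [h4]
          change g.leadingCoeff * c.leadingCoeff - c.leadingCoeff * g.leadingCoeff = 0
          ring
        have h5 : c'.leadingCoeff = 0 := by
          rw [leadingCoeff, heq, h3]
        exact h0 (leadingCoeff_eq_zero.mp h5)
      rcases hlt' with h0 | hlt'
      · refine ⟨g.leadingCoeff, C c.leadingCoeff * X ^ (c.natDegree - g.natDegree), 0,
          leadingCoeff_ne_zero.mpr hg, ?_, Or.inl rfl⟩
        rw [add_zero]
        exact sub_eq_zero.mp h0
      · obtain ⟨m, Q, R, hm, h1, h2⟩ := ih c' (by omega)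
        refine ⟨m * g.leadingCoeff,
          Q + C m * (C c.leadingCoeff * X ^ (c.natDegree - g.natDegree)), R,
          mul_ne_zero hm (leadingCoeff_ne_zero.mpr hg), ?_, h2⟩
        have h3 : C m * (C g.leadingCoeff * c) = C m * c' +
            C m * (C c.leadingCoeff * X ^ (c.natDegree - g.natDegree) * g) := by
          rw [hc']; ring
        rw [C_mul, mul_assoc, h3, h1]
        ring

/-- an annihilator of least degree divides all the others, up to constants -/
theorem sq16_key (z : ℕ → ℤ) (k J : ℕ) (hJ : k ≤ J + 2) (g : ℤ[X]) (hg : g ≠ 0)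
    (hga : Ann z k J g) (hmin : ∀ c, c ≠ 0 → Ann z k J c → g.natDegree ≤ c.natDegree)
    (c : ℤ[X]) (hc : Ann z k J c) : ∃ m : ℤ, m ≠ 0 ∧ g ∣ C m * c := by
  obtain ⟨m, Q, R, hm, h1, h2⟩ := sq16_pseudo g hg _ c (Nat.lt_succ_self _)
  refine ⟨m, hm, ?_⟩
  have hR : R = 0 := by
    by_contra hR
    have hRd : R.natDegree < g.natDegree := h2.resolve_left hR
    set e := g.natDegree with he
    have hk : e < k := hga.1
    have hR' : R = C m * c - Q * g := by rw [h1]; ring
    -- the degree of `Q`
    have hQ : Q.natDegree ≤ k - 1 - e := by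
      by_cases hQ0 : Q = 0
      · rw [hQ0, natDegree_zero]; exact Nat.zero_le _
      have h3 : (Q * g).natDegree = Q.natDegree + e := natDegree_mul hQ0 hg
      have h4 : Q * g = C m * c - R := by rw [h1]; ring
      have h5 : (Q * g).natDegree ≤ max c.natDegree R.natDegree := by
        rw [h4]
        exact (natDegree_sub_le _ _).trans (max_le_max (natDegree_C_mul_le _ _) le_rfl)
      have h6 : max c.natDegree R.natDegree ≤ k - 1 := by
        have := hc.1
        exact max_le (by omega) (by omega)
      omega
    have hy : ∀ j ≤ J, sq16_lam z (X ^ j * R) = 0 := by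
      intro j
      induction j using Nat.strong_induction_on with
      | _ j ih =>
        intro hj
        by_cases hjs : j + (k - 1 - e) ≤ J
        · have h3 : X ^ j * R = (X ^ j * C m) * c - (X ^ j * Q) * g := by rw [hR']; ring
          rw [h3, map_sub, sq16_mul z k J c _ hc, sq16_mul z k J g _ hga, sub_zero]
          · refine natDegree_mul_le.trans ?_
            rw [natDegree_X_pow]
            omega
          · refine natDegree_mul_le.trans ?_
            rw [natDegree_X_pow, natDegree_C]
            omega
        · have hje : e ≤ j := by omega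
          -- write the leading term of `g` through the others
          have h3 : g.leadingCoeff * sq16_lam z (X ^ j * R) = 0 := by
            have h4 : g = C g.leadingCoeff * X ^ e + g.eraseLead := by
              rw [he]
              exact (g.eraseLead_add_C_mul_X_pow).symm.trans (add_comm _ _)
            have h5 : g.leadingCoeff • (X ^ j * R) = (X ^ (j - e) * R) * g -
                ∑ i ∈ Finset.range e, g.eraseLead.coeff i • (X ^ (j - e + i) * R) := by
              have h6 : g.eraseLead = ∑ i ∈ Finset.range e, C (g.eraseLead.coeff i) * X ^ i := by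
                by_cases he0 : g.eraseLead = 0
                · rw [he0]; simp
                · have h7 : g.eraseLead.natDegree < e := by
                    rcases g.eraseLead_natDegree_lt_or_eraseLead_eq_zero with h | h
                    · exact h
                    · exact absurd h he0
                  exact (g.eraseLead.as_sum_range_C_mul_X_pow' h7)
              have h8 : ∑ i ∈ Finset.range e, g.eraseLead.coeff i • (X ^ (j - e + i) * R) =
                  X ^ (j - e) * R * g.eraseLead := by
                conv_rhs => rw [h6]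
                rw [Finset.mul_sum]
                refine Finset.sum_congr rfl fun i _ => ?_
                rw [smul_eq_C_mul, pow_add]
                ring
              rw [h8, smul_eq_C_mul]
              have h9 : (X : ℤ[X]) ^ j = X ^ (j - e) * X ^ e := by
                rw [← pow_add, Nat.sub_add_cancel hje]
              rw [h9]
              have h10 : X ^ (j - e) * R * g = X ^ (j - e) * R * (C g.leadingCoeff * X ^ e) +
                  X ^ (j - e) * R * g.eraseLead := by
                rw [← mul_add, ← h4]
              rw [h10]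
              ring
            rw [← smul_eq_mul, ← map_smul, h5, map_sub, map_sum, sq16_mul z k J g _ hga, zero_sub,
              neg_eq_zero]
            · refine Finset.sum_eq_zero fun i hi => ?_
              have hi' := Finset.mem_range.mp hi
              rw [map_smul, ih (j - e + i) (by omega) (by omega), smul_zero]
            · refine natDegree_mul_le.trans ?_
              rw [natDegree_X_pow]
              omega
          exact (mul_eq_zero.mp h3).resolve_left (leadingCoeff_ne_zero.mpr hg)
    have h3 := hmin R hR (sq16_ann z k J R (by omega) hy)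
    omega
  rw [h1, hR, add_zero]
  exact dvd_mul_left _ _

theorem min_rec (z : ℕ → ℤ) (k J : ℕ) (hJ : k ≤ J + 2) (hne : ∃ c, c ≠ 0 ∧ Ann z k J c) :
    ∃ g : ℤ[X], g ≠ 0 ∧ g.IsPrimitive ∧ Ann z k J g ∧ ∀ c, Ann z k J c → g ∣ c := by
  classical
  have hex : ∃ e, ∃ c : ℤ[X], c ≠ 0 ∧ Ann z k J c ∧ c.natDegree = e := by
    obtain ⟨c, h0, h1⟩ := hne
    exact ⟨_, c, h0, h1, rfl⟩
  obtain ⟨g0, hg0, hga, hgd⟩ := Nat.find_spec hex
  have hmin : ∀ c, c ≠ 0 → Ann z k J c → g0.natDegree ≤ c.natDegree := by
    intro c h0 h1
    rw [hgd]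
    exact Nat.find_min' hex ⟨c, h0, h1, rfl⟩
  have hcont : g0.content ≠ 0 := by
    rw [Ne, content_eq_zero_iff]
    exact hg0
  have hg1 : g0 = C g0.content * g0.primPart := g0.eq_C_content_mul_primPart
  have hg : g0.primPart ≠ 0 := g0.primPart_ne_zero
  have hd : g0.primPart.natDegree = g0.natDegree := g0.natDegree_primPart
  have hgann : Ann z k J g0.primPart := by
    refine sq16_ann z k J _ (by rw [hd]; exact hga.1) fun j hj => ?_
    have h1 : sq16_lam z (X ^ j * g0) = 0 := by
      rw [sq16_window z k j g0 hga.1]
      exact hga.2 j hj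
    have h2 : X ^ j * g0 = g0.content • (X ^ j * g0.primPart) := by
      conv_lhs => rw [hg1]
      rw [smul_eq_C_mul]
      ring
    rw [h2, map_smul, smul_eq_mul] at h1
    exact (mul_eq_zero.mp h1).resolve_left hcont
  refine ⟨g0.primPart, hg, g0.isPrimitive_primPart, hgann, fun c hc => ?_⟩
  obtain ⟨m, hm, hdvd⟩ := sq16_key z k J hJ g0.primPart hg hgann (by rw [hd]; exact hmin) c hc
  by_cases hc0 : c = 0
  · rw [hc0]; exact dvd_zero _
  have hm0 : C m * c ≠ 0 := mul_ne_zero (C_ne_zero.mpr hm) hc0
  have h1 : g0.primPart ∣ (C m * c).primPart :=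
    (g0.isPrimitive_primPart.dvd_primPart_iff_dvd hm0).mpr hdvd
  rw [primPart_mul hm0] at h1
  have h2 : g0.primPart ∣ c.primPart :=
    (isUnit_primPart_C m).dvd_mul_left.mp h1
  exact (g0.isPrimitive_primPart.dvd_primPart_iff_dvd hc0).mp h2

end Pool.Agent.H92.SQ
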