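import Pool.Agent.H92.SQ.Defs

/-!
# Project SQ, row SQ-17: counts of integer polynomials through the Mahler measure
-/

set_option autoImplicit false

open Polynomial

namespace Pool.Agent.H92.SQ

private theorem coeff_le_MM (g : ℤ[X]) {n : ℕ} (hn : g.natDegree ≤ n) (i : ℕ) :
    |(g.coeff i : ℝ)| ≤ 2 ^ n * MM g := by
  have h1 := norm_coeff_le_choose_mul_mahlerMeasure i (g.map (Int.castRingHom ℂ))
  have h2 : ‖(g.map (Int.castRingHom ℂ)).coeff i‖ = |(g.coeff i : ℝ)| := by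
    rw [coeff_map, eq_intCast]
    exact Complex.norm_intCast _
  rw [h2] at h1
  refine h1.trans ?_
  have h3 : (((g.map (Int.castRingHom ℂ)).natDegree.choose i : ℕ) : ℝ) ≤ 2 ^ n := by
    have h4 : (g.map (Int.castRingHom ℂ)).natDegree ≤ n := natDegree_map_le.trans hn
    have h5 := Nat.choose_le_two_pow (g.map (Int.castRingHom ℂ)).natDegree i
    have h6 : (2 : ℕ) ^ (g.map (Int.castRingHom ℂ)).natDegree ≤ 2 ^ n :=
      Nat.pow_le_pow_right (by norm_num) h4
    exact_mod_cast h5.trans h6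
  exact mul_le_mul_of_nonneg_right h3 (mahlerMeasure_nonneg _)

private theorem MM_le (c : ℤ[X]) {k : ℕ} (hk : c.natDegree < k) {B : ℕ}
    (hB : ∀ i, |c.coeff i| ≤ B) : MM c ≤ k * B := by
  refine (mahlerMeasure_le_sum_norm_coeff _).trans ?_
  rw [Polynomial.sum_over_range' _ (fun n => norm_zero) k
    (lt_of_le_of_lt natDegree_map_le hk)]
  refine (Finset.sum_le_card_nsmul _ _ (B : ℝ) fun i _ => ?_).trans ?_
  · rw [coeff_map, eq_intCast, Complex.norm_intCast]
    exact_mod_cast hB i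
  · simp

private theorem card_box (m : ℕ) (R : ℝ) (hR : 0 ≤ R) (T : Finset ℤ[X])
    (hT : ∀ c ∈ T, c.natDegree < m ∧ ∀ i, |(c.coeff i : ℝ)| ≤ R) :
    (T.card : ℝ) ≤ (2 * R + 1) ^ m := by
  classical
  have h1 : T.card ≤ (Fintype.piFinset fun _ : Fin m => Finset.Icc (-⌊R⌋) ⌊R⌋).card := by
    refine Finset.card_le_card_of_injOn (fun c => fun i : Fin m => c.coeff i) ?_ ?_
    · intro c hc
      rw [Finset.mem_coe, Fintype.mem_piFinset]
      intro i
      have h2 := abs_le.1 ((hT c hc).2 i)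
      rw [Finset.mem_Icc]
      constructor
      · rw [neg_le]
        refine Int.le_floor.2 ?_
        push_cast
        linarith [h2.1]
      · exact Int.le_floor.2 h2.2
    · intro c hc d hd hcd
      ext i
      by_cases hi : i < m
      · exact congrFun hcd ⟨i, hi⟩
      · rw [coeff_eq_zero_of_natDegree_lt (lt_of_lt_of_le (hT c hc).1 (not_lt.1 hi)),
          coeff_eq_zero_of_natDegree_lt (lt_of_lt_of_le (hT d hd).1 (not_lt.1 hi))]
  rw [Fintype.card_piFinset, Finset.prod_const, Finset.card_univ, Fintype.card_fin,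
    Int.card_Icc] at h1
  have h3 : (((⌊R⌋ + 1 - -⌊R⌋).toNat : ℕ) : ℝ) ≤ 2 * R + 1 := by
    have h4 : 0 ≤ ⌊R⌋ := Int.floor_nonneg.2 hR
    have h5 : (((⌊R⌋ + 1 - -⌊R⌋).toNat : ℕ) : ℝ) = ((⌊R⌋ + 1 - -⌊R⌋ : ℤ) : ℝ) := by
      rw [← Int.cast_natCast, Int.toNat_of_nonneg (by omega)]
    rw [h5]
    push_cast
    linarith [Int.floor_le R]
  calc (T.card : ℝ) ≤ (((⌊R⌋ + 1 - -⌊R⌋).toNat ^ m : ℕ) : ℝ) := by exact_mod_cast h1
    _ = (((⌊R⌋ + 1 - -⌊R⌋).toNat : ℕ) : ℝ) ^ m := by push_cast; rfl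
    _ ≤ (2 * R + 1) ^ m := by gcongr

theorem mult_count (g : ℤ[X]) (hg : g ≠ 0) (k B : ℕ) (hgk : g.natDegree < k) (T : Finset ℤ[X])
    (hT : ∀ c ∈ T, g ∣ c ∧ c.natDegree < k ∧ ∀ i, |c.coeff i| ≤ B) :
    (T.card : ℝ) ≤ (2 ^ (k + 1) * k * B / MM g + 1) ^ (k - g.natDegree) := by
  classical
  have hMg : 0 < MM g := by
    refine mahlerMeasure_pos_of_ne_zero ?_
    rwa [Ne, Polynomial.map_eq_zero_iff (Int.castRingHom ℂ).injective_int]
  have hex : ∀ c, ∃ Q : ℤ[X], c ∈ T → c = g * Q := by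
    intro c
    by_cases hc : c ∈ T
    · obtain ⟨Q, hQ⟩ := (hT c hc).1
      exact ⟨Q, fun _ => hQ⟩
    · exact ⟨0, fun h => absurd h hc⟩
  choose Q hQ using hex
  have hinj : Set.InjOn Q T := by
    intro c hc d hd hcd
    rw [hQ c hc, hQ d hd, hcd]
  rw [← Finset.card_image_of_injOn hinj]
  have hR : 0 ≤ 2 ^ k * (k * B / MM g) := by positivity
  have key := card_box (k - g.natDegree) (2 ^ k * (k * B / MM g)) hR (T.image Q) ?_
  · refine key.trans (le_of_eq ?_)
    congr 1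
    rw [pow_succ]
    ring
  · intro q hq
    obtain ⟨c, hc, rfl⟩ := Finset.mem_image.1 hq
    have hcQ := hQ c hc
    have hdeg : (Q c).natDegree < k - g.natDegree := by
      by_cases hQ0 : Q c = 0
      · rw [hQ0, natDegree_zero]; omega
      · have h1 := (hT c hc).2.1
        rw [hcQ, natDegree_mul hg hQ0] at h1
        omega
    refine ⟨hdeg, fun i => ?_⟩
    have h2 : MM c = MM g * MM (Q c) := by
      conv_lhs => rw [hcQ]
      rw [MM, Polynomial.map_mul, mahlerMeasure_mul]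
      rfl
    have h3 : MM c ≤ k * B := MM_le c (hT c hc).2.1 (hT c hc).2.2
    have h4 : MM (Q c) ≤ k * B / MM g := by
      rw [le_div_iff₀ hMg, mul_comm, ← h2]
      exact h3
    refine (coeff_le_MM (Q c) (by omega : (Q c).natDegree ≤ k) i).trans ?_
    gcongr

open scoped Classical in
theorem root_count (p e : ℕ) (hp : p.Prime) (M0 : ℝ) (hM : 0 ≤ M0) :
    ((((Finset.range p).filter fun r : ℕ => ∃ g : ℤ[X], g.IsPrimitive ∧ g.natDegree = e ∧
      MM g ≤ M0 ∧ (p : ℤ) ∣ g.eval (r : ℤ)).card : ℕ) : ℝ) ≤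
      e * (2 ^ (e + 1) * M0 + 1) ^ (e + 1) := by
  have : Fact p.Prime := ⟨hp⟩
  have hfin : {g : ℤ[X] | g.natDegree ≤ e ∧ MM g ≤ M0}.Finite := by
    have := finite_mahlerMeasure_le e ⟨M0, hM⟩
    exact this
  set F : Finset ℤ[X] := hfin.toFinset.filter fun g => g.IsPrimitive ∧ g.natDegree = e with hF
  have hFcard : (F.card : ℝ) ≤ (2 ^ (e + 1) * M0 + 1) ^ (e + 1) := by
    have key := card_box (e + 1) (2 ^ e * M0) (by positivity) F ?_
    · refine key.trans (le_of_eq ?_)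
      congr 1
      rw [pow_succ]
      ring
    · intro c hc
      rw [hF, Finset.mem_filter, Set.Finite.mem_toFinset] at hc
      obtain ⟨⟨h1, h2⟩, h3, h4⟩ := hc
      refine ⟨by omega, fun i => (coeff_le_MM c h1 i).trans ?_⟩
      gcongr
  have hsub : ((Finset.range p).filter fun r : ℕ => ∃ g : ℤ[X], g.IsPrimitive ∧
      g.natDegree = e ∧ MM g ≤ M0 ∧ (p : ℤ) ∣ g.eval (r : ℤ)) ⊆
      F.biUnion fun g => (Finset.range p).filter fun r : ℕ => (p : ℤ) ∣ g.eval (r : ℤ) := by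
    intro r hr
    rw [Finset.mem_filter] at hr
    obtain ⟨hr, g, h1, h2, h3, h4⟩ := hr
    rw [Finset.mem_biUnion]
    refine ⟨g, ?_, Finset.mem_filter.2 ⟨hr, h4⟩⟩
    rw [hF, Finset.mem_filter, Set.Finite.mem_toFinset]
    exact ⟨⟨h2.le, h3⟩, h1, h2⟩
  have hone : ∀ g ∈ F, ((Finset.range p).filter fun r : ℕ => (p : ℤ) ∣ g.eval (r : ℤ)).card ≤ e := by
    intro g hg
    rw [hF, Finset.mem_filter] at hg
    obtain ⟨-, h1, h2⟩ := hg
    set gp : (ZMod p)[X] := g.map (Int.castRingHom (ZMod p)) with hgp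
    have hgp0 : gp ≠ 0 := by
      intro h0
      have h3 : C (p : ℤ) ∣ g := by
        rw [C_dvd_iff_dvd_coeff]
        intro i
        have h4 : gp.coeff i = 0 := by rw [h0, coeff_zero]
        rw [hgp, coeff_map, eq_intCast] at h4
        exact (ZMod.intCast_zmod_eq_zero_iff_dvd _ _).1 h4
      have h5 := h1 _ h3
      have h6 := Int.isUnit_iff.1 h5
      have h7 := hp.two_le
      omega
    have hle : ((Finset.range p).filter fun r : ℕ => (p : ℤ) ∣ g.eval (r : ℤ)).card ≤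
        gp.roots.toFinset.card := by
      refine Finset.card_le_card_of_injOn (fun r : ℕ => (r : ZMod p)) ?_ ?_
      · intro r hr
        rw [Finset.mem_coe, Finset.mem_filter] at hr
        rw [Finset.mem_coe, Multiset.mem_toFinset, mem_roots hgp0, IsRoot.def, hgp]
        have h8 : ((r : ZMod p)) = Int.castRingHom (ZMod p) (r : ℤ) := by simp
        change eval (r : ZMod p) (g.map (Int.castRingHom (ZMod p))) = 0
        rw [h8, eval_map_apply]
        exact (ZMod.intCast_zmod_eq_zero_iff_dvd _ _).2 hr.2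
      · intro r hr s hs hrs
        rw [Finset.mem_coe, Finset.mem_filter, Finset.mem_range] at hr hs
        have h9 := (ZMod.natCast_eq_natCast_iff' r s p).1 hrs
        rwa [Nat.mod_eq_of_lt hr.1, Nat.mod_eq_of_lt hs.1] at h9
    calc _ ≤ gp.roots.toFinset.card := hle
      _ ≤ Multiset.card gp.roots := Multiset.toFinset_card_le _
      _ ≤ gp.natDegree := card_roots' _
      _ ≤ g.natDegree := natDegree_map_le
      _ = e := h2
  have hcard := (Finset.card_le_card hsub).trans (Finset.card_biUnion_le_card_mul _ _ e hone)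
  calc _ ≤ ((F.card * e : ℕ) : ℝ) := by exact_mod_cast hcard
    _ = e * (F.card : ℝ) := by push_cast; ring
    _ ≤ e * (2 ^ (e + 1) * M0 + 1) ^ (e + 1) := by gcongr

end Pool.Agent.H92.SQ
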