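import Pool.Agent.H92.SQ.AnnMany
import Pool.Agent.H92.SQ.MinRec
import Pool.Agent.H92.SQ.Mult

/-!
# Project SQ, row SQ-18: few bad residues
-/

set_option autoImplicit false

open Polynomial

namespace Pool.Agent.H92.SQ

theorem sq18_ineq (t k e D m : ℕ) (ht : 6 ≤ t) (hk : 5 * t ≤ 2 * k + 1)
    (hD : 1000 * t = 489 * e + D) (hm : k = e + m) :
    D * (e + 1) ≤ (500 * t - 1) * m := by
  obtain ⟨t', rfl⟩ : ∃ t', t = t' + 1 := ⟨t - 1, by omega⟩
  have h1 : 500 * (t' + 1) - 1 = 500 * t' + 499 := by omega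
  rw [h1]
  zify at *
  have hDv : (D : ℤ) = 1000 * (t' + 1) - 489 * e := by linarith
  have hmv : 5 * ((t' : ℤ) + 1) - 1 - 2 * e ≤ 2 * m := by linarith
  have h2 : (500 * (t' : ℤ) + 499) * (5 * ((t' : ℤ) + 1) - 1 - 2 * e) ≤
      (500 * (t' : ℤ) + 499) * (2 * m) := mul_le_mul_of_nonneg_left hmv (by positivity)
  have h3 : 2 * ((D : ℤ) * (e + 1)) ≤
      (500 * (t' : ℤ) + 499) * (5 * ((t' : ℤ) + 1) - 1 - 2 * e) := by
    rw [hDv]
    have ht' : (5 : ℤ) ≤ t' := by linarith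
    nlinarith [sq_nonneg (978 * (e : ℤ) - 1500 * (t' + 1) + 490), mul_nonneg (sub_nonneg.mpr ht') (sub_nonneg.mpr ht')]
  nlinarith

theorem sq18_lt (t k e : ℕ) (ht : 6 ≤ t) (hk : 5 * t ≤ 2 * k + 1) (he : 489 * e ≤ 1000 * t) :
    e < k := by
  omega

/-- the main estimate, in real numbers -/
theorem sq18_bound (t k e h : ℕ) (P X y : ℝ) (K : ℕ) (ht : 6 ≤ t) (hk : 5 * t ≤ 2 * k + 1)
    (hek : e < k) (hK : K = 64 * (2 ^ (k + 2) * k) ^ k) (hh1 : 64 * 2 ^ k < h) (hh2 : K < h)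
    (hP0 : 0 ≤ P) (hP : P ≤ 64 * (h : ℝ) ^ (1000 * t)) (hX : 1 ≤ X) (hy : 0 ≤ y)
    (hye : y ^ (e + 1) = (h : ℝ) ^ (500 * t - 1))
    (hmain : (((h ^ 489 : ℕ) : ℝ) + 1) ^ k ≤
      P * (2 ^ (k + 1) * k * ((h ^ 489 : ℕ) : ℝ) / X + 1) ^ (k - e)) :
    489 * e ≤ 1000 * t ∧ X ≤ K * y := by
  have hX0 : 0 < X := by linarith
  have hk0 : 0 < k := by omega
  have hh0 : (0 : ℝ) < h := by
    have : 0 < h := by omega
    exact_mod_cast this
  have hh1' : (1 : ℝ) ≤ h := by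
    have : 1 ≤ h := by omega
    exact_mod_cast this
  set B : ℝ := ((h ^ 489 : ℕ) : ℝ) with hB
  have hBh : B = (h : ℝ) ^ 489 := by rw [hB]; push_cast; rfl
  have hB0 : 0 < B := by rw [hBh]; positivity
  have hBk : B ^ k ≤ P * (2 ^ (k + 1) * k * B / X + 1) ^ (k - e) := by
    refine le_trans ?_ hmain
    exact pow_le_pow_left₀ hB0.le (by linarith) k
  have hkR : (1 : ℝ) ≤ k := by exact_mod_cast hk0
  -- the ratio is at least one
  have hcase : X ≤ 2 ^ (k + 1) * k * B := by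
    by_contra hcon
    have hlt : 2 ^ (k + 1) * k * B < X := lt_of_not_ge hcon
    have h1 : 2 ^ (k + 1) * k * B / X + 1 ≤ 2 := by
      have : 2 ^ (k + 1) * k * B / X ≤ 1 := by
        rw [div_le_one hX0]
        exact hlt.le
      linarith
    have h2 : B ^ k ≤ P * 2 ^ k := by
      refine hBk.trans (mul_le_mul_of_nonneg_left ?_ hP0)
      calc (2 ^ (k + 1) * k * B / X + 1) ^ (k - e) ≤ (2 : ℝ) ^ (k - e) :=
            pow_le_pow_left₀ (by positivity) h1 _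
        _ ≤ 2 ^ k := pow_le_pow_right₀ (by norm_num) (by omega)
    have h3 : (h : ℝ) ^ (1000 * t + 1) ≤ (h : ℝ) ^ (489 * k) :=
      pow_le_pow_right₀ hh1' (by omega)
    have h4 : (h : ℝ) ^ (489 * k) ≤ 64 * (h : ℝ) ^ (1000 * t) * 2 ^ k := by
      rw [pow_mul, ← hBh]
      exact h2.trans (mul_le_mul_of_nonneg_right hP (by positivity))
    have h5 : (h : ℝ) * (h : ℝ) ^ (1000 * t) ≤ (64 * 2 ^ k) * (h : ℝ) ^ (1000 * t) := by
      calc (h : ℝ) * (h : ℝ) ^ (1000 * t) = (h : ℝ) ^ (1000 * t + 1) := by rw [pow_succ]; ring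
        _ ≤ 64 * (h : ℝ) ^ (1000 * t) * 2 ^ k := h3.trans h4
        _ = _ := by ring
    have h6 : (h : ℝ) ≤ 64 * 2 ^ k := le_of_mul_le_mul_right h5 (by positivity)
    have h7 : ((64 * 2 ^ k : ℕ) : ℝ) < h := by exact_mod_cast hh1
    push_cast at h7
    linarith
  -- the key inequality
  have hkey : (h : ℝ) ^ (489 * e) * X ^ (k - e) ≤ K * (h : ℝ) ^ (1000 * t) := by
    have h1 : 2 ^ (k + 1) * k * B / X + 1 ≤ 2 ^ (k + 2) * k * B / X := by
      have : 1 ≤ 2 ^ (k + 1) * k * B / X := by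
        rw [one_le_div hX0]
        exact hcase
      have h2 : (2 : ℝ) ^ (k + 2) * k * B / X =
          2 ^ (k + 1) * k * B / X + 2 ^ (k + 1) * k * B / X := by
        rw [pow_succ (2 : ℝ) (k + 1)]
        ring
      rw [h2]
      linarith
    have h3 : B ^ k * X ^ (k - e) ≤ P * (2 ^ (k + 2) * k * B) ^ (k - e) := by
      calc B ^ k * X ^ (k - e) ≤ P * (2 ^ (k + 2) * k * B / X) ^ (k - e) * X ^ (k - e) := by
            refine mul_le_mul_of_nonneg_right (hBk.trans ?_) (by positivity)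
            exact mul_le_mul_of_nonneg_left (pow_le_pow_left₀ (by positivity) h1 _) hP0
        _ = P * (2 ^ (k + 2) * k * B / X * X) ^ (k - e) := by
            rw [mul_pow (2 ^ (k + 2) * k * B / X)]
            ring
        _ = _ := by rw [div_mul_cancel₀ _ hX0.ne']
    have h4 : B ^ k = B ^ e * B ^ (k - e) := by
      rw [← pow_add]
      congr 1
      omega
    have h5 : (B ^ e * X ^ (k - e)) * B ^ (k - e) ≤
        (P * (2 ^ (k + 2) * k) ^ (k - e)) * B ^ (k - e) := by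
      calc (B ^ e * X ^ (k - e)) * B ^ (k - e) = B ^ k * X ^ (k - e) := by rw [h4]; ring
        _ ≤ P * (2 ^ (k + 2) * k * B) ^ (k - e) := h3
        _ = _ := by rw [mul_pow _ B]; ring
    have h6 : B ^ e * X ^ (k - e) ≤ P * (2 ^ (k + 2) * k) ^ (k - e) :=
      le_of_mul_le_mul_right h5 (by positivity)
    have h7 : (1 : ℝ) ≤ 2 ^ (k + 2) * k := by
      have : (1 : ℝ) ≤ 2 ^ (k + 2) := one_le_pow₀ (by norm_num)
      nlinarith
    calc (h : ℝ) ^ (489 * e) * X ^ (k - e) = B ^ e * X ^ (k - e) := by rw [pow_mul, ← hBh]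
      _ ≤ P * (2 ^ (k + 2) * k) ^ (k - e) := h6
      _ ≤ (64 * (h : ℝ) ^ (1000 * t)) * (2 ^ (k + 2) * k) ^ k :=
          mul_le_mul hP (pow_le_pow_right₀ h7 (by omega)) (by positivity) (by positivity)
      _ = K * (h : ℝ) ^ (1000 * t) := by
          rw [hK]
          push_cast
          ring
  have hKh : (K : ℝ) < h := by exact_mod_cast hh2
  have he : 489 * e ≤ 1000 * t := by
    by_contra hcon
    have h1 : (h : ℝ) ^ (1000 * t + 1) ≤ (h : ℝ) ^ (489 * e) :=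
      pow_le_pow_right₀ hh1' (by omega)
    have h2 : (h : ℝ) ^ (489 * e) ≤ (h : ℝ) ^ (489 * e) * X ^ (k - e) :=
      le_mul_of_one_le_right (by positivity) (one_le_pow₀ hX)
    have h3 : (h : ℝ) * (h : ℝ) ^ (1000 * t) ≤ K * (h : ℝ) ^ (1000 * t) := by
      calc (h : ℝ) * (h : ℝ) ^ (1000 * t) = (h : ℝ) ^ (1000 * t + 1) := by rw [pow_succ]; ring
        _ ≤ _ := h1.trans (h2.trans hkey)
    have h4 := le_of_mul_le_mul_right h3 (by positivity)
    linarith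
  refine ⟨he, ?_⟩
  obtain ⟨D, hD⟩ : ∃ D, 1000 * t = 489 * e + D := ⟨1000 * t - 489 * e, by omega⟩
  obtain ⟨m, hm⟩ : ∃ m, k = e + m := ⟨k - e, by omega⟩
  have hm0 : m ≠ 0 := by omega
  have hke : k - e = m := by omega
  have hineq := sq18_ineq t k e D m ht hk hD hm
  have hXm : X ^ m ≤ K * (h : ℝ) ^ D := by
    rw [hke, hD, pow_add] at hkey
    have h1 : X ^ m * (h : ℝ) ^ (489 * e) ≤ (K * (h : ℝ) ^ D) * (h : ℝ) ^ (489 * e) := by
      calc X ^ m * (h : ℝ) ^ (489 * e) = (h : ℝ) ^ (489 * e) * X ^ m := by ring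
        _ ≤ K * ((h : ℝ) ^ (489 * e) * (h : ℝ) ^ D) := hkey
        _ = _ := by ring
    exact le_of_mul_le_mul_right h1 (by positivity)
  have hK1 : (1 : ℝ) ≤ K := by
    have : 1 ≤ K := by
      rw [hK]
      have : 0 < (2 ^ (k + 2) * k) ^ k := by positivity
      omega
    exact_mod_cast this
  have hfin : X ^ (m * (e + 1)) ≤ (K * y) ^ (m * (e + 1)) := by
    calc X ^ (m * (e + 1)) = (X ^ m) ^ (e + 1) := by rw [pow_mul]
      _ ≤ (K * (h : ℝ) ^ D) ^ (e + 1) := pow_le_pow_left₀ (by positivity) hXm _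
      _ = (K : ℝ) ^ (e + 1) * (h : ℝ) ^ (D * (e + 1)) := by rw [mul_pow, ← pow_mul]
      _ ≤ (K : ℝ) ^ (m * (e + 1)) * (h : ℝ) ^ ((500 * t - 1) * m) := by
          refine mul_le_mul (pow_le_pow_right₀ hK1 ?_) (pow_le_pow_right₀ hh1' hineq)
            (by positivity) (by positivity)
          exact Nat.le_mul_of_pos_left _ (Nat.pos_of_ne_zero hm0)
      _ = (K * y) ^ (m * (e + 1)) := by
          rw [mul_pow (K : ℝ) y, mul_comm m (e + 1), pow_mul y, hye, ← pow_mul]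
  exact (pow_le_pow_iff_left₀ hX0.le (by positivity) (by positivity)).mp hfin

/-- a bad residue is a root modulo `p` of a primitive polynomial of small Mahler measure -/
theorem sq18_bad (n t k h p W : ℕ) (r : ℤ) (y : ℕ → ℝ) (K : ℕ) (hp : p.Prime) (hn : k + 1 ≤ n)
    (hkn : k ≤ (n - k) + 2) (ht : 6 ≤ t) (hk : 5 * t ≤ 2 * k + 1)
    (hK : K = 64 * (2 ^ (k + 2) * k) ^ k) (hh1 : 64 * 2 ^ k < h) (hh2 : K < h)
    (hpt : p ≤ 8 * h ^ (500 * t)) (hW : k * h ^ 489 * W < p ^ 2)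
    (hy : ∀ e, 0 ≤ y e) (hye : ∀ e, y e ^ (e + 1) = (h : ℝ) ^ (500 * t - 1))
    (hbad : BadR n W p r) :
    ∃ e < k, ∃ g : ℤ[X], g.IsPrimitive ∧ g.natDegree = e ∧ MM g ≤ K * y e ∧
      (p : ℤ) ∣ g.eval r := by
  have hk0 : 0 < k := by omega
  obtain ⟨z, hz, T, hT, hTc⟩ := ann_many n k p W (h ^ 489) r hp hk0 hn hW hbad
  have hh0 : 0 < h := by omega
  have hh1' : (1 : ℝ) ≤ h := by exact_mod_cast hh0
  have hP : ((p ^ 2 : ℕ) : ℝ) ≤ 64 * (h : ℝ) ^ (1000 * t) := by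
    have h1 : p ^ 2 ≤ 64 * h ^ (1000 * t) := by
      calc p ^ 2 ≤ (8 * h ^ (500 * t)) ^ 2 := Nat.pow_le_pow_left hpt 2
        _ = 64 * h ^ (1000 * t) := by
            rw [mul_pow, ← pow_mul]
            congr 1
            congr 1
            ring
    exact_mod_cast h1
  -- more than one element
  have hT2 : 1 < T.card := by
    by_contra hcon
    have h1 : T.card ≤ 1 := by omega
    have h2 : (h ^ 489 + 1) ^ k ≤ p ^ 2 :=
      hTc.trans (by simpa using Nat.mul_le_mul_left (p ^ 2) h1)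
    have h3 : (h : ℝ) ^ (1000 * t + 1) ≤ (h : ℝ) ^ (489 * k) :=
      pow_le_pow_right₀ hh1' (by omega)
    have h4 : (h : ℝ) ^ (489 * k) ≤ 64 * (h : ℝ) ^ (1000 * t) := by
      have h5 : h ^ (489 * k) ≤ p ^ 2 := by
        rw [pow_mul]
        exact (Nat.pow_le_pow_left (by omega) k).trans h2
      calc (h : ℝ) ^ (489 * k) ≤ ((p ^ 2 : ℕ) : ℝ) := by exact_mod_cast h5
        _ ≤ _ := hP
    have h5 : (h : ℝ) * (h : ℝ) ^ (1000 * t) ≤ 64 * (h : ℝ) ^ (1000 * t) := by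
      calc (h : ℝ) * (h : ℝ) ^ (1000 * t) = (h : ℝ) ^ (1000 * t + 1) := by rw [pow_succ]; ring
        _ ≤ _ := h3.trans h4
    have h6 : (h : ℝ) ≤ 64 := le_of_mul_le_mul_right h5 (by positivity)
    have h7 : h ≤ 64 := by exact_mod_cast h6
    have h8 : 1 ≤ 2 ^ k := Nat.one_le_two_pow
    omega
  obtain ⟨c, hcT, hc0⟩ : ∃ c ∈ T, c ≠ 0 := by
    obtain ⟨a, b, ha, hb, hab⟩ := Finset.one_lt_card_iff.mp hT2
    by_cases h0 : a = 0
    · exact ⟨b, hb, fun hb0 => hab (h0.trans hb0.symm)⟩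
    · exact ⟨a, ha, h0⟩
  obtain ⟨g, hg0, hgp, hga, hgd⟩ := min_rec z k (n - k) hkn ⟨c, hc0, (hT c hcT).1⟩
  have hgk : g.natDegree < k := hga.1
  have hX : 1 ≤ MM g := one_le_mahlerMeasure_of_ne_zero hg0
  have hmc := mult_count g hg0 k (h ^ 489) hgk T (fun c hc =>
    ⟨hgd c (hT c hc).1, (hT c hc).1.1, (hT c hc).2⟩)
  have hmain : (((h ^ 489 : ℕ) : ℝ) + 1) ^ k ≤
      ((p ^ 2 : ℕ) : ℝ) * (2 ^ (k + 1) * k * ((h ^ 489 : ℕ) : ℝ) / MM g + 1) ^
        (k - g.natDegree) := by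
    have h1 : ((((h ^ 489 + 1) ^ k : ℕ)) : ℝ) ≤ ((p ^ 2 * T.card : ℕ) : ℝ) := by
      exact_mod_cast hTc
    push_cast at h1
    push_cast
    push_cast at hmc
    exact h1.trans (mul_le_mul_of_nonneg_left hmc (by positivity))
  obtain ⟨_, hfin⟩ := sq18_bound t k g.natDegree h ((p ^ 2 : ℕ) : ℝ) (MM g) (y g.natDegree) K ht hk
    hgk hK hh1 hh2 (by positivity) hP hX (hy _) (hye _) hmain
  exact ⟨g.natDegree, hgk, g, hgp, rfl, hfin, hz g hga⟩

/-! ## SQ-18 Bad.lean (uses SQ-15, SQ-16, SQ-17) -/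

open scoped Classical in
theorem few_bad (n : ℕ) (hn : 40000 ≤ n) : ∃ h0 : ℕ, ∀ h ≥ h0, ∀ p : ℕ, p.Prime →
    h ^ (500 * (n / 5)) < p → p ≤ 8 * h ^ (500 * (n / 5)) →
    2 * ((Finset.range p).filter fun r : ℕ => BadR n (p ^ 2 / h ^ 490) p (r : ℤ)).card ≤ p := by
  set t := n / 5 with htdef
  set k := n / 2 with hkdef
  set K : ℕ := 64 * (2 ^ (k + 2) * k) ^ k with hK
  set C2 : ℕ := ∑ e ∈ Finset.range k, e * (2 ^ (e + 2) * K) ^ (e + 1) with hC2
  have ht : 6 ≤ t := by omega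
  have hk : 5 * t ≤ 2 * k + 1 := by omega
  have hn1 : k + 1 ≤ n := by omega
  have hkn : k ≤ (n - k) + 2 := by omega
  have hk0 : 0 < k := by omega
  refine ⟨64 * 2 ^ k + K + 2 * C2 + k + 1, fun h hh p hp hpl hpu => ?_⟩
  have hh1 : 64 * 2 ^ k < h := by omega
  have hh2 : K < h := by omega
  have hh3 : 2 * C2 ≤ h := by omega
  have hh4 : k < h := by omega
  have hh0 : 0 < h := by omega
  have hh1' : (1 : ℝ) ≤ h := by exact_mod_cast hh0
  have hW : k * h ^ 489 * (p ^ 2 / h ^ 490) < p ^ 2 := by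
    have h1 : p ^ 2 / h ^ 490 * h ^ 490 ≤ p ^ 2 := Nat.div_mul_le_self _ _
    have h2 : (k * h ^ 489 * (p ^ 2 / h ^ 490)) * h ≤ k * p ^ 2 := by
      calc (k * h ^ 489 * (p ^ 2 / h ^ 490)) * h = k * (p ^ 2 / h ^ 490 * h ^ 490) := by ring
        _ ≤ k * p ^ 2 := Nat.mul_le_mul_left k h1
    have hp2 : 0 < p ^ 2 := by
      have := hp.pos
      positivity
    have h3 : k * p ^ 2 < p ^ 2 * h := by
      rw [mul_comm]
      exact Nat.mul_lt_mul_of_pos_left hh4 hp2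
    exact Nat.lt_of_mul_lt_mul_right (lt_of_le_of_lt h2 h3)
  -- the roots
  let y : ℕ → ℝ := fun e => ((h : ℝ) ^ (500 * t - 1)) ^ (((e + 1 : ℕ) : ℝ)⁻¹)
  have hy1 : ∀ e, 1 ≤ y e := fun e =>
    Real.one_le_rpow (one_le_pow₀ hh1') (by positivity)
  have hy : ∀ e, 0 ≤ y e := fun e => zero_le_one.trans (hy1 e)
  have hye : ∀ e, y e ^ (e + 1) = (h : ℝ) ^ (500 * t - 1) := fun e =>
    Real.rpow_inv_natCast_pow (by positivity) (Nat.succ_ne_zero e)
  let S : ℕ → Finset ℕ := fun e => (Finset.range p).filter fun r : ℕ => ∃ g : ℤ[X],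
    g.IsPrimitive ∧ g.natDegree = e ∧ MM g ≤ K * y e ∧ (p : ℤ) ∣ g.eval (r : ℤ)
  have hsub : ((Finset.range p).filter fun r : ℕ => BadR n (p ^ 2 / h ^ 490) p (r : ℤ)) ⊆
      (Finset.range k).biUnion S := by
    intro r hr
    rw [Finset.mem_filter] at hr
    obtain ⟨e, hek, hg⟩ := sq18_bad n t k h p (p ^ 2 / h ^ 490) (r : ℤ) y K hp hn1 hkn ht hk hK
      hh1 hh2 hpu hW hy hye hr.2
    rw [Finset.mem_biUnion]
    exact ⟨e, Finset.mem_range.mpr hek, Finset.mem_filter.mpr ⟨hr.1, hg⟩⟩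
  have hK1 : (1 : ℝ) ≤ K := by
    have h1 : 1 ≤ K := by
      rw [hK]
      have : 0 < (2 ^ (k + 2) * k) ^ k := by positivity
      omega
    exact_mod_cast h1
  have hcount : ((((Finset.range p).filter fun r : ℕ =>
      BadR n (p ^ 2 / h ^ 490) p (r : ℤ)).card : ℕ) : ℝ) ≤ C2 * (h : ℝ) ^ (500 * t - 1) := by
    calc ((((Finset.range p).filter fun r : ℕ =>
        BadR n (p ^ 2 / h ^ 490) p (r : ℤ)).card : ℕ) : ℝ)
        ≤ ((∑ e ∈ Finset.range k, (S e).card : ℕ) : ℝ) := by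
          exact_mod_cast (Finset.card_le_card hsub).trans Finset.card_biUnion_le
      _ = ∑ e ∈ Finset.range k, ((S e).card : ℝ) := by push_cast; rfl
      _ ≤ ∑ e ∈ Finset.range k, (e : ℝ) * (2 ^ (e + 2) * K) ^ (e + 1) *
            (h : ℝ) ^ (500 * t - 1) := by
          refine Finset.sum_le_sum fun e _ => ?_
          have h1 := root_count p e hp (K * y e) (by have := hy e; positivity)
          refine h1.trans ?_
          rw [mul_assoc]
          refine mul_le_mul_of_nonneg_left ?_ (by positivity)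
          rw [← hye e, ← mul_pow]
          refine pow_le_pow_left₀ (by have := hy e; positivity) ?_ _
          have h2 : (1 : ℝ) ≤ 2 ^ (e + 1) * (K * y e) := by
            have h3 : (1 : ℝ) ≤ 2 ^ (e + 1) := one_le_pow₀ (by norm_num)
            have h4 : (1 : ℝ) ≤ K * y e := one_le_mul_of_one_le_of_one_le hK1 (hy1 e)
            exact one_le_mul_of_one_le_of_one_le h3 h4
          have h5 : (2 : ℝ) ^ (e + 2) * K * y e = 2 ^ (e + 1) * (K * y e) +
              2 ^ (e + 1) * (K * y e) := by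
            rw [pow_succ (2 : ℝ) (e + 1)]
            ring
          rw [h5]
          linarith
      _ = C2 * (h : ℝ) ^ (500 * t - 1) := by
          rw [← Finset.sum_mul, hC2]
          push_cast
          rfl
  have hfin : (2 * ((Finset.range p).filter fun r : ℕ =>
      BadR n (p ^ 2 / h ^ 490) p (r : ℤ)).card : ℕ) ≤ h ^ (500 * t) := by
    have h1 : (((2 * ((Finset.range p).filter fun r : ℕ =>
        BadR n (p ^ 2 / h ^ 490) p (r : ℤ)).card : ℕ)) : ℝ) ≤ ((h ^ (500 * t) : ℕ) : ℝ) := by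
      push_cast
      calc 2 * ((((Finset.range p).filter fun r : ℕ =>
            BadR n (p ^ 2 / h ^ 490) p (r : ℤ)).card : ℕ) : ℝ)
          ≤ 2 * (C2 * (h : ℝ) ^ (500 * t - 1)) := by linarith
        _ = (2 * C2) * (h : ℝ) ^ (500 * t - 1) := by ring
        _ ≤ h * (h : ℝ) ^ (500 * t - 1) := by
            refine mul_le_mul_of_nonneg_right ?_ (by positivity)
            exact_mod_cast hh3
        _ = (h : ℝ) ^ (500 * t) := by
            rw [← pow_succ']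
            congr 1
            omega
    exact_mod_cast h1
  omega

end Pool.Agent.H92.SQ
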