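import Pool.Agent.H92.SQ.Defs

/-!
# Project SQ (MP_a3214d), row SQ-20

Members of the family with given leading coefficient `q`, planted at the residue `r` modulo `p`.
-/

set_option autoImplicit false

open Polynomial

namespace Pool.Agent.H92.SQ

/-- the polynomial with leading coefficient `q` and lower coefficients `g` -/
private noncomputable def sq20_poly (n : ℕ) (q : ℤ) (g : Fin n → ℤ) : ℤ[X] :=
  C q * X ^ n + ∑ j : Fin n, C (g j) * X ^ (j : ℕ)

private theorem sq20_coeff_lt {n : ℕ} (q : ℤ) (g : Fin n → ℤ) (j : Fin n) :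
    (sq20_poly n q g).coeff (j : ℕ) = g j := by
  unfold sq20_poly
  rw [coeff_add, coeff_C_mul_X_pow, if_neg (by have := j.2; omega), zero_add, finsetSum_coeff,
    Finset.sum_eq_single j]
  · rw [coeff_C_mul_X_pow, if_pos rfl]
  · intro i _ hij
    rw [coeff_C_mul_X_pow, if_neg]
    intro h
    exact hij (Fin.ext h.symm)
  · intro h
    exact absurd (Finset.mem_univ j) h

private theorem sq20_coeff_eq {n : ℕ} (q : ℤ) (g : Fin n → ℤ) :
    (sq20_poly n q g).coeff n = q := by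
  unfold sq20_poly
  rw [coeff_add, coeff_C_mul_X_pow, if_pos rfl, finsetSum_coeff, Finset.sum_eq_zero, add_zero]
  intro i _
  rw [coeff_C_mul_X_pow, if_neg]
  have := i.2
  omega

private theorem sq20_coeff_gt {n : ℕ} (q : ℤ) (g : Fin n → ℤ) {i : ℕ} (hi : n < i) :
    (sq20_poly n q g).coeff i = 0 := by
  unfold sq20_poly
  rw [coeff_add, coeff_C_mul_X_pow, if_neg (by omega), zero_add, finsetSum_coeff,
    Finset.sum_eq_zero]
  intro j _
  rw [coeff_C_mul_X_pow, if_neg]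
  have := j.2
  omega

private theorem sq20_natDegree {n : ℕ} {q : ℤ} (hq : q ≠ 0) (g : Fin n → ℤ) :
    (sq20_poly n q g).natDegree = n := by
  apply le_antisymm
  · rw [natDegree_le_iff_coeff_eq_zero]
    intro i hi
    exact sq20_coeff_gt q g hi
  · apply le_natDegree_of_ne_zero
    rw [sq20_coeff_eq]
    exact hq

private theorem sq20_leadingCoeff {n : ℕ} {q : ℤ} (hq : q ≠ 0) (g : Fin n → ℤ) :
    (sq20_poly n q g).leadingCoeff = q := by
  rw [leadingCoeff, sq20_natDegree hq, sq20_coeff_eq]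

private theorem sq20_eval {n : ℕ} (q : ℤ) (g : Fin n → ℤ) (r : ℤ) :
    (sq20_poly n q g).eval r = q * r ^ n + ∑ j : Fin n, g j * r ^ (j : ℕ) := by
  unfold sq20_poly
  rw [eval_add, eval_finsetSum]
  simp

private theorem sq20_deriv {n : ℕ} (q : ℤ) (g : Fin n → ℤ) (r : ℤ) :
    (sq20_poly n q g).derivative.eval r =
      q * (n * r ^ (n - 1)) + ∑ j : Fin n, g j * ((j : ℕ) * r ^ ((j : ℕ) - 1)) := by
  unfold sq20_poly
  rw [derivative_add, derivative_sum, eval_add, eval_finsetSum]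
  simp [derivative_X_pow]

private theorem sq20_base (n : ℕ) : (base n).Monic ∧ (base n).natDegree = n := by
  unfold base
  refine ⟨monic_prod_of_monic _ _ fun k _ => monic_X_sub_C _, ?_⟩
  rw [natDegree_prod_of_monic _ _ fun k _ => monic_X_sub_C _]
  simp_rw [natDegree_X_sub_C]
  simp

/-- the smallest multiple of `M` which is at least `a` -/
private theorem sq20_ceil (a : ℤ) {M : ℕ} (hM : 0 < M) :
    ∃ t : ℤ, a ≤ M * t ∧ M * t ≤ a + M - 1 := by
  refine ⟨-((-a) / (M : ℤ)), ?_, ?_⟩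
  · have h1 := Int.mul_ediv_add_emod (-a) M
    have h2 := Int.emod_nonneg (-a) (by omega : (M : ℤ) ≠ 0)
    rw [mul_neg]
    linarith
  · have h1 := Int.mul_ediv_add_emod (-a) M
    have h2 := Int.emod_lt_of_pos (-a) (by omega : (0 : ℤ) < (M : ℤ))
    rw [mul_neg]
    omega

theorem fam_one (n M : ℕ) (s : ℤ[X]) (δ c1 : ℝ) (hn : 1 ≤ n) (hM : 0 < M)
    (hs : s.natDegree = n) (hs1 : s.coeff n = 1) (hδ : 0 < δ) (hc1 : 0 < c1) :
    ∃ c : ℝ, 0 < c ∧ ∃ h0 : ℕ, ∀ h ≥ h0, ∀ q p : ℕ, q.Prime → h ^ 500 < q → q ≤ 8 * h ^ 500 →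
      p.Prime → q < p → ∀ r : ℤ,
      (∀ (N : ℕ) (A B : ℤ), h ^ 499 ≤ N → c1 * (N : ℝ) ^ n ≤ (p : ℝ) ^ 3 * solCount n N p r A B) →
      ∃ T : Finset ℤ[X], (∀ f ∈ T, Mem n M s δ (h ^ 500) f ∧ f.leadingCoeff = q ∧
        Planted f p r) ∧ c * (h : ℝ) ^ (500 * n) ≤ (p : ℝ) ^ 3 * T.card := by
  classical
  have hMr : (0 : ℝ) < (M : ℝ) := by exact_mod_cast hM
  refine ⟨c1 * (δ / (2 * M)) ^ n, by positivity, max M (⌈2 * (M : ℝ) / δ⌉₊ + 1), ?_⟩
  intro h hh q p hq hq1 hq2 hp hqp r hsol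
  have hhM : M ≤ h := le_trans (le_max_left _ _) hh
  have hhc : ⌈2 * (M : ℝ) / δ⌉₊ + 1 ≤ h := le_trans (le_max_right _ _) hh
  have hh1 : 1 ≤ h := by omega
  have hhr1 : (1 : ℝ) ≤ (h : ℝ) := by exact_mod_cast hh1
  have hhδ : 2 * M / δ ≤ (h : ℝ) := by
    have h1 : 2 * (M : ℝ) / δ ≤ ((⌈2 * (M : ℝ) / δ⌉₊ : ℕ) : ℝ) := Nat.le_ceil _
    have h2 : ⌈2 * (M : ℝ) / δ⌉₊ ≤ h := by omega
    have h3 : ((⌈2 * (M : ℝ) / δ⌉₊ : ℕ) : ℝ) ≤ (h : ℝ) := Nat.cast_le.mpr h2
    linarith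
  have hhδ' : 2 * (M : ℝ) ≤ h * δ := by
    rwa [div_le_iff₀ hδ] at hhδ
  -- the length of the intervals
  set N : ℕ := ⌊δ * q / M⌋₊ with hN
  have hq500 : (h : ℝ) ^ 500 ≤ (q : ℝ) := by exact_mod_cast hq1.le
  have hNle : (M : ℝ) * N ≤ δ * q := by
    have h1 : (N : ℝ) ≤ δ * q / M := Nat.floor_le (by positivity)
    rw [le_div_iff₀ hMr] at h1
    linarith
  have hNge : δ * q / M - 1 ≤ (N : ℝ) := by
    have h1 := Nat.lt_floor_add_one (δ * q / M)
    rw [← hN] at h1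
    linarith
  have h499 : 2 * (h : ℝ) ^ 499 ≤ δ * q / M := by
    rw [le_div_iff₀ hMr]
    have h1 : (h : ℝ) ^ 499 * (2 * M) ≤ (h : ℝ) ^ 499 * (h * δ) :=
      mul_le_mul_of_nonneg_left hhδ' (by positivity)
    have h2 : (h : ℝ) ^ 499 * (h * δ) = (h : ℝ) ^ 500 * δ := by ring
    have h3 : (h : ℝ) ^ 500 * δ ≤ q * δ := mul_le_mul_of_nonneg_right hq500 hδ.le
    linarith
  have h499' : (1 : ℝ) ≤ (h : ℝ) ^ 499 := one_le_pow₀ hhr1
  have hN499 : h ^ 499 ≤ N := by
    have h1 : (h : ℝ) ^ 499 ≤ (N : ℝ) := by linarith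
    exact_mod_cast h1
  have hNδ : δ / (2 * M) * (h : ℝ) ^ 500 ≤ N := by
    have h1 : δ * (h : ℝ) ^ 500 / M ≤ δ * q / M := by gcongr
    have h2 : δ / (2 * M) * (h : ℝ) ^ 500 = (δ * (h : ℝ) ^ 500 / M) / 2 := by
      field_simp
    rw [h2]
    linarith
  -- coprimality
  have hMp : Nat.Coprime M (p ^ 2) := by
    apply Nat.Coprime.pow_right
    rw [Nat.coprime_comm, Nat.Prime.coprime_iff_not_dvd hp]
    intro hdvd
    have h1 := Nat.le_of_dvd hM hdvd
    have h2 : h ≤ h ^ 500 := Nat.le_self_pow (by decide) h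
    omega
  obtain ⟨M', hM'⟩ : ∃ M' : ℤ, (p : ℤ) ^ 2 ∣ M * M' - 1 := by
    have h1 : IsCoprime (M : ℤ) ((p ^ 2 : ℕ) : ℤ) := Nat.isCoprime_iff_coprime.mpr hMp
    obtain ⟨a, b, hab⟩ := h1
    refine ⟨a, -b, ?_⟩
    push_cast at hab
    linear_combination hab
  -- the lower coefficients
  choose t ht1 ht2 using fun j : ℕ => sq20_ceil ((q : ℤ) * ((base n).coeff j - s.coeff j)) hM
  let b : Fin n → ℤ := fun j => q * s.coeff j + M * t j
  let F0 : ℤ := q * r ^ n + ∑ j : Fin n, b j * r ^ (j : ℕ)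
  let F1 : ℤ := q * (n * r ^ (n - 1)) + ∑ j : Fin n, b j * ((j : ℕ) * r ^ ((j : ℕ) - 1))
  let S : Type := {x : Fin n → Fin N //
    (p : ℤ) ^ 2 ∣ (∑ j : Fin n, ((x j : ℕ) : ℤ) * r ^ (j : ℕ)) - (-(M' * F0)) ∧
    (p : ℤ) ∣ (∑ j : Fin n, ((x j : ℕ) : ℤ) * ((j : ℕ) * r ^ ((j : ℕ) - 1))) - (-(M' * F1))}
  have hScard : solCount n N p r (-(M' * F0)) (-(M' * F1)) = Fintype.card S := by
    unfold solCount
    exact Nat.card_eq_fintype_card
  let Φ : S → ℤ[X] := fun x => sq20_poly n q fun j => b j + M * ((x.1 j : ℕ) : ℤ)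
  have hΦinj : Function.Injective Φ := by
    intro x y hxy
    apply Subtype.ext
    funext j
    have h1 : (Φ x).coeff j = (Φ y).coeff j := by rw [hxy]
    simp only [Φ] at h1
    rw [sq20_coeff_lt, sq20_coeff_lt] at h1
    have h2 : (M : ℤ) * ((x.1 j : ℕ) : ℤ) = M * ((y.1 j : ℕ) : ℤ) := by linarith
    have h3 : ((x.1 j : ℕ) : ℤ) = ((y.1 j : ℕ) : ℤ) :=
      mul_left_cancel₀ (by omega : (M : ℤ) ≠ 0) h2
    exact Fin.ext (by exact_mod_cast h3)
  have hq0 : (q : ℤ) ≠ 0 := by exact_mod_cast hq.ne_zero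
  refine ⟨Finset.univ.image Φ, ?_, ?_⟩
  · intro f hf
    rw [Finset.mem_image] at hf
    obtain ⟨x, -, rfl⟩ := hf
    have hlc : (Φ x).leadingCoeff = q := sq20_leadingCoeff hq0 _
    refine ⟨?_, hlc, ?_⟩
    · refine ⟨sq20_natDegree hq0 _, ?_, ?_, ?_, ?_, ?_, ?_⟩
      · rw [hlc, Int.toNat_natCast]
        exact hq
      · rw [hlc]
        exact_mod_cast hq.pos
      · rw [hlc]
        exact_mod_cast hq1
      · rw [hlc]
        exact_mod_cast hq2
      · intro i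
        rw [hlc]
        rcases lt_trichotomy i n with hi | hi | hi
        · have h1 : (Φ x).coeff i = b ⟨i, hi⟩ + M * ((x.1 ⟨i, hi⟩ : ℕ) : ℤ) :=
            sq20_coeff_lt (q : ℤ) _ ⟨i, hi⟩
          have h2 := ht1 i
          have h3 := ht2 i
          have h4 : ((x.1 ⟨i, hi⟩ : ℕ) : ℤ) ≤ N - 1 := by
            have := (x.1 ⟨i, hi⟩).2
            omega
          have h5 : (0 : ℤ) ≤ ((x.1 ⟨i, hi⟩ : ℕ) : ℤ) := Int.natCast_nonneg _
          have h6 : b ⟨i, hi⟩ = q * s.coeff i + M * t i := rfl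
          have h7 : (M : ℤ) * ((x.1 ⟨i, hi⟩ : ℕ) : ℤ) ≤ M * (N - 1) :=
            mul_le_mul_of_nonneg_left h4 (Int.natCast_nonneg _)
          have h8 : (0 : ℤ) ≤ (M : ℤ) * ((x.1 ⟨i, hi⟩ : ℕ) : ℤ) :=
            mul_nonneg (Int.natCast_nonneg _) h5
          have h9 : (0 : ℤ) ≤ (Φ x).coeff i - q * (base n).coeff i := by
            rw [h1, h6]; linarith
          have h10 : (Φ x).coeff i - q * (base n).coeff i ≤ M * N := by
            rw [h1, h6]; linarith
          have h11 : (0 : ℝ) ≤ ((Φ x).coeff i : ℝ) - ((q : ℤ) : ℝ) * ((base n).coeff i : ℝ) := by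
            exact_mod_cast h9
          have h12 : ((Φ x).coeff i : ℝ) - ((q : ℤ) : ℝ) * ((base n).coeff i : ℝ) ≤ M * N := by
            exact_mod_cast h10
          rw [abs_of_nonneg h11]
          push_cast at h12 ⊢
          linarith
        · subst hi
          have h1 : (Φ x).coeff i = q := sq20_coeff_eq (q : ℤ) _
          have h2 : (base i).coeff i = 1 := by
            have h3 := (sq20_base i).1
            rw [Monic, leadingCoeff, (sq20_base i).2] at h3
            exact h3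
          rw [h1, h2]
          push_cast
          rw [mul_one, sub_self, abs_zero]
          positivity
        · have h1 : (Φ x).coeff i = 0 := sq20_coeff_gt (q : ℤ) _ hi
          have h2 : (base n).coeff i = 0 :=
            coeff_eq_zero_of_natDegree_lt (by rw [(sq20_base n).2]; exact hi)
          rw [h1, h2]
          push_cast
          rw [mul_zero, sub_self, abs_zero]
          positivity
      · intro i
        rw [hlc]
        rcases lt_trichotomy i n with hi | hi | hi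
        · have h1 : (Φ x).coeff i = b ⟨i, hi⟩ + M * ((x.1 ⟨i, hi⟩ : ℕ) : ℤ) :=
            sq20_coeff_lt (q : ℤ) _ ⟨i, hi⟩
          have h6 : b ⟨i, hi⟩ = q * s.coeff i + M * t i := rfl
          refine ⟨t i + ((x.1 ⟨i, hi⟩ : ℕ) : ℤ), ?_⟩
          rw [h1, h6]
          ring
        · subst hi
          have h1 : (Φ x).coeff i = q := sq20_coeff_eq (q : ℤ) _
          rw [h1, hs1, mul_one, sub_self]
          exact dvd_zero _
        · have h1 : (Φ x).coeff i = 0 := sq20_coeff_gt (q : ℤ) _ hi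
          have h2 : s.coeff i = 0 := coeff_eq_zero_of_natDegree_lt (by rw [hs]; exact hi)
          rw [h1, h2, mul_zero, sub_self]
          exact dvd_zero _
    · obtain ⟨hx1, hx2⟩ := x.2
      constructor
      · have h1 : (Φ x).eval r = q * r ^ n +
            ∑ j : Fin n, (b j + M * ((x.1 j : ℕ) : ℤ)) * r ^ (j : ℕ) := sq20_eval _ _ _
        have h2 : (Φ x).eval r = F0 + M * ∑ j : Fin n, ((x.1 j : ℕ) : ℤ) * r ^ (j : ℕ) := by
          rw [h1, Finset.mul_sum]
          simp only [F0]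
          rw [add_assoc, ← Finset.sum_add_distrib]
          congr 1
          refine Finset.sum_congr rfl fun j _ => ?_
          ring
        rw [h2]
        have h3 : F0 + M * ∑ j : Fin n, ((x.1 j : ℕ) : ℤ) * r ^ (j : ℕ) =
            M * ((∑ j : Fin n, ((x.1 j : ℕ) : ℤ) * r ^ (j : ℕ)) - (-(M' * F0))) -
              (M * M' - 1) * F0 := by ring
        rw [h3]
        exact dvd_sub (Dvd.dvd.mul_left hx1 _) (Dvd.dvd.mul_right hM' _)
      · have h1 : (Φ x).derivative.eval r = q * (n * r ^ (n - 1)) +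
            ∑ j : Fin n, (b j + M * ((x.1 j : ℕ) : ℤ)) * ((j : ℕ) * r ^ ((j : ℕ) - 1)) :=
          sq20_deriv _ _ _
        have h2 : (Φ x).derivative.eval r = F1 +
            M * ∑ j : Fin n, ((x.1 j : ℕ) : ℤ) * ((j : ℕ) * r ^ ((j : ℕ) - 1)) := by
          rw [h1, Finset.mul_sum]
          simp only [F1]
          rw [add_assoc, ← Finset.sum_add_distrib]
          congr 1
          refine Finset.sum_congr rfl fun j _ => ?_
          ring
        rw [h2]
        have h3 : F1 + M * ∑ j : Fin n, ((x.1 j : ℕ) : ℤ) * ((j : ℕ) * r ^ ((j : ℕ) - 1)) =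
            M * ((∑ j : Fin n, ((x.1 j : ℕ) : ℤ) * ((j : ℕ) * r ^ ((j : ℕ) - 1))) -
              (-(M' * F1))) - (M * M' - 1) * F1 := by ring
        rw [h3]
        refine dvd_sub (Dvd.dvd.mul_left hx2 _) (Dvd.dvd.mul_right ?_ _)
        exact (Dvd.intro_left ((p : ℤ) ^ 1) (by ring)).trans hM'
  · rw [Finset.card_image_of_injective _ hΦinj, Finset.card_univ, ← hScard]
    refine le_trans ?_ (hsol N _ _ hN499)
    have h1 : c1 * (δ / (2 * M)) ^ n * (h : ℝ) ^ (500 * n) =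
        c1 * (δ / (2 * M) * (h : ℝ) ^ 500) ^ n := by
      rw [mul_pow, pow_mul]
      ring
    rw [h1]
    gcongr

end Pool.Agent.H92.SQ
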