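import Mathlib.NumberTheory.Chebyshev
import Mathlib.Analysis.Complex.ExponentialBounds

/-!
# Project SQ (MP_a3214d), row SQ-19

Chebyshev: many primes between `h ^ j` and `8 * h ^ j`.
-/

set_option autoImplicit false

open Finset

namespace Pool.Agent.H92.SQ

/-- the theta function grows by at least `X` between `X` and `8 X` -/
private theorem sq19_theta (X : ℕ) (hX : 1000000 ≤ X) :
    (X : ℝ) ≤ Chebyshev.theta ((8 * X : ℕ) : ℝ) - Chebyshev.theta (X : ℝ) := by
  have hXr : (1000000 : ℝ) ≤ (X : ℝ) := by exact_mod_cast hX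
  set y : ℝ := ((8 * X : ℕ) : ℝ) with hy
  have hyX : y = 8 * X := by rw [hy]; push_cast; ring
  have hy0 : 8000000 ≤ y := by linarith
  have hy1 : 0 ≤ y := by linarith
  set w : ℝ := Real.sqrt y with hw
  set u : ℝ := Real.sqrt w with hu
  have hw0 : 0 ≤ w := Real.sqrt_nonneg _
  have hu0 : 0 ≤ u := Real.sqrt_nonneg _
  have hw2 : w ^ 2 = y := Real.sq_sqrt hy1
  have hu2 : u ^ 2 = w := Real.sq_sqrt hw0
  have hu4 : u ^ 4 = y := by rw [← hw2, ← hu2]; ring
  have hu50 : 50 ≤ u := by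
    by_contra hcon
    push Not at hcon
    have h1 : u ^ 4 < 50 ^ 4 := pow_lt_pow_left₀ hcon hu0 (by norm_num)
    rw [hu4] at h1
    norm_num at h1
    linarith
  have hupos : 0 < u := by linarith
  have hlogu : Real.log u ≤ u := Real.log_le_self hu0
  have hlogy : Real.log y ≤ 4 * u := by
    rw [← hu4, Real.log_pow]
    push_cast
    linarith
  have hlogy1 : Real.log (y + 1) ≤ 8 * u := by
    have h1 : y + 1 ≤ y ^ 2 := by nlinarith
    have h2 : Real.log (y + 1) ≤ Real.log (y ^ 2) := Real.log_le_log (by linarith) h1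
    rw [Real.log_pow] at h2
    push_cast at h2
    linarith
  have hlog2 : 0.6931471803 < Real.log 2 := Real.log_two_gt_d9
  have hlog4 : Real.log 4 = 2 * Real.log 2 := by
    rw [show (4 : ℝ) = 2 ^ 2 by norm_num, Real.log_pow]
    push_cast
    ring
  have hge := Chebyshev.theta_ge (8 * X)
  have hle := Chebyshev.theta_le_log4_mul_x (x := (X : ℝ)) (by linarith)
  rw [hlog4] at hle
  rw [← hy, ← hw] at hge
  have h3 : 2 * w * Real.log y ≤ 8 * u ^ 3 := by
    have h4 : 2 * w * Real.log y ≤ 2 * w * (4 * u) :=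
      mul_le_mul_of_nonneg_left hlogy (by linarith)
    rw [← hu2] at h4 ⊢
    linarith [show 2 * u ^ 2 * (4 * u) = 8 * u ^ 3 by ring]
  have h5 : 8 * u ≤ 8 * u ^ 3 := by nlinarith [sq_nonneg u, mul_pos hupos hupos]
  have h6 : 16 * u ^ 3 ≤ 0.32 * y := by
    rw [← hu4]
    nlinarith [pow_pos hupos 3]
  have h7 : y * Real.log 2 - 2 * Real.log 2 * X = 6 * X * Real.log 2 := by
    rw [hyX]; ring
  have h8 : 6 * (X : ℝ) * 0.69 ≤ 6 * X * Real.log 2 :=
    mul_le_mul_of_nonneg_left (by linarith) (by linarith)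
  have h9 : 0.32 * y ≤ 2.56 * X := by rw [hyX]; linarith
  linarith

theorem many_primes (j : ℕ) (hj : 1 ≤ j) : ∃ h0 : ℕ, ∀ h ≥ h0,
    h ^ (j - 1) ≤ ((Finset.range (8 * h ^ j + 1)).filter fun p => p.Prime ∧ h ^ j < p).card := by
  refine ⟨max 1000000 ((2 * j + 2) ^ 2), fun h hh => ?_⟩
  have hh1 : 1000000 ≤ h := le_trans (le_max_left _ _) hh
  have hh2 : (2 * j + 2) ^ 2 ≤ h := le_trans (le_max_right _ _) hh
  set X : ℕ := h ^ j with hX
  have hXh : h ≤ X := by
    calc h = h ^ 1 := (pow_one h).symm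
      _ ≤ h ^ j := Nat.pow_le_pow_right (by omega) hj
  have hX6 : 1000000 ≤ X := le_trans hh1 hXh
  have hth := sq19_theta X hX6
  set S := (Finset.range (8 * X + 1)).filter fun p => p.Prime ∧ X < p with hS
  have hhr : (1000000 : ℝ) ≤ (h : ℝ) := by exact_mod_cast hh1
  -- the difference of the theta functions is a sum over `S`
  have hsum : Chebyshev.theta ((8 * X : ℕ) : ℝ) - Chebyshev.theta (X : ℝ) =
      ∑ p ∈ S, Real.log (p : ℝ) := by
    unfold Chebyshev.theta
    rw [Nat.floor_natCast, Nat.floor_natCast]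
    have hsplit : (Ioc 0 (8 * X)).filter Nat.Prime =
        (Ioc 0 X).filter Nat.Prime ∪ S := by
      ext p
      simp only [hS, mem_filter, mem_Ioc, mem_union, mem_range]
      constructor
      · rintro ⟨⟨h1, h2⟩, h3⟩
        by_cases h4 : p ≤ X
        · exact Or.inl ⟨⟨h1, h4⟩, h3⟩
        · exact Or.inr ⟨by omega, h3, by omega⟩
      · rintro (⟨⟨h1, h2⟩, h3⟩ | ⟨h1, h2, h3⟩)
        · exact ⟨⟨h1, by omega⟩, h3⟩
        · exact ⟨⟨by omega, by omega⟩, h2⟩
    have hdisj : Disjoint ((Ioc 0 X).filter Nat.Prime) S := by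
      rw [Finset.disjoint_left]
      intro p h1 h2
      simp only [hS, mem_filter, mem_Ioc, mem_range] at h1 h2
      omega
    rw [hsplit, sum_union hdisj]
    ring
  -- each term is at most `log (8 X)`
  have hlogX : ∑ p ∈ S, Real.log (p : ℝ) ≤ S.card * Real.log ((8 * X : ℕ) : ℝ) := by
    rw [← nsmul_eq_mul]
    refine Finset.sum_le_card_nsmul _ _ _ fun p hp => ?_
    simp only [hS, mem_filter, mem_range] at hp
    refine Real.log_le_log ?_ ?_
    · exact_mod_cast hp.2.1.pos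
    · exact_mod_cast (by omega : p ≤ 8 * X)
  -- `log (8 X) ≤ h`
  have hlogh : Real.log ((8 * X : ℕ) : ℝ) ≤ h := by
    have h1 : ((8 * X : ℕ) : ℝ) = 8 * (h : ℝ) ^ j := by rw [hX]; push_cast; ring
    rw [h1, Real.log_mul (by norm_num) (by positivity), Real.log_pow]
    set w : ℝ := Real.sqrt h with hw
    have hw0 : 0 ≤ w := Real.sqrt_nonneg _
    have hw2 : w ^ 2 = h := Real.sq_sqrt (by linarith)
    have hwj : 2 * (j : ℝ) + 2 ≤ w := by
      apply Real.le_sqrt_of_sq_le
      exact_mod_cast hh2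
    have hw3 : 3 ≤ w := by
      have : (1 : ℝ) ≤ j := by exact_mod_cast hj
      linarith
    have hlog : Real.log (h : ℝ) ≤ 2 * w := by
      rw [← hw2, Real.log_pow]
      push_cast
      linarith [Real.log_le_self hw0]
    have hlog8 : Real.log 8 ≤ 3 := by
      rw [show (8 : ℝ) = 2 ^ 3 by norm_num, Real.log_pow]
      push_cast
      linarith [Real.log_two_lt_d9]
    have h2 : (j : ℝ) * Real.log (h : ℝ) ≤ j * (2 * w) :=
      mul_le_mul_of_nonneg_left hlog (Nat.cast_nonneg j)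
    nlinarith
  -- conclusion
  have hfin : (X : ℝ) ≤ S.card * (h : ℝ) := by
    calc (X : ℝ) ≤ S.card * Real.log ((8 * X : ℕ) : ℝ) := by linarith
      _ ≤ S.card * (h : ℝ) := mul_le_mul_of_nonneg_left hlogh (Nat.cast_nonneg _)
  have hfin' : h ^ (j - 1) * h ≤ S.card * h := by
    have h1 : h ^ (j - 1) * h = X := by
      rw [hX, ← pow_succ]
      congr 1
      omega
    rw [h1]
    exact_mod_cast hfin
  exact Nat.le_of_mul_le_mul_right hfin' (by omega)

end Pool.Agent.H92.SQ
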