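import Pool.Agent.H92.SQ.Defs

/-!
# Project SQ, row SQ-21: few residues, and the double counting of the family
-/

set_option autoImplicit false

open Polynomial

namespace Pool.Agent.H92.SQ

theorem few_residues {f : ℤ[X]} {p n : ℕ} (hp : p.Prime) (hdeg : f.natDegree = n)
    (hlc : ¬ (p : ℤ) ∣ f.leadingCoeff) :
    ((Finset.range p).filter fun r : ℕ => (p : ℤ) ∣ f.eval (r : ℤ)).card ≤ n := by
  classical
  have : Fact p.Prime := ⟨hp⟩
  set F : (ZMod p)[X] := f.map (Int.castRingHom (ZMod p)) with hF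
  have hF0 : F ≠ 0 := by
    intro h
    apply hlc
    have h1 : F.coeff f.natDegree = 0 := by rw [h, coeff_zero]
    rw [hF, coeff_map, coeff_natDegree, eq_intCast, ZMod.intCast_zmod_eq_zero_iff_dvd] at h1
    exact h1
  have hle : F.roots.toFinset.card ≤ n :=
    (Multiset.toFinset_card_le _).trans ((card_roots' F).trans (natDegree_map_le.trans hdeg.le))
  refine le_trans (Finset.card_le_card_of_injOn (fun r : ℕ => (r : ZMod p)) ?_ ?_) hle
  · intro r hr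
    have h2 := (Finset.mem_filter.1 (Finset.mem_coe.1 hr)).2
    rw [Finset.mem_coe, Multiset.mem_toFinset, mem_roots hF0, IsRoot.def, hF]
    have h3 : ((r : ℕ) : ZMod p) = (Int.castRingHom (ZMod p)) (r : ℤ) := by
      rw [eq_intCast, Int.cast_natCast]
    change eval ((r : ℕ) : ZMod p) (map (Int.castRingHom (ZMod p)) f) = 0
    rw [h3, eval_map, eval₂_at_apply, eq_intCast, ZMod.intCast_zmod_eq_zero_iff_dvd]
    exact h2
  · intro a ha b hb hab
    have ha' := Finset.mem_range.1 (Finset.mem_filter.1 (Finset.mem_coe.1 ha)).1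
    have hb' := Finset.mem_range.1 (Finset.mem_filter.1 (Finset.mem_coe.1 hb)).1
    have h4 : (a : ZMod p) = (b : ZMod p) := hab
    rw [ZMod.natCast_eq_natCast_iff] at h4
    exact Nat.ModEq.eq_of_lt_of_lt h4 ha' hb'

/-- the number of triples `(q, p, r)` with a given `f` -/
theorem sq21_fibre {α : Type} [DecidableEq α] (Q P : Finset ℕ) (R : ℕ → Finset ℕ)
    (T : ℕ → ℕ → ℕ → Finset α) (lc : α → ℕ) (b1 b2 : ℕ)
    (hlc : ∀ q ∈ Q, ∀ p ∈ P, ∀ r ∈ R p, ∀ f ∈ T q p r, lc f = q)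
    (hp : ∀ q ∈ Q, ∀ f : α, (P.filter fun p => ∃ r ∈ R p, f ∈ T q p r).card ≤ b1)
    (hr : ∀ q ∈ Q, ∀ p ∈ P, ∀ f : α, ((R p).filter fun r => f ∈ T q p r).card ≤ b2) (f : α) :
    ∑ q ∈ Q, ∑ p ∈ P, ∑ r ∈ R p, (if f ∈ T q p r then 1 else 0) ≤ b1 * b2 := by
  have h1 : ∀ q ∈ Q, ∑ p ∈ P, ∑ r ∈ R p, (if f ∈ T q p r then 1 else 0) ≤
      if q = lc f then b1 * b2 else 0 := by
    intro q hq
    by_cases hqf : q = lc f
    · rw [if_pos hqf]
      calc ∑ p ∈ P, ∑ r ∈ R p, (if f ∈ T q p r then 1 else 0)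
          ≤ ∑ p ∈ P, if (∃ r ∈ R p, f ∈ T q p r) then b2 else 0 := by
            refine Finset.sum_le_sum fun p hpP => ?_
            by_cases hex : ∃ r ∈ R p, f ∈ T q p r
            · rw [if_pos hex, Finset.sum_boole]
              exact hr q hq p hpP f
            · rw [if_neg hex]
              refine (Finset.sum_eq_zero fun r hrR => ?_).le
              rw [if_neg fun h => hex ⟨r, hrR, h⟩]
        _ = (P.filter fun p => ∃ r ∈ R p, f ∈ T q p r).card * b2 := by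
            rw [← Finset.sum_filter, Finset.sum_const, smul_eq_mul]
        _ ≤ b1 * b2 := Nat.mul_le_mul_right _ (hp q hq f)
    · rw [if_neg hqf]
      refine (Finset.sum_eq_zero fun p hpP => Finset.sum_eq_zero fun r hrR => ?_).le
      rw [if_neg fun h => hqf (hlc q hq p hpP r hrR f h).symm]
  refine (Finset.sum_le_sum h1).trans ?_
  rw [Finset.sum_ite_eq']
  split_ifs
  · exact le_rfl
  · exact Nat.zero_le _

/-- double counting: polynomials indexed by `(q, p, r)` -/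
theorem union_count {α : Type} [DecidableEq α] (Q P : Finset ℕ) (R : ℕ → Finset ℕ)
    (T : ℕ → ℕ → ℕ → Finset α) (lc : α → ℕ) (κ b1 b2 : ℕ)
    (hlc : ∀ q ∈ Q, ∀ p ∈ P, ∀ r ∈ R p, ∀ f ∈ T q p r, lc f = q)
    (hκ : ∀ q ∈ Q, ∀ p ∈ P, ∀ r ∈ R p, κ ≤ (T q p r).card)
    (hp : ∀ q ∈ Q, ∀ f : α, (P.filter fun p => ∃ r ∈ R p, f ∈ T q p r).card ≤ b1)
    (hr : ∀ q ∈ Q, ∀ p ∈ P, ∀ f : α, ((R p).filter fun r => f ∈ T q p r).card ≤ b2) :
    κ * (Q.card * ∑ p ∈ P, (R p).card) ≤ b1 * b2 *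
      (Q.biUnion fun q => P.biUnion fun p => (R p).biUnion fun r => T q p r).card := by
  set U := Q.biUnion fun q => P.biUnion fun p => (R p).biUnion fun r => T q p r with hU
  have h2 : ∀ q ∈ Q, ∀ p ∈ P, ∀ r ∈ R p,
      κ ≤ ∑ f ∈ U, (if f ∈ T q p r then 1 else 0) := by
    intro q hq p hpP r hrR
    rw [Finset.sum_boole]
    refine (hκ q hq p hpP r hrR).trans (Finset.card_le_card fun f hf => ?_)
    rw [Finset.mem_filter]
    refine ⟨?_, hf⟩
    rw [hU, Finset.mem_biUnion]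
    refine ⟨q, hq, ?_⟩
    rw [Finset.mem_biUnion]
    refine ⟨p, hpP, ?_⟩
    rw [Finset.mem_biUnion]
    exact ⟨r, hrR, hf⟩
  calc κ * (Q.card * ∑ p ∈ P, (R p).card) = ∑ q ∈ Q, ∑ p ∈ P, ∑ r ∈ R p, κ := by
        simp only [Finset.sum_const, smul_eq_mul, ← Finset.sum_mul]
        ring
    _ ≤ ∑ q ∈ Q, ∑ p ∈ P, ∑ r ∈ R p, ∑ f ∈ U, (if f ∈ T q p r then 1 else 0) :=
        Finset.sum_le_sum fun q hq => Finset.sum_le_sum fun p hpP => Finset.sum_le_sum
          fun r hrR => h2 q hq p hpP r hrR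
    _ = ∑ q ∈ Q, ∑ p ∈ P, ∑ f ∈ U, ∑ r ∈ R p, (if f ∈ T q p r then 1 else 0) :=
        Finset.sum_congr rfl fun q _ => Finset.sum_congr rfl fun p _ => Finset.sum_comm
    _ = ∑ q ∈ Q, ∑ f ∈ U, ∑ p ∈ P, ∑ r ∈ R p, (if f ∈ T q p r then 1 else 0) :=
        Finset.sum_congr rfl fun q _ => Finset.sum_comm
    _ = ∑ f ∈ U, ∑ q ∈ Q, ∑ p ∈ P, ∑ r ∈ R p, (if f ∈ T q p r then 1 else 0) :=
        Finset.sum_comm
    _ ≤ ∑ f ∈ U, b1 * b2 := Finset.sum_le_sum fun f _ => sq21_fibre Q P R T lc b1 b2 hlc hp hr f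
    _ = b1 * b2 * U.card := by
        rw [Finset.sum_const, smul_eq_mul, mul_comm]

end Pool.Agent.H92.SQ
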