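import Pool.Agent.H92.SQ.Good
import Pool.Agent.H92.SQ.Bad
import Pool.Agent.H92.SQ.Primes
import Pool.Agent.H92.SQ.FamOne
import Pool.Agent.H92.SQ.Union

/-!
# SQ-22: the size of the family

`family_count`: there are at least `c h^(500 (n + 1 - n/5) - 2)` planted polynomials.
-/

set_option autoImplicit false

open Polynomial

namespace Pool.Agent.H92.SQ

/-- `h p² ≤ ⌊p² / h^490⌋ N` for `N ≥ h^499`. -/
private lemma sq22_W {h p N : ℕ} (hh : 2 ≤ h) (hp : h ^ 490 ≤ p ^ 2) (hN : h ^ 499 ≤ N) :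
    0 < p ^ 2 / h ^ 490 ∧ h * p ^ 2 ≤ p ^ 2 / h ^ 490 * N := by
  have hpos : 0 < h ^ 490 := by positivity
  have hW : 0 < p ^ 2 / h ^ 490 := Nat.div_pos hp hpos
  refine ⟨hW, ?_⟩
  have h1 : p ^ 2 < h ^ 490 * (p ^ 2 / h ^ 490 + 1) := Nat.lt_mul_div_succ _ hpos
  have h2 : p ^ 2 / h ^ 490 + 1 ≤ 2 * (p ^ 2 / h ^ 490) := by omega
  have h3 : p ^ 2 ≤ h ^ 490 * (2 * (p ^ 2 / h ^ 490)) :=
    h1.le.trans (Nat.mul_le_mul_left _ h2)
  calc h * p ^ 2 ≤ h * (h ^ 490 * (2 * (p ^ 2 / h ^ 490))) := Nat.mul_le_mul_left _ h3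
    _ = p ^ 2 / h ^ 490 * (h ^ 491 * 2) := by ring
    _ ≤ p ^ 2 / h ^ 490 * N := by
        refine Nat.mul_le_mul_left _ ?_
        calc h ^ 491 * 2 ≤ h ^ 491 * h := Nat.mul_le_mul_left _ hh
          _ = h ^ 492 := by ring
          _ ≤ h ^ 499 := Nat.pow_le_pow_right (by omega) (by norm_num)
          _ ≤ N := hN

theorem family_count (n : ℕ) (hn : 40000 ≤ n) (M : ℕ) (s : ℤ[X]) (δ : ℝ) (hM : 0 < M)
    (hs : s.natDegree = n) (hs1 : s.coeff n = 1) (hδ : 0 < δ)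
    (hfew : ∃ h0 : ℕ, ∀ h ≥ h0, ∀ f, Mem n M s δ (h ^ 500) f → ∀ S : Finset ℕ,
      (∀ p ∈ S, p.Prime ∧ h ^ (500 * (n / 5)) < p ∧ ∃ r : ℤ, Planted f p r) → S.card ≤ 5) :
    ∃ c : ℝ, 0 < c ∧ ∃ h0 : ℕ, ∀ h ≥ h0, ∃ T : Finset ℤ[X],
      (∀ f ∈ T, Mem n M s δ (h ^ 500) f ∧ ∃ p : ℕ, p.Prime ∧ h ^ (500 * (n / 5)) < p ∧
        ∃ r : ℤ, Planted f p r) ∧
      c * (h : ℝ) ^ (500 * (n + 1 - n / 5) - 2) ≤ T.card := by
  classical
  obtain ⟨t, ht⟩ : ∃ t, t = n / 5 := ⟨_, rfl⟩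
  have ht1 : 5 * t ≤ n := by omega
  have ht2 : 8000 ≤ t := by omega
  rw [← ht] at hfew ⊢
  obtain ⟨c1, hc1, h1, H1⟩ := count_good n (500 * t + 3) (by omega)
  obtain ⟨c2, hc2, h2, H2⟩ := fam_one n M s δ c1 (by omega) hM hs hs1 hδ hc1
  obtain ⟨h3, H3⟩ := few_bad n hn
  obtain ⟨h4, H4⟩ := many_primes 500 (by norm_num)
  obtain ⟨h5, H5⟩ := many_primes (500 * t) (by omega)
  obtain ⟨h6, H6⟩ := hfew
  rw [← ht] at H3
  refine ⟨c2 / (5120 * n), by positivity, max 2 (h1 ⊔ h2 ⊔ h3 ⊔ h4 ⊔ h5 ⊔ h6), fun h hh => ?_⟩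
  simp only [ge_iff_le, max_le_iff] at hh
  obtain ⟨hh2, ⟨⟨⟨⟨hh1, hh2'⟩, hh3⟩, hh4⟩, hh5⟩, hh6⟩ := hh
  have hh0 : 0 < h := by omega
  have H8 : 8 ≤ h ^ 3 := by
    calc 8 = 2 ^ 3 := by norm_num
      _ ≤ h ^ 3 := Nat.pow_le_pow_left hh2 3
  set Q : Finset ℕ := (Finset.range (8 * h ^ 500 + 1)).filter fun p => p.Prime ∧ h ^ 500 < p
    with hQ
  set P : Finset ℕ :=
    (Finset.range (8 * h ^ (500 * t) + 1)).filter fun p => p.Prime ∧ h ^ (500 * t) < p with hP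
  set R : ℕ → Finset ℕ := fun p =>
    (Finset.range p).filter fun r : ℕ => ¬ BadR n (p ^ 2 / h ^ 490) p (r : ℤ) with hR
  have hQm : ∀ q ∈ Q, q.Prime ∧ h ^ 500 < q ∧ q ≤ 8 * h ^ 500 := by
    intro q hq
    simp only [hQ, Finset.mem_filter, Finset.mem_range] at hq
    exact ⟨hq.2.1, hq.2.2, by omega⟩
  have hPm : ∀ p ∈ P, p.Prime ∧ h ^ (500 * t) < p ∧ p ≤ 8 * h ^ (500 * t) := by
    intro q hq
    simp only [hP, Finset.mem_filter, Finset.mem_range] at hq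
    exact ⟨hq.2.1, hq.2.2, by omega⟩
  have hqp : ∀ q ∈ Q, ∀ p ∈ P, q < p := by
    intro q hq p hp
    calc q ≤ 8 * h ^ 500 := (hQm q hq).2.2
      _ ≤ h ^ 3 * h ^ 500 := Nat.mul_le_mul_right _ H8
      _ = h ^ 503 := by ring
      _ ≤ h ^ (500 * t) := Nat.pow_le_pow_right hh0 (by omega)
      _ < p := (hPm p hp).2.1
  -- the members for one triple
  have hex : ∀ q p r : ℕ, ∃ T : Finset ℤ[X], q ∈ Q → p ∈ P → r ∈ R p →
      (∀ f ∈ T, Mem n M s δ (h ^ 500) f ∧ f.leadingCoeff = q ∧ Planted f p r) ∧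
        c2 * (h : ℝ) ^ (500 * n) ≤ (p : ℝ) ^ 3 * T.card := by
    intro q p r
    by_cases hc : q ∈ Q ∧ p ∈ P ∧ r ∈ R p
    · obtain ⟨hq, hp, hr⟩ := hc
      have hp1 := hPm p hp
      have hq1 := hQm q hq
      have hr1 : ¬ BadR n (p ^ 2 / h ^ 490) p (r : ℤ) := by
        simp only [hR, Finset.mem_filter] at hr
        exact hr.2
      have hpb : h ^ 490 ≤ p ^ 2 := by
        calc h ^ 490 ≤ h ^ (500 * t) := Nat.pow_le_pow_right hh0 (by omega)
          _ ≤ p := hp1.2.1.le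
          _ ≤ p ^ 2 := by nlinarith [hp1.1.one_lt]
      obtain ⟨T, hT1, hT2⟩ := H2 h hh2' q p hq1.1 hq1.2.1 hq1.2.2 hp1.1 (hqp q hq p hp) (r : ℤ)
        (fun N A B hN => by
          obtain ⟨hW0, hW1⟩ := sq22_W hh2 hpb hN
          refine H1 h hh1 p N (p ^ 2 / h ^ 490) hp1.1 hW0 ?_ hW1 (r : ℤ) A B hr1
          calc p ≤ 8 * h ^ (500 * t) := hp1.2.2
            _ ≤ h ^ 3 * h ^ (500 * t) := Nat.mul_le_mul_right _ H8
            _ = h ^ (500 * t + 3) := by ring)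
      exact ⟨T, fun _ _ _ => ⟨hT1, hT2⟩⟩
    · exact ⟨∅, fun hq hp hr => (hc ⟨hq, hp, hr⟩).elim⟩
  choose T hT using hex
  have hT1 : ∀ q ∈ Q, ∀ p ∈ P, ∀ r ∈ R p, ∀ f ∈ T q p r,
      Mem n M s δ (h ^ 500) f ∧ f.leadingCoeff = q ∧ Planted f p r :=
    fun q hq p hp r hr => (hT q p r hq hp hr).1
  have hT2 : ∀ q ∈ Q, ∀ p ∈ P, ∀ r ∈ R p,
      c2 * (h : ℝ) ^ (500 * n) ≤ (p : ℝ) ^ 3 * (T q p r).card :=
    fun q hq p hp r hr => (hT q p r hq hp hr).2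
  have hhr : (0 : ℝ) < (h : ℝ) := by exact_mod_cast hh0
  set κ : ℕ := ⌈c2 * (h : ℝ) ^ (500 * n - 1500 * t) / 512⌉₊ with hκ
  have hκle : ∀ q ∈ Q, ∀ p ∈ P, ∀ r ∈ R p, κ ≤ (T q p r).card := by
    intro q hq p hp r hr
    rw [hκ, Nat.ceil_le]
    have e1 := hT2 q hq p hp r hr
    have e2 : (p : ℝ) ^ 3 ≤ 512 * (h : ℝ) ^ (1500 * t) := by
      have : (p : ℝ) ≤ 8 * (h : ℝ) ^ (500 * t) := by exact_mod_cast (hPm p hp).2.2
      calc (p : ℝ) ^ 3 ≤ (8 * (h : ℝ) ^ (500 * t)) ^ 3 := by gcongr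
        _ = 512 * (h : ℝ) ^ (1500 * t) := by
          rw [mul_pow, ← pow_mul]
          have : 500 * t * 3 = 1500 * t := by ring
          rw [this]
          norm_num
    have e3 : c2 * (h : ℝ) ^ (500 * n) ≤ 512 * (h : ℝ) ^ (1500 * t) * (T q p r).card :=
      e1.trans (mul_le_mul_of_nonneg_right e2 (Nat.cast_nonneg _))
    have e4 : (h : ℝ) ^ (500 * n) = (h : ℝ) ^ (500 * n - 1500 * t) * (h : ℝ) ^ (1500 * t) := by
      rw [← pow_add]
      congr 1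
      omega
    rw [e4] at e3
    have hpow : (0 : ℝ) < (h : ℝ) ^ (1500 * t) := by positivity
    have e5 : c2 * (h : ℝ) ^ (500 * n - 1500 * t) * (h : ℝ) ^ (1500 * t) ≤
        (512 * ((T q p r).card : ℝ)) * (h : ℝ) ^ (1500 * t) := by
      calc c2 * (h : ℝ) ^ (500 * n - 1500 * t) * (h : ℝ) ^ (1500 * t)
          = c2 * ((h : ℝ) ^ (500 * n - 1500 * t) * (h : ℝ) ^ (1500 * t)) := by ring
        _ ≤ 512 * (h : ℝ) ^ (1500 * t) * (T q p r).card := e3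
        _ = _ := by ring
    have e6 := le_of_mul_le_mul_right e5 hpow
    rw [div_le_iff₀ (by norm_num)]
    linarith
  -- double counting
  have key := union_count Q P R T (fun f => f.leadingCoeff.toNat) κ 5 n
    (fun q hq p hp r hr f hf => by rw [(hT1 q hq p hp r hr f hf).2.1]; simp)
    hκle
    (fun q hq f => by
      rcases (P.filter fun p => ∃ r ∈ R p, f ∈ T q p r).eq_empty_or_nonempty with he | ⟨p0, hp0⟩
      · rw [he]; simp
      · rw [Finset.mem_filter] at hp0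
        obtain ⟨hp0, r0, hr0, hf0⟩ := hp0
        refine H6 h hh6 f (hT1 q hq p0 hp0 r0 hr0 f hf0).1 _ (fun p hp => ?_)
        rw [Finset.mem_filter] at hp
        obtain ⟨hp, r, hr, hf⟩ := hp
        exact ⟨(hPm p hp).1, (hPm p hp).2.1, r, (hT1 q hq p hp r hr f hf).2.2⟩)
    (fun q hq p hp f => by
      rcases ((R p).filter fun r => f ∈ T q p r).eq_empty_or_nonempty with he | ⟨r0, hr0⟩
      · rw [he]; simp
      · rw [Finset.mem_filter] at hr0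
        obtain ⟨hr0, hf0⟩ := hr0
        have hm := hT1 q hq p hp r0 hr0 f hf0
        have hlc : ¬ (p : ℤ) ∣ f.leadingCoeff := by
          rw [hm.2.1]
          intro hd
          have h1 : p ∣ q := by exact_mod_cast hd
          exact absurd (Nat.le_of_dvd (hQm q hq).1.pos h1) (not_le.2 (hqp q hq p hp))
        refine (Finset.card_le_card ?_).trans (few_residues (hPm p hp).1 hm.1.deg hlc)
        intro r hr
        rw [Finset.mem_filter] at hr ⊢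
        have h1 := hT1 q hq p hp r hr.1 f hr.2
        have h2 : r ∈ Finset.range p := by
          have := hr.1
          simp only [hR, Finset.mem_filter] at this
          exact this.1
        exact ⟨h2, (dvd_pow_self _ (by norm_num)).trans h1.2.2.1⟩)
  refine ⟨Q.biUnion fun q => P.biUnion fun p => (R p).biUnion fun r => T q p r, ?_, ?_⟩
  · intro f hf
    simp only [Finset.mem_biUnion] at hf
    obtain ⟨q, hq, p, hp, r, hr, hf⟩ := hf
    have h1 := hT1 q hq p hp r hr f hf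
    exact ⟨h1.1, p, (hPm p hp).1, (hPm p hp).2.1, (r : ℤ), h1.2.2⟩
  · -- the size
    have hQc : h ^ 499 ≤ Q.card := H4 h hh4
    have hPc : h ^ (500 * t - 1) ≤ P.card := H5 h hh5
    have hRc : ∀ p ∈ P, h ^ (500 * t) ≤ 2 * (R p).card := by
      intro p hp
      have h1 := H3 h hh3 p (hPm p hp).1 (hPm p hp).2.1 (hPm p hp).2.2
      have h2 : ((Finset.range p).filter fun r : ℕ => BadR n (p ^ 2 / h ^ 490) p (r : ℤ)).card +
          (R p).card = p := by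
        have := Finset.card_filter_add_card_filter_not (s := Finset.range p)
          (fun r : ℕ => BadR n (p ^ 2 / h ^ 490) p (r : ℤ))
        rw [Finset.card_range] at this
        exact this
      have h3 := (hPm p hp).2.1
      omega
    have hsum : h ^ (500 * t - 1) * h ^ (500 * t) ≤ 2 * ∑ p ∈ P, (R p).card := by
      rw [Finset.mul_sum]
      calc h ^ (500 * t - 1) * h ^ (500 * t) ≤ P.card * h ^ (500 * t) :=
            Nat.mul_le_mul_right _ hPc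
        _ = ∑ p ∈ P, h ^ (500 * t) := by rw [Finset.sum_const, smul_eq_mul]
        _ ≤ ∑ p ∈ P, 2 * (R p).card := Finset.sum_le_sum hRc
    set U := (Q.biUnion fun q => P.biUnion fun p => (R p).biUnion fun r => T q p r).card with hU
    have k1 : κ * (h ^ 499 * (h ^ (500 * t - 1) * h ^ (500 * t))) ≤ 2 * (5 * n * U) := by
      calc κ * (h ^ 499 * (h ^ (500 * t - 1) * h ^ (500 * t)))
          ≤ κ * (Q.card * (2 * ∑ p ∈ P, (R p).card)) := by gcongr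
        _ = 2 * (κ * (Q.card * ∑ p ∈ P, (R p).card)) := by ring
        _ ≤ 2 * (5 * n * U) := Nat.mul_le_mul_left _ key
    have k2 : (κ : ℝ) * ((h : ℝ) ^ 499 * ((h : ℝ) ^ (500 * t - 1) * (h : ℝ) ^ (500 * t))) ≤
        2 * (5 * n * U) := by exact_mod_cast k1
    have k3 : c2 * (h : ℝ) ^ (500 * n - 1500 * t) / 512 ≤ κ := Nat.le_ceil _
    have k4 : c2 * (h : ℝ) ^ (500 * n - 1500 * t) / 512 *
        ((h : ℝ) ^ 499 * ((h : ℝ) ^ (500 * t - 1) * (h : ℝ) ^ (500 * t))) ≤ 2 * (5 * n * U) :=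
      (mul_le_mul_of_nonneg_right k3 (by positivity)).trans k2
    have k5 : (h : ℝ) ^ (500 * n - 1500 * t) *
        ((h : ℝ) ^ 499 * ((h : ℝ) ^ (500 * t - 1) * (h : ℝ) ^ (500 * t))) =
        (h : ℝ) ^ (500 * (n + 1 - t) - 2) := by
      rw [← pow_add, ← pow_add, ← pow_add]
      congr 1
      omega
    have hn0 : (0 : ℝ) < (n : ℝ) := by
      have : 0 < n := by omega
      exact_mod_cast this
    have k6 : c2 * (h : ℝ) ^ (500 * (n + 1 - t) - 2) ≤ 5120 * n * U := by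
      rw [← k5]
      have : c2 * ((h : ℝ) ^ (500 * n - 1500 * t) *
        ((h : ℝ) ^ 499 * ((h : ℝ) ^ (500 * t - 1) * (h : ℝ) ^ (500 * t)))) =
        512 * (c2 * (h : ℝ) ^ (500 * n - 1500 * t) / 512 *
        ((h : ℝ) ^ 499 * ((h : ℝ) ^ (500 * t - 1) * (h : ℝ) ^ (500 * t)))) := by ring
      rw [this]
      nlinarith [k4]
    rw [div_mul_eq_mul_div, div_le_iff₀ (by positivity)]
    linarith [k6]

end Pool.Agent.H92.SQ
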