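import Pool.Agent.H92.SQ.Defs

/-!
# Project SQ (MP_a3214d): row SQ-9

At most five large primes can be planted.
-/

set_option autoImplicit false

open Polynomial

namespace Pool.Agent.H92.SQ

/-- Chinese remainders for the squares of finitely many primes. -/
theorem sq9_crt (U : Finset ℕ) (hU : ∀ p ∈ U, p.Prime) (g : ℕ → ℤ) :
    ∃ r : ℤ, ∀ p ∈ U, (p : ℤ) ^ 2 ∣ r - g p := by
  obtain ⟨r, hr⟩ := Ideal.exists_forall_sub_mem_ideal
    (I := fun p : U => Ideal.span {((p : ℕ) : ℤ) ^ 2}) (by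
      rintro ⟨p, hp⟩ ⟨q, hq⟩ hpq
      have hpq' : p ≠ q := fun h => hpq (Subtype.ext h)
      show IsCoprime (Ideal.span {(p : ℤ) ^ 2}) (Ideal.span {(q : ℤ) ^ 2})
      rw [Ideal.isCoprime_span_singleton_iff]
      apply IsCoprime.pow
      exact Nat.isCoprime_iff_coprime.2 ((Nat.coprime_primes (hU p hp) (hU q hq)).2 hpq'))
    (fun p => g p)
  exact ⟨r, fun p hp => Ideal.mem_span_singleton.1 (hr ⟨p, hp⟩)⟩

/-- The product of planted primes is planted. -/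
theorem sq9_glue (f : ℤ[X]) (U : Finset ℕ) (hU : ∀ p ∈ U, p.Prime)
    (hp : ∀ p ∈ U, ∃ r : ℤ, Planted f p r) :
    ∃ r : ℤ, (∏ p ∈ U, (p : ℤ)) ^ 2 ∣ f.eval r ∧ (∏ p ∈ U, (p : ℤ)) ∣ f.derivative.eval r := by
  choose! g hg using hp
  obtain ⟨r, hr⟩ := sq9_crt U hU g
  have hcop : (U : Set ℕ).Pairwise (Function.onFun IsCoprime fun p : ℕ => (p : ℤ)) := by
    intro p hp q hq hpq
    exact Nat.isCoprime_iff_coprime.2 ((Nat.coprime_primes (hU p hp) (hU q hq)).2 hpq)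
  refine ⟨r, ?_, ?_⟩
  · rw [← Finset.prod_pow]
    apply Finset.prod_dvd_of_coprime
    · intro p hp q hq hpq
      exact (hcop hp hq hpq).pow
    · intro p hp
      have h1 := (hr p hp).trans (sub_dvd_eval_sub r (g p) f)
      have h2 := dvd_add h1 (hg p hp).1
      rwa [sub_add_cancel] at h2
  · apply Finset.prod_dvd_of_coprime hcop
    intro p hp
    have h0 : (p : ℤ) ∣ r - g p := (dvd_pow_self _ two_ne_zero).trans (hr p hp)
    have h1 := h0.trans (sub_dvd_eval_sub r (g p) f.derivative)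
    have h2 := dvd_add h1 (hg p hp).2
    rwa [sub_add_cancel] at h2

/-- ## SQ-9 -/
theorem few_primes (n : ℕ) (hn : 40000 ≤ n) (C : ℝ) : ∃ h0 : ℕ, ∀ h ≥ h0, ∀ f : ℤ[X],
    (∀ m r : ℤ, 0 < m → m ^ 2 ∣ f.eval r → m ∣ f.derivative.eval r →
      (m : ℝ) ^ 2 ≤ C * (h : ℝ) ^ (501 * (2 * n - 2))) →
    ∀ S : Finset ℕ, (∀ p ∈ S, p.Prime ∧ h ^ (500 * (n / 5)) < p ∧ ∃ r : ℤ, Planted f p r) →
      S.card ≤ 5 := by
  refine ⟨⌈C⌉₊ + 1, ?_⟩
  intro h hh f hf S hS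
  by_contra hcon
  obtain ⟨U, hUS, hU6⟩ := Finset.exists_subset_card_eq (show 6 ≤ S.card by omega)
  obtain ⟨r, hr1, hr2⟩ := sq9_glue f U (fun p hp => (hS p (hUS hp)).1)
    (fun p hp => (hS p (hUS hp)).2.2)
  have hpos : 0 < ∏ p ∈ U, (p : ℤ) :=
    Finset.prod_pos fun p hp => by exact_mod_cast (hS p (hUS hp)).1.pos
  have h1 := hf _ r hpos hr1 hr2
  have hh1 : 1 ≤ h := by omega
  have hhR : (1 : ℝ) ≤ h := by exact_mod_cast hh1
  have hhC : C < h := by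
    have h2 : C ≤ (⌈C⌉₊ : ℝ) := Nat.le_ceil C
    have h3 : ((⌈C⌉₊ + 1 : ℕ) : ℝ) ≤ h := by exact_mod_cast hh
    push_cast at h3
    linarith
  -- the product is large
  have hbig : ((h : ℝ) ^ (500 * (n / 5))) ^ 6 ≤ ∏ p ∈ U, (p : ℝ) := by
    rw [← hU6, ← Finset.prod_const]
    apply Finset.prod_le_prod
    · intro p _
      positivity
    · intro p hp
      exact_mod_cast (hS p (hUS hp)).2.1.le
  have hcast : (((∏ p ∈ U, (p : ℤ) : ℤ)) : ℝ) = ∏ p ∈ U, (p : ℝ) := by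
    push_cast
    rfl
  rw [hcast] at h1
  have h2 : (((h : ℝ) ^ (500 * (n / 5))) ^ 6) ^ 2 ≤ (∏ p ∈ U, (p : ℝ)) ^ 2 :=
    pow_le_pow_left₀ (by positivity) hbig 2
  rw [← pow_mul, ← pow_mul] at h2
  have h3 : (h : ℝ) ^ (501 * (2 * n - 2) + 1) ≤ (h : ℝ) ^ (500 * (n / 5) * (6 * 2)) :=
    pow_le_pow_right₀ hhR (by omega)
  rw [pow_succ] at h3
  have h4 : C * (h : ℝ) ^ (501 * (2 * n - 2)) < (h : ℝ) ^ (501 * (2 * n - 2)) * h := by
    rw [mul_comm]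
    exact mul_lt_mul_of_pos_left hhC (by positivity)
  linarith

end Pool.Agent.H92.SQ
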