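import Pool.Agent.H92.SQ.Defs

/-!
# Project SQ, row SQ-7: the quotient `f(r) / (m (θ - r))` is an algebraic integer

Let `g = f(X + r)` with coefficients `b_i`, `b_0 = m² c`, `b_1 = m b`.  The polynomial
`g(m c X) / (m² c)` has integral coefficients and constant coefficient `1`, and it vanishes at
`(θ - r) / (m c)`; its reverse is monic and vanishes at `m c / (θ - r)`.
-/

set_option autoImplicit false

open Polynomial

namespace Pool.Agent.H92.SQ

/-- the inverse of a root of a polynomial with constant coefficient `1` is integral -/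
theorem sq7_inv {L : Type*} [Field L] {h : ℤ[X]} (h0 : h.coeff 0 = 1) {x : L} (hx : x ≠ 0)
    (hr : aeval x h = 0) : IsIntegral ℤ x⁻¹ := by
  have hne : h.coeff 0 ≠ 0 := by rw [h0]; exact one_ne_zero
  have htd : h.natTrailingDegree = 0 := by
    have h1 := natTrailingDegree_le_of_ne_zero hne
    omega
  refine ⟨h.reverse, ?_, ?_⟩
  · rw [Monic, reverse_leadingCoeff, trailingCoeff, htd, h0]
  · let _ : Invertible x := invertibleOfNonzero hx
    have h2 := (eval₂_reverse_eq_zero_iff (algebraMap ℤ L) x h).2 hr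
    rwa [invOf_eq_inv] at h2

/-- the rescaled polynomial -/
theorem sq7_poly {f : ℤ[X]} {m r c b : ℤ} (hc : f.eval r = m ^ 2 * c)
    (hb : f.derivative.eval r = m * b) (hne : m ^ 2 * c ≠ 0) :
    ∃ h : ℤ[X], h.coeff 0 = 1 ∧ C (m ^ 2 * c) * h = (taylor r f).comp (C (m * c) * X) := by
  have hdvd : C (m ^ 2 * c) ∣ (taylor r f).comp (C (m * c) * X) := by
    rw [C_dvd_iff_dvd_coeff]
    intro i
    rw [comp_C_mul_X_coeff]
    rcases i with _ | _ | i
    · rw [taylor_coeff_zero, hc, pow_zero, mul_one]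
    · rw [zero_add, taylor_coeff_one, hb, pow_one]
      exact ⟨b, by ring⟩
    · exact ⟨(taylor r f).coeff (i + 1 + 1) * ((m * c) ^ i * c), by ring⟩
  obtain ⟨h, hh⟩ := hdvd
  refine ⟨h, ?_, hh.symm⟩
  have h1 := congrArg (fun p : ℤ[X] => p.coeff 0) hh
  simp only [comp_C_mul_X_coeff, coeff_C_mul, taylor_coeff_zero, pow_zero, mul_one, hc] at h1
  exact mul_left_cancel₀ hne (by rw [mul_one]; exact h1.symm)

theorem psi_int {L : Type*} [Field L] [CharZero L] {f : ℤ[X]} {m r : ℤ} (hm : m ≠ 0)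
    (h0 : m ^ 2 ∣ f.eval r) (h1 : m ∣ f.derivative.eval r) {θ : L} (hθ : aeval θ f = 0) :
    IsIntegral ℤ (((f.eval r : ℤ) : L) / ((m : L) * (θ - (r : L)))) := by
  obtain ⟨c, hc⟩ := h0
  obtain ⟨b, hb⟩ := h1
  by_cases hz : m ^ 2 * c = 0
  · rw [hc, hz, Int.cast_zero, zero_div]
    exact isIntegral_zero
  by_cases hη : θ - (r : L) = 0
  · rw [hη, mul_zero, div_zero]
    exact isIntegral_zero
  have hcz : c ≠ 0 := fun h => hz (by rw [h, mul_zero])
  have hmL : (m : L) ≠ 0 := Int.cast_ne_zero.2 hm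
  have hcL : (c : L) ≠ 0 := Int.cast_ne_zero.2 hcz
  obtain ⟨h, hh0, hh⟩ := sq7_poly hc hb hz
  have hmcL : ((m * c : ℤ) : L) ≠ 0 := by
    rw [Int.cast_mul]
    exact mul_ne_zero hmL hcL
  have hroot : aeval ((θ - (r : L)) / ((m * c : ℤ) : L)) h = 0 := by
    have h2 := congrArg (fun p : ℤ[X] => aeval ((θ - (r : L)) / ((m * c : ℤ) : L)) p) hh
    simp only [map_mul, aeval_comp, aeval_C, aeval_X, taylor_apply, map_add] at h2
    have h3 : algebraMap ℤ L m * algebraMap ℤ L c * ((θ - (r : L)) / ((m * c : ℤ) : L)) +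
        algebraMap ℤ L r = θ := by
      simp only [algebraMap_int_eq, eq_intCast, Int.cast_mul]
      field_simp
      ring
    rw [h3, hθ] at h2
    rcases mul_eq_zero.1 h2 with h4 | h4
    · exfalso
      simp only [algebraMap_int_eq, eq_intCast] at h4
      rcases mul_eq_zero.1 h4 with h5 | h5
      · exact pow_ne_zero 2 hm (Int.cast_eq_zero.1 h5)
      · exact hcL h5
    · exact h4
  have h5 := sq7_inv hh0 (div_ne_zero hη hmcL) hroot
  have h6 : ((θ - (r : L)) / ((m * c : ℤ) : L))⁻¹ =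
      ((f.eval r : ℤ) : L) / ((m : L) * (θ - (r : L))) := by
    rw [hc]
    push_cast
    field_simp
  rw [← h6]
  exact h5

end Pool.Agent.H92.SQ
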