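import Pool.Agent.H92.SQ.Int
import Pool.Agent.H92.SQ.Psi
import Pool.Agent.H35.AN.DiscLe

/-!
# Project SQ (MP_a3214d), row SQ-8: the discriminant bound
-/

set_option autoImplicit false

open Polynomial IsDedekindDomain NumberField Module Matrix Pool.Agent.H35.AN

namespace Pool.Agent.H92.SQ

/-- the discriminant of an integral basis is at least the discriminant of the field -/
theorem sq8_discr_le {K : Type} [Field K] [NumberField K] {ι : Type} [Fintype ι] [DecidableEq ι]
    (hn : Module.finrank ℚ K = Fintype.card ι) (ω : ι → K) (hω : ∀ j, IsIntegral ℤ (ω j))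
    (hne : Algebra.discr ℚ ω ≠ 0) :
    |(NumberField.discr K : ℝ)| ≤ |((Algebra.discr ℚ ω : ℚ) : ℝ)| := by
  have hcard : Fintype.card (Free.ChooseBasisIndex ℤ (𝓞 K)) = Fintype.card ι := by
    rw [← hn, Module.finrank_eq_card_basis (integralBasis K)]
  let e : Free.ChooseBasisIndex ℤ (𝓞 K) ≃ ι := Fintype.equivOfCardEq hcard
  let b : Basis ι ℚ K := (integralBasis K).reindex e
  have hint : ∀ j i, ∃ m : ℤ, b.repr (ω j) i = (m : ℚ) := by
    intro j i
    refine ⟨(RingOfIntegers.basis K).repr (⟨ω j, hω j⟩ : 𝓞 K) (e.symm i), ?_⟩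
    have := integralBasis_repr_apply K (⟨ω j, hω j⟩ : 𝓞 K) (e.symm i)
    simpa [b] using this
  choose m hm using hint
  let P : Matrix ι ι ℤ := Matrix.of fun i j => m j i
  have hP : ω = (b : ι → K) ᵥ* ((P.map (Int.castRingHom ℚ)).map (algebraMap ℚ K)) := by
    funext j
    have h1 : ω j = ∑ i, b.repr (ω j) i • b i := (b.sum_repr (ω j)).symm
    rw [h1]
    simp only [Matrix.vecMul, dotProduct, Matrix.map_apply, P, Matrix.of_apply]
    refine Finset.sum_congr rfl fun i _ => ?_
    rw [hm j i, Algebra.smul_def, mul_comm]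
    rfl
  have hdisc : Algebra.discr ℚ ω = ((P.det : ℤ) : ℚ) ^ 2 * (NumberField.discr K : ℚ) := by
    rw [hP, Algebra.discr_of_matrix_vecMul]
    congr 1
    · congr 1
      exact ((Int.castRingHom ℚ).map_det P).symm
    · rw [coe_discr]
      have h5 := Algebra.discr_reindex ℚ (integralBasis K) e
      rwa [← Basis.coe_reindex] at h5
  have hdet : P.det ≠ 0 := by
    intro h
    rw [hdisc, h] at hne
    simp at hne
  have hdet1 : (1 : ℝ) ≤ ((P.det : ℤ) : ℝ) ^ 2 := by
    have : (1 : ℤ) ≤ P.det ^ 2 := by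
      have h0 : 0 < P.det ^ 2 := by positivity
      omega
    exact_mod_cast this
  have h3 : |((Algebra.discr ℚ ω : ℚ) : ℝ)| =
      ((P.det : ℤ) : ℝ) ^ 2 * |(NumberField.discr K : ℝ)| := by
    rw [hdisc, Rat.cast_mul, Rat.cast_pow, Rat.cast_intCast, Rat.cast_intCast, abs_mul,
      abs_of_nonneg (sq_nonneg _)]
  rw [h3]
  nlinarith [abs_nonneg (NumberField.discr K : ℝ)]

/-- the size of the discriminant of a family -/
theorem sq8_norm {K : Type} [Field K] [NumberField K] {ι : Type} [Fintype ι] [DecidableEq ι]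
    (hn : Module.finrank ℚ K = Fintype.card ι) (ω : ι → K) (B : ι → ℝ)
    (hB : ∀ (φ : K →+* ℂ) j, ‖φ (ω j)‖ ≤ B j) :
    |((Algebra.discr ℚ ω : ℚ) : ℝ)| ≤ (((Fintype.card ι).factorial : ℝ) * ∏ j, B j) ^ 2 := by
  have hcard2 : Fintype.card ι = Fintype.card (K →ₐ[ℚ] ℂ) := by
    rw [AlgHom.card, hn]
  let e2 : ι ≃ (K →ₐ[ℚ] ℂ) := Fintype.equivOfCardEq hcard2
  have hE := Algebra.discr_eq_det_embeddingsMatrixReindex_pow_two ℚ ℂ ω e2
  have h1 : |((Algebra.discr ℚ ω : ℚ) : ℝ)| = ‖algebraMap ℚ ℂ (Algebra.discr ℚ ω)‖ := by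
    have : algebraMap ℚ ℂ (Algebra.discr ℚ ω) = (((Algebra.discr ℚ ω : ℚ) : ℝ) : ℂ) := by simp
    rw [this, Complex.norm_real, Real.norm_eq_abs]
  rw [h1, hE, norm_pow]
  refine pow_le_pow_left₀ (norm_nonneg _) ?_ 2
  refine an20_norm_det_le _ B fun i j => ?_
  exact hB (e2 j : K →+* ℂ) i

/-- replacing one column -/
theorem sq8_det {ι : Type} [Fintype ι] [DecidableEq ι] (i : ι) (c : ι → ℚ) :
    ((1 : Matrix ι ι ℚ).updateCol i c).det = c i := by
  rw [← Matrix.cramer_apply, Matrix.cramer_one]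
  rfl

theorem sq8_update {K : Type} [Field K] [NumberField K] {ι : Type} [Fintype ι] [DecidableEq ι]
    (τ : ι → K) (i : ι) (x : K) (c : ι → ℚ)
    (h : τ i = ∑ j, (Function.update τ i x) j * algebraMap ℚ K (c j)) :
    Algebra.discr ℚ τ = (c i) ^ 2 * Algebra.discr ℚ (Function.update τ i x) := by
  have hτ : τ = (Function.update τ i x) ᵥ*
      (((1 : Matrix ι ι ℚ).updateCol i c).map (algebraMap ℚ K)) := by
    funext l
    simp only [Matrix.vecMul, dotProduct, Matrix.map_apply]
    by_cases hl : l = i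
    · subst hl
      rw [h]
      refine Finset.sum_congr rfl fun j _ => ?_
      rw [Matrix.updateCol_self]
    · rw [Finset.sum_eq_single l]
      · rw [Matrix.updateCol_ne hl, Matrix.one_apply_eq, map_one, mul_one,
          Function.update_of_ne hl]
      · intro j _ hj
        rw [Matrix.updateCol_ne hl, Matrix.one_apply_ne hj, map_zero, mul_zero]
      · intro h
        exact absurd (Finset.mem_univ l) h
  conv_lhs => rw [hτ]
  rw [Algebra.discr_of_matrix_vecMul, sq8_det]

/-- a subspace which contains `1` and is stable under the multiplication by a generator -/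
theorem sq8_span {K : Type} [Field K] [NumberField K] {n : ℕ} {f : ℤ[X]} {θ : K}
    (hdeg : f.natDegree = n) (hfin : Module.finrank ℚ K = n) (hirr : Irreducible (FQ f))
    (hθ : aeval θ f = 0) (V : Submodule ℚ K) (h1 : (1 : K) ∈ V) (hV : ∀ x ∈ V, θ * x ∈ V) :
    V = ⊤ := by
  have hθ' : aeval θ (FQ f) = 0 := by
    rw [FQ]
    have h2 : algebraMap ℤ ℚ = Int.castRingHom ℚ := rfl
    rw [← h2, aeval_map_algebraMap]
    exact hθ
  have hint : IsIntegral ℚ θ := IsIntegral.of_finite ℚ θ
  have hmin : (minpoly ℚ θ).natDegree = n := by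
    rw [← minpoly.eq_of_irreducible hirr hθ', natDegree_mul_C (inv_ne_zero
      (leadingCoeff_ne_zero.2 hirr.ne_zero)), FQ,
      natDegree_map_eq_of_injective (RingHom.injective_int _), hdeg]
  have htop : Algebra.adjoin ℚ {θ} = ⊤ := by
    have h1 := (Field.primitive_element_iff_minpoly_natDegree_eq ℚ θ).2 (by rw [hmin, hfin])
    rw [← IntermediateField.adjoin_simple_toSubalgebra_of_isAlgebraic hint.isAlgebraic, h1]
    rfl
  have hpow : ∀ k : ℕ, θ ^ k ∈ V := by
    intro k
    induction k with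
    | zero => rwa [pow_zero]
    | succ k ih =>
      rw [pow_succ']
      exact hV _ ih
  rw [Submodule.eq_top_iff']
  intro x
  have hx : x ∈ Algebra.adjoin ℚ {θ} := by
    rw [htop]
    exact Algebra.mem_top
  rw [Algebra.adjoin_singleton_eq_range_aeval] at hx
  obtain ⟨q, rfl⟩ := hx
  change aeval θ q ∈ V
  rw [aeval_eq_sum_range]
  exact V.sum_mem fun i _ => V.smul_mem _ (hpow i)

theorem disc_bound (n : ℕ) (hn : 2 ≤ n) : ∃ C : ℝ, 0 < C ∧ ∀ (K : Type) [Field K] [NumberField K]
    (f : ℤ[X]) (θ : K) (H : ℝ) (m r : ℤ), f.natDegree = n → Module.finrank ℚ K = n →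
    Irreducible (FQ f) → aeval θ f = 0 → 1 ≤ H → (∀ i, |(f.coeff i : ℝ)| ≤ H) →
    (∀ φ : K →+* ℂ, ‖φ θ‖ ≤ n + 1) → 0 < m → m ^ 2 ∣ f.eval r → m ∣ f.derivative.eval r →
    |(NumberField.discr K : ℝ)| * (m : ℝ) ^ 2 ≤ C * H ^ (2 * n - 2) := by
  classical
  refine ⟨((n.factorial : ℝ) * ((n + 2 : ℝ) ^ n) ^ (n - 1)) ^ 2, by positivity, ?_⟩
  intro K _ _ f θ H m r hdeg hfin hirr hθ hH hcoef hconj hm h0 h1
  set fK : K[X] := f.map (Int.castRingHom K) with hfK
  have hfKθ : fK.eval θ = 0 := by
    rw [hfK, eval_map, ← hθ, aeval_def]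
    rfl
  set g : K[X] := fK /ₘ (X - C θ) with hg
  have hmul : (X - C θ) * g = fK := mul_divByMonic_eq_iff_isRoot.2 hfKθ
  have hcoefK : ∀ i, fK.coeff i = ((f.coeff i : ℤ) : K) := by
    intro i
    rw [hfK, coeff_map]
    rfl
  have hrec : ∀ j, g.coeff j = ((f.coeff (j + 1) : ℤ) : K) + θ * g.coeff (j + 1) := by
    intro j
    have h2 := congrArg (fun p => p.coeff (j + 1)) hmul
    simp only [coeff_X_sub_C_mul, hcoefK] at h2
    rw [← h2]
    ring
  have hg0 : θ * g.coeff 0 = -((f.coeff 0 : ℤ) : K) := by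
    have h2 := congrArg (fun p => p.coeff 0) hmul
    simp only [mul_coeff_zero, hcoefK, coeff_sub, coeff_X_zero, coeff_C_zero, zero_sub] at h2
    rw [← h2]
    ring
  have hfKdeg : fK.natDegree = n := by
    rw [hfK, natDegree_map_eq_of_injective (RingHom.injective_int _), hdeg]
  have hgdeg' : g.natDegree = n - 1 := by
    rw [hg, natDegree_divByMonic _ (monic_X_sub_C θ), hfKdeg, natDegree_X_sub_C]
  have hgdeg : ∀ j, n ≤ j → g.coeff j = 0 := by
    intro j hj
    exact coeff_eq_zero_of_natDegree_lt (by omega)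
  have hlead : g.coeff (n - 1) = ((f.coeff n : ℤ) : K) := by
    have h2 := hrec (n - 1)
    rw [Nat.sub_add_cancel (by omega), hgdeg n le_rfl, mul_zero, add_zero] at h2
    exact h2
  have hf0 : f ≠ 0 := by
    intro h
    rw [h, natDegree_zero] at hdeg
    omega
  have ha0 : f.coeff n ≠ 0 := by
    rw [← hdeg]
    exact leadingCoeff_ne_zero.2 hf0
  -- sizes
  have hn0 : (0 : ℝ) ≤ (n : ℝ) := Nat.cast_nonneg n
  have hsize : ∀ (φ : K →+* ℂ) (d j : ℕ), n ≤ j + d → ‖φ (g.coeff j)‖ ≤ H * (n + 2 : ℝ) ^ d := by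
    intro φ d
    induction d with
    | zero =>
      intro j hj
      rw [hgdeg j (by omega), map_zero, norm_zero, pow_zero]
      linarith
    | succ d ih =>
      intro j hj
      rw [hrec j, map_add, map_mul]
      have h2 : ‖φ ((f.coeff (j + 1) : ℤ) : K)‖ ≤ H := by
        rw [map_intCast]
        have h3 : ‖((f.coeff (j + 1) : ℤ) : ℂ)‖ = |((f.coeff (j + 1) : ℤ) : ℝ)| :=
          Complex.norm_intCast _
        rw [h3]
        exact hcoef _
      have h4 := ih (j + 1) (by omega)
      have h5 : (1 : ℝ) ≤ (n + 2 : ℝ) ^ d := one_le_pow₀ (by linarith)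
      calc ‖φ ((f.coeff (j + 1) : ℤ) : K) + φ θ * φ (g.coeff (j + 1))‖
          ≤ H + (n + 1) * (H * (n + 2 : ℝ) ^ d) := by
            refine (norm_add_le _ _).trans (add_le_add h2 ?_)
            rw [norm_mul]
            exact mul_le_mul (hconj φ) h4 (norm_nonneg _) (by linarith)
        _ ≤ H * (n + 2 : ℝ) ^ (d + 1) := by
            rw [pow_succ]
            nlinarith
  -- the value at `r`
  have hθr : θ - (r : K) ≠ 0 := by
    intro h
    have h2 : θ = (r : K) := sub_eq_zero.1 h
    have h3 : ((f.eval r : ℤ) : K) = 0 := by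
      have h4 : ((f.eval r : ℤ) : K) = aeval (r : K) f := by
        rw [aeval_def, ← eq_intCast (algebraMap ℤ K) r, eval₂_at_apply]
        rfl
      rw [h4, ← h2, hθ]
    have h5 : f.eval r = 0 := by exact_mod_cast h3
    have h6 : (FQ f).IsRoot (r : ℚ) := by
      rw [IsRoot.def, FQ, eval_intCast_map, Int.cast_id, h5, map_zero]
    have h7 := degree_eq_one_of_irreducible_of_root hirr h6
    have h8 := natDegree_eq_of_degree_eq_some (show (FQ f).degree = ((1 : ℕ) : WithBot ℕ) from h7)
    rw [FQ, natDegree_map_eq_of_injective (RingHom.injective_int _), hdeg] at h8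
    omega
  have hmK : (m : K) ≠ 0 := by exact_mod_cast hm.ne'
  set ψ : K := ((f.eval r : ℤ) : K) / ((m : K) * (θ - (r : K))) with hψ
  have hψint : IsIntegral ℤ ψ := psi_int hm.ne' h0 h1 hθ
  have hevr : ((f.eval r : ℤ) : K) = ((r : K) - θ) * g.eval (r : K) := by
    have h2 := congrArg (fun p => p.eval (r : K)) hmul
    simp only [eval_mul, eval_sub, eval_X, eval_C] at h2
    rw [h2, hfK, eval_intCast_map]
    rfl
  have hmψ : ψ * (-(m : K)) = g.eval (r : K) := by
    rw [hψ, hevr]
    field_simp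
    ring
  -- the family
  let i0 : Fin n := ⟨0, by omega⟩
  let l0 : Fin n := ⟨n - 1, by omega⟩
  have hil : i0 ≠ l0 := by
    intro h
    have := congrArg Fin.val h
    simp only [i0, l0] at this
    omega
  let τ : Fin n → K := fun j => if j = l0 then 1 else g.coeff j
  have hτl : τ l0 = 1 := if_pos rfl
  have hτ : ∀ j, j ≠ l0 → τ j = g.coeff j := fun j hj => if_neg hj
  let c : Fin n → ℚ := fun j => if j = i0 then -(m : ℚ) else
    if j = l0 then -((r : ℚ) ^ (n - 1) * (f.coeff n : ℚ)) else -((r : ℚ) ^ (j : ℕ))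
  have hrel : τ i0 = ∑ j, (Function.update τ i0 ψ) j * algebraMap ℚ K (c j) := by
    have hG : g.eval (r : K) = ∑ j : Fin n, g.coeff j * (r : K) ^ (j : ℕ) := by
      rw [eval_eq_sum_range' (show g.natDegree < n by omega), Finset.sum_range]
    have hterm : ∀ j ∈ Finset.univ.erase i0, (Function.update τ i0 ψ) j * algebraMap ℚ K (c j) =
        -(g.coeff j * (r : K) ^ (j : ℕ)) := by
      intro j hj
      have hji : j ≠ i0 := Finset.ne_of_mem_erase hj
      rw [Function.update_of_ne hji]
      by_cases hjl : j = l0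
      · subst hjl
        simp only [c, if_neg hil.symm, if_true, hτl]
        have : g.coeff (l0 : ℕ) = ((f.coeff n : ℤ) : K) := hlead
        rw [this]
        simp [l0]
        ring
      · simp only [c, if_neg hji, if_neg hjl, hτ j hjl]
        simp
    rw [← Finset.add_sum_erase _ _ (Finset.mem_univ i0), Finset.sum_congr rfl hterm,
      Finset.sum_neg_distrib, Function.update_self]
    have hc : algebraMap ℚ K (c i0) = -(m : K) := by simp [c]
    rw [hc, hmψ, hG, ← Finset.add_sum_erase _ _ (Finset.mem_univ i0), hτ i0 hil]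
    simp [i0]
  have hdisc := sq8_update τ i0 ψ c hrel
  have hci : c i0 = -(m : ℚ) := by simp [c]
  rw [hci, neg_sq] at hdisc
  -- independence
  have hmem : ∀ j, g.coeff j ∈ Submodule.span ℚ (Set.range τ) := by
    intro j
    by_cases hj : n ≤ j
    · rw [hgdeg j hj]
      exact Submodule.zero_mem _
    · by_cases hjl : j = n - 1
      · have h2 : g.coeff j = (f.coeff n : ℚ) • τ l0 := by
          rw [hjl, hlead, hτl, Algebra.smul_def, mul_one]
          simp
        rw [h2]
        exact Submodule.smul_mem _ _ (Submodule.subset_span ⟨l0, rfl⟩)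
      · have h2 : τ ⟨j, by omega⟩ = g.coeff j := hτ _ (by
          intro h
          have := congrArg Fin.val h
          simp only [l0] at this
          exact hjl this)
        rw [← h2]
        exact Submodule.subset_span ⟨_, rfl⟩
  have hone : (1 : K) ∈ Submodule.span ℚ (Set.range τ) := by
    rw [← hτl]
    exact Submodule.subset_span ⟨l0, rfl⟩
  have hint1 : ∀ z : ℤ, ((z : ℤ) : K) ∈ Submodule.span ℚ (Set.range τ) := by
    intro z
    have h2 : ((z : ℤ) : K) = (z : ℚ) • (1 : K) := by
      rw [Algebra.smul_def, mul_one]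
      simp
    rw [h2]
    exact Submodule.smul_mem _ _ hone
  have hθg : ∀ j, θ * g.coeff j ∈ Submodule.span ℚ (Set.range τ) := by
    intro j
    rcases j with _ | j
    · rw [hg0]
      exact Submodule.neg_mem _ (hint1 _)
    · have h2 : θ * g.coeff (j + 1) = g.coeff j - ((f.coeff (j + 1) : ℤ) : K) := by
        rw [hrec j]
        ring
      rw [h2]
      exact Submodule.sub_mem _ (hmem j) (hint1 _)
  have hstab : ∀ x ∈ Submodule.span ℚ (Set.range τ), θ * x ∈ Submodule.span ℚ (Set.range τ) := by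
    intro x hx
    induction hx using Submodule.span_induction with
    | mem x hx =>
      obtain ⟨j, rfl⟩ := hx
      by_cases hjl : j = l0
      · subst hjl
        have h2 : θ * τ l0 = ((f.coeff n : ℚ))⁻¹ • (θ * g.coeff (n - 1)) := by
          rw [hτl, hlead, Algebra.smul_def, mul_one]
          have : ((f.coeff n : ℤ) : K) ≠ 0 := by exact_mod_cast ha0
          simp
          field_simp
        rw [h2]
        exact Submodule.smul_mem _ _ (hθg _)
      · rw [hτ j hjl]
        exact hθg _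
    | zero => simp
    | add x y _ _ hx hy =>
      rw [mul_add]
      exact Submodule.add_mem _ hx hy
    | smul q x _ hx =>
      rw [mul_smul_comm]
      exact Submodule.smul_mem _ _ hx
  have htop := sq8_span hdeg hfin hirr hθ _ hone hstab
  have hcard : Fintype.card (Fin n) = Module.finrank ℚ K := by rw [hfin, Fintype.card_fin]
  have hli : LinearIndependent ℚ τ :=
    linearIndependent_of_top_le_span_of_card_eq_finrank htop.ge hcard
  have hne : Algebra.discr ℚ τ ≠ 0 := by
    have : Nonempty (Fin n) := ⟨i0⟩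
    have h1 := Algebra.discr_not_zero_of_basis ℚ (basisOfLinearIndependentOfCardEqFinrank hli
      hcard)
    rwa [coe_basisOfLinearIndependentOfCardEqFinrank] at h1
  have hne' : Algebra.discr ℚ (Function.update τ i0 ψ) ≠ 0 := by
    intro h
    rw [hdisc, h, mul_zero] at hne
    exact hne rfl
  have hωint : ∀ j, IsIntegral ℤ (Function.update τ i0 ψ j) := by
    intro j
    by_cases hji : j = i0
    · subst hji
      rw [Function.update_self]
      exact hψint
    · rw [Function.update_of_ne hji]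
      by_cases hjl : j = l0
      · rw [hjl, hτl]
        exact isIntegral_one
      · rw [hτ j hjl]
        refine int_div (fun i => ?_) hfKθ _
        rw [hcoefK]
        exact isIntegral_algebraMap (R := ℤ) (x := f.coeff i)
  have hle := sq8_discr_le hcard.symm _ hωint hne'
  -- the size
  let B : Fin n → ℝ := fun j => if j = l0 then 1 else H * (n + 2 : ℝ) ^ n
  have hB : ∀ (φ : K →+* ℂ) j, ‖φ (τ j)‖ ≤ B j := by
    intro φ j
    by_cases hjl : j = l0
    · simp [τ, B, hjl]
    · rw [hτ j hjl]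
      simp only [B, if_neg hjl]
      exact hsize φ n j (by omega)
  have hnorm := sq8_norm hcard.symm τ B hB
  have hprod : ∏ j, B j = (H * (n + 2 : ℝ) ^ n) ^ (n - 1) := by
    rw [← Finset.mul_prod_erase _ _ (Finset.mem_univ l0)]
    have h2 : ∏ j ∈ Finset.univ.erase l0, B j =
        ∏ _j ∈ Finset.univ.erase l0, (H * (n + 2 : ℝ) ^ n) :=
      Finset.prod_congr rfl fun j hj => if_neg (Finset.ne_of_mem_erase hj)
    rw [h2, Finset.prod_const, Finset.card_erase_of_mem (Finset.mem_univ _), Finset.card_univ,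
      Fintype.card_fin]
    simp [B]
  rw [hprod, Fintype.card_fin, hdisc, Rat.cast_mul, abs_mul] at hnorm
  have hm2 : |(((m : ℚ) ^ 2 : ℚ) : ℝ)| = (m : ℝ) ^ 2 := by
    rw [Rat.cast_pow, Rat.cast_intCast, abs_of_nonneg (sq_nonneg _)]
  rw [hm2] at hnorm
  calc |(NumberField.discr K : ℝ)| * (m : ℝ) ^ 2
      ≤ |((Algebra.discr ℚ (Function.update τ i0 ψ) : ℚ) : ℝ)| * (m : ℝ) ^ 2 :=
        mul_le_mul_of_nonneg_right hle (sq_nonneg _)
    _ = (m : ℝ) ^ 2 * |((Algebra.discr ℚ (Function.update τ i0 ψ) : ℚ) : ℝ)| := mul_comm _ _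
    _ ≤ _ := hnorm
    _ = _ := by
        rw [show 2 * n - 2 = (n - 1) * 2 by omega, mul_pow, mul_pow, mul_pow, mul_pow,
          pow_mul H (n - 1) 2]
        ring

end Pool.Agent.H92.SQ
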