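import Pool.Agent.H92.SQ.Eis
import Pool.Agent.H92.SQ.PrimLoc
import Pool.Agent.H92.SQ.Swap

/-!
# Project SQ (MP_a3214d), row SQ-5: a class of polynomials with group `S_n`

Chinese remainder theorem on the coefficients, and the theorem of Jordan on primitive groups with
a transposition.
-/

set_option autoImplicit false

open Polynomial IsDedekindDomain NumberField Pool.Agent.H35.AN

namespace Pool.Agent.H92.SQ

theorem sq5_idem (l : ℤ) (h2 : IsCoprime (2 : ℤ) l) (h3 : IsCoprime (3 : ℤ) l) :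
    ∃ e1 e2 e3 : ℤ, e1 + e2 + e3 = 1 ∧ ((2 : ℤ) ^ 2 ∣ e1 - 1 ∧ (2 : ℤ) ^ 2 ∣ e2 ∧
      (2 : ℤ) ^ 2 ∣ e3) ∧ ((3 : ℤ) ^ 2 ∣ e1 ∧ (3 : ℤ) ^ 2 ∣ e2 - 1 ∧ (3 : ℤ) ^ 2 ∣ e3) ∧
      (l ^ 2 ∣ e1 ∧ l ^ 2 ∣ e2 ∧ l ^ 2 ∣ e3 - 1) := by
  have h23 : IsCoprime (2 : ℤ) 3 := ⟨-1, 1, by norm_num⟩
  have c1 : IsCoprime ((2 : ℤ) ^ 2) (3 ^ 2 * l ^ 2) :=
    IsCoprime.mul_right h23.pow h2.pow
  have c2 : IsCoprime ((3 : ℤ) ^ 2) (2 ^ 2 * l ^ 2) :=
    IsCoprime.mul_right h23.symm.pow h3.pow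
  obtain ⟨u, v, huv⟩ := c1
  obtain ⟨u', v', huv'⟩ := c2
  refine ⟨v * (3 ^ 2 * l ^ 2), v' * (2 ^ 2 * l ^ 2),
    1 - v * (3 ^ 2 * l ^ 2) - v' * (2 ^ 2 * l ^ 2), by ring, ⟨⟨-u, by linear_combination huv⟩,
      ⟨v' * l ^ 2, by ring⟩, ⟨u - v' * l ^ 2, by linear_combination -huv⟩⟩,
      ⟨⟨v * l ^ 2, by ring⟩, ⟨-u', by linear_combination huv'⟩,
        ⟨u' - v * l ^ 2, by linear_combination -huv'⟩⟩,
      ⟨⟨v * 3 ^ 2, by ring⟩, ⟨v' * 2 ^ 2, by ring⟩,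
        ⟨-(v * 3 ^ 2) - v' * 2 ^ 2, by ring⟩⟩⟩

theorem sq5_base_monic (m : ℕ) : (base m).Monic :=
  monic_prod_of_monic _ _ fun _ _ => monic_X_sub_C _

theorem sq5_base_deg (m : ℕ) : (base m).natDegree = m := by
  unfold base
  rw [natDegree_prod_of_monic _ _ fun _ _ => monic_X_sub_C _]
  simp only [natDegree_X_sub_C, Finset.sum_const, Finset.card_range, smul_eq_mul, mul_one]

theorem sq5_third {n : ℕ} (hn : 3 ≤ n) (l : ℤ) :
    ((X ^ 2 + C l) * base (n - 2)).Monic ∧ ((X ^ 2 + C l) * base (n - 2)).natDegree = n := by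
  have h1 : (X ^ 2 + C l : ℤ[X]).Monic := monic_X_pow_add_C l (by norm_num)
  refine ⟨h1.mul (sq5_base_monic _), ?_⟩
  rw [h1.natDegree_mul (sq5_base_monic _), natDegree_X_pow_add_C, sq5_base_deg]
  omega

theorem sq5_ndvd {q M p : ℤ} (h : IsCoprime q M) (hp : Prime p) (hpM : p ∣ M) : ¬ p ∣ q :=
  fun hq => hp.not_isUnit (h.isUnit_of_dvd' hq hpM)

theorem sq5_red {m M q a x y z e1 e2 e3 : ℤ} (hm : m ∣ M)
    (h : M ∣ a - q * (e1 * x + e2 * y + e3 * z)) (h1 : m ∣ e1 - 1) (h2 : m ∣ e2) (h3 : m ∣ e3) :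
    m ∣ a - q * x := by
  have e : a - q * x = (a - q * (e1 * x + e2 * y + e3 * z)) +
      (q * ((e1 - 1) * x) + q * (e2 * y) + q * (e3 * z)) := by ring
  rw [e]
  exact dvd_add (dvd_trans hm h) (dvd_add (dvd_add ((h1.mul_right x).mul_left q)
    ((h2.mul_right y).mul_left q)) ((h3.mul_right z).mul_left q))

theorem sq5_first {n : ℕ} (hn : 3 ≤ n) {f : ℤ[X]} {q : ℤ} (hf : f.natDegree = n)
    (hq : ¬ (2 : ℤ) ∣ q)
    (h : ∀ i, (2 : ℤ) ^ 2 ∣ f.coeff i - q * (X ^ n + C (2 : ℤ) : ℤ[X]).coeff i) :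
    Irreducible (FQ f) := by
  have hs : ∀ i, (X ^ n + C (2 : ℤ) : ℤ[X]).coeff i =
      (if i = n then 1 else 0) + (if i = 0 then 2 else 0) := by
    intro i
    rw [coeff_add, coeff_X_pow, coeff_C]
  refine irreducible_eis (l := 2) (by omega) Nat.prime_two hf ?_ ?_ ?_
  · have h1 := h n
    rw [hs, if_pos rfl, if_neg (by omega)] at h1
    push_cast
    omega
  · intro i hi
    have h1 := h i
    rw [hs, if_neg (by omega)] at h1
    push_cast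
    by_cases h0 : i = 0
    · rw [if_pos h0] at h1
      omega
    · rw [if_neg h0] at h1
      omega
  · have h1 := h 0
    rw [hs, if_neg (by omega), if_pos rfl] at h1
    push_cast
    omega

theorem sq5_second {n : ℕ} (hn : 3 ≤ n) {f : ℤ[X]} {q : ℤ} (hf : f.natDegree = n)
    (hq : ¬ (3 : ℤ) ∣ q)
    (h : ∀ i, (3 : ℤ) ^ 2 ∣ f.coeff i - q * (X ^ n + X ^ (n - 1) + C (3 : ℤ) : ℤ[X]).coeff i)
    {L : Type} [Field L] [NumberField L] [Algebra ℚ L] [IsGalois ℚ L]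
    (R : Roots ℚ L n (FQ f)) (htr : MulAction.IsPretransitive R.permHom.range (Fin n)) :
    MulAction.IsPreprimitive R.permHom.range (Fin n) := by
  have hs : ∀ i, (X ^ n + X ^ (n - 1) + C (3 : ℤ) : ℤ[X]).coeff i =
      (if i = n then 1 else 0) + (if i = n - 1 then 1 else 0) + (if i = 0 then 3 else 0) := by
    intro i
    rw [coeff_add, coeff_add, coeff_X_pow, coeff_X_pow, coeff_C]
  refine prim_loc (l := 3) (by omega) Nat.prime_three hf ?_ ?_ ?_ ?_ R htr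
  · have h1 := h n
    rw [hs, if_pos rfl, if_neg (by omega), if_neg (by omega)] at h1
    push_cast
    omega
  · have h1 := h (n - 1)
    rw [hs, if_neg (by omega), if_pos rfl, if_neg (by omega)] at h1
    push_cast
    omega
  · intro i hi
    have h1 := h i
    rw [hs, if_neg (by omega), if_neg (by omega)] at h1
    push_cast
    by_cases h0 : i = 0
    · rw [if_pos h0] at h1
      omega
    · rw [if_neg h0] at h1
      omega
  · have h1 := h 0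
    rw [hs, if_neg (by omega), if_neg (by omega), if_pos rfl] at h1
    push_cast
    omega

theorem group_key (n : ℕ) (hn : 3 ≤ n) : ∃ (M : ℕ) (s : ℤ[X]), 0 < M ∧ s.natDegree = n ∧
    s.coeff n = 1 ∧ ∀ (f : ℤ[X]) (q : ℤ), f.natDegree = n → IsCoprime q (M : ℤ) →
      (∀ i, (M : ℤ) ∣ f.coeff i - q * s.coeff i) → Irreducible (FQ f) ∧
      ∀ (L : Type) [Field L] [NumberField L] [Algebra ℚ L] [IsGalois ℚ L]
        (R : Roots ℚ L n (FQ f)), IntermediateField.adjoin ℚ (Set.range R.θ) = ⊤ →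
          R.permHom.range = ⊤ := by
  obtain ⟨l, hnl, hl⟩ := Nat.exists_infinite_primes (n + 1)
  have hlp : Prime (l : ℤ) := Nat.prime_iff_prime_int.mp hl
  have h2l : IsCoprime (2 : ℤ) l := by
    have h := (Nat.coprime_primes Nat.prime_two hl).mpr (by omega)
    exact_mod_cast Nat.isCoprime_iff_coprime.mpr h
  have h3l : IsCoprime (3 : ℤ) l := by
    have h := (Nat.coprime_primes Nat.prime_three hl).mpr (by omega)
    exact_mod_cast Nat.isCoprime_iff_coprime.mpr h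
  obtain ⟨e1, e2, e3, hsum, ⟨a1, a2, a3⟩, ⟨b1, b2, b3⟩, ⟨c1, c2, c3⟩⟩ := sq5_idem l h2l h3l
  set s1 : ℤ[X] := X ^ n + C (2 : ℤ) with hs1
  set s2 : ℤ[X] := X ^ n + X ^ (n - 1) + C (3 : ℤ) with hs2
  set s3 : ℤ[X] := (X ^ 2 + C (l : ℤ)) * base (n - 2) with hs3
  obtain ⟨hm3, hd3⟩ := sq5_third hn (l : ℤ)
  have hcoeff : ∀ i, (C e1 * s1 + C e2 * s2 + C e3 * s3).coeff i =
      e1 * s1.coeff i + e2 * s2.coeff i + e3 * s3.coeff i := by
    intro i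
    rw [coeff_add, coeff_add, coeff_C_mul, coeff_C_mul, coeff_C_mul]
  have hn1 : s1.coeff n = 1 := by
    rw [hs1, coeff_add, coeff_X_pow, coeff_C, if_pos rfl, if_neg (by omega), add_zero]
  have hn2 : s2.coeff n = 1 := by
    rw [hs2, coeff_add, coeff_add, coeff_X_pow, coeff_X_pow, coeff_C, if_pos rfl,
      if_neg (by omega), if_neg (by omega), add_zero, add_zero]
  have hn3 : s3.coeff n = 1 := by
    have h := hm3.coeff_natDegree
    rw [hd3] at h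
    exact h
  have hn0 : (C e1 * s1 + C e2 * s2 + C e3 * s3).coeff n = 1 := by
    rw [hcoeff, hn1, hn2, hn3, mul_one, mul_one, mul_one, hsum]
  have hle : (C e1 * s1 + C e2 * s2 + C e3 * s3).natDegree ≤ n := by
    have k1 : s1.natDegree ≤ n := by
      rw [hs1]
      exact natDegree_add_le_of_degree_le (natDegree_X_pow_le n)
        (by rw [natDegree_C]; exact Nat.zero_le _)
    have k2 : s2.natDegree ≤ n := by
      rw [hs2]
      exact natDegree_add_le_of_degree_le (natDegree_add_le_of_degree_le (natDegree_X_pow_le n)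
        (le_trans (natDegree_X_pow_le _) (by omega)))
        (by rw [natDegree_C]; exact Nat.zero_le _)
    exact natDegree_add_le_of_degree_le (natDegree_add_le_of_degree_le
      (le_trans (natDegree_C_mul_le _ _) k1) (le_trans (natDegree_C_mul_le _ _) k2))
      (le_trans (natDegree_C_mul_le _ _) hd3.le)
  refine ⟨(2 * 3 * l) ^ 2, C e1 * s1 + C e2 * s2 + C e3 * s3, ?_, ?_, hn0, ?_⟩
  · have := hl.pos
    positivity
  · refine natDegree_eq_of_le_of_coeff_ne_zero hle ?_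
    rw [hn0]
    exact one_ne_zero
  intro f q hf hqM hcong
  have hM : (((2 * 3 * l) ^ 2 : ℕ) : ℤ) = (2 * 3 * (l : ℤ)) ^ 2 := by push_cast; ring
  rw [hM] at hqM
  have m1 : (2 : ℤ) ^ 2 ∣ (((2 * 3 * l) ^ 2 : ℕ) : ℤ) := by
    rw [hM]
    exact ⟨3 ^ 2 * (l : ℤ) ^ 2, by ring⟩
  have m2 : (3 : ℤ) ^ 2 ∣ (((2 * 3 * l) ^ 2 : ℕ) : ℤ) := by
    rw [hM]
    exact ⟨2 ^ 2 * (l : ℤ) ^ 2, by ring⟩
  have m3 : (l : ℤ) ^ 2 ∣ (((2 * 3 * l) ^ 2 : ℕ) : ℤ) := by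
    rw [hM]
    exact ⟨2 ^ 2 * 3 ^ 2, by ring⟩
  have q1 : ¬ (2 : ℤ) ∣ q :=
    sq5_ndvd hqM Int.prime_two ⟨2 * 3 ^ 2 * (l : ℤ) ^ 2, by ring⟩
  have q2 : ¬ (3 : ℤ) ∣ q :=
    sq5_ndvd hqM Int.prime_three ⟨2 ^ 2 * 3 * (l : ℤ) ^ 2, by ring⟩
  have q3 : ¬ (l : ℤ) ∣ q :=
    sq5_ndvd hqM hlp ⟨2 ^ 2 * 3 ^ 2 * (l : ℤ), by ring⟩
  have r1 : ∀ i, (2 : ℤ) ^ 2 ∣ f.coeff i - q * s1.coeff i := by
    intro i
    have h := hcong i
    rw [hcoeff] at h
    exact sq5_red m1 h a1 a2 a3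
  have r2 : ∀ i, (3 : ℤ) ^ 2 ∣ f.coeff i - q * s2.coeff i := by
    intro i
    have h := hcong i
    rw [hcoeff, add_comm (e1 * _) (e2 * _)] at h
    exact sq5_red m2 h b2 b1 b3
  have r3 : ∀ i, (l : ℤ) ^ 2 ∣ f.coeff i - q * s3.coeff i := by
    intro i
    have h := hcong i
    rw [hcoeff, add_comm (e1 * _ + e2 * _) (e3 * _), ← add_assoc] at h
    exact sq5_red m3 h c3 c1 c2
  have hirr : Irreducible (FQ f) := sq5_first hn hf q1 r1
  refine ⟨hirr, ?_⟩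
  intro L _ _ _ _ R hgen
  have htr := trans_of_irreducible (by omega) hirr R
  have hprim := sq5_second hn hf q2 r2 R htr
  obtain ⟨σ, hσ⟩ := swap_loc (by omega) hl (by omega) hf q q3 r3 R hgen
  exact Equiv.Perm.subgroup_eq_top_of_isPreprimitive_of_isSwap_mem hprim (R.permHom σ) hσ ⟨σ, rfl⟩

end Pool.Agent.H92.SQ
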