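import Pool.Agent.H92.SQ.Defs

/-!
# Project SQ, row SQ-26: an irreducible factor of bounded height
-/

set_option autoImplicit false

open Polynomial

namespace Pool.Agent.H92.SQ

private theorem coeff_le_MM (g : ℤ[X]) {n : ℕ} (hn : g.natDegree ≤ n) (i : ℕ) :
    |(g.coeff i : ℝ)| ≤ 2 ^ n * MM g := by
  have h1 := norm_coeff_le_choose_mul_mahlerMeasure i (g.map (Int.castRingHom ℂ))
  have h2 : ‖(g.map (Int.castRingHom ℂ)).coeff i‖ = |(g.coeff i : ℝ)| := by
    rw [coeff_map, eq_intCast]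
    exact Complex.norm_intCast _
  rw [h2] at h1
  refine h1.trans ?_
  have h3 : (((g.map (Int.castRingHom ℂ)).natDegree.choose i : ℕ) : ℝ) ≤ 2 ^ n := by
    have h4 : (g.map (Int.castRingHom ℂ)).natDegree ≤ n := natDegree_map_le.trans hn
    have h5 := Nat.choose_le_two_pow (g.map (Int.castRingHom ℂ)).natDegree i
    have h6 : (2 : ℕ) ^ (g.map (Int.castRingHom ℂ)).natDegree ≤ 2 ^ n :=
      Nat.pow_le_pow_right (by norm_num) h4
    exact_mod_cast h5.trans h6
  exact mul_le_mul_of_nonneg_right h3 (mahlerMeasure_nonneg _)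

private theorem MM_le (c : ℤ[X]) {k : ℕ} (hk : c.natDegree < k) {B : ℕ}
    (hB : ∀ i, |c.coeff i| ≤ B) : MM c ≤ k * B := by
  refine (mahlerMeasure_le_sum_norm_coeff _).trans ?_
  rw [Polynomial.sum_over_range' _ (fun n => norm_zero) k
    (lt_of_le_of_lt natDegree_map_le hk)]
  refine (Finset.sum_le_card_nsmul _ _ (B : ℝ) fun i _ => ?_).trans ?_
  · rw [coeff_map, eq_intCast, Complex.norm_intCast]
    exact_mod_cast hB i
  · simp

/-! ## degree in the inner variable -/

private theorem coeff_swap (G : ℤ[X][X]) (i j : ℕ) :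
    ((Bivariate.swap G).coeff i).coeff j = (G.coeff j).coeff i := by
  induction G using Polynomial.induction_on' with
  | add p q hp hq => rw [map_add, coeff_add, coeff_add, coeff_add, coeff_add, hp, hq]
  | monomial n f =>
    induction f using Polynomial.induction_on' with
    | add p q hp hq =>
      rw [map_add, map_add, coeff_add, coeff_add, coeff_add, coeff_add, hp, hq]
    | monomial m r =>
      rw [Bivariate.swap_monomial_monomial, coeff_monomial, coeff_monomial]
      split_ifs with h1 h2 h2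
      · rw [coeff_monomial, coeff_monomial, if_pos h2, if_pos h1]
      · rw [coeff_monomial, if_neg h2, coeff_zero]
      · rw [coeff_monomial, if_neg h1, coeff_zero]
      · rw [coeff_zero, coeff_zero]

private theorem degX_iff (G : ℤ[X][X]) (D : ℕ) :
    (Bivariate.swap G).natDegree ≤ D ↔ ∀ j, (G.coeff j).natDegree ≤ D := by
  constructor
  · intro h j
    rw [natDegree_le_iff_coeff_eq_zero]
    intro N hN
    rw [← coeff_swap, coeff_eq_zero_of_natDegree_lt (lt_of_le_of_lt h hN), coeff_zero]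
  · intro h
    rw [natDegree_le_iff_coeff_eq_zero]
    intro N hN
    ext j
    rw [coeff_swap, coeff_zero]
    exact coeff_eq_zero_of_natDegree_lt (lt_of_le_of_lt (h j) hN)

private theorem degX_of_dvd {F G : ℤ[X][X]} (hG : G ≠ 0) (h : F ∣ G) {D : ℕ}
    (hD : ∀ j, (G.coeff j).natDegree ≤ D) (j : ℕ) : (F.coeff j).natDegree ≤ D := by
  revert j
  rw [← degX_iff] at hD ⊢
  refine (natDegree_le_of_dvd (map_dvd Bivariate.swap h) ?_).trans hD
  intro h0
  exact hG ((map_eq_zero_iff _ Bivariate.swap.injective).1 h0)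

/-! ## Kronecker substitution -/

/-- Kronecker substitution. -/
private noncomputable def kro (d : ℕ) : ℤ[X][X] →+* ℤ[X] := evalRingHom (X ^ (d + 1))

private theorem kro_eq (d : ℕ) (G : ℤ[X][X]) :
    kro d G = ∑ j ∈ Finset.range (G.natDegree + 1), G.coeff j * X ^ ((d + 1) * j) := by
  rw [kro, coe_evalRingHom, eval_eq_sum_range]
  refine Finset.sum_congr rfl fun j _ => ?_
  rw [pow_mul]

private theorem kro_coeff (d : ℕ) (G : ℤ[X][X]) (hG : ∀ j, (G.coeff j).natDegree ≤ d) (i j : ℕ)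
    (hi : i ≤ d) : (kro d G).coeff (i + (d + 1) * j) = (G.coeff j).coeff i := by
  rw [kro_eq, finsetSum_coeff]
  have hterm : ∀ j', (G.coeff j' * X ^ ((d + 1) * j')).coeff (i + (d + 1) * j) =
      if j' = j then (G.coeff j).coeff i else 0 := by
    intro j'
    rw [coeff_mul_X_pow']
    rcases lt_trichotomy j' j with h | h | h
    · rw [if_neg h.ne]
      have h1 : (d + 1) * (j' + 1) ≤ (d + 1) * j := Nat.mul_le_mul_left _ h
      rw [mul_add, mul_one] at h1
      rw [if_pos (by omega)]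
      exact coeff_eq_zero_of_natDegree_lt (lt_of_le_of_lt (hG j') (by omega))
    · subst h
      rw [if_pos (by omega), if_pos rfl, Nat.add_sub_cancel]
    · rw [if_neg h.ne']
      have h1 : (d + 1) * (j + 1) ≤ (d + 1) * j' := Nat.mul_le_mul_left _ h
      rw [mul_add, mul_one] at h1
      rw [if_neg (by omega)]
  rw [Finset.sum_congr rfl fun j' _ => hterm j', Finset.sum_ite_eq']
  split_ifs with h
  · rfl
  · rw [Finset.mem_range, not_lt] at h
    have h1 : G.coeff j = 0 := coeff_eq_zero_of_natDegree_lt (by omega)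
    rw [h1, coeff_zero]

private theorem kro_natDegree (d : ℕ) (G : ℤ[X][X]) (hG : ∀ j, (G.coeff j).natDegree ≤ d)
    (hGd : G.natDegree ≤ d) : (kro d G).natDegree ≤ (d + 1) ^ 2 := by
  rw [kro_eq]
  refine natDegree_sum_le_of_forall_le _ _ fun j hj => ?_
  rw [Finset.mem_range] at hj
  refine natDegree_mul_le.trans ?_
  rw [natDegree_X_pow]
  have h1 := hG j
  have h2 : (d + 1) * j ≤ (d + 1) * d := Nat.mul_le_mul_left _ (by omega)
  nlinarith

private theorem kro_ne_zero (d : ℕ) (G : ℤ[X][X]) (hG : ∀ j, (G.coeff j).natDegree ≤ d)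
    (h0 : G ≠ 0) : kro d G ≠ 0 := by
  intro h
  apply h0
  ext j i
  rw [coeff_zero, coeff_zero]
  by_cases hi : i ≤ d
  · rw [← kro_coeff d G hG i j hi, h, coeff_zero]
  · exact coeff_eq_zero_of_natDegree_lt (lt_of_le_of_lt (hG j) (by omega))

private theorem exists_irr {K : Type} [Field K] (x y : K) (G : ℤ[X][X]) (hG : G ≠ 0)
    (h : bev x y G = 0) : ∃ F : ℤ[X][X], Irreducible F ∧ F ∣ G ∧ bev x y F = 0 := by
  revert hG h
  refine WfDvdMonoid.induction_on_irreducible (motive := fun G : ℤ[X][X] => G ≠ 0 →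
    bev x y G = 0 → ∃ F : ℤ[X][X], Irreducible F ∧ F ∣ G ∧ bev x y F = 0) G ?_ ?_ ?_
  · intro h0
    exact absurd rfl h0
  · intro u hu _ h
    exact absurd h (hu.map (bev x y)).ne_zero
  · intro a i ha hi ih _ h
    rw [map_mul, mul_eq_zero] at h
    rcases h with h | h
    · exact ⟨i, hi, Dvd.intro _ rfl, h⟩
    · obtain ⟨F, h1, h2, h3⟩ := ih ha h
      exact ⟨F, h1, h2.mul_left i, h3⟩

theorem irr_factor (d : ℕ) : ∃ C : ℕ, ∀ (K : Type) [Field K] [CharZero K] (x y : K) (A : ℕ)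
    (G : ℤ[X][X]), Small d d A G → bev x y G = 0 →
      ∃ F : ℤ[X][X], Irreducible F ∧ Small d d (C * A) F ∧ bev x y F = 0 := by
  refine ⟨2 ^ ((d + 1) ^ 2) * ((d + 1) ^ 2 + 1), fun K _ _ x y A G hG hxy => ?_⟩
  obtain ⟨F, hFi, ⟨Q, hQ⟩, hF⟩ := exists_irr x y G hG.ne hxy
  have hFG : F ∣ G := Dvd.intro _ hQ.symm
  have hQG : Q ∣ G := Dvd.intro_left _ hQ.symm
  have hFX := degX_of_dvd hG.ne hFG hG.degX
  have hQX := degX_of_dvd hG.ne hQG hG.degX
  have hFY : F.natDegree ≤ d := (natDegree_le_of_dvd hFG hG.ne).trans hG.degY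
  have hQ0 : Q ≠ 0 := by
    rintro rfl
    exact hG.ne (by rw [hQ, mul_zero])
  refine ⟨F, hFi, ⟨hFi.ne_zero, hFY, hFX, fun i j => ?_⟩, hF⟩
  by_cases hi : i ≤ d
  · rw [← kro_coeff d F hFX i j hi]
    have h1 := coeff_le_MM (kro d F) (kro_natDegree d F hFX hFY) (i + (d + 1) * j)
    have h2 : MM (kro d G) = MM (kro d F) * MM (kro d Q) := by
      rw [hQ, map_mul, MM, Polynomial.map_mul, mahlerMeasure_mul]
      rfl
    have h3 : 1 ≤ MM (kro d Q) := one_le_mahlerMeasure_of_ne_zero (kro_ne_zero d Q hQX hQ0)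
    have h4 : 0 ≤ MM (kro d F) := mahlerMeasure_nonneg _
    have h5 : MM (kro d F) ≤ MM (kro d G) := by
      rw [h2]
      exact le_mul_of_one_le_right h4 h3
    have h6 : MM (kro d G) ≤ (((d + 1) ^ 2 + 1 : ℕ) : ℝ) * A := by
      refine MM_le (kro d G) (Nat.lt_succ_of_le (kro_natDegree d G hG.degX hG.degY)) fun k => ?_
      have h7 : k = k % (d + 1) + (d + 1) * (k / (d + 1)) := (Nat.mod_add_div k (d + 1)).symm
      rw [h7, kro_coeff d G hG.degX _ _ (Nat.lt_succ_iff.1 (Nat.mod_lt _ (Nat.succ_pos d)))]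
      exact hG.ht _ _
    have h8 : |((kro d F).coeff (i + (d + 1) * j) : ℝ)| ≤
        ((2 ^ ((d + 1) ^ 2) * ((d + 1) ^ 2 + 1) * A : ℕ) : ℝ) := by
      refine h1.trans ?_
      push_cast
      rw [mul_assoc]
      refine mul_le_mul_of_nonneg_left ?_ (by positivity)
      refine h5.trans (h6.trans (le_of_eq ?_))
      push_cast
      ring
    exact_mod_cast h8
  · rw [coeff_eq_zero_of_natDegree_lt (lt_of_le_of_lt (hFX j) (by omega)), abs_zero]
    positivity

end Pool.Agent.H92.SQ
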