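import Pool.Agent.H92.SQ.Defs

/-!
# Project SQ, row SQ-28: the number of small polynomials, and partners of a root
-/

set_option autoImplicit false

open Polynomial

namespace Pool.Agent.H92.SQ

/-- the table of coefficients -/
private noncomputable def sq28Tab (D1 D2 : ℕ) (G : ℤ[X][X]) : Fin (D1 + 1) × Fin (D2 + 1) → ℤ :=
  fun ij => (G.coeff ij.2).coeff ij.1

private noncomputable def sq28Box (D1 D2 A : ℕ) : Finset (Fin (D1 + 1) × Fin (D2 + 1) → ℤ) :=
  Fintype.piFinset fun _ => Finset.Icc (-(A : ℤ)) A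

private theorem sq28_card (D1 D2 A : ℕ) :
    (sq28Box D1 D2 A).card = (2 * A + 1) ^ ((D1 + 1) * (D2 + 1)) := by
  have h : (Finset.Icc (-(A : ℤ)) A).card = 2 * A + 1 := by
    rw [Int.card_Icc]
    omega
  rw [sq28Box, Fintype.card_piFinset, Finset.prod_const, h]
  simp only [Finset.card_univ, Fintype.card_prod, Fintype.card_fin]

private theorem sq28_maps (D1 D2 A : ℕ) :
    Set.MapsTo (sq28Tab D1 D2) {G : ℤ[X][X] | Small D1 D2 A G} (sq28Box D1 D2 A) := by
  intro G hG
  rw [Finset.mem_coe, sq28Box, Fintype.mem_piFinset]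
  intro ij
  rw [Finset.mem_Icc]
  exact abs_le.1 (hG.ht _ _)

private theorem sq28_inj (D1 D2 A : ℕ) :
    Set.InjOn (sq28Tab D1 D2) {G : ℤ[X][X] | Small D1 D2 A G} := by
  intro G hG H hH h
  ext j i
  by_cases hj : j ≤ D2
  · by_cases hi : i ≤ D1
    · exact congrFun h (⟨i, by omega⟩, ⟨j, by omega⟩)
    · rw [coeff_eq_zero_of_natDegree_lt (lt_of_le_of_lt (hG.degX j) (by omega)),
        coeff_eq_zero_of_natDegree_lt (lt_of_le_of_lt (hH.degX j) (by omega))]
  · rw [coeff_eq_zero_of_natDegree_lt (lt_of_le_of_lt hG.degY (by omega)),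
      coeff_eq_zero_of_natDegree_lt (lt_of_le_of_lt hH.degY (by omega))]

theorem small_finite (D1 D2 A : ℕ) : {G : ℤ[X][X] | Small D1 D2 A G}.Finite :=
  Set.Finite.of_injOn (sq28_maps D1 D2 A) (sq28_inj D1 D2 A) (Finset.finite_toSet _)

theorem small_card (D1 D2 A : ℕ) :
    {G : ℤ[X][X] | Small D1 D2 A G}.ncard ≤ (2 * A + 1) ^ ((D1 + 1) * (D2 + 1)) := by
  rw [← sq28_card, ← Set.ncard_coe_finset]
  exact Set.ncard_le_ncard_of_injOn _ (sq28_maps D1 D2 A) (sq28_inj D1 D2 A)
    (Finset.finite_toSet _)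

private theorem sq28_ne {n : ℕ} (hn : 6 ≤ n) {f : ℤ[X]} (hf : f.natDegree = n)
    (hfi : Irreducible (FQ f)) {α : ℝ} (hα : aeval α f = 0) {c : ℤ[X]} (hc : c ≠ 0)
    (hd : c.natDegree ≤ 5) : eval₂ (Int.castRingHom ℝ) α c ≠ 0 := by
  intro h
  have hinj : Function.Injective (Int.castRingHom ℚ) := Int.cast_injective
  have h0 : ∀ g : ℤ[X], aeval α (FQ g) = eval₂ (Int.castRingHom ℝ) α g := by
    intro g
    rw [FQ, aeval_def, eval₂_map]
    congr 1
  have h1 : aeval α (FQ f) = 0 := by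
    rw [h0, ← hα, aeval_def]
    rfl
  have h2 : aeval α (FQ c) = 0 := by rw [h0, h]
  have h3 : FQ c ≠ 0 := by
    rw [FQ]
    exact (Polynomial.map_ne_zero_iff hinj).2 hc
  have h4 := minpoly.degree_le_of_ne_zero ℚ α h3 h2
  have h5 := minpoly.eq_of_irreducible hfi h1
  have h6 : (minpoly ℚ α).degree = (FQ f).degree := by
    rw [← h5, degree_mul_C (inv_ne_zero (leadingCoeff_ne_zero.2 hfi.ne_zero))]
  rw [h6] at h4
  have h7 := natDegree_le_natDegree h4
  rw [FQ, FQ, natDegree_map_eq_of_injective hinj, natDegree_map_eq_of_injective hinj] at h7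
  omega

theorem partners (A n : ℕ) (hn : 6 ≤ n) (f : ℤ[X]) (hf : f.natDegree = n)
    (hfi : Irreducible (FQ f)) (α : ℝ) (hα : aeval α f = 0) (T : Finset ℝ)
    (hT : ∀ β ∈ T, ∃ F : ℤ[X][X], Small 5 5 A F ∧ bev α β F = 0) :
    T.card ≤ 5 * (2 * A + 1) ^ 36 := by
  classical
  set S : Finset ℤ[X][X] := (small_finite 5 5 A).toFinset with hS
  set ψ : ℤ[X] →+* ℝ := eval₂RingHom (Int.castRingHom ℝ) α with hψ
  have hcard : S.card ≤ (2 * A + 1) ^ 36 := by
    have h1 := small_card 5 5 A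
    rw [Set.ncard_eq_toFinset_card _ (small_finite 5 5 A)] at h1
    exact h1
  have hsub : T ⊆ S.biUnion fun F => (F.map ψ).roots.toFinset := by
    intro β hβ
    obtain ⟨F, hF, hz⟩ := hT β hβ
    rw [Finset.mem_biUnion]
    refine ⟨F, by rw [hS, Set.Finite.mem_toFinset]; exact hF, ?_⟩
    rw [Multiset.mem_toFinset, mem_roots', IsRoot.def, eval_map]
    refine ⟨?_, hz⟩
    intro h0
    have h1 : F.leadingCoeff ≠ 0 := leadingCoeff_ne_zero.2 hF.ne
    have h2 : ψ (F.coeff F.natDegree) = 0 := by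
      have := congrArg (fun p => coeff p F.natDegree) h0
      simpa [coeff_map] using this
    exact sq28_ne hn hf hfi hα h1 (hF.degX _) h2
  calc T.card ≤ (S.biUnion fun F => (F.map ψ).roots.toFinset).card := Finset.card_le_card hsub
    _ ≤ S.card * 5 := by
        refine Finset.card_biUnion_le_card_mul _ _ _ fun F hF => ?_
        have hF' : Small 5 5 A F := by
          rw [hS, Set.Finite.mem_toFinset] at hF
          exact hF
        refine (Multiset.toFinset_card_le _).trans ((card_roots' _).trans ?_)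
        exact (natDegree_map_le).trans hF'.degY
    _ ≤ (2 * A + 1) ^ 36 * 5 := Nat.mul_le_mul_right 5 hcard
    _ = 5 * (2 * A + 1) ^ 36 := Nat.mul_comm _ _

end Pool.Agent.H92.SQ
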