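import Pool.Agent.H92.SQ.Res
import Pool.Agent.H92.SQ.SmallCard

/-!
# Project SQ (MP_a3214d), SQ-30: pairs with two independent relations are few
-/

set_option autoImplicit false

open Polynomial

namespace Pool.Agent.H92.SQ

private theorem sq30_sqrt (n : ℕ) (hn : 40000 ≤ n) : 1341 ≤ Nat.sqrt (45 * n) ∧
    Nat.sqrt (45 * n) * Nat.sqrt (45 * n) ≤ 45 * n ∧
    45 * n ≤ Nat.sqrt (45 * n) * Nat.sqrt (45 * n) + 2 * Nat.sqrt (45 * n) := by
  refine ⟨Nat.le_sqrt.2 (by omega), Nat.sqrt_le (45 * n), ?_⟩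
  have h := Nat.sqrt_le_add (45 * n)
  omega

private theorem sq30_key (n b D e : ℕ) (hn : 40000 ≤ n) (h6 : 6 ≤ b) (hb : b * b ≤ 45 * n)
    (hD : D * b ≤ 2 * n) (he : e * n ≤ 500 * (D + (b - 1))) : e ≤ 166 := by
  have h3 : 3 * (D + b) ≤ n + 18 := by
    rcases Nat.lt_or_ge D 6 with h | h
    · have : 3 * b ≤ n := by nlinarith
      omega
    · obtain ⟨x, rfl⟩ := Nat.exists_eq_add_of_le h
      obtain ⟨y, rfl⟩ := Nat.exists_eq_add_of_le h6
      nlinarith
  by_contra hc
  push Not at hc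
  have h1 : 167 * n ≤ e * n := Nat.mul_le_mul_right n hc
  omega

theorem num_ineq (n b : ℕ) (hn : 40000 ≤ n) :
    n * 3 + 500 * ((Nat.sqrt (45 * n) - 1) + (Nat.sqrt (45 * n) - 1)) ≤
        ((Nat.sqrt (45 * n) - 1) + 1) * ((Nat.sqrt (45 * n) - 1) + 1) * 1 ∧
      (Nat.sqrt (45 * n) - 1 + 1) * (Nat.sqrt (45 * n) - 1 + 1) ≤ 45 * n ∧
      (6 ≤ b → b ≤ Nat.sqrt (45 * n) - 1 →
        n * ((500 * (2 * n / b + (b - 1)) / n + 3) + 2) + 500 * (2 * n / b + (b - 1)) ≤
            (2 * n / b + 1) * ((b - 1) + 1) * (500 * (2 * n / b + (b - 1)) / n + 3) ∧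
          (2 * n / b + 1) * ((b - 1) + 1) * (500 * (2 * n / b + (b - 1)) / n + 3) ≤ 346 * n) := by
  obtain ⟨hs, hs1, hs2⟩ := sq30_sqrt n hn
  set s := Nat.sqrt (45 * n) with hsd
  have hs0 : s - 1 + 1 = s := by omega
  rw [hs0, mul_one]
  refine ⟨?_, hs1, ?_⟩
  · have h1 : s - 1 + (s - 1) + 2 = 2 * s := by omega
    nlinarith
  · intro h6 hb
    have hb0 : b - 1 + 1 = b := by omega
    have hbp : 0 < b := by omega
    have hnp : 0 < n := by omega
    rw [hb0]
    set D := 2 * n / b with hD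
    have hD1 : D * b ≤ 2 * n := Nat.div_mul_le_self _ _
    have hD2 : 2 * n < (D + 1) * b := by
      have := Nat.lt_mul_div_succ (2 * n) hbp
      rwa [mul_comm b] at this
    set u := D + (b - 1) with hu
    set e := 500 * u / n with he
    have he1 : e * n ≤ 500 * u := Nat.div_mul_le_self _ _
    have he2 : 500 * u < (e + 1) * n := by
      have := Nat.lt_mul_div_succ (500 * u) hnp
      rwa [mul_comm n] at this
    have hbb : b * b ≤ 45 * n := by nlinarith
    have he3 : e ≤ 166 := sq30_key n b D e hn h6 hbb hD1 he1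
    constructor
    · have h1 : (2 * n + 1) * (e + 3) ≤ (D + 1) * b * (e + 3) :=
        Nat.mul_le_mul_right _ hD2
      nlinarith
    · have h1 : (D + 1) * b ≤ 2 * n + s := by nlinarith
      have h2 : 169 * s ≤ 8 * n := by nlinarith
      calc (D + 1) * b * (e + 3) ≤ (2 * n + s) * 169 :=
            Nat.mul_le_mul h1 (by omega)
        _ ≤ 346 * n := by omega

/-- The pair `(x, y)` satisfies two independent relations. -/
def Large (n C h : ℕ) (x y : ℝ) : Prop :=
  ∃ F G : ℤ[X][X], Irreducible F ∧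
    Small (Nat.sqrt (45 * n) - 1) (Nat.sqrt (45 * n) - 1) (C * h) F ∧ 6 ≤ F.natDegree ∧
    Small (2 * n / F.natDegree) (F.natDegree - 1)
      (h ^ (500 * (2 * n / F.natDegree + (F.natDegree - 1)) / n + 3)) G ∧
    bev x y F = 0 ∧ bev x y G = 0

theorem large_card (n C : ℕ) (hn : 40000 ≤ n) : ∃ h0 : ℕ, ∀ h ≥ h0, ∃ S : Finset ℝ,
    S.card ≤ h ^ (395 * n) ∧ ∀ x y : ℝ, Large n C h x y → x ∈ S := by
  classical
  obtain ⟨hs, hs1, hs2⟩ := sq30_sqrt n hn
  set s := Nat.sqrt (45 * n) with hsd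
  obtain ⟨C1, hC1⟩ := res_count s (2 * n + s)
  have hch : ∀ F G : ℤ[X][X], ∃ S : Finset ℝ, S.card ≤ C1 ∧
      ((Irreducible F ∧ 1 ≤ F.natDegree ∧ F.natDegree ≤ s ∧
        (∀ j, (F.coeff j).natDegree ≤ 2 * n + s) ∧ G ≠ 0 ∧ G.natDegree < F.natDegree ∧
        (∀ j, (G.coeff j).natDegree ≤ 2 * n + s)) →
      ∀ x y : ℝ, bev x y F = 0 → bev x y G = 0 → x ∈ S) := by
    intro F G
    by_cases hc : Irreducible F ∧ 1 ≤ F.natDegree ∧ F.natDegree ≤ s ∧
        (∀ j, (F.coeff j).natDegree ≤ 2 * n + s) ∧ G ≠ 0 ∧ G.natDegree < F.natDegree ∧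
        (∀ j, (G.coeff j).natDegree ≤ 2 * n + s)
    · obtain ⟨h1, h2, h3, h4, h5, h6, h7⟩ := hc
      obtain ⟨S, hS, hS'⟩ := hC1 F G h1 h2 h3 h4 h5 h6 h7
      exact ⟨S, hS, fun _ => hS'⟩
    · exact ⟨∅, by simp, fun h => absurd h hc⟩
  choose S hS hS' using hch
  set K : ℕ := s * ((2 * C + 1) ^ (45 * n) * (3 ^ (346 * n) * C1)) with hK
  refine ⟨K + 1, fun h hh => ?_⟩
  have hh1 : 1 ≤ h := by omega
  have hhK : K ≤ h := by omega
  set TF : Finset ℤ[X][X] := (small_finite (s - 1) (s - 1) (C * h)).toFinset with hTF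
  set a : ℕ → ℕ := fun b => 500 * (2 * n / b + (b - 1)) / n + 3 with ha
  set TG : ℕ → Finset ℤ[X][X] := fun b =>
    (small_finite (2 * n / b) (b - 1) (h ^ a b)).toFinset with hTG
  refine ⟨((Finset.range s).filter fun b => 6 ≤ b).biUnion fun b => TF.biUnion fun F =>
    (TG b).biUnion fun G => S F G, ?_, ?_⟩
  · have hTFc : TF.card ≤ (2 * C + 1) ^ (45 * n) * h ^ (45 * n) := by
      have h1 := small_card (s - 1) (s - 1) (C * h)
      rw [Set.ncard_eq_toFinset_card _ (small_finite (s - 1) (s - 1) (C * h))] at h1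
      have h2 : (s - 1 + 1) * (s - 1 + 1) ≤ 45 * n := by
        have : s - 1 + 1 = s := by omega
        rw [this]
        exact hs1
      calc TF.card ≤ (2 * (C * h) + 1) ^ ((s - 1 + 1) * (s - 1 + 1)) := h1
        _ ≤ (2 * (C * h) + 1) ^ (45 * n) := Nat.pow_le_pow_right (by omega) h2
        _ ≤ ((2 * C + 1) * h) ^ (45 * n) := by
          apply Nat.pow_le_pow_left
          nlinarith
        _ = (2 * C + 1) ^ (45 * n) * h ^ (45 * n) := mul_pow _ _ _
    have hTGc : ∀ b, 6 ≤ b → b < s → (TG b).card ≤ 3 ^ (346 * n) * h ^ (346 * n) := by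
      intro b h6 hb
      have h1 := small_card (2 * n / b) (b - 1) (h ^ a b)
      rw [Set.ncard_eq_toFinset_card _ (small_finite (2 * n / b) (b - 1) (h ^ a b))] at h1
      have h2 := ((num_ineq n b hn).2.2 h6 (by omega)).2
      have ha1 : 1 ≤ a b := le_trans (by norm_num) (Nat.le_add_left 3 _)
      have hN : (2 * n / b + 1) * (b - 1 + 1) ≤ 346 * n :=
        le_trans (Nat.le_mul_of_pos_right _ ha1) h2
      have hpos : 1 ≤ h ^ a b := Nat.one_le_pow _ _ hh1
      calc (TG b).card ≤ (2 * h ^ a b + 1) ^ ((2 * n / b + 1) * (b - 1 + 1)) := h1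
        _ ≤ (3 * h ^ a b) ^ ((2 * n / b + 1) * (b - 1 + 1)) := by
          apply Nat.pow_le_pow_left
          omega
        _ = 3 ^ ((2 * n / b + 1) * (b - 1 + 1)) *
            h ^ ((2 * n / b + 1) * (b - 1 + 1) * a b) := by
          rw [mul_pow, ← pow_mul, mul_comm (a b)]
        _ ≤ 3 ^ (346 * n) * h ^ (346 * n) :=
          Nat.mul_le_mul (Nat.pow_le_pow_right (by norm_num) hN)
            (Nat.pow_le_pow_right hh1 h2)
    calc (((Finset.range s).filter fun b => 6 ≤ b).biUnion fun b => TF.biUnion fun F =>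
          (TG b).biUnion fun G => S F G).card
        ≤ ((Finset.range s).filter fun b => 6 ≤ b).card *
          (((2 * C + 1) ^ (45 * n) * h ^ (45 * n)) *
            ((3 ^ (346 * n) * h ^ (346 * n)) * C1)) := by
          apply Finset.card_biUnion_le_card_mul
          intro b hb
          rw [Finset.mem_filter, Finset.mem_range] at hb
          refine le_trans (Finset.card_biUnion_le_card_mul _ _
            ((3 ^ (346 * n) * h ^ (346 * n)) * C1) ?_) (Nat.mul_le_mul_right _ hTFc)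
          intro F _
          exact le_trans (Finset.card_biUnion_le_card_mul _ _ C1 fun G _ => hS F G)
            (Nat.mul_le_mul_right _ (hTGc b hb.2 hb.1))
      _ ≤ s * (((2 * C + 1) ^ (45 * n) * h ^ (45 * n)) *
            ((3 ^ (346 * n) * h ^ (346 * n)) * C1)) := by
          apply Nat.mul_le_mul_right
          exact le_trans (Finset.card_filter_le _ _) (by simp)
      _ = K * h ^ (391 * n) := by
          rw [hK, show 391 * n = 45 * n + 346 * n by ring, pow_add]
          ring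
      _ ≤ h * h ^ (391 * n) := Nat.mul_le_mul_right _ hhK
      _ = h ^ (391 * n + 1) := by ring
      _ ≤ h ^ (395 * n) := Nat.pow_le_pow_right hh1 (by omega)
  · rintro x y ⟨F, G, hFi, hF, h6, hG, hxF, hxG⟩
    have hFd := hF.degY
    have hFs : F.natDegree < s := by omega
    simp only [Finset.mem_biUnion]
    refine ⟨F.natDegree, ?_, F, ?_, G, ?_, ?_⟩
    · rw [Finset.mem_filter, Finset.mem_range]
      exact ⟨hFs, h6⟩
    · rw [hTF, Set.Finite.mem_toFinset]
      exact hF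
    · rw [hTG, Set.Finite.mem_toFinset]
      exact hG
    · refine hS' F G ⟨hFi, by omega, by omega, ?_, hG.ne, ?_, ?_⟩ x y hxF hxG
      · intro j
        have := hF.degX j
        omega
      · have := hG.degY
        omega
      · intro j
        have h1 := hG.degX j
        have h2 : 2 * n / F.natDegree ≤ 2 * n := Nat.div_le_self _ _
        omega

end Pool.Agent.H92.SQ
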