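import Pool.Agent.H92.SQ.Rel
import Pool.Agent.H92.SQ.Factor
import Pool.Agent.H92.SQ.Large

/-!
# Project SQ, row SQ-31: isomorphic members give related roots
-/

set_option autoImplicit false

open Polynomial

namespace Pool.Agent.H92.SQ

theorem sq31_coeff_swap (p : ℤ[X][X]) (i j : ℕ) :
    ((Bivariate.swap p).coeff i).coeff j = (p.coeff j).coeff i := by
  induction p using Polynomial.induction_on' with
  | add p q hp hq => simp only [map_add, coeff_add, hp, hq]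
  | monomial m f =>
    induction f using Polynomial.induction_on' with
    | add f g hf hg =>
      simp only [map_add, coeff_add, hf, hg]
    | monomial k r =>
      rw [Bivariate.swap_monomial_monomial]
      simp only [coeff_monomial]
      by_cases h1 : k = i <;> by_cases h2 : m = j <;> simp [h1, h2, coeff_monomial]

theorem sq31_map_bev {K L : Type*} [CommRing K] [CommRing L] (φ : K →+* L) (x y : K)
    (F : ℤ[X][X]) : φ (bev x y F) = bev (φ x) (φ y) F := by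
  have h : φ.comp (bev x y) = bev (φ x) (φ y) := by
    apply Polynomial.ringHom_ext'
    · apply Polynomial.ringHom_ext'
      · exact RingHom.ext_int _ _
      · simp [bev]
    · simp [bev]
  rw [← h]; rfl

theorem sq31_bev_swap {K : Type*} [CommRing K] (x y : K) (F : ℤ[X][X]) :
    bev y x (Bivariate.swap F) = bev x y F := by
  have h : (bev y x).comp (Bivariate.swap (R := ℤ)).toRingEquiv.toRingHom = bev x y := by
    apply Polynomial.ringHom_ext'
    · apply Polynomial.ringHom_ext'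
      · exact RingHom.ext_int _ _
      · simp [bev, Bivariate.swap_X]
    · simp [bev, Bivariate.swap_Y]
  rw [← h]; rfl

/-- pull back a relation along an embedding with real values -/
theorem sq31_zero {K : Type*} [Field K] (φ : K →+* ℂ) {x y : K} {α β : ℝ} (hα : φ x = (α : ℂ))
    (hβ : φ y = (β : ℂ)) {P : ℤ[X][X]} (hP : bev x y P = 0) : bev α β P = 0 := by
  have h1 : φ (bev x y P) = 0 := by rw [hP, map_zero]
  rw [sq31_map_bev, hα, hβ] at h1
  have h2 := sq31_map_bev Complex.ofRealHom α β P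
  simp only [Complex.ofRealHom_eq_coe] at h2
  rw [h1] at h2
  exact_mod_cast h2

theorem sq31_root {K : Type*} [Field K] (φ : K →+* ℂ) {x : K} {α : ℝ} {f : ℤ[X]}
    (hx : aeval x f = 0) (hα : φ x = (α : ℂ)) : aeval α f = 0 := by
  have h1 : φ (aeval x f) = 0 := by rw [hx, map_zero]
  rw [← RingHom.toIntAlgHom_apply φ, ← aeval_algHom_apply, RingHom.toIntAlgHom_apply, hα] at h1
  have h2 := aeval_algHom_apply (Complex.ofRealHom.toIntAlgHom) α f
  rw [RingHom.toIntAlgHom_apply, Complex.ofRealHom_eq_coe] at h2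
  rw [h1] at h2
  rw [RingHom.toIntAlgHom_apply, Complex.ofRealHom_eq_coe] at h2
  exact_mod_cast h2.symm

theorem sq31_small_swap {D1 D2 A : ℕ} {F : ℤ[X][X]} (hF : Small D1 D2 A F) :
    Small D2 D1 A (Bivariate.swap F) where
  ne := by
    intro h
    exact hF.ne ((map_eq_zero_iff _ (Bivariate.swap (R := ℤ)).injective).mp h)
  degY := by
    rw [natDegree_le_iff_coeff_eq_zero]
    intro N hN
    ext j
    rw [sq31_coeff_swap, coeff_zero]
    exact coeff_eq_zero_of_natDegree_lt (lt_of_le_of_lt (hF.degX j) hN)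
  degX := by
    intro j
    rw [natDegree_le_iff_coeff_eq_zero]
    intro N hN
    rw [sq31_coeff_swap]
    rw [coeff_eq_zero_of_natDegree_lt (lt_of_le_of_lt hF.degY hN), coeff_zero]
  ht := by
    intro i j
    rw [sq31_coeff_swap]
    exact hF.ht j i

theorem sq31_irr_swap {F : ℤ[X][X]} (hF : Irreducible F) : Irreducible (Bivariate.swap F) :=
  (MulEquiv.irreducible_iff (Bivariate.swap (R := ℤ)).toMulEquiv).mpr hF

/-- all roots of `f` in `ℂ` are real and of size at most `n + 1` -/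
def RealRoots (n : ℕ) (f : ℤ[X]) : Prop :=
  ∀ z : ℂ, aeval z f = 0 → ∃ ξ : ℝ, |ξ| ≤ n + 1 ∧ z = (ξ : ℂ)

/-- the two-relations case -/
theorem sq31_large (n : ℕ) (hn : 40000 ≤ n) (C : ℕ) : ∃ h0 : ℕ, ∀ h ≥ h0, ∀ f g : ℤ[X],
    f.natDegree = n → g.natDegree = n → Irreducible (FQ f) → Irreducible (FQ g) →
    |f.leadingCoeff| ≤ 8 * (h : ℤ) ^ 500 → |g.leadingCoeff| ≤ 8 * (h : ℤ) ^ 500 →
    RealRoots n f → RealRoots n g → ∀ (K : Type) [Field K] [NumberField K] (x y : K),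
    Module.finrank ℚ K = n → aeval x f = 0 → aeval y g = 0 → ∀ F : ℤ[X][X], Irreducible F →
    Small (Nat.sqrt (45 * n) - 1) (Nat.sqrt (45 * n) - 1) (C * h) F → bev x y F = 0 →
    6 ≤ F.natDegree → ∃ α β : ℝ, aeval α f = 0 ∧ Large n C h α β := by
  have hb : ∀ b : ℕ, ∃ h0 : ℕ, 6 ≤ b → b ≤ Nat.sqrt (45 * n) - 1 → ∀ h ≥ h0, ∀ (K : Type)
      [Field K] [NumberField K] (f g : ℤ[X]) (x y : K),
      Module.finrank ℚ K = n → f.natDegree = n → g.natDegree = n → Irreducible (FQ f) →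
      Irreducible (FQ g) → |f.leadingCoeff| ≤ 8 * (h : ℤ) ^ 500 →
      |g.leadingCoeff| ≤ 8 * (h : ℤ) ^ 500 → aeval x f = 0 → aeval y g = 0 →
      (∀ φ : K →+* ℂ, ∃ ξ : ℝ, |ξ| ≤ n + 1 ∧ φ x = (ξ : ℂ)) →
      (∀ φ : K →+* ℂ, ∃ ξ : ℝ, |ξ| ≤ n + 1 ∧ φ y = (ξ : ℂ)) →
      ∃ G : ℤ[X][X], Small (2 * n / b) (b - 1) (h ^ (500 * (2 * n / b + (b - 1)) / n + 3)) G ∧
        bev x y G = 0 := by
    intro b
    by_cases h6 : 6 ≤ b ∧ b ≤ Nat.sqrt (45 * n) - 1
    · obtain ⟨h0, H⟩ := siegel_rel n (2 * n / b) (b - 1)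
        (500 * (2 * n / b + (b - 1)) / n + 3) (by omega) ((num_ineq n b hn).2.2 h6.1 h6.2).1
      exact ⟨h0, fun _ _ => H⟩
    · exact ⟨0, fun h1 h2 => absurd ⟨h1, h2⟩ h6⟩
  choose h0 H using hb
  refine ⟨∑ b ∈ Finset.range (Nat.sqrt (45 * n) + 1), h0 b, ?_⟩
  intro h hh f g hf hg hfi hgi hfl hgl hfr hgr K _ _ x y hK hx hy F hF hFs hF0 hF6
  have hbd : F.natDegree ≤ Nat.sqrt (45 * n) - 1 := hFs.degY
  have hh' : h0 F.natDegree ≤ h := by
    refine le_trans ?_ hh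
    exact Finset.single_le_sum (f := h0) (fun _ _ => Nat.zero_le _)
      (Finset.mem_range.mpr (by omega))
  have hreal : ∀ (f : ℤ[X]) (x : K), RealRoots n f → aeval x f = 0 → ∀ φ : K →+* ℂ,
      ∃ ξ : ℝ, |ξ| ≤ n + 1 ∧ φ x = (ξ : ℂ) := by
    intro f x hfr hx φ
    apply hfr
    have h1 : φ (aeval x f) = 0 := by rw [hx, map_zero]
    rwa [← RingHom.toIntAlgHom_apply φ, ← aeval_algHom_apply] at h1
  obtain ⟨G, hG, hG0⟩ := H F.natDegree hF6 hbd h hh' K f g x y hK hf hg hfi hgi hfl hgl hx hy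
    (hreal f x hfr hx) (hreal g y hgr hy)
  obtain ⟨φ⟩ : Nonempty (K →+* ℂ) := inferInstance
  obtain ⟨α, -, hα⟩ := hreal f x hfr hx φ
  obtain ⟨β, -, hβ⟩ := hreal g y hgr hy φ
  exact ⟨α, β, sq31_root φ hx hα, F, G, hF, hFs, hF6, hG, sq31_zero φ hα hβ hF0,
    sq31_zero φ hα hβ hG0⟩

theorem pair_rel (n : ℕ) (hn : 40000 ≤ n) : ∃ C h0 : ℕ, ∀ h ≥ h0, ∀ f g : ℤ[X],
    f.natDegree = n → g.natDegree = n → Irreducible (FQ f) → Irreducible (FQ g) →
    |f.leadingCoeff| ≤ 8 * (h : ℤ) ^ 500 → |g.leadingCoeff| ≤ 8 * (h : ℤ) ^ 500 →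
    RealRoots n f → RealRoots n g → Iso n f g →
    (∀ α : ℝ, aeval α f = 0 → ∃ β : ℝ, aeval β g = 0 ∧
      ∃ F : ℤ[X][X], Small 5 5 (C * h) F ∧ bev α β F = 0) ∨
    (∃ α β : ℝ, aeval α f = 0 ∧ Large n C h α β) ∨
    (∃ α β : ℝ, aeval α g = 0 ∧ Large n C h α β) := by
  obtain ⟨C, hC⟩ := irr_factor (Nat.sqrt (45 * n) - 1)
  obtain ⟨h1, H1⟩ := siegel_rel n (Nat.sqrt (45 * n) - 1) (Nat.sqrt (45 * n) - 1) 1 (by omega)
    (num_ineq n 0 hn).1
  obtain ⟨h2, H2⟩ := sq31_large n hn C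
  refine ⟨C, h1 + h2, ?_⟩
  intro h hh f g hf hg hfi hgi hfl hgl hfr hgr hiso
  obtain ⟨K, _, _, x, y, hK, hx, hy⟩ := hiso
  have hreal : ∀ (f : ℤ[X]) (x : K), RealRoots n f → aeval x f = 0 → ∀ φ : K →+* ℂ,
      ∃ ξ : ℝ, |ξ| ≤ n + 1 ∧ φ x = (ξ : ℂ) := by
    intro f x hfr hx φ
    apply hfr
    have h1 : φ (aeval x f) = 0 := by rw [hx, map_zero]
    rwa [← RingHom.toIntAlgHom_apply φ, ← aeval_algHom_apply] at h1
  obtain ⟨G, hG, hG0⟩ := H1 h (by omega) K f g x y hK hf hg hfi hgi hfl hgl hx hy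
    (hreal f x hfr hx) (hreal g y hgr hy)
  rw [pow_one] at hG
  obtain ⟨F, hFi, hFs, hF0⟩ := hC K x y h G hG hG0
  by_cases hdY : 6 ≤ F.natDegree
  · exact Or.inr (Or.inl (H2 h (by omega) f g hf hg hfi hgi hfl hgl hfr hgr K x y hK hx hy F hFi
      hFs hF0 hdY))
  by_cases hdX : ∃ j, 6 ≤ (F.coeff j).natDegree
  · obtain ⟨j, hj⟩ := hdX
    refine Or.inr (Or.inr (H2 h (by omega) g f hg hf hgi hfi hgl hfl hgr hfr K y x hK hy hx
      (Bivariate.swap F) (sq31_irr_swap hFi) (sq31_small_swap hFs)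
      (by rw [sq31_bev_swap]; exact hF0) ?_))
    refine le_trans hj (le_natDegree_of_ne_zero ?_)
    intro h0
    have h3 := sq31_coeff_swap F (F.coeff j).natDegree j
    rw [h0, coeff_zero] at h3
    have h4 : F.coeff j ≠ 0 := by
      intro h5
      rw [h5, natDegree_zero] at hj
      omega
    exact h4 (leadingCoeff_eq_zero.mp h3.symm)
  refine Or.inl ?_
  intro α hα
  have hxQ : aeval x (FQ f) = 0 := by
    have h3 : FQ f = f.map (algebraMap ℤ ℚ) := rfl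
    rw [h3, aeval_map_algebraMap]
    exact hx
  have hαQ : aeval (α : ℂ) (FQ f) = 0 := by
    have h3 : FQ f = f.map (algebraMap ℤ ℚ) := rfl
    rw [h3, aeval_map_algebraMap]
    have h2 := aeval_algHom_apply (Complex.ofRealHom.toIntAlgHom) α f
    rw [RingHom.toIntAlgHom_apply, Complex.ofRealHom_eq_coe, hα, map_zero] at h2
    exact h2
  have hmin : ((α : ℂ)) ∈ (minpoly ℚ x).rootSet ℂ := by
    rw [mem_rootSet]
    refine ⟨minpoly.ne_zero (Algebra.IsIntegral.isIntegral x), ?_⟩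
    rw [← minpoly.eq_of_irreducible hfi hxQ, map_mul, hαQ, zero_mul]
  obtain ⟨φ, hφ⟩ := (NumberField.Embeddings.range_eval_eq_rootSet_minpoly K ℂ x).symm.subset hmin
  have hφ' : φ x = (α : ℂ) := hφ
  obtain ⟨β, -, hβ⟩ := hreal g y hgr hy φ
  refine ⟨β, ?_, F, ?_, ?_⟩
  · exact sq31_root φ hy hβ
  · exact ⟨hFs.ne, by omega, fun j => by
      by_contra h5
      exact hdX ⟨j, by omega⟩, hFs.ht⟩
  · exact sq31_zero φ hφ' hβ hF0

end Pool.Agent.H92.SQ
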