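import Pool.Agent.H92.SQ.Defs

/-!
# Project SQ (MP_a3214d), SQ-10: members of the family have `n` real roots
-/

set_option autoImplicit false

open Polynomial

namespace Pool.Agent.H92.SQ

theorem sq10_base_deg (n : ℕ) : (base n).natDegree = n := by
  unfold base
  rw [natDegree_prod_of_monic _ _ (fun k _ => monic_X_sub_C _),
    Finset.sum_congr rfl (fun k _ => natDegree_X_sub_C _)]
  simp

theorem sq10_base_eval (n : ℕ) (x : ℝ) :
    ((base n).map (Int.castRingHom ℝ)).eval x = ∏ k ∈ Finset.range n, (x - ((k : ℝ) + 1)) := by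
  unfold base
  rw [Polynomial.map_prod, eval_prod]
  refine Finset.prod_congr rfl fun k _ => ?_
  simp

theorem sq10_close {n : ℕ} {δ : ℝ} (hδ : 0 ≤ δ) {f : ℤ[X]} (hf : f.natDegree = n)
    (hpos : 0 < f.leadingCoeff)
    (h : ∀ i, |(f.coeff i : ℝ) - f.leadingCoeff * (base n).coeff i| ≤ δ * f.leadingCoeff)
    {x : ℝ} (hx : |x| ≤ n + 1) :
    |(f.map (Int.castRingHom ℝ)).eval x -
      f.leadingCoeff * ∏ k ∈ Finset.range n, (x - ((k : ℝ) + 1))| ≤
        δ * (n + 1) ^ (n + 1) * f.leadingCoeff := by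
  have hq : (0 : ℝ) < f.leadingCoeff := by exact_mod_cast hpos
  rw [← sq10_base_eval, eval_eq_sum_range' (n := n + 1) (lt_of_le_of_lt natDegree_map_le (by omega)),
    eval_eq_sum_range' (n := n + 1) (lt_of_le_of_lt natDegree_map_le
      (by rw [sq10_base_deg]; omega)), Finset.mul_sum, ← Finset.sum_sub_distrib]
  refine (Finset.abs_sum_le_sum_abs _ _).trans ?_
  have h1 : ∀ i ∈ Finset.range (n + 1),
      |(f.map (Int.castRingHom ℝ)).coeff i * x ^ i -
        f.leadingCoeff * (((base n).map (Int.castRingHom ℝ)).coeff i * x ^ i)| ≤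
        δ * f.leadingCoeff * ((n : ℝ) + 1) ^ n := by
    intro i hi
    rw [Finset.mem_range] at hi
    have h2 : (f.map (Int.castRingHom ℝ)).coeff i * x ^ i -
        f.leadingCoeff * (((base n).map (Int.castRingHom ℝ)).coeff i * x ^ i) =
        ((f.coeff i : ℝ) - f.leadingCoeff * (base n).coeff i) * x ^ i := by
      rw [coeff_map, coeff_map]
      simp only [eq_intCast]
      ring
    rw [h2, abs_mul, abs_pow]
    have h3 : |x| ^ i ≤ ((n : ℝ) + 1) ^ n := by
      calc |x| ^ i ≤ ((n : ℝ) + 1) ^ i := pow_le_pow_left₀ (abs_nonneg _) hx i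
        _ ≤ ((n : ℝ) + 1) ^ n := pow_le_pow_right₀ (by
          have := (Nat.cast_nonneg n : (0 : ℝ) ≤ n)
          linarith) (by omega)
    exact mul_le_mul (h i) h3 (by positivity) (by positivity)
  refine (Finset.sum_le_card_nsmul _ _ _ h1).trans (le_of_eq ?_)
  rw [Finset.card_range, nsmul_eq_mul]
  push_cast
  ring

/-- the sign of `(x - 1) ⋯ (x - n)` at `x = j + 1/2` -/
noncomputable def sq10_s (n j : ℕ) : ℝ := ∏ k ∈ Finset.range n, (if k < j then (1 : ℝ) else -1)

theorem sq10_s_mul (n j : ℕ) (hj : j < n) : sq10_s n j * sq10_s n (j + 1) = -1 := by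
  unfold sq10_s
  rw [← Finset.prod_mul_distrib]
  have h1 : ∀ k ∈ Finset.range n,
      ((if k < j then (1 : ℝ) else -1) * if k < j + 1 then 1 else -1) =
        if k = j then -1 else 1 := by
    intro k _
    rcases lt_trichotomy k j with h | h | h
    · rw [if_pos h, if_pos (by omega), if_neg (by omega)]
      norm_num
    · rw [if_neg (by omega), if_pos (by omega), if_pos h]
      norm_num
    · rw [if_neg (by omega), if_neg (by omega), if_neg (by omega)]
      norm_num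
  rw [Finset.prod_congr rfl h1, Finset.prod_ite_eq', if_pos (Finset.mem_range.mpr hj)]

theorem sq10_s_abs (n j : ℕ) : |sq10_s n j| = 1 := by
  unfold sq10_s
  rw [Finset.abs_prod]
  refine Finset.prod_eq_one fun k _ => ?_
  split_ifs <;> simp

theorem sq10_s_base (n j : ℕ) :
    (1 / 2 : ℝ) ^ n ≤ sq10_s n j * ∏ k ∈ Finset.range n, ((j : ℝ) + 1 / 2 - ((k : ℝ) + 1)) := by
  unfold sq10_s
  rw [← Finset.prod_mul_distrib]
  have h1 : (1 / 2 : ℝ) ^ n = ∏ _k ∈ Finset.range n, (1 / 2 : ℝ) := by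
    rw [Finset.prod_const, Finset.card_range]
  rw [h1]
  refine Finset.prod_le_prod (fun _ _ => by norm_num) fun k _ => ?_
  split_ifs with h
  · have : (k : ℝ) + 1 ≤ j := by exact_mod_cast h
    linarith
  · have : (j : ℝ) ≤ k := by exact_mod_cast not_lt.mp h
    linarith

theorem real_roots (n : ℕ) (hn : 1 ≤ n) : ∃ δ : ℝ, 0 < δ ∧ ∀ f : ℤ[X], f.natDegree = n →
    0 < f.leadingCoeff →
    (∀ i, |(f.coeff i : ℝ) - f.leadingCoeff * (base n).coeff i| ≤ δ * f.leadingCoeff) →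
    ∃ θ : Fin n → ℝ, StrictMono θ ∧ (∀ k, 0 < θ k ∧ θ k < n + 1) ∧
      f.map (Int.castRingHom ℝ) = C (f.leadingCoeff : ℝ) * ∏ k, (X - C (θ k)) := by
  have hn0 : (0 : ℝ) < (n : ℝ) + 1 := by positivity
  refine ⟨(1 / 2) ^ (n + 1) / ((n : ℝ) + 1) ^ (n + 1), by positivity, ?_⟩
  intro f hf hpos hclose
  have hq : (0 : ℝ) < f.leadingCoeff := by exact_mod_cast hpos
  set F := f.map (Int.castRingHom ℝ) with hF
  -- signs
  have hsign : ∀ j : ℕ, j ≤ n → 0 < sq10_s n j * F.eval ((j : ℝ) + 1 / 2) := by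
    intro j hj
    have hj' : (j : ℝ) ≤ n := by exact_mod_cast hj
    have h1 := sq10_close (by positivity) hf hpos hclose (x := (j : ℝ) + 1 / 2)
      (by rw [abs_of_pos (by positivity)]; linarith)
    rw [div_mul_cancel₀ _ (by positivity)] at h1
    have h2 := sq10_s_base n j
    have h3 := sq10_s_abs n j
    set B := ∏ k ∈ Finset.range n, ((j : ℝ) + 1 / 2 - ((k : ℝ) + 1)) with hB
    have h4 : |sq10_s n j * (F.eval ((j : ℝ) + 1 / 2) - f.leadingCoeff * B)| ≤
        (1 / 2) ^ (n + 1) * f.leadingCoeff := by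
      rw [abs_mul, h3, one_mul]
      exact h1
    have h5 := (abs_le.mp h4).1
    have h6 : (1 / 2 : ℝ) ^ n * f.leadingCoeff ≤ sq10_s n j * B * f.leadingCoeff :=
      mul_le_mul_of_nonneg_right h2 hq.le
    have h7 : (0 : ℝ) < (1 / 2) ^ (n + 1) * f.leadingCoeff := by positivity
    have h8 : (1 / 2 : ℝ) ^ n * f.leadingCoeff = 2 * ((1 / 2) ^ (n + 1) * f.leadingCoeff) := by
      rw [pow_succ]
      ring
    nlinarith
  have hcont : Continuous fun x : ℝ => F.eval x := F.continuous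
  have hroot : ∀ j : Fin n, ∃ x : ℝ, ((j : ℕ) : ℝ) + 1 / 2 < x ∧ x < ((j : ℕ) : ℝ) + 1 + 1 / 2 ∧
      F.eval x = 0 := by
    intro j
    have h1 := hsign j j.2.le
    have h2 := hsign (j + 1) j.2
    have h3 := sq10_s_mul n j j.2
    push_cast at h2
    have h4 : F.eval (((j : ℕ) : ℝ) + 1 / 2) * F.eval (((j : ℕ) : ℝ) + 1 + 1 / 2) < 0 := by
      have h5 := mul_pos h1 h2
      have h6 : sq10_s n j * F.eval (((j : ℕ) : ℝ) + 1 / 2) *
          (sq10_s n (j + 1) * F.eval (((j : ℕ) : ℝ) + 1 + 1 / 2)) =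
          (sq10_s n j * sq10_s n (j + 1)) *
            (F.eval (((j : ℕ) : ℝ) + 1 / 2) * F.eval (((j : ℕ) : ℝ) + 1 + 1 / 2)) := by ring
      rw [h6, h3] at h5
      linarith
    have hab : ((j : ℕ) : ℝ) + 1 / 2 ≤ ((j : ℕ) : ℝ) + 1 + 1 / 2 := by linarith
    rcases mul_neg_iff.mp h4 with ⟨h5, h6⟩ | ⟨h5, h6⟩
    · obtain ⟨x, hx, hx0⟩ := intermediate_value_Ioo' hab hcont.continuousOn ⟨h6, h5⟩
      exact ⟨x, hx.1, hx.2, hx0⟩
    · obtain ⟨x, hx, hx0⟩ := intermediate_value_Ioo hab hcont.continuousOn ⟨h5, h6⟩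
      exact ⟨x, hx.1, hx.2, hx0⟩
  choose θ hθ1 hθ2 hθ3 using hroot
  have hmono : StrictMono θ := by
    intro i j hij
    have h1 : ((i : ℕ) : ℝ) + 1 ≤ ((j : ℕ) : ℝ) := by exact_mod_cast hij
    have h2 := hθ2 i
    have h3 := hθ1 j
    linarith
  refine ⟨θ, hmono, fun k => ⟨?_, ?_⟩, ?_⟩
  · have h1 := hθ1 k
    have h2 : (0 : ℝ) ≤ ((k : ℕ) : ℝ) := Nat.cast_nonneg _
    linarith
  · have h1 := hθ2 k
    have h2 : ((k : ℕ) : ℝ) + 1 ≤ n := by exact_mod_cast k.2
    linarith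
  · have hinj : Function.Injective (Int.castRingHom ℝ) := Int.cast_injective
    have hFdeg : F.natDegree = n := by rw [hF, natDegree_map_eq_of_injective hinj, hf]
    have hFlc : F.leadingCoeff = (f.leadingCoeff : ℝ) := by
      rw [hF, leadingCoeff_map_of_injective hinj]
      simp
    have hF0 : F ≠ 0 := by
      intro h0
      rw [h0, leadingCoeff_zero] at hFlc
      linarith
    have hdvd : ∏ k, (X - C (θ k)) ∣ F := by
      have h1 := (Multiset.prod_X_sub_C_dvd_iff_le_roots hF0 (Finset.univ.val.map θ)).mpr ?_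
      · rw [Multiset.map_map] at h1
        exact h1
      · rw [Multiset.le_iff_subset (Multiset.Nodup.map hmono.injective Finset.univ.nodup)]
        intro x hx
        rw [Multiset.mem_map] at hx
        obtain ⟨k, -, rfl⟩ := hx
        rw [mem_roots hF0]
        exact hθ3 k
    obtain ⟨Q, hQ⟩ := hdvd
    have hP : (∏ k, (X - C (θ k)) : ℝ[X]).Monic := monic_prod_of_monic _ _ fun k _ => monic_X_sub_C _
    have hPdeg : (∏ k, (X - C (θ k)) : ℝ[X]).natDegree = n := by
      rw [natDegree_prod_of_monic _ _ (fun k _ => monic_X_sub_C _)]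
      simp
    have hQ0 : Q ≠ 0 := by
      rintro rfl
      rw [mul_zero] at hQ
      exact hF0 hQ
    have hQdeg : Q.natDegree = 0 := by
      have h1 := congrArg natDegree hQ
      rw [hP.natDegree_mul' hQ0, hFdeg, hPdeg] at h1
      omega
    have hQlc : Q.leadingCoeff = (f.leadingCoeff : ℝ) := by
      rw [← hFlc, hQ, leadingCoeff_mul, hP.leadingCoeff, one_mul]
    rw [hQ, mul_comm, eq_C_of_natDegree_eq_zero hQdeg]
    congr 2
    rw [← hQlc, leadingCoeff, hQdeg]

end Pool.Agent.H92.SQ
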