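import Pool.Agent.H92.SQ.Defs

/-!
# Project SQ (MP_a3214d), SQ-11: members of the family are primitive; equality from a common root
-/

set_option autoImplicit false

open Polynomial IsDedekindDomain NumberField Pool.Agent.H35.AN

namespace Pool.Agent.H92.SQ

theorem mem_primitive {n M : ℕ} {s : ℤ[X]} {δ : ℝ} {H : ℕ} {f : ℤ[X]} (hn : 2 ≤ n) (hδ : δ < 1)
    (hf : Mem n M s δ H f) (hirr : Irreducible (FQ f)) : f.IsPrimitive := by
  rw [isPrimitive_iff_content_eq_one]
  obtain ⟨q, hq⟩ : ∃ q : ℕ, f.leadingCoeff = q := ⟨_, (Int.toNat_of_nonneg hf.pos.le).symm⟩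
  have hqp : q.Prime := by
    have := hf.prime
    rwa [hq, Int.toNat_natCast] at this
  have hcd : f.content ∣ (q : ℤ) := hq ▸ f.content_dvd_coeff _
  have hn1 : normalize f.content = f.content := normalize_content
  have habs : (f.content.natAbs : ℤ) = f.content := by
    rw [← Int.abs_eq_natAbs]
    rw [Int.abs_eq_normalize, hn1]
  have hnat : f.content.natAbs ∣ q := by
    rw [← Int.natCast_dvd_natCast, habs]
    exact hcd
  rcases (Nat.dvd_prime hqp).1 hnat with h1 | h1
  · rw [← habs, h1, Nat.cast_one]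
  · exfalso
    have hc : f.content = q := by rw [← habs, h1]
    have hco : ∀ i, f.coeff i = q * (base n).coeff i := by
      intro i
      obtain ⟨c, hc'⟩ : (q : ℤ) ∣ f.coeff i := hc ▸ f.content_dvd_coeff i
      have h2 := hf.close i
      rw [hq, hc'] at h2
      have hq0 : (0 : ℝ) < q := by exact_mod_cast hqp.pos
      push_cast at h2
      rw [← mul_sub, abs_mul, abs_of_pos hq0, mul_comm δ] at h2
      have h3 : |(c : ℝ) - (base n).coeff i| ≤ δ := le_of_mul_le_mul_left h2 hq0
      have h4 : |c - (base n).coeff i| < 1 := by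
        have : (|(c : ℝ) - (base n).coeff i|) < 1 := lt_of_le_of_lt h3 hδ
        exact_mod_cast this
      have h5 : c - (base n).coeff i = 0 := Int.abs_lt_one_iff.1 h4
      rw [hc', sub_eq_zero.1 h5]
    have hfe : f = C (q : ℤ) * base n := by
      ext i
      rw [hco, coeff_C_mul]
    have hroot : (FQ f).IsRoot 1 := by
      have he : f.eval 1 = 0 := by
        rw [hfe, eval_mul, base, eval_prod, Finset.prod_eq_zero (i := 0)]
        · rw [mul_zero]
        · rw [Finset.mem_range]; omega
        · simp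
      rw [IsRoot, FQ]
      have := eval_intCast_map (Int.castRingHom ℚ) f 1
      rw [Int.cast_one, Int.cast_one, he, map_zero] at this
      exact this
    have hdeg := degree_eq_one_of_irreducible_of_root hirr hroot
    have hdeg2 : (FQ f).natDegree = n := by
      rw [FQ, natDegree_map_eq_of_injective (RingHom.injective_int _), hf.deg]
    have h6 : (FQ f).natDegree = 1 := natDegree_eq_of_degree_eq_some hdeg
    rw [hdeg2] at h6
    omega

theorem eq_of_root {f g : ℤ[X]} (hfi : Irreducible (FQ f)) (hgi : Irreducible (FQ g))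
    (hfp : f.IsPrimitive) (hgp : g.IsPrimitive) (hf0 : 0 < f.leadingCoeff)
    (hg0 : 0 < g.leadingCoeff) {L : Type*} [Field L] [CharZero L] {x : L} (hx : aeval x f = 0)
    (hy : aeval x g = 0) : f = g := by
  have hinj : Function.Injective (Int.castRingHom ℚ) := RingHom.injective_int _
  have hx' : aeval x (FQ f) = 0 := by
    have := aeval_map_algebraMap ℚ x f
    rw [hx] at this
    exact this
  have hy' : aeval x (FQ g) = 0 := by
    have := aeval_map_algebraMap ℚ x g
    rw [hy] at this
    exact this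
  have h1 := minpoly.eq_of_irreducible hfi hx'
  have h2 := minpoly.eq_of_irreducible hgi hy'
  have hlf : (FQ f).leadingCoeff = (f.leadingCoeff : ℚ) := leadingCoeff_map_of_injective hinj f
  have hlg : (FQ g).leadingCoeff = (g.leadingCoeff : ℚ) := leadingCoeff_map_of_injective hinj g
  have hf0' : (f.leadingCoeff : ℚ) ≠ 0 := by exact_mod_cast hf0.ne'
  have hg0' : (g.leadingCoeff : ℚ) ≠ 0 := by exact_mod_cast hg0.ne'
  rw [hlf] at h1
  rw [hlg] at h2
  have h3 : FQ f * C (f.leadingCoeff : ℚ)⁻¹ = FQ g * C (g.leadingCoeff : ℚ)⁻¹ := h1.trans h2.symm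
  have h4 : C (g.leadingCoeff : ℚ) * FQ f = C (f.leadingCoeff : ℚ) * FQ g := by
    have e1 : C (g.leadingCoeff : ℚ) * FQ f
        = C (g.leadingCoeff : ℚ) * C (f.leadingCoeff : ℚ) * (FQ f * C (f.leadingCoeff : ℚ)⁻¹) := by
      have : C (f.leadingCoeff : ℚ) * C (f.leadingCoeff : ℚ)⁻¹ = 1 := by
        rw [← C_mul, mul_inv_cancel₀ hf0', C_1]
      linear_combination (-(C (g.leadingCoeff : ℚ) * FQ f)) * this
    have e2 : C (f.leadingCoeff : ℚ) * FQ g
        = C (g.leadingCoeff : ℚ) * C (f.leadingCoeff : ℚ) * (FQ g * C (g.leadingCoeff : ℚ)⁻¹) := by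
      have : C (g.leadingCoeff : ℚ) * C (g.leadingCoeff : ℚ)⁻¹ = 1 := by
        rw [← C_mul, mul_inv_cancel₀ hg0', C_1]
      linear_combination (-(C (f.leadingCoeff : ℚ) * FQ g)) * this
    rw [e1, e2, h3]
  have h5 : C g.leadingCoeff * f = C f.leadingCoeff * g := by
    apply map_injective _ hinj
    rw [Polynomial.map_mul, Polynomial.map_mul, map_C, map_C]
    exact h4
  have h6 := congrArg content h5
  rw [content_C_mul, content_C_mul, hfp.content_eq_one, hgp.content_eq_one, mul_one, mul_one,
    ← Int.abs_eq_normalize, ← Int.abs_eq_normalize, abs_of_pos hf0, abs_of_pos hg0] at h6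
  rw [h6] at h5
  exact mul_left_cancel₀ (C_ne_zero.2 hf0.ne') h5

end Pool.Agent.H92.SQ
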