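import Pool.Agent.H35.AN.Basic
import Pool.Agent.H92.SQ.Trans
import Pool.Agent.H92.SQ.Group
import Pool.Agent.H92.SQ.Disc
import Pool.Agent.H92.SQ.Real
import Pool.Agent.H92.SQ.Uniq
import Pool.Agent.H92.SQ.Pair

/-!
Project SQ, row SQ-32: everything about one member of the family.
-/

set_option autoImplicit false

open Polynomial IsDedekindDomain NumberField Pool.Agent.H35.AN

namespace Pool.Agent.H92.SQ

/-- the coefficients of `base n` are bounded -/
theorem sq32_base (n : ℕ) : ∃ B : ℝ, 0 ≤ B ∧ ∀ i, |((base n).coeff i : ℝ)| ≤ B := by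
  refine ⟨∑ i ∈ Finset.range ((base n).natDegree + 1), |((base n).coeff i : ℝ)|,
    Finset.sum_nonneg fun i _ => abs_nonneg _, fun i => ?_⟩
  by_cases hi : i ∈ Finset.range ((base n).natDegree + 1)
  · exact Finset.single_le_sum (f := fun i => |((base n).coeff i : ℝ)|)
      (fun i _ => abs_nonneg _) hi
  · have h1 : (base n).coeff i = 0 := by
      apply coeff_eq_zero_of_natDegree_lt
      rw [Finset.mem_range] at hi
      omega
    rw [h1]
    simp only [Int.cast_zero, abs_zero]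
    exact Finset.sum_nonneg fun i _ => abs_nonneg _

/-- the size of the coefficients -/
theorem sq32_coeff {n M : ℕ} {s : ℤ[X]} {δ : ℝ} {H : ℕ} {f : ℤ[X]} (hδ1 : δ ≤ 1)
    (hf : Mem n M s δ H f) {B : ℝ} (hB : ∀ i, |((base n).coeff i : ℝ)| ≤ B) (i : ℕ) :
    |(f.coeff i : ℝ)| ≤ 8 * (B + 1) * H := by
  have hq : (0 : ℝ) < f.leadingCoeff := by exact_mod_cast hf.pos
  have hq2 : (f.leadingCoeff : ℝ) ≤ 8 * H := by exact_mod_cast hf.up
  have hB0 : 0 ≤ B := (abs_nonneg _).trans (hB 0)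
  have h1 := hf.close i
  have h2 : |(f.coeff i : ℝ)| ≤ |(f.coeff i : ℝ) - f.leadingCoeff * (base n).coeff i| +
      |(f.leadingCoeff : ℝ) * (base n).coeff i| := by
    have := abs_add_le ((f.coeff i : ℝ) - f.leadingCoeff * (base n).coeff i)
      ((f.leadingCoeff : ℝ) * (base n).coeff i)
    simpa using this
  have h3 : |(f.leadingCoeff : ℝ) * (base n).coeff i| ≤ f.leadingCoeff * B := by
    rw [abs_mul, abs_of_pos hq]
    exact mul_le_mul_of_nonneg_left (hB i) hq.le
  have h4 : δ * f.leadingCoeff ≤ f.leadingCoeff := by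
    nlinarith
  have h5 : (f.leadingCoeff : ℝ) * (B + 1) ≤ 8 * H * (B + 1) :=
    mul_le_mul_of_nonneg_right hq2 (by linarith)
  nlinarith

theorem sq32_aeval {L : Type*} [Field L] [Algebra ℚ L] [Algebra ℤ L] (f : ℤ[X]) (x : L) :
    aeval x (FQ f) = aeval x f := by
  unfold FQ
  rw [aeval_def, aeval_def, eval₂_map]
  congr 1
  exact RingHom.ext_int _ _

theorem sq32_eval {L : Type*} [Field L] [Algebra ℚ L] [Algebra ℤ L] (f : ℤ[X]) (x : L) :
    ((FQ f).map (algebraMap ℚ L)).eval x = aeval x f := by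
  rw [eval_map_algebraMap, sq32_aeval]

theorem sq32_natDegree (f : ℤ[X]) : (FQ f).natDegree = f.natDegree :=
  natDegree_map_eq_of_injective (RingHom.injective_int (Int.castRingHom ℚ)) f

theorem mem_real (n : ℕ) (hn : 2 ≤ n) : ∃ δ : ℝ, 0 < δ ∧ δ < 1 ∧ ∀ (M : ℕ) (s : ℤ[X]) (H : ℕ)
    (f : ℤ[X]), Mem n M s δ H f → RealRoots n f ∧ ∃ α : ℝ, aeval α f = 0 := by
  obtain ⟨δ, hδ, h⟩ := real_roots n (by omega)
  refine ⟨min δ (1 / 2), lt_min hδ (by norm_num),
    lt_of_le_of_lt (min_le_right _ _) (by norm_num), fun M s H f hf => ?_⟩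
  have hq : (0 : ℝ) < f.leadingCoeff := by exact_mod_cast hf.pos
  obtain ⟨θ, -, hθ, hfac⟩ := h f hf.deg hf.pos fun i =>
    (hf.close i).trans (mul_le_mul_of_nonneg_right (min_le_left _ _) hq.le)
  constructor
  · intro z hz
    have h1 : f.map (Int.castRingHom ℂ) =
        C ((f.leadingCoeff : ℝ) : ℂ) * ∏ k, (X - C ((θ k : ℝ) : ℂ)) := by
      have h2 : f.map (Int.castRingHom ℂ) = (f.map (Int.castRingHom ℝ)).map Complex.ofRealHom := by
        rw [map_map]
        congr 1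
      rw [h2, hfac, Polynomial.map_mul, map_C, Polynomial.map_prod]
      simp
    have h3 : (f.map (Int.castRingHom ℂ)).eval z = 0 := by
      rw [eval_map, ← hz, aeval_def]
      rfl
    rw [h1, eval_mul, eval_C, eval_prod, mul_eq_zero] at h3
    rcases h3 with h3 | h3
    · exfalso
      rw [Complex.ofReal_eq_zero] at h3
      exact hq.ne' h3
    · obtain ⟨k, -, hk⟩ := Finset.prod_eq_zero_iff.1 h3
      rw [eval_sub, eval_X, eval_C, sub_eq_zero] at hk
      exact ⟨θ k, by rw [abs_of_pos (hθ k).1]; exact (hθ k).2.le, hk⟩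
  · refine ⟨θ ⟨0, by omega⟩, ?_⟩
    have h3 : (f.map (Int.castRingHom ℝ)).eval (θ ⟨0, by omega⟩) = 0 := by
      rw [hfac, eval_mul, eval_prod, Finset.prod_eq_zero (Finset.mem_univ ⟨0, by omega⟩)]
      · rw [mul_zero]
      · simp
    rw [eval_map] at h3
    rw [aeval_def]
    exact h3

/-- everything about one member of the family -/
theorem mem_field (n : ℕ) (hn : 3 ≤ n) : ∃ (M : ℕ) (s : ℤ[X]) (δ C : ℝ), 0 < M ∧
    s.natDegree = n ∧ s.coeff n = 1 ∧ 0 < δ ∧ 0 < C ∧ ∀ (H : ℕ) (f : ℤ[X]), M ≤ H →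
      Mem n M s δ H f → Irreducible (FQ f) ∧ f.IsPrimitive ∧ RealRoots n f ∧
      (∃ α : ℝ, aeval α f = 0) ∧
      (∀ m r : ℤ, 0 < m → m ^ 2 ∣ f.eval r → m ∣ f.derivative.eval r →
        (m : ℝ) ^ 2 ≤ C * (H : ℝ) ^ (2 * n - 2)) ∧
      ∃ x : AlgebraicClosure ℚ, aeval x f = 0 ∧
        IsSymField n (IntermediateField.adjoin ℚ {x}) ∧
        ∃ _ : NumberField (IntermediateField.adjoin ℚ {x}), ∀ (p : ℕ) (r : ℤ), 0 < p →
          Planted f p r → |(NumberField.discr (IntermediateField.adjoin ℚ {x}) : ℝ)| *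
            (p : ℝ) ^ 2 ≤ C * (H : ℝ) ^ (2 * n - 2) := by
  obtain ⟨M, s, hM, hs, hs1, hgrp⟩ := group_key n hn
  obtain ⟨δ, hδ, hδ1, hreal⟩ := mem_real n (by omega)
  obtain ⟨C, hC, hdisc⟩ := disc_bound n (by omega)
  obtain ⟨B, hB0, hB⟩ := sq32_base n
  refine ⟨M, s, δ, C * (8 * (B + 1)) ^ (2 * n - 2), hM, hs, hs1, hδ, by positivity, ?_⟩
  intro H f hMH hf
  have hH : 0 < H := lt_of_lt_of_le hM hMH
  have hcop : IsCoprime f.leadingCoeff (M : ℤ) := by
    have h1 : ((f.leadingCoeff.toNat : ℕ) : ℤ) = f.leadingCoeff := Int.toNat_of_nonneg hf.pos.le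
    rw [← h1, Nat.isCoprime_iff_coprime, hf.prime.coprime_iff_not_dvd]
    intro h2
    have h3 := Nat.le_of_dvd hM h2
    have h4 := hf.low
    have h5 : (f.leadingCoeff.toNat : ℤ) ≤ M := by exact_mod_cast h3
    have h6 : (M : ℤ) ≤ H := by exact_mod_cast hMH
    omega
  obtain ⟨hirr, hgal⟩ := hgrp f f.leadingCoeff hf.deg hcop hf.cong
  obtain ⟨hRR, hα⟩ := hreal M s H f hf
  have hlc : (FQ f).leadingCoeff ≠ 0 := leadingCoeff_ne_zero.2 hirr.ne_zero
  obtain ⟨R⟩ : Nonempty (Roots ℚ (AlgebraicClosure ℚ) n (FQ f)) := by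
    refine an8_roots (by rw [sq32_natDegree, hf.deg]) hlc fun x hx hx' => ?_
    have hsep : (FQ f).Separable := hirr.separable
    obtain ⟨a, b, hab⟩ := hsep
    have h1 := congrArg (fun P : ℚ[X] => (P.map (algebraMap ℚ (AlgebraicClosure ℚ))).eval x) hab
    simp only [Polynomial.map_add, Polynomial.map_mul, eval_add, eval_mul, hx, hx', mul_zero,
      add_zero, Polynomial.map_one, eval_one] at h1
    exact zero_ne_one h1
  set x : AlgebraicClosure ℚ := R.θ ⟨0, by omega⟩ with hx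
  have hx0 : aeval x f = 0 := by
    rw [← sq32_eval]
    exact R.eval_root _
  have hsym : IsSymField n (IntermediateField.adjoin ℚ {x}) :=
    transport_sym (by omega) R (fun L _ _ _ _ R' hR' => hgal L R' hR') ⟨0, by omega⟩
  have hfin : Module.finrank ℚ (IntermediateField.adjoin ℚ {x}) = n := hsym.1
  have : FiniteDimensional ℚ (IntermediateField.adjoin ℚ {x}) :=
    FiniteDimensional.of_finrank_pos (by omega)
  have hnf : NumberField (IntermediateField.adjoin ℚ {x}) := ⟨⟩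
  have key : ∀ m r : ℤ, 0 < m → m ^ 2 ∣ f.eval r → m ∣ f.derivative.eval r →
      |(NumberField.discr (IntermediateField.adjoin ℚ {x}) : ℝ)| * (m : ℝ) ^ 2 ≤
        C * (8 * (B + 1)) ^ (2 * n - 2) * (H : ℝ) ^ (2 * n - 2) := by
    intro m r hm h1 h2
    have h3 : aeval (IntermediateField.AdjoinSimple.gen ℚ x) f = 0 := by
      apply (algebraMap (IntermediateField.adjoin ℚ {x}) (AlgebraicClosure ℚ)).injective
      rw [map_zero, ← hx0]
      conv_rhs => rw [← IntermediateField.AdjoinSimple.algebraMap_gen ℚ x]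
      rw [aeval_def, aeval_def, hom_eval₂]
      congr 1
    have hH1 : (1 : ℝ) ≤ 8 * (B + 1) * H := by
      have : (1 : ℝ) ≤ H := by exact_mod_cast hH
      nlinarith
    have h4 := hdisc (IntermediateField.adjoin ℚ {x}) f (IntermediateField.AdjoinSimple.gen ℚ x)
      (8 * (B + 1) * H) m r hf.deg hfin hirr h3 hH1 (sq32_coeff hδ1.le hf hB) (fun φ => ?_)
      hm h1 h2
    · rwa [mul_pow, ← mul_assoc] at h4
    · obtain ⟨ξ, hξ, hξ2⟩ := hRR (φ (IntermediateField.AdjoinSimple.gen ℚ x)) (by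
        have h5 := congrArg φ h3
        rw [map_zero, aeval_def, hom_eval₂] at h5
        rw [aeval_def, ← h5]
        congr 1
        exact RingHom.ext_int _ _)
      rw [hξ2, Complex.norm_real]
      exact hξ
  refine ⟨hirr, mem_primitive (by omega) hδ1 hf hirr, hRR, hα, ?_, x, hx0, hsym, hnf, ?_⟩
  · intro m r hm h1 h2
    have h3 := key m r hm h1 h2
    have h4 : (1 : ℝ) ≤ |(NumberField.discr (IntermediateField.adjoin ℚ {x}) : ℝ)| := by
      exact_mod_cast Int.one_le_abs (NumberField.discr_ne_zero (IntermediateField.adjoin ℚ {x}))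
    have h5 : (0 : ℝ) ≤ (m : ℝ) ^ 2 := by positivity
    nlinarith
  · intro p r hp hpl
    have h3 := key (p : ℤ) r (by exact_mod_cast hp) hpl.1 hpl.2
    simpa using h3

end Pool.Agent.H92.SQ
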