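import Pool.Agent.H35.AN.Count
import Pool.Agent.H92.SQ.Fam
import Pool.Agent.H92.SQ.Field
import Pool.Agent.H92.SQ.FewP
import Pool.Agent.H92.SQ.Large
import Pool.Agent.H92.SQ.Pair
import Pool.Agent.H92.SQ.Uniq

/-!
# SQ-33: the final count of fields
-/

set_option autoImplicit false

open Polynomial IsDedekindDomain NumberField Pool.Agent.H35.AN

namespace Pool.Agent.H92.SQ

/-- an isomorphism of the fields gives `Iso` -/
theorem sq33_iso {n : ℕ} {f g : ℤ[X]} {x y : AlgebraicClosure ℚ} (hx : aeval x f = 0)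
    (hy : aeval y g = 0) (hn : Module.finrank ℚ (IntermediateField.adjoin ℚ {x}) = n)
    (hnf : NumberField (IntermediateField.adjoin ℚ {x}))
    (e : IntermediateField.adjoin ℚ {y} ≃ₐ[ℚ] IntermediateField.adjoin ℚ {x}) : Iso n f g := by
  refine ⟨IntermediateField.adjoin ℚ {x}, inferInstance, hnf,
    ⟨x, IntermediateField.mem_adjoin_simple_self ℚ x⟩,
    e ⟨y, IntermediateField.mem_adjoin_simple_self ℚ y⟩, ?_, ?_, ?_⟩
  · rw [← hn]
  · exact (aeval_algebraMap_eq_zero_iff (AlgebraicClosure ℚ)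
      (⟨x, IntermediateField.mem_adjoin_simple_self ℚ x⟩ : IntermediateField.adjoin ℚ {x}) f).1 hx
  · have h1 : aeval (⟨y, IntermediateField.mem_adjoin_simple_self ℚ y⟩ :
        IntermediateField.adjoin ℚ {y}) g = 0 :=
      (aeval_algebraMap_eq_zero_iff (AlgebraicClosure ℚ)
        (⟨y, IntermediateField.mem_adjoin_simple_self ℚ y⟩ : IntermediateField.adjoin ℚ {y}) g).1 hy
    have h2 := congrArg (e : IntermediateField.adjoin ℚ {y} →+* IntermediateField.adjoin ℚ {x}) h1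
    rw [aeval_def, hom_eval₂, map_zero] at h2
    rw [aeval_def]
    convert h2 using 2
    · exact Subsingleton.elim _ _
    · rfl

theorem sq33_class (n : ℕ) (T : Finset ℤ[X]) (N : ℕ) (B : ℝ)
    (hT : ∀ f ∈ T, ∃ x : AlgebraicClosure ℚ, aeval x f = 0 ∧
      IsSymField n (IntermediateField.adjoin ℚ {x}) ∧
      ∃ _ : NumberField (IntermediateField.adjoin ℚ {x}),
        |(NumberField.discr (IntermediateField.adjoin ℚ {x}) : ℝ)| ≤ B)
    (hN : ∀ f ∈ T, ∀ S ⊆ T, (∀ g ∈ S, Iso n f g) → S.card ≤ N) :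
    T.card ≤ N * malleCount ℚ n ⊤ B := by
  classical
  choose! x hx hsym hnf hdisc using hT
  have hX : ∀ f (hf : f ∈ T), Module.finrank ℚ (IntermediateField.adjoin ℚ {x f}) = n ∧
      (∃ e : ((IntermediateField.adjoin ℚ {x f}) →ₐ[ℚ] AlgebraicClosure ℚ) ≃ Fin n,
        ∀ π : Equiv.Perm (Fin n),
        π ∈ (⊤ : Subgroup (Equiv.Perm (Fin n))) ↔
          ∃ σ : AlgebraicClosure ℚ ≃ₐ[ℚ] AlgebraicClosure ℚ,
          ∀ φ : (IntermediateField.adjoin ℚ {x f}) →ₐ[ℚ] AlgebraicClosure ℚ,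
            e (σ.toAlgHom.comp φ) = π (e φ)) ∧
      ∃ h : NumberField (IntermediateField.adjoin ℚ {x f}),
        ((|@NumberField.discr (IntermediateField.adjoin ℚ {x f}) _ h| : ℤ) : ℝ) ≤
          B * ((|NumberField.discr ℚ| : ℤ) : ℝ) ^ n := by
    intro f hf
    obtain ⟨h1, e, he⟩ := hsym f hf
    refine ⟨h1, ⟨e, fun π => ⟨fun _ => he π, fun _ => Subgroup.mem_top π⟩⟩, hnf f hf, ?_⟩
    rw [Rat.numberField_discr]
    have := hdisc f hf
    push_cast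
    simpa using this
  let F : {f // f ∈ T} → an35_X ℚ n ⊤ B := fun f => ⟨IntermediateField.adjoin ℚ {x f.1}, hX f.1 f.2⟩
  have hfin := an35_finite ℚ n ⊤ B
  have hr : Equivalence (fun L L' : an35_X ℚ n ⊤ B => Nonempty (L.1 ≃ₐ[ℚ] L'.1)) :=
    ⟨fun L => ⟨AlgEquiv.refl⟩, fun ⟨e⟩ => ⟨e.symm⟩, fun ⟨e⟩ ⟨f⟩ => ⟨e.trans f⟩⟩
  have key := an35_fibres (fun L L' : an35_X ℚ n ⊤ B => Nonempty (L.1 ≃ₐ[ℚ] L'.1)) hr T.attach F N ?_
  · rw [Finset.card_attach] at key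
    exact key
  · intro f₀ _ S' _ hS'
    have h1 : (S'.image Subtype.val).card = S'.card :=
      Finset.card_image_of_injective _ Subtype.val_injective
    rw [← h1]
    apply hN f₀.1 f₀.2
    · intro g hg
      obtain ⟨g', _, rfl⟩ := Finset.mem_image.1 hg
      exact g'.2
    · intro g hg
      obtain ⟨g', hg', rfl⟩ := Finset.mem_image.1 hg
      obtain ⟨e⟩ := hS' g' hg'
      exact sq33_iso (hx f₀.1 f₀.2) (hx g'.1 g'.2) (hsym f₀.1 f₀.2).1 (hnf f₀.1 f₀.2) e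

/-- the multiplicity of a field in a family without exceptional members -/
theorem sq33_mult {n M : ℕ} {s : ℤ[X]} {δ : ℝ} {H C h : ℕ} (hn : 6 ≤ n) {S : Finset ℝ}
    (hS : ∀ x y : ℝ, Large n C h x y → x ∈ S) {T : Finset ℤ[X]}
    (hT : ∀ f ∈ T, Mem n M s δ H f ∧ Irreducible (FQ f) ∧ f.IsPrimitive ∧ RealRoots n f ∧
      (∃ α : ℝ, aeval α f = 0) ∧ ∀ α ∈ S, aeval α f ≠ 0)
    (hpair : ∀ f g : ℤ[X], f ∈ T → g ∈ T → Iso n f g →
      (∀ α : ℝ, aeval α f = 0 → ∃ β : ℝ, aeval β g = 0 ∧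
        ∃ F : ℤ[X][X], Small 5 5 (C * h) F ∧ bev α β F = 0) ∨
      (∃ α β : ℝ, aeval α f = 0 ∧ Large n C h α β) ∨
      (∃ α β : ℝ, aeval α g = 0 ∧ Large n C h α β)) (f : ℤ[X]) (hf : f ∈ T) (T' : Finset ℤ[X])
    (hT' : T' ⊆ T) (hiso : ∀ g ∈ T', Iso n f g) : T'.card ≤ 5 * (2 * (C * h) + 1) ^ 36 := by
  classical
  obtain ⟨hm, hirr, hprim, hreal, ⟨α, hα⟩, hex⟩ := hT f hf
  have h1 : ∀ g ∈ T', ∃ β : ℝ, aeval β g = 0 ∧
      ∃ F : ℤ[X][X], Small 5 5 (C * h) F ∧ bev α β F = 0 := by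
    intro g hg
    rcases hpair f g hf (hT' hg) (hiso g hg) with h | ⟨a, b, ha, hL⟩ | ⟨a, b, ha, hL⟩
    · exact h α hα
    · exact absurd ha (hex a (hS a b hL))
    · exact absurd ha ((hT g (hT' hg)).2.2.2.2.2 a (hS a b hL))
  choose! β hβ1 hβ2 using h1
  have h2 : (T'.image β).card = T'.card := by
    apply Finset.card_image_of_injOn
    intro g hg g' hg' hgg
    have a1 := hT g (hT' hg)
    have a2 := hT g' (hT' hg')
    have b1 := hβ1 g hg
    have b2 := hβ1 g' hg'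
    rw [← hgg] at b2
    exact eq_of_root a1.2.1 a2.2.1 a1.2.2.1 a2.2.2.1 a1.1.pos a2.1.pos b1 b2
  rw [← h2]
  apply partners (C * h) n hn f hm.deg hirr α hα
  intro b hb
  obtain ⟨g, hg, rfl⟩ := Finset.mem_image.1 hb
  exact hβ2 g hg

theorem sq33_exc {n M : ℕ} {s : ℤ[X]} {δ : ℝ} {H : ℕ} (S : Finset ℝ) (T : Finset ℤ[X])
    (hT : ∀ f ∈ T, Mem n M s δ H f ∧ Irreducible (FQ f) ∧ f.IsPrimitive)
    (hex : ∀ f ∈ T, ∃ α ∈ S, aeval α f = 0) : T.card ≤ S.card := by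
  classical
  choose! α hα1 hα2 using hex
  apply Finset.card_le_card_of_injOn α
  · intro f hf
    exact hα1 f hf
  · intro g hg g' hg' hgg
    have a1 := hT g hg
    have a2 := hT g' hg'
    have b1 := hα2 g hg
    have b2 := hα2 g' hg'
    rw [← hgg] at b2
    exact eq_of_root a1.2.1 a2.2.1 a1.2.2 a2.2.2 a1.1.pos a2.1.pos b1 b2

theorem field_count (n : ℕ) (hn : 40000 ≤ n) : ∃ c C : ℝ, 0 < c ∧ 0 < C ∧ ∃ h0 : ℕ, ∀ h ≥ h0,
    c * (h : ℝ) ^ (500 * (n + 1 - n / 5) - 38) ≤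
      (malleCount ℚ n ⊤ (C * (h : ℝ) ^ (500 * (2 * n - 2 - 2 * (n / 5)))) : ℝ) := by
  classical
  obtain ⟨M, s, δ, Cd, hM, hs, hs1, hδ, hCd, hmem⟩ := mem_field n (by omega)
  obtain ⟨hfp0, hfp⟩ := few_primes n hn Cd
  obtain ⟨c, hc, h1, hfam⟩ := family_count n hn M s δ hM hs hs1 hδ ⟨max hfp0 (max M 1), by
    intro h hh f hf
    have e1 : hfp0 ≤ h := le_trans (le_max_left _ _) hh
    have e2 : M ≤ h := le_trans (le_trans (le_max_left _ _) (le_max_right _ _)) hh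
    have e3 : 1 ≤ h := le_trans (le_trans (le_max_right _ _) (le_max_right _ _)) hh
    apply hfp h e1
    intro m r hm h2 h3
    have e4 : M ≤ h ^ 500 := e2.trans (Nat.le_self_pow (by norm_num) h)
    refine ((hmem (h ^ 500) f e4 hf).2.2.2.2.1 m r hm h2 h3).trans ?_
    apply mul_le_mul_of_nonneg_left _ hCd.le
    rw [Nat.cast_pow, ← pow_mul]
    apply pow_le_pow_right₀ (by exact_mod_cast e3)
    apply Nat.mul_le_mul_right
    norm_num⟩
  obtain ⟨Cp, h2, hpair⟩ := pair_rel n hn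
  obtain ⟨h3, hlarge⟩ := large_card n Cp hn
  refine ⟨c / (10 * (2 * Cp + 1) ^ 36), Cd, by positivity, hCd,
    max (max h1 h2) (max h3 (max M (max 1 ⌈2 / c⌉₊))), fun h hh => ?_⟩
  have g1 : h1 ≤ h := le_trans (le_trans (le_max_left _ _) (le_max_left _ _)) hh
  have g2 : h2 ≤ h := le_trans (le_trans (le_max_right _ _) (le_max_left _ _)) hh
  have g' := le_trans (le_max_right _ _) hh
  have g3 : h3 ≤ h := le_trans (le_max_left _ _) g'
  have g4 : M ≤ h := le_trans (le_trans (le_max_left _ _) (le_max_right _ _)) g'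
  have g5 := le_trans (le_trans (le_max_right _ _) (le_max_right _ _)) g'
  have g6 : 1 ≤ h := le_trans (le_max_left _ _) g5
  have g7 : 2 / c ≤ h := le_trans (Nat.le_ceil _) (by exact_mod_cast le_trans (le_max_right _ _) g5)
  have hMH : M ≤ h ^ 500 := g4.trans (Nat.le_self_pow (by norm_num) h)
  obtain ⟨T, hT1, hT2⟩ := hfam h g1
  obtain ⟨S, hS1, hS2⟩ := hlarge h g3
  set T1 := T.filter (fun f => ∃ α ∈ S, aeval α f = 0) with hT1def
  set T2 := T.filter (fun f => ¬ ∃ α ∈ S, aeval α f = 0) with hT2def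
  have hcard : T1.card + T2.card = T.card := Finset.card_filter_add_card_filter_not _
  have hT1card : T1.card ≤ h ^ (395 * n) := by
    refine le_trans (sq33_exc (n := n) (M := M) (s := s) (δ := δ) (H := h ^ 500) S T1 ?_ ?_) hS1
    · intro f hf
      have hf' := (Finset.mem_filter.1 hf).1
      have := hmem _ f hMH (hT1 f hf').1
      exact ⟨(hT1 f hf').1, this.1, this.2.1⟩
    · intro f hf
      exact (Finset.mem_filter.1 hf).2
  have hT2mem : ∀ f ∈ T2, Mem n M s δ (h ^ 500) f ∧ Irreducible (FQ f) ∧ f.IsPrimitive ∧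
      RealRoots n f ∧ (∃ α : ℝ, aeval α f = 0) ∧ ∀ α ∈ S, aeval α f ≠ 0 := by
    intro f hf
    obtain ⟨hf1, hf2⟩ := Finset.mem_filter.1 hf
    have := hmem _ f hMH (hT1 f hf1).1
    refine ⟨(hT1 f hf1).1, this.1, this.2.1, this.2.2.1, this.2.2.2.1, fun α hα h0 => ?_⟩
    exact hf2 ⟨α, hα, h0⟩
  have hB : T2.card ≤ 5 * (2 * (Cp * h) + 1) ^ 36 *
      malleCount ℚ n ⊤ (Cd * (h : ℝ) ^ (500 * (2 * n - 2 - 2 * (n / 5)))) := by
    apply sq33_class
    · intro f hf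
      have hf1 := (Finset.mem_filter.1 hf).1
      obtain ⟨hfm, p, hp, hpP, r, hr⟩ := hT1 f hf1
      obtain ⟨-, -, -, -, -, x, hx, hsym, hnf, hdisc⟩ := hmem _ f hMH hfm
      refine ⟨x, hx, hsym, hnf, ?_⟩
      have k1 := hdisc p r hp.pos hr
      have k2 : ((h : ℝ) ^ (500 * (n / 5))) ^ 2 ≤ (p : ℝ) ^ 2 := by
        apply pow_le_pow_left₀ (by positivity)
        exact_mod_cast hpP.le
      have hh0 : (0 : ℝ) < (h : ℝ) := by exact_mod_cast g6
      have k3 : |(NumberField.discr (IntermediateField.adjoin ℚ {x}) : ℝ)| *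
          ((h : ℝ) ^ (500 * (n / 5))) ^ 2 ≤ Cd * ((h : ℝ) ^ (500 * (2 * n - 2 - 2 * (n / 5)))) *
          ((h : ℝ) ^ (500 * (n / 5))) ^ 2 := by
        refine (mul_le_mul_of_nonneg_left k2 (abs_nonneg _)).trans (k1.trans (le_of_eq ?_))
        rw [mul_assoc, Nat.cast_pow, ← pow_mul, ← pow_mul, ← pow_add]
        congr 2
        have : n / 5 ≤ n - 1 := by omega
        zify [show 2 ≤ 2 * n by omega, show 2 * (n / 5) ≤ 2 * n - 2 by omega]
        ring
      exact le_of_mul_le_mul_right k3 (by positivity)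
    · intro f hf S' hS' hiso
      refine sq33_mult (n := n) (M := M) (s := s) (δ := δ) (H := h ^ 500) (by omega) hS2 hT2mem ?_
        f hf S' hS' hiso
      intro f g hf hg hfg
      have a1 := hT2mem f hf
      have a2 := hT2mem g hg
      refine hpair h g2 f g a1.1.deg a2.1.deg a1.2.1 a2.2.1 ?_ ?_ a1.2.2.2.1 a2.2.2.2.1 hfg
      · rw [abs_of_pos a1.1.pos]
        have := a1.1.up
        push_cast at this
        exact this
      · rw [abs_of_pos a2.1.pos]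
        have := a2.1.up
        push_cast at this
        exact this
  have hh1 : (1 : ℝ) ≤ (h : ℝ) := by exact_mod_cast g6
  set E := 500 * (n + 1 - n / 5) - 38 with hE
  have hE2 : 500 * (n + 1 - n / 5) - 2 = E + 36 := by omega
  rw [hE2] at hT2
  have q1 : (T1.card : ℝ) ≤ c / 2 * (h : ℝ) ^ (E + 36) := by
    have e1 : (T1.card : ℝ) ≤ (h : ℝ) ^ (395 * n) := by exact_mod_cast hT1card
    have e2 : E + 36 = 395 * n + 1 + (E + 35 - 395 * n) := by omega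
    have e3 : (1 : ℝ) ≤ c / 2 * h := by
      rw [div_le_iff₀ hc] at g7
      linarith
    have e4 : (1 : ℝ) ≤ (h : ℝ) ^ (E + 35 - 395 * n) := one_le_pow₀ hh1
    calc (T1.card : ℝ) ≤ (h : ℝ) ^ (395 * n) := e1
      _ = (h : ℝ) ^ (395 * n) * 1 * 1 := by ring
      _ ≤ (h : ℝ) ^ (395 * n) * (c / 2 * h) * (h : ℝ) ^ (E + 35 - 395 * n) := by
        gcongr
      _ = c / 2 * (h : ℝ) ^ (E + 36) := by
        rw [e2, pow_add, pow_add, pow_one]
        ring
  have q2 : (T1.card : ℝ) + T2.card = T.card := by exact_mod_cast hcard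
  have q3 : c / 2 * (h : ℝ) ^ (E + 36) ≤ T2.card := by linarith
  have q4 : (T2.card : ℝ) ≤ 5 * (2 * (Cp * h) + 1) ^ 36 *
      malleCount ℚ n ⊤ (Cd * (h : ℝ) ^ (500 * (2 * n - 2 - 2 * (n / 5)))) := by
    exact_mod_cast hB
  set m := (malleCount ℚ n ⊤ (Cd * (h : ℝ) ^ (500 * (2 * n - 2 - 2 * (n / 5)))) : ℝ) with hm
  have hm0 : 0 ≤ m := by rw [hm]; positivity
  have q5 : (2 * ((Cp : ℝ) * h) + 1) ^ 36 ≤ (2 * Cp + 1) ^ 36 * (h : ℝ) ^ 36 := by
    rw [← mul_pow]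
    apply pow_le_pow_left₀ (by positivity)
    nlinarith
  have q6 : c / 2 * (h : ℝ) ^ (E + 36) ≤ 5 * ((2 * Cp + 1) ^ 36 * (h : ℝ) ^ 36) * m := by
    refine q3.trans (q4.trans ?_)
    gcongr
  rw [pow_add] at q6
  have hh36 : (0 : ℝ) < (h : ℝ) ^ 36 := by positivity
  have q7 : c / 2 * (h : ℝ) ^ E ≤ 5 * (2 * Cp + 1) ^ 36 * m := by
    apply le_of_mul_le_mul_right _ hh36
    calc c / 2 * (h : ℝ) ^ E * (h : ℝ) ^ 36 = c / 2 * ((h : ℝ) ^ E * (h : ℝ) ^ 36) := by ring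
      _ ≤ _ := q6
      _ = _ := by ring
  rw [div_mul_eq_mul_div, div_le_iff₀ (by positivity)]
  calc c * (h : ℝ) ^ E = 2 * (c / 2 * (h : ℝ) ^ E) := by ring
    _ ≤ 2 * (5 * (2 * Cp + 1) ^ 36 * m) := by linarith
    _ = m * (10 * (2 * Cp + 1) ^ 36) := by ring

end Pool.Agent.H92.SQ
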