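import Pool.Agent.H35.AN.Defs

/-!
# Project SQ (MP_a3214d): definitions

A lower bound for Malle's counting function `N(ℚ, S_n; B)` with an exponent larger than
`1/2 + 1/(n-1)`, for all large `n`.
-/

set_option autoImplicit false

open Polynomial

namespace Pool.Agent.H92.SQ

/-- An integer polynomial as a polynomial over `ℚ`. -/
noncomputable def FQ (f : ℤ[X]) : ℚ[X] := f.map (Int.castRingHom ℚ)

/-- `(X - 1) (X - 2) ⋯ (X - n)` -/
noncomputable def base (n : ℕ) : ℤ[X] := ∏ k ∈ Finset.range n, (X - C ((k : ℤ) + 1))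

/-- Integer polynomials of degree `n` with leading coefficient a prime `q`, `H < q ≤ 8 H`, in a
fixed class modulo `M`, and close to `q (X - 1) ⋯ (X - n)`. -/
structure Mem (n M : ℕ) (s : ℤ[X]) (δ : ℝ) (H : ℕ) (f : ℤ[X]) : Prop where
  deg : f.natDegree = n
  prime : f.leadingCoeff.toNat.Prime
  pos : 0 < f.leadingCoeff
  low : (H : ℤ) < f.leadingCoeff
  up : f.leadingCoeff ≤ 8 * H
  close : ∀ i, |(f.coeff i : ℝ) - f.leadingCoeff * (base n).coeff i| ≤ δ * f.leadingCoeff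
  cong : ∀ i, (M : ℤ) ∣ f.coeff i - f.leadingCoeff * s.coeff i

/-- `f (r) = 0` modulo `p²` and `f' (r) = 0` modulo `p`. -/
def Planted (f : ℤ[X]) (p : ℕ) (r : ℤ) : Prop :=
  (p : ℤ) ^ 2 ∣ f.eval r ∧ (p : ℤ) ∣ f.derivative.eval r

/-- The residue `r` is bad modulo `p`: some nontrivial character of `ℤ/p² × ℤ/p` has small values
`w_j = u r^j + p v j r^(j-1)` modulo `p²`, `j < n`. -/
def BadR (n W p : ℕ) (r : ℤ) : Prop :=
  ∃ u v : ℤ, ¬ ((p : ℤ) ^ 2 ∣ u ∧ (p : ℤ) ∣ v) ∧ ∀ j < n, ∃ w : ℤ,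
    (p : ℤ) ^ 2 ∣ u * r ^ j + p * v * (j * r ^ (j - 1)) - w ∧ |w| ≤ W

/-- `c` has degree less than `k` and annihilates the windows `j = 0, .., J` of the sequence `z`. -/
def Ann (z : ℕ → ℤ) (k J : ℕ) (c : ℤ[X]) : Prop :=
  c.natDegree < k ∧ ∀ j ≤ J, ∑ i ∈ Finset.range k, c.coeff i * z (j + i) = 0

/-- The Mahler measure of an integer polynomial. -/
noncomputable def MM (g : ℤ[X]) : ℝ := (g.map (Int.castRingHom ℂ)).mahlerMeasure

/-- The number of `x ∈ [0, N)^n` with `Σ x_j r^j = A` modulo `p²` and `Σ j x_j r^(j-1) = B`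
modulo `p`. -/
noncomputable def solCount (n N p : ℕ) (r A B : ℤ) : ℕ :=
  Nat.card {x : Fin n → Fin N // (p : ℤ) ^ 2 ∣ (∑ j : Fin n, ((x j : ℕ) : ℤ) * r ^ (j : ℕ)) - A ∧
    (p : ℤ) ∣ (∑ j : Fin n, ((x j : ℕ) : ℤ) * ((j : ℕ) * r ^ ((j : ℕ) - 1))) - B}

/-- Evaluation of a polynomial in two variables over `ℤ` (outer variable at `y`, inner variable
at `x`). -/
noncomputable def bev {K : Type*} [CommRing K] (x y : K) : ℤ[X][X] →+* K :=
  eval₂RingHom (eval₂RingHom (Int.castRingHom K) x) y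

/-- `G` has degree at most `D1` in the inner and `D2` in the outer variable, and coefficients of
size at most `A`. -/
structure Small (D1 D2 A : ℕ) (G : ℤ[X][X]) : Prop where
  ne : G ≠ 0
  degY : G.natDegree ≤ D2
  degX : ∀ j, (G.coeff j).natDegree ≤ D1
  ht : ∀ i j, |(G.coeff j).coeff i| ≤ A

/-- The fields `ℚ[X]/(f)` and `ℚ[X]/(g)` are isomorphic: there is a number field with a root of
`f` and a root of `g` which has degree `n`. -/
def Iso (n : ℕ) (f g : ℤ[X]) : Prop :=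
  ∃ (K : Type) (_ : Field K) (_ : NumberField K) (x y : K), Module.finrank ℚ K = n ∧
    aeval x f = 0 ∧ aeval y g = 0

/-- `M` is a field of degree `n` over `ℚ` whose Galois closure has the group `S_n`. -/
def IsSymField (n : ℕ) (M : IntermediateField ℚ (AlgebraicClosure ℚ)) : Prop :=
  Module.finrank ℚ M = n ∧
    ∃ e : (M →ₐ[ℚ] AlgebraicClosure ℚ) ≃ Fin n, ∀ π : Equiv.Perm (Fin n),
      ∃ σ : AlgebraicClosure ℚ ≃ₐ[ℚ] AlgebraicClosure ℚ,
        ∀ φ : M →ₐ[ℚ] AlgebraicClosure ℚ, e (σ.toAlgHom.comp φ) = π (e φ)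

end Pool.Agent.H92.SQ
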