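import Pool.Agent.H92.SQ.Defs

/-!
# Project SQ (MP_a3214d), SQ-2: Eisenstein polynomials, transitivity
-/

set_option autoImplicit false

open Polynomial IsDedekindDomain NumberField Pool.Agent.H35.AN

namespace Pool.Agent.H92.SQ

theorem irreducible_eis {n : ℕ} (hn : 1 ≤ n) {f : ℤ[X]} {l : ℕ} (hl : l.Prime)
    (hdeg : f.natDegree = n) (hlc : ¬ (l : ℤ) ∣ f.coeff n) (hmid : ∀ i < n, (l : ℤ) ∣ f.coeff i)
    (h0 : ¬ (l : ℤ) ^ 2 ∣ f.coeff 0) : Irreducible (FQ f) := by
  have hlZ : Prime (l : ℤ) := Nat.prime_iff_prime_int.1 hl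
  have hf : f = C f.content * f.primPart := f.eq_C_content_mul_primPart
  have hco : ∀ i, f.coeff i = f.content * f.primPart.coeff i := by
    intro i
    conv_lhs => rw [hf]
    rw [coeff_C_mul]
  have hc : ¬ (l : ℤ) ∣ f.content := by
    intro h
    exact hlc ((hco n).symm ▸ Dvd.dvd.mul_right h _)
  have hd : f.primPart.natDegree = n := by rw [natDegree_primPart, hdeg]
  have hE : f.primPart.IsEisensteinAt (Ideal.span {(l : ℤ)}) := by
    refine ⟨?_, ?_, ?_⟩
    · rw [Ideal.mem_span_singleton, leadingCoeff, hd]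
      intro h
      exact hlc ((hco n).symm ▸ Dvd.dvd.mul_left h _)
    · intro i hi
      rw [hd] at hi
      rw [Ideal.mem_span_singleton]
      have := hmid i hi
      rw [hco] at this
      exact (hlZ.dvd_or_dvd this).resolve_left hc
    · rw [Ideal.span_singleton_pow, Ideal.mem_span_singleton]
      intro h
      exact h0 ((hco 0).symm ▸ Dvd.dvd.mul_left h _)
  have hirr : Irreducible f.primPart := hE.irreducible
    ((Ideal.span_singleton_prime hlZ.ne_zero).2 hlZ) f.isPrimitive_primPart (by rw [hd]; exact hn)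
  have hirrQ := (IsPrimitive.Int.irreducible_iff_irreducible_map_cast
    f.isPrimitive_primPart).1 hirr
  have hc0 : (f.content : ℚ) ≠ 0 := by
    intro h
    apply hc
    rw [Int.cast_eq_zero] at h
    rw [h]
    exact dvd_zero _
  have hFQ : FQ f = C (f.content : ℚ) * f.primPart.map (Int.castRingHom ℚ) := by
    rw [FQ]
    conv_lhs => rw [hf]
    rw [Polynomial.map_mul, map_C]
    rfl
  rw [hFQ]
  have hu : IsUnit (C (f.content : ℚ)) := isUnit_C.2 (isUnit_iff_ne_zero.2 hc0)
  exact (irreducible_isUnit_mul hu).2 hirrQ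

theorem trans_of_irreducible {L : Type} [Field L] [NumberField L] [Algebra ℚ L] [IsGalois ℚ L]
    {n : ℕ} (hn : 1 ≤ n) {f : ℤ[X]} (hf : Irreducible (FQ f)) (R : Roots ℚ L n (FQ f)) :
    MulAction.IsPretransitive R.permHom.range (Fin n) := by
  refine ⟨fun i j => ?_⟩
  have hmin : ∀ i, minpoly ℚ (R.θ i) = FQ f * C (FQ f).leadingCoeff⁻¹ := by
    intro i
    refine (minpoly.eq_of_irreducible hf ?_).symm
    have := R.eval_root i
    rwa [eval_map_algebraMap] at this
  have hconj : IsConjRoot ℚ (R.θ j) (R.θ i) := by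
    rw [IsConjRoot, hmin, hmin]
  obtain ⟨σ, hσ⟩ := hconj.exists_algEquiv
  refine ⟨⟨R.permHom σ, ⟨σ, rfl⟩⟩, ?_⟩
  change R.permHom σ i = j
  apply R.inj
  rw [← R.permHom_spec, hσ]

end Pool.Agent.H92.SQ
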