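import Pool.Agent.H92.SQ.Defs
import Pool.Agent.H41.Rel.Count

/-!
# Project SQ, row SQ-34: monotonicity of the count, and the passage to all large `B`
-/

set_option autoImplicit false

open Polynomial Pool.Agent.H35.AN

namespace Pool.Agent.H92.SQ

theorem malle_mono (n : ℕ) : Monotone (malleCount ℚ n ⊤) :=
  fun _ _ h => Pool.Agent.H41.Rel.malleCount_mono ℚ n ⊤ h

theorem sq34_real (t s : ℝ) (ht : 1 ≤ t) (hs : 0 ≤ s) (hs4 : s ≤ 4) :
    (1 / 2 + 6 / (5 * (5 * t + s))) * (4000 * t + 1000 * s - 1000) <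
      2000 * t + 500 * s + 462 := by
  have h4 : (0 : ℝ) < 5 * (5 * t + s) := by linarith
  have h5 : (6 : ℝ) / (5 * (5 * t + s)) * (4000 * t + 1000 * s - 1000) < 962 := by
    rw [div_mul_eq_mul_div, div_lt_iff₀ h4]
    linarith
  linarith

/-- the numerical inequality between the exponents -/
theorem sq34_exponent (n : ℕ) (hn : 40000 ≤ n) :
    (1 / 2 + 6 / (5 * (n : ℝ))) * ((500 * (2 * n - 2 - 2 * (n / 5)) : ℕ) : ℝ) <
      ((500 * (n + 1 - n / 5) - 38 : ℕ) : ℝ) := by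
  obtain ⟨t, ht⟩ : ∃ t : ℕ, t = n / 5 := ⟨_, rfl⟩
  obtain ⟨s, hs, hs5⟩ : ∃ s : ℕ, n = 5 * t + s ∧ s ≤ 4 := ⟨n % 5, by omega, by omega⟩
  have ht1 : 1 ≤ t := by omega
  have h1 : 500 * (2 * n - 2 - 2 * (n / 5)) = 4000 * t + 1000 * s - 1000 := by omega
  have h2 : 500 * (n + 1 - n / 5) - 38 = 2000 * t + 500 * s + 462 := by omega
  have h3 : 1000 ≤ 4000 * t + 1000 * s := by omega
  rw [h1, h2, Nat.cast_sub h3, hs]
  push_cast
  exact sq34_real t s (by exact_mod_cast ht1) (Nat.cast_nonneg s) (by exact_mod_cast hs5)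

theorem final_rpow (n : ℕ) (hn : 40000 ≤ n) (N : ℝ → ℕ) (hmono : Monotone N) (c C : ℝ)
    (hc : 0 < c) (hC : 0 < C) (h0 : ℕ) (hN : ∀ h : ℕ, h0 ≤ h →
      c * (h : ℝ) ^ (500 * (n + 1 - n / 5) - 38) ≤
        (N (C * (h : ℝ) ^ (500 * (2 * n - 2 - 2 * (n / 5)))) : ℝ)) :
    ∀ᶠ B : ℝ in Filter.atTop, B ^ (1 / 2 + 6 / (5 * (n : ℝ))) ≤ (N B : ℝ) := by
  have hexp := sq34_exponent n hn
  have he2 : 500 * (2 * n - 2 - 2 * (n / 5)) ≠ 0 := by omega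
  generalize 500 * (n + 1 - n / 5) - 38 = e1 at *
  generalize 500 * (2 * n - 2 - 2 * (n / 5)) = e2 at *
  generalize (1 / 2 + 6 / (5 * (n : ℝ))) = θ at *
  have he2' : (0 : ℝ) < e2 := by exact_mod_cast Nat.pos_of_ne_zero he2
  have hgap : 0 < (e1 : ℝ) / e2 - θ := by
    rw [sub_pos, lt_div_iff₀ he2']
    exact hexp
  -- the constant
  obtain ⟨c1, hc1⟩ : ∃ c1 : ℝ, c1 = c * (1 / 2) ^ e1 * ((1 / C) ^ ((1 : ℝ) / e2)) ^ e1 :=
    ⟨_, rfl⟩
  have hc1pos : 0 < c1 := by rw [hc1]; positivity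
  have hx : Filter.Tendsto (fun B : ℝ => (B / C) ^ ((1 : ℝ) / e2)) Filter.atTop Filter.atTop :=
    (tendsto_rpow_atTop (by positivity)).comp (Filter.tendsto_id.atTop_div_const hC)
  filter_upwards [hx.eventually_ge_atTop ((h0 : ℝ) + 1), Filter.eventually_gt_atTop (0 : ℝ),
    (tendsto_rpow_atTop hgap).eventually_ge_atTop (1 / c1)] with B hB1 hB0 hB2
  obtain ⟨x, hxdef⟩ : ∃ x : ℝ, x = (B / C) ^ ((1 : ℝ) / e2) := ⟨_, rfl⟩
  rw [← hxdef] at hB1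
  have hx0 : 0 ≤ x := by rw [hxdef]; positivity
  have hx1 : 1 ≤ x := by
    have := Nat.cast_nonneg (α := ℝ) h0
    linarith
  obtain ⟨h, hh⟩ : ∃ h : ℕ, h = ⌊x⌋₊ := ⟨_, rfl⟩
  have hhx : (h : ℝ) ≤ x := by rw [hh]; exact Nat.floor_le hx0
  have hxh : x < h + 1 := by rw [hh]; exact Nat.lt_floor_add_one x
  have hh1 : 1 ≤ h := by
    rw [hh, Nat.one_le_floor_iff]
    exact hx1
  have hh0 : h0 ≤ h := by
    rw [hh]
    apply Nat.le_floor
    linarith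
  have hh1' : (1 : ℝ) ≤ h := by exact_mod_cast hh1
  have hhalf : x * (1 / 2) ≤ h := by linarith
  have hxpow : x ^ e2 = B / C := by
    rw [hxdef, ← Real.rpow_natCast, ← Real.rpow_mul (by positivity), one_div_mul_cancel he2'.ne',
      Real.rpow_one]
  have hCB : C * (h : ℝ) ^ e2 ≤ B := by
    calc C * (h : ℝ) ^ e2 ≤ C * x ^ e2 := by gcongr
      _ = B := by rw [hxpow]; field_simp
  have hNB : c * (h : ℝ) ^ e1 ≤ (N B : ℝ) :=
    (hN h hh0).trans (by exact_mod_cast hmono hCB)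
  refine le_trans ?_ hNB
  have hxB : x = B ^ ((1 : ℝ) / e2) * (1 / C) ^ ((1 : ℝ) / e2) := by
    rw [hxdef, div_eq_mul_one_div, Real.mul_rpow hB0.le (by positivity)]
  have hBp : (B ^ ((1 : ℝ) / e2)) ^ e1 = B ^ ((e1 : ℝ) / e2) := by
    rw [← Real.rpow_natCast, ← Real.rpow_mul hB0.le]
    congr 1
    ring
  calc B ^ θ = 1 * B ^ θ := (one_mul _).symm
    _ ≤ (c1 * B ^ ((e1 : ℝ) / e2 - θ)) * B ^ θ := by
        gcongr
        rw [div_le_iff₀ hc1pos] at hB2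
        linarith
    _ = c1 * B ^ ((e1 : ℝ) / e2) := by
        rw [mul_assoc, ← Real.rpow_add hB0, sub_add_cancel]
    _ = c * (x * (1 / 2)) ^ e1 := by
        rw [hxB, mul_pow, mul_pow, hBp, hc1]
        ring
    _ ≤ c * (h : ℝ) ^ e1 := by gcongr

end Pool.Agent.H92.SQ
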