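import Pool.Agent.H92.SQ.Defs

/-!
# Project SQ (MP_a3214d): a geometric exponential sum
-/

set_option autoImplicit false

namespace Pool.Agent.H92.SQ

theorem geom_bound (q W L : ℕ) (hq : 0 < q) (hW : 0 < W) (a : ℤ)
    (ha : ∀ w : ℤ, (q : ℤ) ∣ a - w → (W : ℤ) < |w|) :
    ‖∑ x ∈ Finset.range L, Complex.exp (2 * Real.pi * Complex.I * ((x : ℂ) * (a : ℂ) / (q : ℂ)))‖ ≤
      (q : ℝ) / (2 * W) := by
  obtain ⟨w, k, hk, hw2⟩ : ∃ w k : ℤ, a - w = q * k ∧ 2 * |w| ≤ q := by
    obtain ⟨k, hk⟩ := Int.dvd_self_sub_bmod (x := a) (m := q)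
    refine ⟨Int.bmod a q, k, hk, ?_⟩
    have h1 := Int.le_bmod (x := a) hq
    have h2 := Int.bmod_lt (x := a) hq
    rcases abs_cases (Int.bmod a q) with ⟨h3, _⟩ | ⟨h3, _⟩ <;> rw [h3] <;> omega
  have hw : (W : ℤ) < |w| := ha w ⟨k, hk⟩
  have hq' : (0 : ℝ) < q := by exact_mod_cast hq
  have hW' : (0 : ℝ) < W := by exact_mod_cast hW
  have hwr : (W : ℝ) < |(w : ℝ)| := by exact_mod_cast hw
  have hw2r : 2 * |(w : ℝ)| ≤ q := by exact_mod_cast hw2
  set θ : ℝ := 2 * Real.pi * (w / q) with hθ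
  set z : ℂ := Complex.exp (Complex.I * θ) with hz
  have hterm : ∀ x : ℕ, Complex.exp (2 * Real.pi * Complex.I * ((x : ℂ) * (a : ℂ) / (q : ℂ)))
      = z ^ x := by
    intro x
    have hqc : (q : ℂ) ≠ 0 := by exact_mod_cast hq.ne'
    have haz : (a : ℂ) = w + q * k := by
      have : a = w + q * k := by linarith
      exact_mod_cast congrArg (Int.cast : ℤ → ℂ) this
    have h1 : 2 * Real.pi * Complex.I * ((x : ℂ) * (a : ℂ) / (q : ℂ))
        = (x : ℂ) * (Complex.I * θ) + ((x * k : ℤ) : ℂ) * (2 * Real.pi * Complex.I) := by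
      rw [haz, hθ]
      push_cast
      field_simp
    rw [h1, Complex.exp_add, Complex.exp_int_mul_two_pi_mul_I, mul_one, hz, ← Complex.exp_nat_mul]
  have hz1 : ‖z‖ = 1 := by
    rw [hz, mul_comm, Complex.norm_exp_ofReal_mul_I]
  have hsub : 4 * W / q ≤ ‖z - 1‖ := by
    rw [hz, Complex.norm_exp_I_mul_ofReal_sub_one, norm_mul, Real.norm_eq_abs, Real.norm_eq_abs,
      abs_two]
    have h2 : |Real.sin (θ / 2)| = Real.sin |θ / 2| := by
      have h3 : |θ / 2| ≤ Real.pi := by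
        rw [hθ, abs_div, abs_two, abs_mul, abs_mul, abs_two, abs_of_pos Real.pi_pos, abs_div,
          abs_of_pos hq']
        have h4 : |(w : ℝ)| / q ≤ 1 := by
          rw [div_le_one hq']
          linarith [abs_nonneg (w : ℝ)]
        nlinarith [Real.pi_pos]
      rcases abs_cases (θ / 2) with ⟨h5, h6⟩ | ⟨h5, h6⟩
      · rw [h5] at h3 ⊢
        exact abs_of_nonneg (Real.sin_nonneg_of_nonneg_of_le_pi h6 h3)
      · rw [h5] at h3 ⊢
        rw [Real.sin_neg]
        apply abs_of_nonpos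
        exact Real.sin_nonpos_of_nonpos_of_neg_pi_le h6.le (by linarith)
    rw [h2]
    have h7 : |θ / 2| = Real.pi * (|(w : ℝ)| / q) := by
      rw [hθ, abs_div, abs_two, abs_mul, abs_mul, abs_two, abs_of_pos Real.pi_pos, abs_div,
        abs_of_pos hq']
      ring
    have h8 : |θ / 2| ≤ Real.pi / 2 := by
      rw [h7]
      have h4 : |(w : ℝ)| / q ≤ 1 / 2 := by
        rw [div_le_div_iff₀ hq' (by norm_num)]
        linarith
      nlinarith [Real.pi_pos]
    have h9 := Real.mul_le_sin (abs_nonneg (θ / 2)) h8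
    have h10 : 2 / Real.pi * |θ / 2| = 2 * |(w : ℝ)| / q := by
      rw [h7]
      field_simp
    rw [h10] at h9
    have h11 : 4 * (W : ℝ) / q ≤ 2 * (2 * |(w : ℝ)| / q) := by
      rw [← mul_div_assoc, div_le_div_iff_of_pos_right hq']
      linarith
    linarith
  have hpos : 0 < 4 * (W : ℝ) / q := by positivity
  have hne : z ≠ 1 := by
    intro h
    rw [h, sub_self, norm_zero] at hsub
    linarith
  rw [Finset.sum_congr rfl fun x _ => hterm x, geom_sum_eq hne, norm_div]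
  have h12 : ‖z ^ L - 1‖ ≤ 2 := by
    refine (norm_sub_le _ _).trans ?_
    rw [norm_pow, hz1, one_pow, norm_one]
    norm_num
  calc ‖z ^ L - 1‖ / ‖z - 1‖ ≤ 2 / (4 * W / q) := by
        apply div_le_div₀ (by norm_num) h12 hpos hsub
    _ = (q : ℝ) / (2 * W) := by
        field_simp
        norm_num

end Pool.Agent.H92.SQ
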