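import Pool.Agent.H92.SQ.Defs
import Pool.Agent.H92.SQ.Geom

/-!
# Project SQ (MP_a3214d), row 13: the character sum inequality
-/

set_option autoImplicit false

open Polynomial

namespace Pool.Agent.H92.SQ

/-- the additive character `e (t / q)` -/
noncomputable def sq13_e (q : ℕ) (t : ℤ) : ℂ :=
  Complex.exp (2 * Real.pi * Complex.I * ((t : ℂ) / (q : ℂ)))

theorem sq13_add (q : ℕ) (s t : ℤ) : sq13_e q (s + t) = sq13_e q s * sq13_e q t := by
  unfold sq13_e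
  rw [← Complex.exp_add]
  congr 1
  push_cast
  ring

theorem sq13_zero (q : ℕ) : sq13_e q 0 = 1 := by
  unfold sq13_e
  simp

theorem sq13_norm (q : ℕ) (t : ℤ) : ‖sq13_e q t‖ = 1 := by
  unfold sq13_e
  have h : 2 * Real.pi * Complex.I * ((t : ℂ) / (q : ℂ)) =
      ((2 * Real.pi * (t / q) : ℝ) : ℂ) * Complex.I := by
    push_cast
    ring
  rw [h, Complex.norm_exp_ofReal_mul_I]

theorem sq13_sum {ι : Type*} (q : ℕ) (S : Finset ι) (f : ι → ℤ) :
    sq13_e q (∑ i ∈ S, f i) = ∏ i ∈ S, sq13_e q (f i) := by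
  classical
  induction S using Finset.induction_on with
  | empty => simp [sq13_zero]
  | insert a S ha ih => rw [Finset.sum_insert ha, Finset.prod_insert ha, sq13_add, ih]

theorem sq13_scale (p : ℕ) (hp : p ≠ 0) (t : ℤ) :
    sq13_e (p ^ 2) ((p : ℤ) * t) = sq13_e p t := by
  unfold sq13_e
  congr 1
  have h : (p : ℂ) ≠ 0 := by exact_mod_cast hp
  push_cast
  field_simp

theorem sq13_orth (q : ℕ) (hq : 0 < q) (E : ℤ) :
    ∑ u ∈ Finset.range q, sq13_e q ((u : ℤ) * E) = if (q : ℤ) ∣ E then (q : ℂ) else 0 := by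
  have hq' : (q : ℂ) ≠ 0 := by exact_mod_cast hq.ne'
  have hpow : ∀ u : ℕ, sq13_e q ((u : ℤ) * E) = (sq13_e q E) ^ u := by
    intro u
    induction u with
    | zero => simp [sq13_zero]
    | succ m ih =>
      rw [pow_succ, ← ih, ← sq13_add]
      congr 1
      push_cast
      ring
  have hper : (sq13_e q E) ^ q = 1 := by
    rw [← hpow]
    unfold sq13_e
    rw [Complex.exp_eq_one_iff]
    refine ⟨E, ?_⟩
    push_cast
    field_simp
  rw [Finset.sum_congr rfl fun u _ => hpow u]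
  split_ifs with h
  · obtain ⟨m, hm⟩ := h
    have h1 : sq13_e q E = 1 := by
      unfold sq13_e
      rw [Complex.exp_eq_one_iff]
      refine ⟨m, ?_⟩
      rw [hm]
      push_cast
      field_simp
    simp [h1]
  · have h1 : sq13_e q E ≠ 1 := by
      intro h1
      unfold sq13_e at h1
      rw [Complex.exp_eq_one_iff] at h1
      obtain ⟨m, hm⟩ := h1
      apply h
      refine ⟨m, ?_⟩
      have h2 : (E : ℂ) / q = m := by
        have h3 : (2 * Real.pi * Complex.I : ℂ) ≠ 0 := Complex.two_pi_I_ne_zero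
        exact mul_left_cancel₀ h3 (by rw [hm]; ring)
      rw [div_eq_iff hq'] at h2
      have h4 : (E : ℂ) = ((q * m : ℤ) : ℂ) := by
        push_cast
        rw [h2, mul_comm]
      exact Int.cast_injective (α := ℂ) h4
    rw [geom_sum_eq h1, hper, sub_self, zero_div]

/-- the indicator function of the two congruences -/
theorem sq13_ind (p : ℕ) (hp : 0 < p) (E F : ℤ) :
    ∑ c ∈ Finset.range (p ^ 2) ×ˢ Finset.range p,
      sq13_e (p ^ 2) ((c.1 : ℤ) * E + (p : ℤ) * ((c.2 : ℤ) * F)) =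
        (p : ℂ) ^ 3 * (if (p : ℤ) ^ 2 ∣ E ∧ (p : ℤ) ∣ F then 1 else 0) := by
  rw [Finset.sum_product]
  have h1 : ∀ u ∈ Finset.range (p ^ 2), ∀ v ∈ Finset.range p,
      sq13_e (p ^ 2) (((u, v).1 : ℤ) * E + (p : ℤ) * (((u, v).2 : ℤ) * F)) =
        sq13_e (p ^ 2) ((u : ℤ) * E) * sq13_e p ((v : ℤ) * F) := by
    intro u _ v _
    rw [sq13_add, sq13_scale p hp.ne']
  rw [Finset.sum_congr rfl fun u hu => Finset.sum_congr rfl fun v hv => h1 u hu v hv]
  rw [← Finset.sum_mul_sum, sq13_orth (p ^ 2) (by positivity), sq13_orth p hp]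
  by_cases hE : (p : ℤ) ^ 2 ∣ E
  · by_cases hF : (p : ℤ) ∣ F
    · rw [if_pos (by push_cast; exact hE), if_pos hF, if_pos ⟨hE, hF⟩]
      push_cast
      ring
    · have hn : ¬ ((p : ℤ) ^ 2 ∣ E ∧ (p : ℤ) ∣ F) := fun h => hF h.2
      rw [if_neg hF, if_neg hn, mul_zero, mul_zero]
  · have hn : ¬ ((p : ℤ) ^ 2 ∣ E ∧ (p : ℤ) ∣ F) := fun h => hE h.1
    have hn' : ¬ (((p ^ 2 : ℕ) : ℤ) ∣ E) := by
      push_cast
      exact hE
    rw [if_neg hn', if_neg hn, zero_mul, mul_zero]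

/-- the sum over all `y` factors -/
theorem sq13_factor (n L a q : ℕ) (w : ℕ → ℤ) :
    ∑ y : Fin a → Fin n → Fin L, sq13_e q (∑ i, ∑ j : Fin n, ((y i j : ℕ) : ℤ) * w j) =
      (∏ j : Fin n, ∑ x ∈ Finset.range L, sq13_e q ((x : ℤ) * w j)) ^ a := by
  have h1 : ∀ y : Fin a → Fin n → Fin L,
      sq13_e q (∑ i, ∑ j : Fin n, ((y i j : ℕ) : ℤ) * w j) =
        ∏ i, ∏ j : Fin n, sq13_e q (((y i j : ℕ) : ℤ) * w j) := by
    intro y
    rw [sq13_sum]
    exact Finset.prod_congr rfl fun i _ => sq13_sum _ _ _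
  rw [Finset.sum_congr rfl fun y _ => h1 y]
  have h2 : ∑ z : Fin n → Fin L, ∏ j : Fin n, sq13_e q (((z j : ℕ) : ℤ) * w j) =
      ∏ j : Fin n, ∑ x ∈ Finset.range L, sq13_e q ((x : ℤ) * w j) := by
    have h3 := Finset.prod_univ_sum (fun _ : Fin n => (Finset.univ : Finset (Fin L)))
      (fun (j : Fin n) (x : Fin L) => sq13_e q (((x : ℕ) : ℤ) * w j))
    rw [Fintype.piFinset_univ] at h3
    rw [← h3]
    refine Finset.prod_congr rfl fun j _ => ?_
    exact Fin.sum_univ_eq_sum_range (fun x : ℕ => sq13_e q ((x : ℤ) * w j)) L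
  rw [← h2]
  have h4 := Finset.prod_univ_sum (fun _ : Fin a => (Finset.univ : Finset (Fin n → Fin L)))
    (fun (_ : Fin a) (z : Fin n → Fin L) => ∏ j : Fin n, sq13_e q (((z j : ℕ) : ℤ) * w j))
  rw [Fintype.piFinset_univ] at h4
  rw [← h4, Finset.prod_const, Finset.card_univ, Fintype.card_fin]

theorem sq13_le (q L : ℕ) (a : ℤ) :
    ‖∑ x ∈ Finset.range L, sq13_e q ((x : ℤ) * a)‖ ≤ L := by
  refine (norm_sum_le _ _).trans ?_
  rw [Finset.sum_congr rfl fun x _ => sq13_norm _ _]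
  simp

theorem sq13_small (q W L : ℕ) (hq : 0 < q) (hW : 0 < W) (a : ℤ)
    (ha : ∀ w : ℤ, (q : ℤ) ∣ a - w → (W : ℤ) < |w|) :
    ‖∑ x ∈ Finset.range L, sq13_e q ((x : ℤ) * a)‖ ≤ (q : ℝ) / (2 * W) := by
  have h := geom_bound q W L hq hW a ha
  have h1 : ∀ x ∈ Finset.range L, sq13_e q ((x : ℤ) * a) =
      Complex.exp (2 * Real.pi * Complex.I * ((x : ℂ) * (a : ℂ) / (q : ℂ))) := by
    intro x _
    unfold sq13_e
    push_cast
    rfl
  rw [Finset.sum_congr rfl h1]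
  exact h

theorem fourier_count (n L a p W : ℕ) (hp : p.Prime) (hW : 0 < W) (r A B : ℤ)
    (hr : ¬ BadR n W p r) :
    (L : ℝ) ^ (n * a) - (p : ℝ) ^ 3 * ((L : ℝ) ^ (n - 1) * ((p : ℝ) ^ 2 / (2 * W))) ^ a ≤
      (p : ℝ) ^ 3 * (Nat.card {y : Fin a → Fin n → Fin L //
        (p : ℤ) ^ 2 ∣ (∑ i, ∑ j : Fin n, ((y i j : ℕ) : ℤ) * r ^ (j : ℕ)) - A ∧
        (p : ℤ) ∣ (∑ i, ∑ j : Fin n, ((y i j : ℕ) : ℤ) * ((j : ℕ) * r ^ ((j : ℕ) - 1))) - B} : ℝ) := by
  classical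
  set bound : ℝ := ((L : ℝ) ^ (n - 1) * ((p : ℝ) ^ 2 / (2 * W))) ^ a with hbound
  set E : (Fin a → Fin n → Fin L) → ℤ :=
    fun y => (∑ i, ∑ j : Fin n, ((y i j : ℕ) : ℤ) * r ^ (j : ℕ)) - A with hE
  set F : (Fin a → Fin n → Fin L) → ℤ :=
    fun y => (∑ i, ∑ j : Fin n, ((y i j : ℕ) : ℤ) * ((j : ℕ) * r ^ ((j : ℕ) - 1))) - B with hF
  let w : ℕ × ℕ → ℕ → ℤ := fun c j =>
    (c.1 : ℤ) * r ^ j + p * (c.2 : ℤ) * (j * r ^ (j - 1))
  let S : ℕ × ℕ → ℂ := fun c =>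
    ∏ j : Fin n, ∑ x ∈ Finset.range L, sq13_e (p ^ 2) ((x : ℤ) * w c j)
  let T : ℕ × ℕ → ℂ := fun c =>
    sq13_e (p ^ 2) (-((c.1 : ℤ) * A + p * ((c.2 : ℤ) * B))) * S c ^ a
  set I := Finset.range (p ^ 2) ×ˢ Finset.range p with hI
  -- the main identity
  have hcard : (Nat.card {y : Fin a → Fin n → Fin L // (p : ℤ) ^ 2 ∣ E y ∧ (p : ℤ) ∣ F y} : ℂ) =
      ∑ y, if (p : ℤ) ^ 2 ∣ E y ∧ (p : ℤ) ∣ F y then (1 : ℂ) else 0 := by
    rw [Nat.card_eq_fintype_card, Fintype.card_subtype, Finset.sum_boole]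
  have hmain : ∑ c ∈ I, T c =
      (p : ℂ) ^ 3 * (Nat.card {y : Fin a → Fin n → Fin L // (p : ℤ) ^ 2 ∣ E y ∧ (p : ℤ) ∣ F y} : ℂ) := by
    rw [hcard, Finset.mul_sum, ← Finset.sum_congr rfl fun y _ => sq13_ind p hp.pos (E y) (F y),
      Finset.sum_comm]
    refine Finset.sum_congr rfl fun c _ => ?_
    show sq13_e (p ^ 2) (-((c.1 : ℤ) * A + p * ((c.2 : ℤ) * B))) * S c ^ a = _
    show _ * (∏ j : Fin n, ∑ x ∈ Finset.range L, sq13_e (p ^ 2) ((x : ℤ) * w c j)) ^ a = _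
    rw [← sq13_factor n L a (p ^ 2) (w c), Finset.mul_sum]
    refine Finset.sum_congr rfl fun y _ => ?_
    rw [← sq13_add]
    congr 1
    simp only [hE, hF, w]
    have h1 : ∀ i : Fin a, ∀ j : Fin n, ((y i j : ℕ) : ℤ) *
        ((c.1 : ℤ) * r ^ (j : ℕ) + p * (c.2 : ℤ) * ((j : ℕ) * r ^ ((j : ℕ) - 1))) =
        (c.1 : ℤ) * (((y i j : ℕ) : ℤ) * r ^ (j : ℕ)) +
          p * (c.2 : ℤ) * (((y i j : ℕ) : ℤ) * ((j : ℕ) * r ^ ((j : ℕ) - 1))) := by
      intro i j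
      ring
    simp only [h1, Finset.sum_add_distrib, ← Finset.mul_sum]
    ring
  -- the trivial character
  have h0 : T (0, 0) = (L : ℂ) ^ (n * a) := by
    show sq13_e (p ^ 2) (-(((0 : ℕ) : ℤ) * A + p * (((0 : ℕ) : ℤ) * B))) * S (0, 0) ^ a = _
    have h1 : S (0, 0) = (L : ℂ) ^ n := by
      show ∏ j : Fin n, ∑ x ∈ Finset.range L, sq13_e (p ^ 2) ((x : ℤ) * w (0, 0) j) = _
      have h2 : ∀ j : Fin n, w (0, 0) j = 0 := by
        intro j
        simp [w]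
      simp only [h2, mul_zero, sq13_zero]
      simp
    rw [h1, ← pow_mul]
    simp [sq13_zero]
  have h0mem : (0, 0) ∈ I := by
    rw [hI, Finset.mem_product]
    exact ⟨Finset.mem_range.mpr (by have := hp.pos; positivity), Finset.mem_range.mpr hp.pos⟩
  -- the nontrivial characters
  have hW' : (0 : ℝ) < W := by exact_mod_cast hW
  have hsm : ∀ c ∈ I.erase (0, 0), ‖T c‖ ≤ bound := by
    intro c hc
    rw [Finset.mem_erase, hI, Finset.mem_product, Finset.mem_range, Finset.mem_range] at hc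
    obtain ⟨hc0, hc1, hc2⟩ := hc
    have hnt : ¬ ((p : ℤ) ^ 2 ∣ (c.1 : ℤ) ∧ (p : ℤ) ∣ (c.2 : ℤ)) := by
      rintro ⟨h1, h2⟩
      apply hc0
      have h3 : p ^ 2 ∣ c.1 := by
        have : ((p ^ 2 : ℕ) : ℤ) ∣ (c.1 : ℤ) := by push_cast; exact h1
        exact Int.natCast_dvd_natCast.mp this
      have h4 : p ∣ c.2 := Int.natCast_dvd_natCast.mp h2
      exact Prod.ext (Nat.eq_zero_of_dvd_of_lt h3 hc1) (Nat.eq_zero_of_dvd_of_lt h4 hc2)
    have hex : ∃ j : Fin n, ∀ w' : ℤ, ((p ^ 2 : ℕ) : ℤ) ∣ w c j - w' → (W : ℤ) < |w'| := by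
      by_contra hcon
      push Not at hcon
      apply hr
      refine ⟨c.1, c.2, hnt, fun j hj => ?_⟩
      obtain ⟨w', h1, h2⟩ := hcon ⟨j, hj⟩
      refine ⟨w', ?_, h2⟩
      push_cast at h1
      exact h1
    obtain ⟨j0, hj0⟩ := hex
    have hS : ‖S c‖ ≤ (L : ℝ) ^ (n - 1) * ((p : ℝ) ^ 2 / (2 * W)) := by
      show ‖∏ j : Fin n, ∑ x ∈ Finset.range L, sq13_e (p ^ 2) ((x : ℤ) * w c j)‖ ≤ _
      rw [norm_prod, ← Finset.mul_prod_erase Finset.univ _ (Finset.mem_univ j0), mul_comm]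
      have h1 := sq13_small (p ^ 2) W L (by have := hp.pos; positivity) hW (w c j0) hj0
      have h2 : ∏ j ∈ Finset.univ.erase j0,
          ‖∑ x ∈ Finset.range L, sq13_e (p ^ 2) ((x : ℤ) * w c j)‖ ≤ (L : ℝ) ^ (n - 1) := by
        calc ∏ j ∈ Finset.univ.erase j0,
              ‖∑ x ∈ Finset.range L, sq13_e (p ^ 2) ((x : ℤ) * w c j)‖
            ≤ ∏ _j ∈ (Finset.univ : Finset (Fin n)).erase j0, (L : ℝ) :=
              Finset.prod_le_prod (fun j _ => norm_nonneg _) (fun j _ => sq13_le _ _ _)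
          _ = (L : ℝ) ^ (n - 1) := by
              rw [Finset.prod_const, Finset.card_erase_of_mem (Finset.mem_univ _),
                Finset.card_univ, Fintype.card_fin]
      push_cast at h1
      exact mul_le_mul h2 h1 (norm_nonneg _) (by positivity)
    show ‖sq13_e (p ^ 2) (-((c.1 : ℤ) * A + p * ((c.2 : ℤ) * B))) * S c ^ a‖ ≤ _
    rw [norm_mul, sq13_norm, one_mul, norm_pow, hbound]
    exact pow_le_pow_left₀ (norm_nonneg _) hS a
  have hbound0 : 0 ≤ bound := by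
    rw [hbound]
    positivity
  have hrest : ‖∑ c ∈ I.erase (0, 0), T c‖ ≤ (p : ℝ) ^ 3 * bound := by
    calc ‖∑ c ∈ I.erase (0, 0), T c‖ ≤ ∑ c ∈ I.erase (0, 0), bound := norm_sum_le_of_le _ hsm
      _ = ((I.erase (0, 0)).card : ℝ) * bound := by rw [Finset.sum_const, nsmul_eq_mul]
      _ ≤ (p : ℝ) ^ 3 * bound := by
          refine mul_le_mul_of_nonneg_right ?_ hbound0
          have h1 : (I.erase (0, 0)).card ≤ p ^ 3 := by
            refine (Finset.card_le_card (Finset.erase_subset _ _)).trans ?_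
            rw [hI, Finset.card_product, Finset.card_range, Finset.card_range]
            exact le_of_eq (by ring)
          exact_mod_cast h1
  have hfin : (L : ℂ) ^ (n * a) - (p : ℂ) ^ 3 *
      (Nat.card {y : Fin a → Fin n → Fin L // (p : ℤ) ^ 2 ∣ E y ∧ (p : ℤ) ∣ F y} : ℂ) =
        - ∑ c ∈ I.erase (0, 0), T c := by
    rw [← hmain, ← Finset.add_sum_erase I T h0mem, h0]
    ring
  have hnorm : ‖(((L : ℝ) ^ (n * a) - (p : ℝ) ^ 3 *
      (Nat.card {y : Fin a → Fin n → Fin L // (p : ℤ) ^ 2 ∣ E y ∧ (p : ℤ) ∣ F y} : ℝ) : ℝ) : ℂ)‖ ≤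
        (p : ℝ) ^ 3 * bound := by
    push_cast
    rw [hfin, norm_neg]
    exact hrest
  rw [Complex.norm_real, Real.norm_eq_abs] at hnorm
  have := le_trans (le_abs_self _) hnorm
  linarith

end Pool.Agent.H92.SQ
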