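import Pool.Agent.H92.SQ.Four

/-!
# Project SQ (MP_a3214d), row SQ-14: points in a box for good residues
-/

set_option autoImplicit false

namespace Pool.Agent.H92.SQ

/-- A residue which is not bad has `W < p²`. -/
theorem sq14_lt {n W p : ℕ} {r : ℤ} (hp : p.Prime) (hr : ¬ BadR n W p r) : W < p ^ 2 := by
  by_contra hcon
  push Not at hcon
  apply hr
  have hp2 : (0 : ℤ) < (p : ℤ) ^ 2 := by
    have : 0 < p := hp.pos
    positivity
  refine ⟨1, 0, ?_, ?_⟩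
  · rintro ⟨h1, -⟩
    have h2 : (p : ℤ) ∣ 1 := (dvd_pow_self (p : ℤ) two_ne_zero).trans h1
    have h3 : p ∣ 1 := by exact_mod_cast h2
    exact hp.one_lt.ne' (Nat.dvd_one.mp h3)
  · intro j _
    refine ⟨r ^ j % (p : ℤ) ^ 2, ?_, ?_⟩
    · have h1 : 1 * r ^ j + (p : ℤ) * 0 * (j * r ^ (j - 1)) - r ^ j % (p : ℤ) ^ 2 =
          r ^ j - r ^ j % (p : ℤ) ^ 2 := by ring
      rw [h1]
      exact Int.dvd_self_sub_emod
    · rw [abs_of_nonneg (Int.emod_nonneg _ hp2.ne')]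
      have h2 := Int.emod_lt_of_pos (r ^ j) hp2
      have h3 : ((p : ℤ) ^ 2) ≤ W := by exact_mod_cast hcon
      exact h2.le.trans h3

/-- Sums of `b + 1` vectors: the fibres have at most `L^(n b)` elements. -/
theorem sq14_fibre (n L b p N : ℕ) (r A B : ℤ) (hN : (b + 1) * L ≤ N) :
    Nat.card {y : Fin (b + 1) → Fin n → Fin L //
        (p : ℤ) ^ 2 ∣ (∑ i, ∑ j : Fin n, ((y i j : ℕ) : ℤ) * r ^ (j : ℕ)) - A ∧
        (p : ℤ) ∣ (∑ i, ∑ j : Fin n, ((y i j : ℕ) : ℤ) * ((j : ℕ) * r ^ ((j : ℕ) - 1))) - B} ≤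
      solCount n N p r A B * L ^ (n * b) := by
  classical
  have hlt : ∀ (y : Fin (b + 1) → Fin n → Fin L) (j : Fin n), ∑ i, (y i j : ℕ) < N := by
    intro y j
    have h1 : ∑ i, ((y i j : ℕ) + 1) ≤ ∑ _i : Fin (b + 1), L :=
      Finset.sum_le_sum fun i _ => (y i j).2
    rw [Finset.sum_add_distrib, Finset.sum_const, Finset.sum_const, Finset.card_univ,
      Fintype.card_fin, smul_eq_mul, smul_eq_mul] at h1
    omega
  let sm : (Fin (b + 1) → Fin n → Fin L) → (Fin n → Fin N) := fun y j => ⟨∑ i, (y i j : ℕ), hlt y j⟩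
  have hsm : ∀ (y : Fin (b + 1) → Fin n → Fin L) (w : ℕ → ℤ),
      ∑ i, ∑ j : Fin n, ((y i j : ℕ) : ℤ) * w j = ∑ j : Fin n, ((sm y j : ℕ) : ℤ) * w j := by
    intro y w
    rw [Finset.sum_comm]
    refine Finset.sum_congr rfl fun j _ => ?_
    rw [← Finset.sum_mul]
    congr 1
    simp only [sm]
    push_cast
    rfl
  let Y := {y : Fin (b + 1) → Fin n → Fin L //
        (p : ℤ) ^ 2 ∣ (∑ i, ∑ j : Fin n, ((y i j : ℕ) : ℤ) * r ^ (j : ℕ)) - A ∧
        (p : ℤ) ∣ (∑ i, ∑ j : Fin n, ((y i j : ℕ) : ℤ) * ((j : ℕ) * r ^ ((j : ℕ) - 1))) - B}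
  let Z := {x : Fin n → Fin N // (p : ℤ) ^ 2 ∣ (∑ j : Fin n, ((x j : ℕ) : ℤ) * r ^ (j : ℕ)) - A ∧
    (p : ℤ) ∣ (∑ j : Fin n, ((x j : ℕ) : ℤ) * ((j : ℕ) * r ^ ((j : ℕ) - 1))) - B}
  let Φ : Y → Z × (Fin b → Fin n → Fin L) := fun y => (⟨sm y.1, by
    have h1 := y.2.1
    have h2 := y.2.2
    rw [hsm y.1 (fun j => r ^ j)] at h1
    rw [hsm y.1 (fun j => (j : ℤ) * r ^ (j - 1))] at h2
    exact ⟨h1, h2⟩⟩, fun i => y.1 i.succ)
  have hinj : Function.Injective Φ := by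
    intro y y' h
    have h1 : sm y.1 = sm y'.1 := congrArg (fun q : Z × (Fin b → Fin n → Fin L) => q.1.1) h
    have h2 : (fun i : Fin b => y.1 i.succ) = fun i => y'.1 i.succ :=
      congrArg (fun q : Z × (Fin b → Fin n → Fin L) => q.2) h
    apply Subtype.ext
    funext i
    refine Fin.cases ?_ (fun i => congrFun h2 i) i
    funext j
    apply Fin.ext
    have h3 := congrArg Fin.val (congrFun h1 j)
    simp only [sm, Fin.sum_univ_succ] at h3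
    have h4 : ∀ i : Fin b, (y.1 i.succ j : ℕ) = y'.1 i.succ j := fun i => by
      rw [congrFun h2 i]
    rw [Finset.sum_congr rfl fun i _ => h4 i] at h3
    exact Nat.add_right_cancel h3
  have hcard := Nat.card_le_card_of_injective Φ hinj
  rw [Nat.card_prod] at hcard
  have h5 : Nat.card (Fin b → Fin n → Fin L) = L ^ (n * b) := by
    rw [Nat.card_eq_fintype_card, Fintype.card_fun, Fintype.card_fun, Fintype.card_fin,
      Fintype.card_fin, Fintype.card_fin, pow_mul]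
  rw [h5] at hcard
  exact hcard

/-- Points in a box with prescribed residues, for a residue which is not bad: a convolution argument.
Sums of `b + 1` points of the small box `[0, L)^n` lie in the box `[0, N)^n`; the character sum
bound for the small box turns into a lower bound for the number of points of the large box. -/
theorem count_good (n E : ℕ) (hn : 1 ≤ n) : ∃ c : ℝ, 0 < c ∧ ∃ h0 : ℕ, ∀ h ≥ h0,
    ∀ p N W : ℕ, p.Prime → 0 < W → p ≤ h ^ E → h * p ^ 2 ≤ W * N → ∀ r A B : ℤ, ¬ BadR n W p r →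
      c * (N : ℝ) ^ n ≤ (p : ℝ) ^ 3 * (solCount n N p r A B : ℝ) := by
  set b : ℕ := 3 * E with hb
  refine ⟨1 / (2 * (2 * ((b : ℝ) + 1)) ^ n), by positivity, 2 * (b + 1) ^ (b + 1), ?_⟩
  intro h hh p N W hp hW hpE hpN r A B hr
  have hWp := sq14_lt hp hr
  have hp0 : 0 < p := hp.pos
  have hhb : b + 1 ≤ h := by
    have h1 : b + 1 ≤ (b + 1) ^ (b + 1) := Nat.le_self_pow (Nat.succ_ne_zero b) _
    omega
  have hh0 : 0 < h := by omega
  have hNh : h < N := by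
    by_contra hcon
    push Not at hcon
    have h1 : W * N < p ^ 2 * h := by
      calc W * N ≤ W * h := Nat.mul_le_mul_left W hcon
        _ < p ^ 2 * h := Nat.mul_lt_mul_of_pos_right hWp hh0
    rw [mul_comm h] at hpN
    omega
  set L : ℕ := N / (b + 1) with hL
  have hb1 : 0 < b + 1 := Nat.succ_pos b
  have hL1 : 1 ≤ L := (Nat.one_le_div_iff hb1).mpr (by omega)
  have hLN : (b + 1) * L ≤ N := Nat.mul_div_le N (b + 1)
  have hNL : N ≤ 2 * (b + 1) * L := by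
    have h1 : N < (b + 1) * (L + 1) := by
      rw [hL]
      exact Nat.lt_mul_div_succ N hb1
    nlinarith
  have h1 := fourier_count n L (b + 1) p W hp hW r A B hr
  have h2 := sq14_fibre n L b p N r A B hLN
  -- real versions
  have hLr : (0 : ℝ) < L := by exact_mod_cast hL1
  have hpr : (0 : ℝ) < p := by exact_mod_cast hp0
  have hWr : (0 : ℝ) < W := by exact_mod_cast hW
  have hhr : (0 : ℝ) < h := by exact_mod_cast hh0
  have hbr : (0 : ℝ) < (b : ℝ) + 1 := by positivity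
  have hNLr : (N : ℝ) ≤ 2 * ((b : ℝ) + 1) * L := by exact_mod_cast hNL
  have hq : (p : ℝ) ^ 2 / (2 * W) ≤ (((b : ℝ) + 1) / h) * L := by
    have h3 : (h : ℝ) * (p : ℝ) ^ 2 ≤ W * N := by exact_mod_cast hpN
    have h4 : (h : ℝ) * (p : ℝ) ^ 2 ≤ W * (2 * ((b : ℝ) + 1) * L) :=
      h3.trans (mul_le_mul_of_nonneg_left hNLr hWr.le)
    rw [div_le_iff₀ (by positivity), div_mul_eq_mul_div, div_mul_eq_mul_div,
      le_div_iff₀ hhr]
    nlinarith
  have hmain : (p : ℝ) ^ 3 * ((L : ℝ) ^ (n - 1) * ((p : ℝ) ^ 2 / (2 * W))) ^ (b + 1) ≤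
      (L : ℝ) ^ (n * (b + 1)) / 2 := by
    have h3 : (L : ℝ) ^ (n - 1) * ((p : ℝ) ^ 2 / (2 * W)) ≤ (((b : ℝ) + 1) / h) * (L : ℝ) ^ n := by
      calc (L : ℝ) ^ (n - 1) * ((p : ℝ) ^ 2 / (2 * W))
          ≤ (L : ℝ) ^ (n - 1) * ((((b : ℝ) + 1) / h) * L) :=
            mul_le_mul_of_nonneg_left hq (by positivity)
        _ = (((b : ℝ) + 1) / h) * ((L : ℝ) ^ (n - 1) * L) := by ring
        _ = _ := by rw [← pow_succ, Nat.sub_add_cancel hn]
    have h4 : ((L : ℝ) ^ (n - 1) * ((p : ℝ) ^ 2 / (2 * W))) ^ (b + 1) ≤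
        ((((b : ℝ) + 1) / h) * (L : ℝ) ^ n) ^ (b + 1) :=
      pow_le_pow_left₀ (by positivity) h3 _
    have h5 : (p : ℝ) ^ 3 ≤ (h : ℝ) ^ b := by
      have h6 : (p : ℝ) ≤ (h : ℝ) ^ E := by exact_mod_cast hpE
      calc (p : ℝ) ^ 3 ≤ ((h : ℝ) ^ E) ^ 3 := pow_le_pow_left₀ hpr.le h6 3
        _ = (h : ℝ) ^ b := by rw [← pow_mul, hb, mul_comm]
    have h7 : (2 : ℝ) * ((b : ℝ) + 1) ^ (b + 1) ≤ h := by exact_mod_cast hh
    calc (p : ℝ) ^ 3 * ((L : ℝ) ^ (n - 1) * ((p : ℝ) ^ 2 / (2 * W))) ^ (b + 1)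
        ≤ (h : ℝ) ^ b * ((((b : ℝ) + 1) / h) * (L : ℝ) ^ n) ^ (b + 1) :=
          mul_le_mul h5 h4 (by positivity) (by positivity)
      _ = ((b : ℝ) + 1) ^ (b + 1) / h * (L : ℝ) ^ (n * (b + 1)) := by
          rw [mul_pow, div_pow, ← pow_mul, pow_succ (h : ℝ) b]
          field_simp
      _ ≤ (1 / 2) * (L : ℝ) ^ (n * (b + 1)) := by
          apply mul_le_mul_of_nonneg_right _ (by positivity)
          rw [div_le_iff₀ hhr]
          linarith
      _ = _ := by ring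
  have h3 : (L : ℝ) ^ (n * (b + 1)) / 2 ≤
      (p : ℝ) ^ 3 * ((solCount n N p r A B : ℝ) * (L : ℝ) ^ (n * b)) := by
    have h4 : (Nat.card {y : Fin (b + 1) → Fin n → Fin L //
        (p : ℤ) ^ 2 ∣ (∑ i, ∑ j : Fin n, ((y i j : ℕ) : ℤ) * r ^ (j : ℕ)) - A ∧
        (p : ℤ) ∣ (∑ i, ∑ j : Fin n, ((y i j : ℕ) : ℤ) * ((j : ℕ) * r ^ ((j : ℕ) - 1))) - B} : ℝ) ≤
        (solCount n N p r A B : ℝ) * (L : ℝ) ^ (n * b) := by exact_mod_cast h2
    have h5 := mul_le_mul_of_nonneg_left h4 (by positivity : (0 : ℝ) ≤ (p : ℝ) ^ 3)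
    linarith
  have h4 : (L : ℝ) ^ n / 2 ≤ (p : ℝ) ^ 3 * (solCount n N p r A B : ℝ) := by
    have h5 : (L : ℝ) ^ (n * (b + 1)) = (L : ℝ) ^ n * (L : ℝ) ^ (n * b) := by
      rw [← pow_add]
      congr 1
      ring
    rw [h5] at h3
    have h6 : (0 : ℝ) < (L : ℝ) ^ (n * b) := by positivity
    have h7 : ((L : ℝ) ^ n / 2) * (L : ℝ) ^ (n * b) ≤
        ((p : ℝ) ^ 3 * (solCount n N p r A B : ℝ)) * (L : ℝ) ^ (n * b) := by
      calc ((L : ℝ) ^ n / 2) * (L : ℝ) ^ (n * b) = (L : ℝ) ^ n * (L : ℝ) ^ (n * b) / 2 := by ring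
        _ ≤ _ := h3
        _ = _ := by ring
    exact le_of_mul_le_mul_right h7 h6
  refine le_trans ?_ h4
  have h5 : (N : ℝ) ^ n ≤ (2 * ((b : ℝ) + 1) * L) ^ n :=
    pow_le_pow_left₀ (Nat.cast_nonneg N) hNLr n
  calc 1 / (2 * (2 * ((b : ℝ) + 1)) ^ n) * (N : ℝ) ^ n
      ≤ 1 / (2 * (2 * ((b : ℝ) + 1)) ^ n) * (2 * ((b : ℝ) + 1) * L) ^ n :=
        mul_le_mul_of_nonneg_left h5 (by positivity)
    _ = (L : ℝ) ^ n / 2 := by
        rw [mul_pow (2 * ((b : ℝ) + 1)) (L : ℝ) n]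
        field_simp

end Pool.Agent.H92.SQ
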