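import Pool.Agent.H92.SQ.Defs

/-!
# Project SQ, row SQ-6: integrality of the coefficients of `f / (X - θ)`
-/

set_option autoImplicit false

open Polynomial

namespace Pool.Agent.H92.SQ

/-- the leading coefficient times a root is integral -/
private theorem sq6_lead {L : Type*} [Field L] {f : L[X]} (hf : ∀ i, IsIntegral ℤ (f.coeff i))
    {θ : L} (h : f.eval θ = 0) : IsIntegral ℤ (f.leadingCoeff * θ) := by
  have hl : f ∈ Polynomial.lifts (algebraMap (integralClosure ℤ L) L) := by
    rw [Polynomial.lifts_iff_coeff_lifts]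
    intro i
    exact ⟨⟨f.coeff i, hf i⟩, rfl⟩
  obtain ⟨p, hp⟩ := (Polynomial.mem_lifts f).1 hl
  have hinj : Function.Injective (algebraMap (integralClosure ℤ L) L) :=
    Subtype.coe_injective
  have h1 : aeval θ p = 0 := by
    rw [aeval_def, ← eval_map, hp, h]
  have h2 := isIntegral_leadingCoeff_smul p θ h1
  have h3 : p.leadingCoeff • θ = f.leadingCoeff * θ := by
    rw [← hp, leadingCoeff_map_of_injective hinj, Algebra.smul_def]
  rw [h3] at h2
  exact isIntegral_trans _ h2

private theorem sq6_div_aux {L : Type*} [Field L] {θ : L} (n : ℕ) : ∀ f : L[X],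
    f.natDegree ≤ n → (∀ i, IsIntegral ℤ (f.coeff i)) → f.eval θ = 0 →
    ∀ i, IsIntegral ℤ ((f /ₘ (X - C θ)).coeff i) := by
  induction n with
  | zero =>
    intro f hn _ h i
    have h1 : f = C (f.coeff 0) := eq_C_of_natDegree_le_zero hn
    have h2 : f = 0 := by
      rw [h1, eval_C] at h
      rw [h1, h, C_0]
    rw [h2, zero_divByMonic, coeff_zero]
    exact isIntegral_zero
  | succ n ih =>
    intro f hn hf h i
    by_cases hdeg : f.natDegree ≤ n
    · exact ih f hdeg hf h i
    have hd : f.natDegree = n + 1 := by omega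
    have hc : IsIntegral ℤ (f.coeff (n + 1) * θ) := by
      have := sq6_lead hf h
      rwa [leadingCoeff, hd] at this
    set c := f.coeff (n + 1) with hcdef
    set f1 : L[X] := f - C c * X ^ n * (X - C θ) with hf1
    have hf1c : ∀ j, f1.coeff j = f.coeff j - (if j = n + 1 then c else 0) +
        (if j = n then c * θ else 0) := by
      intro j
      have h5 : C c * X ^ n * (X - C θ) = C c * X ^ (n + 1) - C (c * θ) * X ^ n := by
        rw [C_mul]; ring
      rw [hf1, h5, coeff_sub, coeff_sub, coeff_C_mul_X_pow, coeff_C_mul_X_pow]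
      ring
    have h1 : f1.natDegree ≤ n := by
      rw [natDegree_le_iff_coeff_eq_zero]
      intro j hj
      rw [hf1c j]
      rcases Nat.eq_or_lt_of_le (Nat.succ_le_of_lt hj) with h6 | h6
      · have h7 : j = n + 1 := h6.symm
        rw [if_pos h7, if_neg (by omega), h7]
        simp [hcdef]
      · rw [if_neg (by omega), if_neg (by omega),
          coeff_eq_zero_of_natDegree_lt (by omega)]
        simp
    have h2 : ∀ j, IsIntegral ℤ (f1.coeff j) := by
      intro j
      rw [hf1c j]
      refine ((hf j).sub ?_).add ?_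
      · split_ifs
        · exact hf (n + 1)
        · exact isIntegral_zero
      · split_ifs
        · exact hc
        · exact isIntegral_zero
    have h3 : f1.eval θ = 0 := by
      rw [hf1, eval_sub, h]
      simp
    have h4 : f /ₘ (X - C θ) = f1 /ₘ (X - C θ) + C c * X ^ n := by
      refine (div_modByMonic_unique _ 0 (monic_X_sub_C θ) ⟨?_, ?_⟩).1
      · have h5 : f1 %ₘ (X - C θ) + (X - C θ) * (f1 /ₘ (X - C θ)) = f1 :=
          modByMonic_add_div f1 (X - C θ)
        have h6 : f1 %ₘ (X - C θ) = 0 := by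
          rw [modByMonic_X_sub_C_eq_C_eval, h3, C_0]
        rw [h6, zero_add] at h5
        rw [zero_add, mul_add, h5, hf1]
        ring
      · rw [degree_zero]
        exact bot_lt_iff_ne_bot.2 (by rw [degree_X_sub_C]; exact WithBot.one_ne_bot)
    rw [h4, coeff_add, coeff_C_mul_X_pow]
    refine (ih f1 h1 h2 h3 i).add ?_
    split_ifs
    · exact hf (n + 1)
    · exact isIntegral_zero

theorem int_div {L : Type*} [Field L] {f : L[X]} (hf : ∀ i, IsIntegral ℤ (f.coeff i)) {θ : L}
    (h : f.eval θ = 0) (i : ℕ) : IsIntegral ℤ ((f /ₘ (X - C θ)).coeff i) :=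
  sq6_div_aux f.natDegree f le_rfl hf h i

private theorem sq6_sub {L : Type*} [Field L] {ι : Type*} [DecidableEq ι] (a : L) (θ : ι → L)
    (T S : Finset ι) : Disjoint T S →
    (∀ i, IsIntegral ℤ ((C a * ∏ i ∈ T ∪ S, (X - C (θ i))).coeff i)) →
    ∀ i, IsIntegral ℤ ((C a * ∏ i ∈ S, (X - C (θ i))).coeff i) := by
  induction T using Finset.induction_on with
  | empty =>
    intro _ h i
    simpa using h i
  | insert j T hj ih =>
    intro hd h
    rw [Finset.disjoint_insert_left] at hd
    refine ih hd.2 ?_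
    have hj2 : j ∉ T ∪ S := by
      rw [Finset.mem_union]
      rintro (h1 | h1)
      · exact hj h1
      · exact hd.1 h1
    have h1 : C a * ∏ i ∈ insert j T ∪ S, (X - C (θ i)) =
        (X - C (θ j)) * (C a * ∏ i ∈ T ∪ S, (X - C (θ i))) := by
      rw [Finset.insert_union, Finset.prod_insert hj2]
      ring
    have h2 : (C a * ∏ i ∈ insert j T ∪ S, (X - C (θ i))).eval (θ j) = 0 := by
      rw [h1, eval_mul]
      simp
    have h3 : (C a * ∏ i ∈ insert j T ∪ S, (X - C (θ i))) /ₘ (X - C (θ j)) =
        C a * ∏ i ∈ T ∪ S, (X - C (θ i)) := by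
      rw [h1]
      exact mul_divByMonic_cancel_left _ (monic_X_sub_C (θ j))
    intro i
    rw [← h3]
    exact int_div h h2 i

theorem int_subset_prod {L : Type*} [Field L] {ι : Type*} [Fintype ι] {f : L[X]}
    (hf : ∀ i, IsIntegral ℤ (f.coeff i)) (a : L) (θ : ι → L)
    (hfac : f = C a * ∏ i, (X - C (θ i))) (S : Finset ι) :
    IsIntegral ℤ (a * ∏ i ∈ S, θ i) := by
  classical
  have h1 := sq6_sub a θ (Finset.univ \ S) S Finset.sdiff_disjoint (by
    rw [Finset.sdiff_union_of_subset (Finset.subset_univ S), ← hfac]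
    exact hf) 0
  rw [coeff_zero_eq_eval_zero, eval_mul, eval_C, eval_prod] at h1
  have h2 : ∏ i ∈ S, (X - C (θ i)).eval 0 = (-1) ^ S.card * ∏ i ∈ S, θ i := by
    rw [← Finset.prod_const, ← Finset.prod_mul_distrib]
    refine Finset.prod_congr rfl fun i _ => ?_
    simp
  rw [h2] at h1
  have h3 : a * ∏ i ∈ S, θ i = (-1) ^ S.card * (a * ((-1) ^ S.card * ∏ i ∈ S, θ i)) := by
    have h4 : ((-1 : L) ^ S.card) * (-1) ^ S.card = 1 := by
      rw [← mul_pow]; simp
    linear_combination (-(a * ∏ i ∈ S, θ i)) * h4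
  rw [h3]
  exact (isIntegral_one.neg.pow _).mul h1

theorem int_pow_prod {L : Type*} [Field L] {ι : Type*} [Fintype ι] {f : L[X]}
    (hf : ∀ i, IsIntegral ℤ (f.coeff i)) (a : L) (θ : ι → L)
    (hfac : f = C a * ∏ i, (X - C (θ i))) (D : ℕ) (e : ι → ℕ) (he : ∀ i, e i ≤ D) :
    IsIntegral ℤ (a ^ D * ∏ i, θ i ^ e i) := by
  classical
  have h1 : a ^ D * ∏ i, θ i ^ e i =
      ∏ d ∈ Finset.range D, (a * ∏ i ∈ Finset.univ.filter (fun i => d < e i), θ i) := by
    rw [Finset.prod_mul_distrib, Finset.prod_const, Finset.card_range]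
    congr 1
    have h2 : ∀ d ∈ Finset.range D, ∏ i ∈ Finset.univ.filter (fun i => d < e i), θ i =
        ∏ i, if d < e i then θ i else 1 := fun d _ => Finset.prod_filter _ _
    rw [Finset.prod_congr rfl h2, Finset.prod_comm]
    refine Finset.prod_congr rfl fun i _ => ?_
    rw [← Finset.prod_filter, Finset.prod_const]
    congr 1
    have h3 : (Finset.range D).filter (fun d => d < e i) = Finset.range (e i) := by
      ext d
      simp only [Finset.mem_filter, Finset.mem_range]
      have := he i
      constructor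
      · rintro ⟨_, h⟩
        exact h
      · intro h
        exact ⟨by omega, h⟩
    rw [h3, Finset.card_range]
  rw [h1]
  exact IsIntegral.prod _ fun d _ => int_subset_prod hf a θ hfac _

end Pool.Agent.H92.SQ
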