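import Pool.Agent.H92.SQ.Class
import Pool.Agent.H92.SQ.Final

/-!
# Project SQ: main theorem
-/

set_option autoImplicit false

open Polynomial IsDedekindDomain NumberField Pool.Agent.H35.AN

namespace Pool.Agent.H92.SQ

theorem main (n : ℕ) (hn : 40000 ≤ n) :
    ∀ᶠ B : ℝ in Filter.atTop,
      B ^ (1 / 2 + 6 / (5 * (n : ℝ))) ≤ (malleCount ℚ n ⊤ B : ℝ) := by
  obtain ⟨c, C, hc, hC, h0, h⟩ := field_count n hn
  exact final_rpow n hn (malleCount ℚ n ⊤) (malle_mono n) c C hc hC h0 h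

theorem main' (n : ℕ) (hn : 40000 ≤ n) :
    ∀ᶠ B : ℝ in Filter.atTop, B ^ (1 / 2 + 6 / (5 * (n : ℝ))) ≤
      ((Nat.card (Quot (fun L L' : {M : IntermediateField ℚ (AlgebraicClosure ℚ) //
          Module.finrank ℚ M = n ∧
          (∃ e : (M →ₐ[ℚ] AlgebraicClosure ℚ) ≃ Fin n, ∀ π : Equiv.Perm (Fin n),
            ∃ σ : AlgebraicClosure ℚ ≃ₐ[ℚ] AlgebraicClosure ℚ,
              ∀ φ : M →ₐ[ℚ] AlgebraicClosure ℚ, e (σ.toAlgHom.comp φ) = π (e φ)) ∧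
          ∃ h : NumberField M, ((|@NumberField.discr M _ h| : ℤ) : ℝ) ≤ B}
        => Nonempty (L.1 ≃ₐ[ℚ] L'.1))) : ℕ) : ℝ) := by
  filter_upwards [main n hn] with B hB
  have gen : ∀ P Q : IntermediateField ℚ (AlgebraicClosure ℚ) → Prop, P = Q →
      Nat.card (Quot (fun L L' : {M // P M} => Nonempty (L.1 ≃ₐ[ℚ] L'.1))) =
        Nat.card (Quot (fun L L' : {M // Q M} => Nonempty (L.1 ≃ₐ[ℚ] L'.1))) := by
    rintro P Q rfl
    rfl
  have hP : ∀ M : IntermediateField ℚ (AlgebraicClosure ℚ),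
      (Module.finrank ℚ M = n ∧
          (∃ e : (M →ₐ[ℚ] AlgebraicClosure ℚ) ≃ Fin n, ∀ π : Equiv.Perm (Fin n),
            ∃ σ : AlgebraicClosure ℚ ≃ₐ[ℚ] AlgebraicClosure ℚ,
              ∀ φ : M →ₐ[ℚ] AlgebraicClosure ℚ, e (σ.toAlgHom.comp φ) = π (e φ)) ∧
          ∃ h : NumberField M, ((|@NumberField.discr M _ h| : ℤ) : ℝ) ≤ B) =
      (Module.finrank ℚ M = n ∧
      (∃ e : (M →ₐ[ℚ] AlgebraicClosure ℚ) ≃ Fin n, ∀ π : Equiv.Perm (Fin n),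
        π ∈ (⊤ : Subgroup (Equiv.Perm (Fin n))) ↔
          ∃ σ : AlgebraicClosure ℚ ≃ₐ[ℚ] AlgebraicClosure ℚ,
          ∀ φ : M →ₐ[ℚ] AlgebraicClosure ℚ, e (σ.toAlgHom.comp φ) = π (e φ)) ∧
      ∃ h : NumberField M,
        ((|@NumberField.discr M _ h| : ℤ) : ℝ) ≤ B * ((|NumberField.discr ℚ| : ℤ) : ℝ) ^ n) := by
    intro M
    have e1 : B * ((|NumberField.discr ℚ| : ℤ) : ℝ) ^ n = B := by
      rw [Rat.numberField_discr]
      simp
    rw [e1]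
    simp only [Subgroup.mem_top, true_iff]
  rw [gen _ _ (funext hP)]
  exact hB

end Pool.Agent.H92.SQ
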