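import Pool.Agent.H92.SQ.Int

/-!
# SQ-23: a lower bound for the product of the conjugates of `G(x, y)`
-/

set_option autoImplicit false

open Polynomial NumberField

namespace Pool.Agent.H92.SQ

/-- the factorization of `f` over `ℂ` by the embeddings of `K = ℚ(x)` -/
private theorem sq23_fac {n : ℕ} {K : Type} [Field K] [NumberField K]
    (hK : Module.finrank ℚ K = n) {f : ℤ[X]} (hf : f.natDegree = n) (hfi : Irreducible (FQ f))
    {x : K} (hx : aeval x f = 0) :
    f.map (Int.castRingHom ℂ) =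
      C (f.leadingCoeff : ℂ) * ∏ φ : K →+* ℂ, (X - C (φ x)) := by
  classical
  have hinj : Function.Injective (Int.castRingHom ℚ) := (Int.castRingHom ℚ).injective_int
  have hx' : aeval x (FQ f) = 0 := by
    unfold FQ
    rw [aeval_def, eval₂_map, ← hx, aeval_def]
    congr 1
    exact RingHom.ext_int _ _
  have hmin : minpoly ℚ x = FQ f * C (FQ f).leadingCoeff⁻¹ :=
    (minpoly.eq_of_irreducible hfi hx').symm
  have hlc : (FQ f).leadingCoeff = (f.leadingCoeff : ℚ) := by
    unfold FQ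
    rw [leadingCoeff_map_of_injective hinj]
    rfl
  have hf0 : f ≠ 0 := by
    rintro rfl
    exact hfi.ne_zero (by unfold FQ; simp)
  have hl0 : (f.leadingCoeff : ℚ) ≠ 0 := by
    exact_mod_cast leadingCoeff_ne_zero.2 hf0
  have hdeg : (minpoly ℚ x).natDegree = n := by
    rw [hmin, hlc, natDegree_mul_C (inv_ne_zero hl0)]
    unfold FQ
    rw [natDegree_map_eq_of_injective hinj, hf]
  set P : ℂ[X] := (minpoly ℚ x).map (algebraMap ℚ ℂ) with hP
  have hPmonic : P.Monic := (minpoly.monic (Algebra.IsIntegral.isIntegral x)).map _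
  have hPsep : P.Separable := (minpoly.irreducible (Algebra.IsIntegral.isIntegral x)).separable.map
  have hPsplit : P.Splits := IsAlgClosed.splits P
  have hPdeg : P.natDegree = n := by rw [hP, natDegree_map, hdeg]
  have hroots : P.roots.toFinset = Finset.univ.image (fun φ : K →+* ℂ => φ x) := by
    ext z
    have h1 := NumberField.Embeddings.range_eval_eq_rootSet_minpoly K ℂ x
    have h2 : z ∈ (minpoly ℚ x).rootSet ℂ ↔ z ∈ P.roots.toFinset := by
      rw [rootSet, aroots_def]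
      simp [hP]
    rw [← h2, ← h1]
    simp
  have hnodup : P.roots.Nodup := nodup_roots hPsep
  have hcardroots : P.roots.toFinset.card = n := by
    rw [Multiset.toFinset_card_of_nodup hnodup, ← hPdeg]
    exact hPsplit.natDegree_eq_card_roots.symm
  have hcardemb : Fintype.card (K →+* ℂ) = n := by
    rw [NumberField.Embeddings.card, hK]
  have hinj2 : Function.Injective (fun φ : K →+* ℂ => φ x) := by
    have h1 : (Finset.univ.image (fun φ : K →+* ℂ => φ x)).card =
        (Finset.univ : Finset (K →+* ℂ)).card := by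
      rw [← hroots, hcardroots, Finset.card_univ, hcardemb]
    have := Finset.card_image_iff.1 h1
    intro a b hab
    exact this (by simp) (by simp) hab
  have hfac : P = ∏ φ : K →+* ℂ, (X - C (φ x)) := by
    have h1 : P = (P.roots.map fun a => X - C a).prod := by
      conv_lhs => rw [hPsplit.eq_prod_roots]
      rw [hPmonic.leadingCoeff, C_1, one_mul]
    rw [h1]
    have h2 : P.roots = P.roots.toFinset.val := by
      rw [Multiset.toFinset_val, hnodup.dedup]
    rw [h2, hroots]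
    change ∏ a ∈ Finset.univ.image (fun φ : K →+* ℂ => φ x), (X - C a) = _
    rw [Finset.prod_image (fun a _ b _ hab => hinj2 hab)]
  have hmap : f.map (Int.castRingHom ℂ) = (FQ f).map (algebraMap ℚ ℂ) := by
    unfold FQ
    rw [Polynomial.map_map]
    congr 1
  have hFQ : FQ f = C (f.leadingCoeff : ℚ) * minpoly ℚ x := by
    rw [hmin, hlc, mul_comm, mul_assoc, ← C_mul, inv_mul_cancel₀ hl0, C_1, mul_one]
  rw [hmap, hFQ, Polynomial.map_mul, map_C, ← hP, hfac]
  simp

private theorem sq23_bev {K : Type*} [CommRing K] (x y : K) {D1 D2 : ℕ} {G : ℤ[X][X]}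
    (hD2 : G.natDegree ≤ D2) (hD1 : ∀ j, (G.coeff j).natDegree ≤ D1) :
    bev x y G = ∑ p ∈ Finset.range (D2 + 1) ×ˢ Finset.range (D1 + 1),
      ((G.coeff p.1).coeff p.2 : K) * x ^ p.2 * y ^ p.1 := by
  unfold bev
  rw [Finset.sum_product, coe_eval₂RingHom, eval₂_eq_sum_range' _ (Nat.lt_succ_of_le hD2)]
  refine Finset.sum_congr rfl fun j _ => ?_
  rw [coe_eval₂RingHom, eval₂_eq_sum_range' _ (Nat.lt_succ_of_le (hD1 j)), Finset.sum_mul]
  rfl

private theorem sq23_hom {K L : Type*} [CommRing K] [CommRing L] (φ : K →+* L) (x y : K)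
    (G : ℤ[X][X]) : φ (bev x y G) = bev (φ x) (φ y) G := by
  have : φ.comp (bev x y) = bev (φ x) (φ y) := by
    refine Polynomial.ringHom_ext' ?_ ?_
    · refine Polynomial.ringHom_ext' (RingHom.ext_int _ _) ?_
      simp [bev]
    · simp [bev]
  exact congrArg (fun ψ : ℤ[X][X] →+* L => ψ G) this

theorem norm_low {n : ℕ} {K : Type} [Field K] [NumberField K] (hK : Module.finrank ℚ K = n)
    {f g : ℤ[X]} (hf : f.natDegree = n) (hg : g.natDegree = n) (hfi : Irreducible (FQ f))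
    (hgi : Irreducible (FQ g)) {x y : K} (hx : aeval x f = 0) (hy : aeval y g = 0) {D1 D2 : ℕ}
    {G : ℤ[X][X]} (hD2 : G.natDegree ≤ D2) (hD1 : ∀ j, (G.coeff j).natDegree ≤ D1)
    (hne : bev x y G ≠ 0) :
    1 ≤ |(f.leadingCoeff : ℝ)| ^ D1 * |(g.leadingCoeff : ℝ)| ^ D2 *
      ∏ φ : K →+* ℂ, ‖φ (bev x y G)‖ := by
  classical
  have hfac1 := sq23_fac hK hf hfi hx
  have hfac2 := sq23_fac hK hg hgi hy
  have hint : ∀ (h : ℤ[X]) (i : ℕ), IsIntegral ℤ ((h.map (Int.castRingHom ℂ)).coeff i) := by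
    intro h i
    rw [coeff_map]
    exact isIntegral_algebraMap (R := ℤ) (A := ℂ) (x := h.coeff i)
  -- the product of the conjugates is the norm
  have hnorm : (algebraMap ℚ ℂ) (Algebra.norm ℚ (bev x y G)) = ∏ φ : K →+* ℂ, φ (bev x y G) := by
    rw [Algebra.norm_eq_prod_embeddings ℚ ℂ (bev x y G)]
    exact (Fintype.prod_equiv (RingHom.equivRatAlgHom K ℂ) _ _
      (fun φ => by simp [RingHom.equivRatAlgHom_apply])).symm
  -- integrality
  have hI : IsIntegral ℤ ((f.leadingCoeff : ℂ) ^ D1 * (g.leadingCoeff : ℂ) ^ D2 *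
      ∏ φ : K →+* ℂ, φ (bev x y G)) := by
    have h1 : ∀ φ : K →+* ℂ, φ (bev x y G) =
        ∑ p ∈ Finset.range (D2 + 1) ×ˢ Finset.range (D1 + 1),
          ((G.coeff p.1).coeff p.2 : ℂ) * (φ x) ^ p.2 * (φ y) ^ p.1 := fun φ => by
      rw [sq23_hom, sq23_bev _ _ hD2 hD1]
    simp only [h1]
    rw [Finset.prod_univ_sum, Finset.mul_sum]
    refine IsIntegral.sum _ fun e he => ?_
    rw [Fintype.mem_piFinset] at he
    have h2 : (f.leadingCoeff : ℂ) ^ D1 * (g.leadingCoeff : ℂ) ^ D2 *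
        ∏ φ : K →+* ℂ, (((G.coeff (e φ).1).coeff (e φ).2 : ℂ) * (φ x) ^ (e φ).2 *
          (φ y) ^ (e φ).1) =
        (∏ φ : K →+* ℂ, ((G.coeff (e φ).1).coeff (e φ).2 : ℂ)) *
          ((f.leadingCoeff : ℂ) ^ D1 * ∏ φ : K →+* ℂ, (φ x) ^ (e φ).2) *
          ((g.leadingCoeff : ℂ) ^ D2 * ∏ φ : K →+* ℂ, (φ y) ^ (e φ).1) := by
      rw [Finset.prod_mul_distrib, Finset.prod_mul_distrib]
      ring
    rw [h2]
    refine IsIntegral.mul (IsIntegral.mul ?_ ?_) ?_
    · refine IsIntegral.prod _ fun φ _ => ?_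
      exact isIntegral_algebraMap (R := ℤ) (A := ℂ) (x := (G.coeff (e φ).1).coeff (e φ).2)
    · refine int_pow_prod (hint f) _ (fun φ : K →+* ℂ => φ x) hfac1 D1 (fun φ => (e φ).2) ?_
      intro φ
      have := Finset.mem_product.1 (he φ)
      exact Nat.lt_succ_iff.1 (Finset.mem_range.1 this.2)
    · refine int_pow_prod (hint g) _ (fun φ : K →+* ℂ => φ y) hfac2 D2 (fun φ => (e φ).1) ?_
      intro φ
      have := Finset.mem_product.1 (he φ)
      exact Nat.lt_succ_iff.1 (Finset.mem_range.1 this.1)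
  set q : ℚ := (f.leadingCoeff : ℚ) ^ D1 * (g.leadingCoeff : ℚ) ^ D2 *
    Algebra.norm ℚ (bev x y G) with hq
  have hqC : (algebraMap ℚ ℂ) q = (f.leadingCoeff : ℂ) ^ D1 * (g.leadingCoeff : ℂ) ^ D2 *
      ∏ φ : K →+* ℂ, φ (bev x y G) := by
    rw [hq, map_mul, hnorm]
    simp
  have hqI : IsIntegral ℤ q := by
    rw [← hqC] at hI
    exact (isIntegral_algebraMap_iff (algebraMap ℚ ℂ).injective).1 hI
  obtain ⟨z, hz⟩ := IsIntegrallyClosed.isIntegral_iff.1 hqI
  have hf0 : (f.leadingCoeff : ℚ) ≠ 0 := by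
    have : f ≠ 0 := by
      rintro rfl
      exact hfi.ne_zero (by unfold FQ; simp)
    exact_mod_cast leadingCoeff_ne_zero.2 this
  have hg0 : (g.leadingCoeff : ℚ) ≠ 0 := by
    have : g ≠ 0 := by
      rintro rfl
      exact hgi.ne_zero (by unfold FQ; simp)
    exact_mod_cast leadingCoeff_ne_zero.2 this
  have hq0 : q ≠ 0 :=
    mul_ne_zero (mul_ne_zero (pow_ne_zero _ hf0) (pow_ne_zero _ hg0))
      (Algebra.norm_ne_zero_iff.2 hne)
  have hz0 : z ≠ 0 := by
    rintro rfl
    apply hq0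
    rw [← hz]
    simp
  have hz1 : (1 : ℝ) ≤ |(z : ℝ)| := by
    exact_mod_cast Int.one_le_abs hz0
  have hnq : ‖(algebraMap ℚ ℂ) q‖ = |(z : ℝ)| := by
    rw [← hz]
    simp
  rw [hqC, norm_mul, norm_mul, norm_pow, norm_pow, norm_prod, Complex.norm_intCast,
    Complex.norm_intCast] at hnq
  rw [hnq]
  exact hz1

end Pool.Agent.H92.SQ
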