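import Pool.Agent.H92.SQ.Defs

/-!
# SQ-24: the pigeonhole construction of the auxiliary polynomial
-/

set_option autoImplicit false

open Polynomial

namespace Pool.Agent.H92.SQ

/-- The polynomial in two variables with the coefficients `d j i`. -/
private noncomputable def sq24_G (D1 D2 : ℕ) (d : ℕ → ℕ → ℤ) : ℤ[X][X] :=
  ∑ j ∈ Finset.range (D2 + 1), C (∑ i ∈ Finset.range (D1 + 1), C (d j i) * X ^ i) * X ^ j

private theorem sq24_coeff (D1 D2 : ℕ) (d : ℕ → ℕ → ℤ) (j : ℕ) :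
    (sq24_G D1 D2 d).coeff j =
      if j ∈ Finset.range (D2 + 1) then ∑ i ∈ Finset.range (D1 + 1), C (d j i) * X ^ i else 0 := by
  unfold sq24_G
  rw [finsetSum_coeff]
  simp only [coeff_C_mul_X_pow]
  rw [Finset.sum_ite_eq]

private theorem sq24_coeff2 (D1 D2 : ℕ) (d : ℕ → ℕ → ℤ) (j i : ℕ) :
    ((sq24_G D1 D2 d).coeff j).coeff i =
      if j ∈ Finset.range (D2 + 1) then (if i ∈ Finset.range (D1 + 1) then d j i else 0)
        else 0 := by
  rw [sq24_coeff]
  split_ifs with h1 h2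
  · rw [finsetSum_coeff]
    simp only [coeff_C_mul_X_pow]
    rw [Finset.sum_ite_eq, if_pos h2]
  · rw [finsetSum_coeff]
    simp only [coeff_C_mul_X_pow]
    rw [Finset.sum_ite_eq, if_neg h2]
  · simp

private theorem sq24_small {D1 D2 A : ℕ} {d : ℕ → ℕ → ℤ}
    (hne : ∃ j ≤ D2, ∃ i ≤ D1, d j i ≠ 0) (hA : ∀ j i, |d j i| ≤ A) :
    Small D1 D2 A (sq24_G D1 D2 d) := by
  refine ⟨?_, ?_, ?_, ?_⟩
  · intro h0
    obtain ⟨j, hj, i, hi, hd⟩ := hne
    apply hd
    have := sq24_coeff2 D1 D2 d j i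
    rw [h0, if_pos (Finset.mem_range.2 (by omega)), if_pos (Finset.mem_range.2 (by omega))] at this
    simpa using this.symm
  · rw [natDegree_le_iff_coeff_eq_zero]
    intro j hj
    rw [sq24_coeff, if_neg (by rw [Finset.mem_range]; omega)]
  · intro j
    rw [natDegree_le_iff_coeff_eq_zero]
    intro i hi
    rw [sq24_coeff2]
    split_ifs with h1 h2
    · rw [Finset.mem_range] at h2; omega
    · rfl
    · rfl
  · intro i j
    rw [sq24_coeff2]
    split_ifs with h1 h2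
    · exact hA j i
    · simp
    · simp

private theorem sq24_bev {K : Type*} [CommRing K] (x y : K) (D1 D2 : ℕ) (d : ℕ → ℕ → ℤ) :
    bev x y (sq24_G D1 D2 d) =
      ∑ j ∈ Finset.range (D2 + 1), ∑ i ∈ Finset.range (D1 + 1), (d j i : K) * x ^ i * y ^ j := by
  unfold bev sq24_G
  simp only [map_sum, map_mul, map_pow, coe_eval₂RingHom, eval₂_C, eval₂_X, Finset.sum_mul]
  simp only [eq_intCast]

private theorem sq24_val (n D1 D2 : ℕ) (A : ℝ) (hA : 0 ≤ A) (e : ℕ → ℕ → ℤ)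
    (he : ∀ j i, |(e j i : ℝ)| ≤ A) (x y : ℝ) (hx : |x| ≤ n + 1) (hy : |y| ≤ n + 1) :
    |∑ j ∈ Finset.range (D2 + 1), ∑ i ∈ Finset.range (D1 + 1), (e j i : ℝ) * x ^ i * y ^ j| ≤
      ((D1 + 1) * (D2 + 1) * (n + 1) ^ (D1 + D2)) * A := by
  have hn1 : (1 : ℝ) ≤ (n : ℝ) + 1 := by
    have : (0 : ℝ) ≤ n := Nat.cast_nonneg n
    linarith
  have hterm : ∀ j ∈ Finset.range (D2 + 1), ∀ i ∈ Finset.range (D1 + 1),
      |(e j i : ℝ) * x ^ i * y ^ j| ≤ (n + 1 : ℝ) ^ (D1 + D2) * A := by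
    intro j hj i hi
    rw [Finset.mem_range] at hj hi
    rw [abs_mul, abs_mul, abs_pow, abs_pow]
    have h1 : |x| ^ i ≤ (n + 1 : ℝ) ^ D1 :=
      (pow_le_pow_left₀ (abs_nonneg _) hx i).trans (pow_le_pow_right₀ hn1 (by omega))
    have h2 : |y| ^ j ≤ (n + 1 : ℝ) ^ D2 :=
      (pow_le_pow_left₀ (abs_nonneg _) hy j).trans (pow_le_pow_right₀ hn1 (by omega))
    calc |(e j i : ℝ)| * |x| ^ i * |y| ^ j ≤ A * (n + 1 : ℝ) ^ D1 * (n + 1 : ℝ) ^ D2 := by
          gcongr
          exact he j i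
      _ = (n + 1 : ℝ) ^ (D1 + D2) * A := by ring
  calc _ ≤ ∑ j ∈ Finset.range (D2 + 1), ∑ i ∈ Finset.range (D1 + 1),
        |(e j i : ℝ) * x ^ i * y ^ j| :=
        (Finset.abs_sum_le_sum_abs _ _).trans
          (Finset.sum_le_sum fun j _ => Finset.abs_sum_le_sum_abs _ _)
    _ ≤ ∑ j ∈ Finset.range (D2 + 1), ∑ i ∈ Finset.range (D1 + 1),
        (n + 1 : ℝ) ^ (D1 + D2) * A :=
        Finset.sum_le_sum fun j hj => Finset.sum_le_sum fun i hi => hterm j hj i hi
    _ = _ := by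
        simp only [Finset.sum_const, Finset.card_range, nsmul_eq_mul]
        push_cast
        ring

theorem siegel_box (n D1 D2 a : ℕ) (hn : 1 ≤ n)
    (ha : n * (a + 2) + 500 * (D1 + D2) ≤ (D1 + 1) * (D2 + 1) * a) :
    ∃ h0 : ℕ, ∀ h ≥ h0, ∀ (ι : Type) [Fintype ι], Fintype.card ι = n → ∀ ξ η : ι → ℝ,
      (∀ i, |ξ i| ≤ n + 1) → (∀ i, |η i| ≤ n + 1) → ∃ G : ℤ[X][X], Small D1 D2 (h ^ a) G ∧
        (8 * (h : ℝ) ^ 500) ^ (D1 + D2) * ∏ i, |bev (ξ i) (η i) G| < 1 := by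
  classical
  set m : ℕ := 500 * (D1 + D2) / n with hm
  set C1 : ℕ := (D1 + 1) * (D2 + 1) * (n + 1) ^ (D1 + D2) + 1 with hC1
  refine ⟨8 ^ (D1 + D2) * (2 * C1) ^ n + 1, ?_⟩
  intro h hh ι _ hcard ξ η hξ hη
  have hh1 : 1 ≤ h := by omega
  have hh0 : (0 : ℝ) < h := by exact_mod_cast hh1
  set R : ℕ := h ^ (a + 1 + m) with hR
  have hR0 : 0 < R := Nat.pow_pos hh1
  have hRr : (0 : ℝ) < R := by exact_mod_cast hR0
  set B : ℝ := C1 * (h : ℝ) ^ a with hB
  have hC10 : (0 : ℝ) < C1 := by rw [hC1]; positivity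
  have hB0 : 0 < B := by positivity
  -- the coefficient families
  let X0 := Fin (D2 + 1) → Fin (D1 + 1) → Fin (h ^ a + 1)
  let co : X0 → ℕ → ℕ → ℤ := fun c j i =>
    if hj : j < D2 + 1 then (if hi : i < D1 + 1 then ((c ⟨j, hj⟩ ⟨i, hi⟩ : ℕ) : ℤ) else 0) else 0
  have hco0 : ∀ c j i, 0 ≤ co c j i := by
    intro c j i
    simp only [co]
    split_ifs <;> positivity
  have hco1 : ∀ c j i, co c j i ≤ (h : ℤ) ^ a := by
    intro c j i
    simp only [co]
    split_ifs with h1 h2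
    · have := (c ⟨j, h1⟩ ⟨i, h2⟩).2
      exact_mod_cast Nat.lt_succ_iff.1 this
    · positivity
    · positivity
  let v : X0 → ι → ℝ := fun c t =>
    ∑ j ∈ Finset.range (D2 + 1), ∑ i ∈ Finset.range (D1 + 1),
      (co c j i : ℝ) * ξ t ^ i * η t ^ j
  have hv : ∀ c t, |v c t| < B := by
    intro c t
    have h1 := sq24_val n D1 D2 ((h : ℝ) ^ a) (by positivity) (co c) (by
      intro j i
      rw [abs_of_nonneg (by exact_mod_cast hco0 c j i)]
      exact_mod_cast hco1 c j i) (ξ t) (η t) (hξ t) (hη t)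
    refine lt_of_le_of_lt h1 ?_
    rw [hB, hC1]
    push_cast
    have h2 : (0 : ℝ) < (h : ℝ) ^ a := by positivity
    nlinarith
  let cell : X0 → ι → ℕ := fun c t => ⌊(v c t + B) * R / (2 * B)⌋₊
  have hcell : ∀ c t, cell c t < R := by
    intro c t
    have h1 := abs_lt.1 (hv c t)
    have h2 : 0 ≤ (v c t + B) * R / (2 * B) := by
      have : 0 ≤ v c t + B := by linarith [h1.1]
      positivity
    have h3 : (v c t + B) * R / (2 * B) < R := by
      rw [div_lt_iff₀ (by positivity)]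
      have : v c t + B < 2 * B := by linarith [h1.2]
      nlinarith
    exact (Nat.floor_lt h2).2 h3
  let F : X0 → (ι → Fin R) := fun c t => ⟨cell c t, hcell c t⟩
  have hcardlt : Fintype.card (ι → Fin R) < Fintype.card X0 := by
    have e1 : Fintype.card (ι → Fin R) = R ^ n := by
      rw [Fintype.card_fun, Fintype.card_fin, hcard]
    have e2 : Fintype.card X0 = (h ^ a + 1) ^ ((D1 + 1) * (D2 + 1)) := by
      simp only [X0, Fintype.card_fun, Fintype.card_fin]
      rw [← pow_mul]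
    rw [e1, e2, hR, ← pow_mul]
    have h4 : (a + 1 + m) * n ≤ a * ((D1 + 1) * (D2 + 1)) := by
      have h5 : m * n ≤ 500 * (D1 + D2) := by rw [hm]; exact Nat.div_mul_le_self _ _
      nlinarith
    calc h ^ ((a + 1 + m) * n) ≤ h ^ (a * ((D1 + 1) * (D2 + 1))) := Nat.pow_le_pow_right hh1 h4
      _ = (h ^ a) ^ ((D1 + 1) * (D2 + 1)) := by rw [pow_mul]
      _ < (h ^ a + 1) ^ ((D1 + 1) * (D2 + 1)) :=
        Nat.pow_lt_pow_left (Nat.lt_succ_self _) (by positivity)
  obtain ⟨c, c', hcc, hF⟩ := Fintype.exists_ne_map_eq_of_card_lt F hcardlt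
  have hdiff : ∀ t, |v c t - v c' t| ≤ 2 * B / R := by
    intro t
    have h1 : cell c t = cell c' t := by
      have := congrFun hF t
      exact congrArg Fin.val this
    have hb1 := abs_lt.1 (hv c t)
    have hb2 := abs_lt.1 (hv c' t)
    have p1 : 0 ≤ (v c t + B) * R / (2 * B) := by
      have : 0 ≤ v c t + B := by linarith [hb1.1]
      positivity
    have p2 : 0 ≤ (v c' t + B) * R / (2 * B) := by
      have : 0 ≤ v c' t + B := by linarith [hb2.1]
      positivity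
    have f1 := Nat.floor_le p1
    have f2 := Nat.floor_le p2
    have g1 := Nat.lt_floor_add_one ((v c t + B) * R / (2 * B))
    have g2 := Nat.lt_floor_add_one ((v c' t + B) * R / (2 * B))
    have h2 : (⌊(v c t + B) * R / (2 * B)⌋₊ : ℝ) = ⌊(v c' t + B) * R / (2 * B)⌋₊ := by
      exact_mod_cast h1
    have h3 : |(v c t + B) * R / (2 * B) - (v c' t + B) * R / (2 * B)| ≤ 1 := by
      rw [abs_le]
      constructor <;> linarith
    have h4 : (v c t + B) * R / (2 * B) - (v c' t + B) * R / (2 * B) =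
        (v c t - v c' t) * (R / (2 * B)) := by ring
    rw [h4, abs_mul, abs_of_pos (show (0 : ℝ) < R / (2 * B) by positivity)] at h3
    rw [le_div_iff₀ hRr]
    have h5 : |v c t - v c' t| * (R / (2 * B)) * (2 * B) = |v c t - v c' t| * R := by
      field_simp
    nlinarith
  let d : ℕ → ℕ → ℤ := fun j i => co c j i - co c' j i
  have hdA : ∀ j i, |d j i| ≤ ((h ^ a : ℕ) : ℤ) := by
    intro j i
    rw [abs_le]
    have := hco0 c j i
    have := hco0 c' j i
    have := hco1 c j i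
    have := hco1 c' j i
    push_cast
    simp only [d]
    constructor <;> linarith
  have hdne : ∃ j ≤ D2, ∃ i ≤ D1, d j i ≠ 0 := by
    by_contra hcon
    push Not at hcon
    apply hcc
    funext j i
    have := hcon j.1 (Nat.lt_succ_iff.1 j.2) i.1 (Nat.lt_succ_iff.1 i.2)
    simp only [d, co, j.2, i.2, dif_pos] at this
    apply Fin.ext
    have h2 : ((c j i : ℕ) : ℤ) = ((c' j i : ℕ) : ℤ) := by linarith
    exact_mod_cast h2
  refine ⟨sq24_G D1 D2 d, sq24_small hdne hdA, ?_⟩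
  have hval : ∀ t, bev (ξ t) (η t) (sq24_G D1 D2 d) = v c t - v c' t := by
    intro t
    rw [sq24_bev]
    simp only [v, d, ← Finset.sum_sub_distrib]
    refine Finset.sum_congr rfl fun j _ => Finset.sum_congr rfl fun i _ => ?_
    push_cast
    ring
  have hprod : ∏ t, |bev (ξ t) (η t) (sq24_G D1 D2 d)| ≤ (2 * B / R) ^ n := by
    calc ∏ t, |bev (ξ t) (η t) (sq24_G D1 D2 d)| ≤ ∏ _t : ι, (2 * B / R) := by
          refine Finset.prod_le_prod (fun t _ => abs_nonneg _) fun t _ => ?_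
          rw [hval]
          exact hdiff t
      _ = (2 * B / R) ^ n := by rw [Finset.prod_const, Finset.card_univ, hcard]
  have hBR : 2 * B / R = 2 * C1 / (h : ℝ) ^ (1 + m) := by
    rw [hB, hR]
    push_cast
    rw [div_eq_div_iff (by positivity) (by positivity)]
    ring
  have hexp : 500 * (D1 + D2) + 1 ≤ (1 + m) * n := by
    have h1 := Nat.lt_div_mul_add (a := 500 * (D1 + D2)) (b := n) (by omega)
    rw [← hm] at h1
    nlinarith
  have hh1r : (1 : ℝ) ≤ h := by exact_mod_cast hh1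
  calc (8 * (h : ℝ) ^ 500) ^ (D1 + D2) * ∏ i, |bev (ξ i) (η i) (sq24_G D1 D2 d)|
      ≤ (8 * (h : ℝ) ^ 500) ^ (D1 + D2) * (2 * B / R) ^ n := by gcongr
    _ = (8 ^ (D1 + D2) * (2 * C1) ^ n) * ((h : ℝ) ^ (500 * (D1 + D2)) / (h : ℝ) ^ ((1 + m) * n)) := by
        rw [hBR, div_pow, ← pow_mul, mul_pow, ← pow_mul]
        ring
    _ ≤ (8 ^ (D1 + D2) * (2 * C1) ^ n) * (1 / h) := by
        refine mul_le_mul_of_nonneg_left ?_ (by positivity)
        rw [div_le_div_iff₀ (by positivity) hh0, one_mul, ← pow_succ]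
        exact pow_le_pow_right₀ hh1r hexp
    _ < 1 := by
        rw [mul_one_div, div_lt_one hh0]
        have : ((8 ^ (D1 + D2) * (2 * C1) ^ n + 1 : ℕ) : ℝ) ≤ h := by exact_mod_cast hh
        push_cast at this
        linarith

end Pool.Agent.H92.SQ
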