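import Pool.Agent.H92.SQ.Norm
import Pool.Agent.H92.SQ.Siegel

/-!
# Project SQ, row SQ-25: a relation with small coefficients between two generators
-/

set_option autoImplicit false

open Polynomial

namespace Pool.Agent.H92.SQ

/-- Ring homomorphisms commute with the evaluation of a polynomial in two variables. -/
theorem sq25_bev_map {K L : Type*} [CommRing K] [CommRing L] (φ : K →+* L) (x y : K)
    (G : ℤ[X][X]) : φ (bev x y G) = bev (φ x) (φ y) G := by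
  have h : (φ.comp (bev x y)) = bev (φ x) (φ y) := by
    apply Polynomial.ringHom_ext'
    · apply Polynomial.ringHom_ext'
      · exact RingHom.ext_int _ _
      · simp [bev]
    · simp [bev]
  exact congrArg (fun ψ : ℤ[X][X] →+* L => ψ G) h

/-- SQ-25 -/
theorem siegel_rel (n D1 D2 a : ℕ) (hn : 1 ≤ n)
    (ha : n * (a + 2) + 500 * (D1 + D2) ≤ (D1 + 1) * (D2 + 1) * a) :
    ∃ h0 : ℕ, ∀ h ≥ h0, ∀ (K : Type) [Field K] [NumberField K] (f g : ℤ[X]) (x y : K),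
      Module.finrank ℚ K = n → f.natDegree = n → g.natDegree = n → Irreducible (FQ f) →
      Irreducible (FQ g) → |f.leadingCoeff| ≤ 8 * (h : ℤ) ^ 500 →
      |g.leadingCoeff| ≤ 8 * (h : ℤ) ^ 500 → aeval x f = 0 → aeval y g = 0 →
      (∀ φ : K →+* ℂ, ∃ ξ : ℝ, |ξ| ≤ n + 1 ∧ φ x = (ξ : ℂ)) →
      (∀ φ : K →+* ℂ, ∃ ξ : ℝ, |ξ| ≤ n + 1 ∧ φ y = (ξ : ℂ)) →
      ∃ G : ℤ[X][X], Small D1 D2 (h ^ a) G ∧ bev x y G = 0 := by
  classical
  obtain ⟨h0, hbox⟩ := siegel_box n D1 D2 a hn ha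
  refine ⟨h0, fun h hh K _ _ f g x y hK hf hg hfi hgi hlf hlg hx hy hξ hη => ?_⟩
  choose ξ hξ1 hξ2 using hξ
  choose η hη1 hη2 using hη
  have hcard : Fintype.card (K →+* ℂ) = n := by
    rw [NumberField.Embeddings.card K ℂ, hK]
  obtain ⟨G, hG, hlt⟩ := hbox h hh (K →+* ℂ) hcard ξ η hξ1 hη1
  refine ⟨G, hG, ?_⟩
  by_contra hne
  have h1 := norm_low hK hf hg hfi hgi hx hy hG.degY hG.degX hne
  have h2 : ∀ φ : K →+* ℂ, ‖φ (bev x y G)‖ = |bev (ξ φ) (η φ) G| := by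
    intro φ
    rw [sq25_bev_map, hξ2, hη2]
    have h3 := sq25_bev_map Complex.ofRealHom (ξ φ) (η φ) G
    simp only [Complex.ofRealHom_eq_coe] at h3
    rw [← h3, Complex.norm_real, Real.norm_eq_abs]
  rw [Finset.prod_congr rfl fun φ _ => h2 φ] at h1
  have hlf' : |(f.leadingCoeff : ℝ)| ≤ 8 * (h : ℝ) ^ 500 := by exact_mod_cast hlf
  have hlg' : |(g.leadingCoeff : ℝ)| ≤ 8 * (h : ℝ) ^ 500 := by exact_mod_cast hlg
  have hP : 0 ≤ ∏ φ : K →+* ℂ, |bev (ξ φ) (η φ) G| := Finset.prod_nonneg fun _ _ => abs_nonneg _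
  have h4 : |(f.leadingCoeff : ℝ)| ^ D1 * |(g.leadingCoeff : ℝ)| ^ D2 ≤
      (8 * (h : ℝ) ^ 500) ^ (D1 + D2) := by
    rw [pow_add]
    exact mul_le_mul (pow_le_pow_left₀ (abs_nonneg _) hlf' _)
      (pow_le_pow_left₀ (abs_nonneg _) hlg' _) (by positivity) (by positivity)
  have h5 := mul_le_mul_of_nonneg_right h4 hP
  linarith

end Pool.Agent.H92.SQ
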