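import Pool.Agent.H92.SQ.Defs
import Mathlib.RingTheory.Polynomial.Resultant.Basic
import Mathlib.RingTheory.Polynomial.GaussLemma

/-!
# Project SQ, row SQ-27: two independent relations leave boundedly many values
-/

set_option autoImplicit false

open Polynomial

namespace Pool.Agent.H92.SQ

/-- The resultant of an irreducible polynomial and a nonzero polynomial of smaller degree. -/
theorem sq27_resultant_ne {F G : ℤ[X][X]} (hF : Irreducible F) (hF1 : 1 ≤ F.natDegree)
    (hG : G ≠ 0) (hlt : G.natDegree < F.natDegree) : F.resultant G ≠ 0 := by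
  classical
  set φ : ℤ[X] →+* FractionRing ℤ[X] := algebraMap ℤ[X] (FractionRing ℤ[X]) with hφ
  have hinj : Function.Injective φ := IsFractionRing.injective ℤ[X] (FractionRing ℤ[X])
  have hprim : F.IsPrimitive := hF.isPrimitive (by omega)
  have hirr : Irreducible (F.map φ) :=
    (hprim.irreducible_iff_irreducible_map_fraction_map (K := FractionRing ℤ[X])).1 hF
  have hdF : (F.map φ).natDegree = F.natDegree := natDegree_map_eq_of_injective hinj F
  have hdG : (G.map φ).natDegree = G.natDegree := natDegree_map_eq_of_injective hinj G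
  have hG0 : G.map φ ≠ 0 := (Polynomial.map_ne_zero_iff hinj).2 hG
  have hcop : IsCoprime (F.map φ) (G.map φ) := by
    rw [hirr.coprime_iff_not_dvd]
    intro hdvd
    have := natDegree_le_of_dvd hdvd hG0
    omega
  have h1 : (F.map φ).resultant (G.map φ) ≠ 0 := by
    intro h0
    rw [resultant_eq_zero_iff] at h0
    exact h0.2 hcop
  intro h0
  apply h1
  have h2 : (F.map φ).resultant (G.map φ) = φ (F.resultant G) := by
    have h3 := resultant_map_map F G F.natDegree G.natDegree φ
    rw [← h3, hdF, hdG]
  rw [h2, h0, map_zero]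

/-- The degree of a determinant of polynomials. -/
theorem sq27_natDegree_det {N D : ℕ} (A : Matrix (Fin N) (Fin N) ℤ[X])
    (hA : ∀ i j, (A i j).natDegree ≤ D) : A.det.natDegree ≤ N * D := by
  classical
  rw [Matrix.det_apply]
  refine natDegree_sum_le_of_forall_le _ _ fun σ _ => ?_
  refine (natDegree_smul_le _ _).trans ?_
  refine (natDegree_prod_le _ _).trans ?_
  calc ∑ i : Fin N, (A (σ i) i).natDegree ≤ ∑ _i : Fin N, D := Finset.sum_le_sum fun i _ => hA _ _
    _ = N * D := by simp

/-- SQ-27 -/
theorem res_count (d D : ℕ) : ∃ C : ℕ, ∀ F G : ℤ[X][X], Irreducible F → 1 ≤ F.natDegree →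
    F.natDegree ≤ d → (∀ j, (F.coeff j).natDegree ≤ D) → G ≠ 0 → G.natDegree < F.natDegree →
    (∀ j, (G.coeff j).natDegree ≤ D) →
    ∃ S : Finset ℝ, S.card ≤ C ∧ ∀ x y : ℝ, bev x y F = 0 → bev x y G = 0 → x ∈ S := by
  classical
  refine ⟨(d + d) * D, fun F G hF hF1 hFd hFD hG hlt hGD => ?_⟩
  have hR := sq27_resultant_ne hF hF1 hG hlt
  have hdeg : (F.resultant G).natDegree ≤ (F.natDegree + G.natDegree) * D := by
    unfold resultant
    refine sq27_natDegree_det _ fun i j => ?_
    unfold sylvester
    induction j using Fin.addCases with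
    | left j =>
      simp only [Matrix.of_apply, Fin.addCases_left]
      split_ifs
      · exact hGD _
      · simp
    | right j =>
      simp only [Matrix.of_apply, Fin.addCases_right]
      split_ifs
      · exact hFD _
      · simp
  have hinj : Function.Injective (Int.castRingHom ℝ) := Int.cast_injective
  refine ⟨((F.resultant G).map (Int.castRingHom ℝ)).roots.toFinset, ?_, ?_⟩
  · refine (Multiset.toFinset_card_le _).trans ?_
    refine (card_roots' _).trans ?_
    rw [natDegree_map_eq_of_injective hinj]
    refine hdeg.trans (Nat.mul_le_mul_right _ (by omega))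
  · intro x y hx hy
    obtain ⟨p, q, -, -, hpq⟩ := exists_mul_add_mul_eq_C_resultant (m := F.natDegree)
      (n := G.natDegree) F G le_rfl le_rfl (Or.inl (by omega))
    have h1 : bev x y (C (F.resultant G)) = 0 := by
      rw [← hpq, map_add, map_mul, map_mul, hx, hy, zero_mul, zero_mul, add_zero]
    have h2 : bev x y (C (F.resultant G)) = (F.resultant G).eval₂ (Int.castRingHom ℝ) x := by
      simp [bev]
    rw [Multiset.mem_toFinset, mem_roots ((Polynomial.map_ne_zero_iff hinj).2 hR), IsRoot.def,
      eval_map, ← h2, h1]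

end Pool.Agent.H92.SQ
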